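import Mathlib

/-!
Three-colourings of affine spaces over prime fields whose stabilizers are 2-groups.
-/

namespace V1130.ThreeCol

open Equiv

/-- a path automorphism is an involution -/
theorem path_lemma (f : ℕ → ℕ) (m : ℕ) (hf : ∀ a ≤ m, f a ≤ m)
    (hinj : ∀ a ≤ m, ∀ b ≤ m, f a = f b → a = b)
    (hadj : ∀ a < m, f (a + 1) = f a + 1 ∨ f a = f (a + 1) + 1) :
    ∀ a ≤ m, f (f a) = a := by
  rcases Nat.eq_zero_or_pos m with rfl | hm
  · intro a ha
    have h0 : a = 0 := by omega
    have h1 := hf 0 le_rfl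
    subst h0
    have h2 : f 0 = 0 := by omega
    rw [h2, h2]
  rcases hadj 0 hm with h | h
  · have step : ∀ a < m, f (a + 1) = f a + 1 := by
      intro a
      induction a with
      | zero => intro _; exact h
      | succ a ih =>
        intro ha
        rcases hadj (a + 1) ha with h1 | h1
        · exact h1
        · have h2 := ih (by omega)
          have h3 := hinj (a + 1 + 1) (by omega) a (by omega) (by omega)
          omega
    have val : ∀ a ≤ m, f a = f 0 + a := by
      intro a
      induction a with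
      | zero => intro _; rfl
      | succ a ih =>
        intro ha
        rw [step a (by omega), ih (by omega)]; ring
    have h0 : f 0 = 0 := by
      have h1 := val m le_rfl
      have h2 := hf m le_rfl
      omega
    intro a ha
    have h1 := val a ha
    rw [h0, zero_add] at h1
    rw [h1, h1]
  · have step : ∀ a < m, f a = f (a + 1) + 1 := by
      intro a
      induction a with
      | zero => intro _; exact h
      | succ a ih =>
        intro ha
        rcases hadj (a + 1) ha with h1 | h1
        · have h2 := ih (by omega)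
          have h3 := hinj (a + 1 + 1) (by omega) a (by omega) (by omega)
          omega
        · exact h1
    have val : ∀ a ≤ m, f a + a = f 0 := by
      intro a
      induction a with
      | zero => intro _; rfl
      | succ a ih =>
        intro ha
        have h1 := step a (by omega)
        have h2 := ih (by omega)
        omega
    have h0 : f 0 = m := by
      have h1 := val m le_rfl
      have h2 := hf 0 (by omega)
      omega
    intro a ha
    have h1 := val a ha
    have h2 := val (f a) (hf a ha)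
    omega

theorem interval_lemma {n l : ℕ} (hl : 2 ≤ l) (hln : l ≤ n) (hn : 2 * l ≤ n + 2)
    (π : Perm (Fin n))
    (h : ∀ a, a + l ≤ n → ∃ a', a' + l ≤ n ∧ ∀ x : Fin n,
      (a ≤ (x : ℕ) ∧ (x : ℕ) < a + l) ↔ (a' ≤ (π x : ℕ) ∧ (π x : ℕ) < a' + l)) (x : Fin n) :
    π (π (π (π x))) = x := by
  have h' : ∀ a, ∃ a', a + l ≤ n → (a' + l ≤ n ∧ ∀ x : Fin n,
      (a ≤ (x : ℕ) ∧ (x : ℕ) < a + l) ↔ (a' ≤ (π x : ℕ) ∧ (π x : ℕ) < a' + l)) := by
    intro a
    by_cases ha : a + l ≤ n
    · obtain ⟨a', h1⟩ := h a ha
      exact ⟨a', fun _ => h1⟩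
    · exact ⟨0, fun h1 => absurd h1 ha⟩
  choose f hf using h'
  have hff : ∀ a ≤ n - l, f (f a) = a := by
    apply path_lemma f (n - l)
    · intro a ha
      have := (hf a (by omega)).1
      omega
    · intro a ha b hb hab
      have h1 := (hf a (by omega)).2
      have h2 := (hf b (by omega)).2
      rw [hab] at h1
      have h3 := (h2 ⟨a, by omega⟩).2 ((h1 ⟨a, by omega⟩).1 ⟨le_rfl, by simp; omega⟩)
      have h4 := (h1 ⟨b, by omega⟩).2 ((h2 ⟨b, by omega⟩).1 ⟨le_rfl, by simp; omega⟩)
      simp only at h3 h4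
      omega
    · intro a ha
      have h1 := (hf a (by omega)).2
      have h2 := (hf (a + 1) (by omega)).2
      have h1' := (hf a (by omega)).1
      have h2' := (hf (a + 1) (by omega)).1
      have key : ∀ y : Fin n, (f a ≤ (y : ℕ) ∧ (y : ℕ) < f a + l) →
          ¬ (f (a + 1) ≤ (y : ℕ) ∧ (y : ℕ) < f (a + 1) + l) → (π.symm y : ℕ) = a := by
        intro y hy1 hy2
        have h3 := h1 (π.symm y)
        have h4 := h2 (π.symm y)
        rw [π.apply_symm_apply] at h3 h4
        have h5 := h3.2 hy1
        have h6 : ¬ (a + 1 ≤ (π.symm y : ℕ) ∧ (π.symm y : ℕ) < a + 1 + l) := fun h7 => hy2 (h4.1 h7)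
        omega
      have uniq : ∀ y y' : Fin n, (π.symm y : ℕ) = a → (π.symm y' : ℕ) = a → y = y' :=
        fun y y' e1 e2 => π.symm.injective (Fin.ext (e1.trans e2.symm))
      by_contra hcon
      rcases Nat.lt_trichotomy (f a) (f (a + 1)) with h3 | h3 | h3
      · have e1 := key ⟨f a, by omega⟩ ⟨le_rfl, by simp; omega⟩ (by simp; omega)
        have e2 := key ⟨f a + 1, by omega⟩ ⟨by simp, by simp; omega⟩ (by simp; omega)
        have := congrArg Fin.val (uniq _ _ e1 e2)
        simp at this
      · have h4 := h1 ⟨a, by omega⟩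
        have h5 := h2 ⟨a, by omega⟩
        rw [h3] at h4
        have h6 := h5.2 (h4.1 ⟨le_rfl, by simp; omega⟩)
        simp at h6
      · have e1 := key ⟨f a + l - 1, by omega⟩ ⟨by simp; omega, by simp; omega⟩ (by simp; omega)
        have e2 := key ⟨f a + l - 2, by omega⟩ ⟨by simp; omega, by simp; omega⟩ (by simp; omega)
        have := congrArg Fin.val (uniq _ _ e1 e2)
        simp at this
        omega
  have hσ : ∀ a, a + l ≤ n → ∀ x : Fin n,
      (a ≤ (x : ℕ) ∧ (x : ℕ) < a + l) ↔ (a ≤ (π (π x) : ℕ) ∧ (π (π x) : ℕ) < a + l) := by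
    intro a ha x
    have h1 := (hf a ha).2 x
    have h2 := (hf (f a) (hf a ha).1).2 (π x)
    rw [hff a (by omega)] at h2
    exact h1.trans h2
  have fix : ∀ x : Fin n, (x : ℕ) + 1 + l ≤ n ∨ l ≤ (x : ℕ) → π (π x) = x := by
    rintro x (hx | hx)
    · have h1 := (hσ x (by omega) x).1 ⟨le_rfl, by omega⟩
      have h2 := hσ (x + 1) (by omega) x
      apply Fin.ext
      by_contra h3
      have h4 := h2.2 ⟨by omega, by omega⟩
      omega
    · have hx' := x.2
      have h1 := (hσ (x - l + 1) (by omega) x).1 ⟨by omega, by omega⟩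
      have h2 := hσ (x - l) (by omega) x
      apply Fin.ext
      by_contra h3
      have h4 := h2.2 ⟨by omega, by omega⟩
      omega
  by_cases h1 : π (π x) = x
  · rw [h1, h1]
  · have h2 : π (π (π (π x))) ≠ π (π x) := fun h3 => h1 (π.injective (π.injective h3))
    have e1 : ¬ ((x : ℕ) + 1 + l ≤ n ∨ l ≤ (x : ℕ)) := fun h3 => h1 (fix x h3)
    have e2 : ¬ ((π (π x) : ℕ) + 1 + l ≤ n ∨ l ≤ (π (π x) : ℕ)) := fun h3 => h2 (fix _ h3)
    have e3 : ¬ ((π (π (π (π x))) : ℕ) + 1 + l ≤ n ∨ l ≤ (π (π (π (π x))) : ℕ)) := by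
      intro h3
      exact h2 (π.injective (π.injective (fix _ h3)))
    have e4 : (π (π x) : ℕ) ≠ x := fun h3 => h1 (Fin.ext h3)
    have e5 : (π (π (π (π x))) : ℕ) ≠ (π (π x) : ℕ) := fun h3 => h2 (Fin.ext h3)
    apply Fin.ext
    omega

/-- the classes of the colouring have different sizes for some two colours -/
def Uneven {V : Type*} (γ : V → Fin 3) : Prop :=
  ∃ i j : Fin 3, Nat.card {v // γ v = i} ≠ Nat.card {v // γ v = j}

section affine

variable {k V : Type} [Field k] [AddCommGroup V] [Module k V]

theorem coord_map {n : ℕ} (b : AffineBasis (Fin n) k V) (F : V →ᵃ[k] V) (π : Perm (Fin n))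
    (hF : ∀ i, F (b i) = b (π i)) (v : V) (i : Fin n) :
    b.coord (π i) (F v) = b.coord i v := by
  have h : (b.coord (π i)).comp F = b.coord i := by
    apply AffineMap.ext_on b.tot
    rintro _ ⟨j, rfl⟩
    change b.coord (π i) (F (b j)) = b.coord i (b j)
    rw [hF, AffineBasis.coord_apply, AffineBasis.coord_apply]
    simp
  exact congrArg (fun f => f v) h

theorem affine_core [Finite V] {n l : ℕ} (hl : 2 ≤ l) (hln : l ≤ n) (hn : 2 * l ≤ n + 2)
    (b : AffineBasis (Fin n) k V) (w : ℕ → V)
    (hw : ∀ a, a + l ≤ n → ∀ i : Fin n, b.coord i (w a) ≠ 0 ↔ (a ≤ (i : ℕ) ∧ (i : ℕ) < a + l)) :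
    ∃ γ : V → Fin 3, Uneven γ ∧ ∀ F : V →ᵃ[k] V, Function.Bijective F →
      (∀ v, γ (F v) = γ v) → ∀ v, F (F (F (F v))) = v := by
  classical
  have _ := Fintype.ofFinite V
  let γ : V → Fin 3 := fun v => if v ∈ Set.range b then 0 else
    if ∃ a, a + l ≤ n ∧ v = w a then 1 else 2
  have γ0 : ∀ v, γ v = 0 ↔ v ∈ Set.range b := by
    intro v
    by_cases h1 : v ∈ Set.range b
    · simp only [γ, if_pos h1, h1]
    · by_cases h2 : ∃ a, a + l ≤ n ∧ v = w a
      · simp only [γ, if_neg h1, if_pos h2, h1, iff_false]; decide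
      · simp only [γ, if_neg h1, if_neg h2, h1, iff_false]; decide
  have γ1 : ∀ v, γ v = 1 → ∃ a, a + l ≤ n ∧ v = w a := by
    intro v hv
    by_cases h1 : v ∈ Set.range b
    · simp only [γ, if_pos h1] at hv
      exact absurd hv (by decide)
    · by_cases h2 : ∃ a, a + l ≤ n ∧ v = w a
      · exact h2
      · simp only [γ, if_neg h1, if_neg h2] at hv
        exact absurd hv (by decide)
  have hwb : ∀ a, a + l ≤ n → w a ∉ Set.range b := by
    rintro a ha ⟨i, hi⟩
    have h1 := (hw a ha ⟨a, by omega⟩).2 ⟨le_rfl, by simp; omega⟩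
    have h2 := (hw a ha ⟨a + 1, by omega⟩).2 ⟨by simp, by simp; omega⟩
    rw [← hi, AffineBasis.coord_apply] at h1 h2
    have h3 : (⟨a, by omega⟩ : Fin n) = i := by
      by_contra h; exact h1 (if_neg h)
    have h4 : (⟨a + 1, by omega⟩ : Fin n) = i := by
      by_contra h; exact h2 (if_neg h)
    have := congrArg Fin.val (h3.trans h4.symm)
    simp at this
  have hγw : ∀ a, a + l ≤ n → γ (w a) = 1 := by
    intro a ha
    simp only [γ, if_neg (hwb a ha)]
    rw [if_pos ⟨a, ha, rfl⟩]
  refine ⟨γ, ⟨0, 1, ?_⟩, ?_⟩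
  · have c0 : Nat.card {v // γ v = 0} = n := by
      have e : Fin n ≃ {v // γ v = 0} := Equiv.ofBijective
        (fun i => ⟨b i, (γ0 _).2 ⟨i, rfl⟩⟩) ⟨fun i j h => b.ind.injective (congrArg Subtype.val h),
          fun v => by
            obtain ⟨i, hi⟩ := (γ0 _).1 v.2
            exact ⟨i, Subtype.ext hi⟩⟩
      rw [← Nat.card_congr e, Nat.card_eq_fintype_card, Fintype.card_fin]
    have c1 : Nat.card {v // γ v = 1} ≤ n - l + 1 := by
      have hs : Function.Surjective (fun a : Fin (n - l + 1) =>
          (⟨w a, hγw a (by omega)⟩ : {v // γ v = 1})) := by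
        rintro ⟨v, hv⟩
        obtain ⟨a, ha, rfl⟩ := γ1 v hv
        exact ⟨⟨a, by omega⟩, rfl⟩
      have := Nat.card_le_card_of_surjective _ hs
      rwa [Nat.card_fin] at this
    omega
  · intro F hF hFγ
    have h1 : ∀ i, ∃ j, F (b i) = b j := by
      intro i
      obtain ⟨j, hj⟩ := (γ0 _).1 ((hFγ (b i)).trans ((γ0 _).2 ⟨i, rfl⟩))
      exact ⟨j, hj.symm⟩
    choose g hg using h1
    have ginj : Function.Injective g := by
      intro i j hij
      apply b.ind.injective
      apply hF.1
      rw [hg, hg, hij]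
    let π : Perm (Fin n) := Equiv.ofBijective g (Finite.injective_iff_bijective.1 ginj)
    have hπ : ∀ i, F (b i) = b (π i) := hg
    have h4 := interval_lemma hl hln hn π (by
      intro a ha
      obtain ⟨a', ha', hw'⟩ := γ1 _ ((hFγ (w a)).trans (hγw a ha))
      refine ⟨a', ha', fun x => ?_⟩
      rw [← hw a ha x, ← hw a' ha' (π x), ← hw', coord_map b F π hπ])
    have h5 : ((F.comp F).comp (F.comp F)) = AffineMap.id k V := by
      apply AffineMap.ext_on b.tot
      rintro _ ⟨j, rfl⟩
      change F (F (F (F (b j)))) = b j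
      rw [hπ, hπ, hπ, hπ, h4]
    intro v
    exact congrArg (fun f => f v) h5

end affine

theorem exists_uneven_small {V : Type} [Finite V] (hV : Nat.card V = 2 ∨ Nat.card V = 4) :
    ∃ γ : V → Fin 3, Uneven γ ∧ ∀ F : V → V, Function.Bijective F →
      (∀ v, γ (F v) = γ v) → ∀ v, F (F (F (F v))) = v := by
  classical
  have _ := Fintype.ofFinite V
  have : Nontrivial V := by
    rw [← Finite.one_lt_card_iff_nontrivial]
    omega
  obtain ⟨x, y, hxy⟩ := exists_pair_ne V
  let γ : V → Fin 3 := fun v => if v = x then 0 else if v = y then 1 else 2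
  have g0 : ∀ v, γ v = 0 ↔ v = x := by
    intro v
    by_cases h1 : v = x
    · simp [γ, h1]
    · by_cases h2 : v = y
      · simp only [γ, if_neg h1, if_pos h2, h1, iff_false]; decide
      · simp only [γ, if_neg h1, if_neg h2, h1, iff_false]; decide
  have g1 : ∀ v, γ v = 1 ↔ v = y := by
    intro v
    by_cases h1 : v = x
    · subst h1
      simp only [γ, if_true, hxy, iff_false]; decide
    · by_cases h2 : v = y
      · have : γ v = 1 := by simp only [γ, if_neg h1, if_pos h2]
        exact ⟨fun _ => h2, fun _ => this⟩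
      · simp only [γ, if_neg h1, if_neg h2, h2, iff_false]; decide
  have g2 : ∀ v, γ v = 2 ↔ (v ≠ x ∧ v ≠ y) := by
    intro v
    constructor
    · intro h
      refine ⟨fun h1 => ?_, fun h1 => ?_⟩
      · rw [(g0 v).2 h1] at h; exact absurd h (by decide)
      · rw [(g1 v).2 h1] at h; exact absurd h (by decide)
    · rintro ⟨h1, h2⟩
      simp only [γ, if_neg h1, if_neg h2]
  have c2 : Nat.card {v // γ v = 2} + 2 = Nat.card V := by
    have e1 : Nat.card {v // γ v = 2} = (({x, y} : Finset V)ᶜ).card := by
      rw [Nat.card_eq_fintype_card, Fintype.card_subtype]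
      congr 1
      ext v
      simp [g2]
    rw [e1, Finset.card_compl, Finset.card_pair hxy, Nat.card_eq_fintype_card]
    have : 2 ≤ Fintype.card V := by rw [← Nat.card_eq_fintype_card]; omega
    omega
  refine ⟨γ, ⟨0, 2, ?_⟩, ?_⟩
  · have c0 : Nat.card {v // γ v = 0} = 1 := by
      rw [Nat.card_eq_one_iff_unique]
      exact ⟨⟨fun a b => Subtype.ext (((g0 _).1 a.2).trans ((g0 _).1 b.2).symm)⟩, ⟨x, (g0 x).2 rfl⟩⟩
    omega
  · intro F hF hFγ v
    by_cases h1 : γ v = 2
    · have m : ∀ u, γ u = 2 → γ (F u) = 2 := fun u hu => (hFγ u).trans hu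
      by_cases h3 : F (F v) = v
      · rw [h3, h3]
      -- four points `v, F v, F (F v)` pairwise distinct: impossible
      exfalso
      have d1 : F v ≠ v := fun h => h3 (by rw [h, h])
      have d2 : F (F v) ≠ F v := fun h => d1 (hF.1 h)
      have hcard : Nat.card {v // γ v = 2} ≤ 2 := by omega
      have : ({v, F v, F (F v)} : Finset V).card ≤ Nat.card {v // γ v = 2} := by
        rw [Nat.card_eq_fintype_card, Fintype.card_subtype]
        apply Finset.card_le_card
        intro u hu
        simp only [Finset.mem_insert, Finset.mem_singleton] at hu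
        rw [Finset.mem_filter]
        refine ⟨Finset.mem_univ _, ?_⟩
        rcases hu with rfl | rfl | rfl
        · exact h1
        · exact m _ h1
        · exact m _ (m _ h1)
      rw [Finset.card_eq_three.2 ⟨v, F v, F (F v), d1.symm, fun h => h3 h.symm, d2.symm, rfl⟩] at this
      omega
    · have h2 : v = x ∨ v = y := by
        by_contra h
        push Not at h
        exact h1 ((g2 v).2 h)
      have h3 : F v = v := by
        rcases h2 with h2 | h2
        · have := (hFγ v).trans ((g0 v).2 h2)
          rw [(g0 _).1 this, h2]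
        · have := (hFγ v).trans ((g1 v).2 h2)
          rw [(g1 _).1 this, h2]
      rw [h3, h3, h3, h3]

theorem affine_col {p : ℕ} [hp : Fact p.Prime] {V : Type} [AddCommGroup V] [Module (ZMod p) V]
    [Finite V] [Nontrivial V] :
    ∃ γ : V → Fin 3, Uneven γ ∧ ∀ F : V →ᵃ[ZMod p] V, Function.Bijective F →
      (∀ v, γ (F v) = γ v) → ∀ v, F (F (F (F v))) = v := by
  set d := Module.finrank (ZMod p) V with hd
  have hd0 : 0 < d := Module.finrank_pos
  obtain ⟨b⟩ := AffineBasis.exists_affineBasis_of_finiteDimensional (ι := Fin (d + 1)) (k := ZMod p) (V := V)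
    (P := V) (by rw [Fintype.card_fin])
  by_cases hp2 : p = 2
  · subst hp2
    by_cases hd3 : 3 ≤ d
    · let w : ℕ → V := fun a => if h : a + 2 < d + 1 then
        (b ⟨a, by omega⟩ -ᵥ b ⟨a + 1, by omega⟩) +ᵥ b ⟨a + 2, h⟩ else 0
      refine affine_core (l := 3) (by norm_num) (by omega) (by omega) b w ?_
      intro a ha i
      have hwa : w a = (b ⟨a, by omega⟩ -ᵥ b ⟨a + 1, by omega⟩) +ᵥ b ⟨a + 2, by omega⟩ :=
        dif_pos (by omega)
      rw [hwa, AffineMap.map_vadd, AffineMap.linearMap_vsub, AffineBasis.coord_apply,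
        AffineBasis.coord_apply, AffineBasis.coord_apply]
      simp only [Fin.ext_iff, vsub_eq_sub, vadd_eq_add]
      by_cases h1 : (i : ℕ) = a
      · rw [if_pos h1, if_neg (by omega), if_neg (by omega)]
        constructor
        · intro _; omega
        · intro _; simp
      · by_cases h2 : (i : ℕ) = a + 1
        · rw [if_neg h1, if_pos h2, if_neg (by omega)]
          constructor
          · intro _; omega
          · intro _; simp
        · by_cases h3 : (i : ℕ) = a + 2
          · rw [if_neg h1, if_neg h2, if_pos h3]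
            constructor
            · intro _; omega
            · intro _; simp
          · rw [if_neg h1, if_neg h2, if_neg h3]
            constructor
            · intro h; simp at h
            · intro h; omega
    · have hc : Nat.card V = 2 ^ d := by
        rw [Module.natCard_eq_pow_finrank (K := ZMod 2), Nat.card_zmod]
      obtain ⟨γ, h1, h2⟩ := exists_uneven_small (V := V) (by
        have : d = 1 ∨ d = 2 := by omega
        rcases this with h | h
        · left; rw [hc, h]; norm_num
        · right; rw [hc, h]; norm_num)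
      exact ⟨γ, h1, fun F => h2 F⟩
  · have h2 : (2 : ZMod p) ≠ 0 := by
      intro h
      have : (p : ℕ) ∣ 2 := (ZMod.natCast_eq_zero_iff 2 p).1 (by exact_mod_cast h)
      have := (Nat.prime_dvd_prime_iff_eq hp.1 Nat.prime_two).1 this
      exact hp2 this
    let w : ℕ → V := fun a => if h : a + 1 < d + 1 then
        AffineMap.lineMap (b ⟨a, by omega⟩) (b ⟨a + 1, h⟩) (2 : ZMod p) else 0
    refine affine_core (l := 2) (by norm_num) (by omega) (by omega) b w ?_
    intro a ha i
    have hwa : w a = AffineMap.lineMap (b ⟨a, by omega⟩) (b ⟨a + 1, by omega⟩) (2 : ZMod p) :=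
      dif_pos (by omega)
    rw [hwa, AffineMap.apply_lineMap, AffineBasis.coord_apply, AffineBasis.coord_apply,
      AffineMap.lineMap_apply]
    simp only [Fin.ext_iff, vsub_eq_sub, vadd_eq_add, smul_eq_mul]
    by_cases h1' : (i : ℕ) = a
    · rw [if_pos h1', if_neg (by omega)]
      constructor
      · intro _; omega
      · intro _ h
        apply (one_ne_zero : (1 : ZMod p) ≠ 0)
        linear_combination -h
    · by_cases h2' : (i : ℕ) = a + 1
      · rw [if_neg h1', if_pos h2']
        constructor
        · intro _; omega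
        · intro _ h
          apply h2
          linear_combination h
      · rw [if_neg h1', if_neg h2']
        constructor
        · intro h; simp at h
        · intro h; omega

end V1130.ThreeCol
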