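import Mathlib
import Pool.Agent.V1130.ThreeCol

/-!
Three-colourings for primitive actions of solvable groups.
-/

namespace V1130.ThreeCol

open Equiv MulAction
open scoped Pointwise

/-- A nontrivial finite solvable group has a nontrivial normal subgroup, commutative and of prime
exponent. -/
theorem exists_elementary (H : Type) [Group H] [Group.IsSolvable H] [Finite H] [Nontrivial H] :
    ∃ (p : ℕ) (_ : Fact p.Prime) (N : Subgroup H), N.Normal ∧ N ≠ ⊥ ∧
      (∀ x ∈ N, ∀ y ∈ N, x * y = y * x) ∧ ∀ x ∈ N, x ^ p = 1 := by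
  classical
  have hs : ∃ n, derivedSeries H n = ⊥ := Group.IsSolvable.solvable
  have h0 : Nat.find hs ≠ 0 := by
    intro h
    have := Nat.find_spec hs
    rw [h, derivedSeries_zero] at this
    exact top_ne_bot this
  obtain ⟨n, hn⟩ := Nat.exists_eq_succ_of_ne_zero h0
  set A := derivedSeries H n with hA
  have hA0 : A ≠ ⊥ := Nat.find_min hs (by omega)
  have hcomm : ∀ x ∈ A, ∀ y ∈ A, x * y = y * x := by
    have h1 := Nat.find_spec hs
    rw [hn, derivedSeries_succ, Subgroup.commutator_eq_bot_iff_le_centralizer] at h1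
    intro x hx y hy
    exact ((Subgroup.mem_centralizer_iff.1 (h1 hx)) y hy).symm
  have hAn : A.Normal := by rw [hA]; infer_instance
  have hcard : 1 < Nat.card A := (Subgroup.one_lt_card_iff_ne_bot A).2 hA0
  obtain ⟨p, hp, hpd⟩ := Nat.exists_prime_and_dvd hcard.ne'
  have hpf : Fact p.Prime := ⟨hp⟩
  let N : Subgroup H :=
    { carrier := {x | x ∈ A ∧ x ^ p = 1}
      one_mem' := ⟨one_mem _, one_pow _⟩
      mul_mem' := by
        rintro x y ⟨hx, hx'⟩ ⟨hy, hy'⟩
        refine ⟨mul_mem hx hy, ?_⟩
        rw [(show Commute x y from hcomm x hx y hy).mul_pow, hx', hy', one_mul]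
      inv_mem' := by
        rintro x ⟨hx, hx'⟩
        exact ⟨inv_mem hx, by rw [inv_pow, hx', inv_one]⟩ }
  refine ⟨p, hpf, N, ⟨?_⟩, ?_, ?_, ?_⟩
  · rintro x ⟨hx, hx'⟩ g
    refine ⟨hAn.conj_mem x hx g, ?_⟩
    rw [conj_pow, hx', mul_one, mul_inv_cancel]
  · obtain ⟨x, hx⟩ := exists_prime_orderOf_dvd_card' p hpd
    intro h
    have h1 : (x : H) ∈ N := ⟨x.2, by
      have := pow_orderOf_eq_one x
      rw [hx] at this
      exact_mod_cast congrArg Subtype.val this⟩
    rw [h, Subgroup.mem_bot] at h1
    have h2 : x = 1 := Subtype.ext h1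
    rw [h2, orderOf_one] at hx
    exact hp.one_lt.ne hx
  · rintro x ⟨hx, _⟩ y ⟨hy, _⟩
    exact hcomm x hx y hy
  · rintro x ⟨_, hx'⟩
    exact hx'

/-- The core: a group `H` of permutations with a normal elementary abelian transitive subgroup,
given as the image of `m : V → H`. -/
theorem prim_core {Ω H V : Type} [Finite Ω] [Nontrivial Ω] [Group H] [MulAction H Ω]
    [FaithfulSMul H Ω] {p : ℕ} [hp : Fact p.Prime] [AddCommGroup V] [Module (ZMod p) V]
    (m : V → H) (hadd : ∀ u v, m (u + v) = m u * m v) (hinj : Function.Injective m)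
    (hconj : ∀ (h : H) (v : V), ∃ u, m u = h * m v * h⁻¹)
    (htr : ∀ x y : Ω, ∃ v, m v • x = y) :
    ∃ γ : Ω → Fin 3, Uneven γ ∧ ∀ h : H, (∀ ω, γ (h • ω) = γ ω) → ∀ ω : Ω, h ^ 4 • ω = ω := by
  obtain ⟨o⟩ : Nonempty Ω := inferInstance
  have hbij : Function.Bijective (fun v : V => m v • o) := by
    constructor
    · intro u v huv
      change m u • o = m v • o at huv
      apply hinj
      have h2 : ∀ x : Ω, m u • x = m v • x := by
        intro x
        obtain ⟨w, rfl⟩ := htr o x
        rw [← mul_smul, ← hadd, add_comm, hadd, mul_smul, huv, ← mul_smul, ← hadd, add_comm, hadd,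
          mul_smul]
      exact FaithfulSMul.eq_of_smul_eq_smul (α := Ω) h2
    · intro x
      obtain ⟨w, rfl⟩ := htr o x
      exact ⟨w, rfl⟩
  let e : V ≃ Ω := Equiv.ofBijective _ hbij
  have he : ∀ v, e v = m v • o := fun _ => rfl
  have : Finite V := Finite.of_equiv _ e.symm
  have : Nontrivial V := e.nontrivial
  obtain ⟨γ, ⟨i, j, hij⟩, hγ⟩ := affine_col (p := p) (V := V)
  refine ⟨γ ∘ e.symm, ⟨i, j, ?_⟩, ?_⟩
  · have h1 : ∀ i, Nat.card {v // γ v = i} = Nat.card {v // (γ ∘ e.symm) v = i} := by
      intro i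
      apply Nat.card_congr
      exact e.subtypeEquiv (fun v => by simp)
    rwa [← h1, ← h1]
  · intro h hh
    choose c hc using hconj h
    let φ : V →+ V := AddMonoidHom.mk' c (fun u v => by
      apply hinj
      rw [hadd, hc, hc, hc, hadd]
      group)
    let F : V →ᵃ[ZMod p] V :=
      { toFun := fun v => φ v + e.symm (h • o)
        linear := φ.toZModLinearMap p
        map_vadd' := fun v w => by
          simp only [vadd_eq_add, map_add, AddMonoidHom.coe_toZModLinearMap, add_assoc] }
    have hF : ∀ v, e (F v) = h • e v := by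
      intro v
      have h1 : F v = c v + e.symm (h • o) := rfl
      have h2 : m (e.symm (h • o)) • o = h • o := by
        rw [← he, e.apply_symm_apply]
      rw [h1, he, he, hadd, mul_smul, h2, hc, ← mul_smul, ← mul_smul, inv_mul_cancel_right]
    have hF' : ∀ v, F v = e.symm (h • e v) := fun v => by rw [← hF, e.symm_apply_apply]
    have hbF : Function.Bijective F := by
      have : (F : V → V) = e.symm ∘ (MulAction.toPerm h) ∘ e := by
        ext v; rw [hF']; rfl
      rw [this]
      exact e.symm.bijective.comp ((MulAction.toPerm h).bijective.comp e.bijective)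
    have h4 := hγ F hbF (by
      intro v
      have := hh (e v)
      simp only [Function.comp_apply, e.symm_apply_apply] at this
      rwa [hF'])
    intro ω
    obtain ⟨v, rfl⟩ := e.surjective ω
    have h5 := congrArg e (h4 v)
    rw [hF, hF, hF, hF] at h5
    have h6 : h ^ 4 = h * h * h * h := by simp only [pow_succ, pow_zero, one_mul]
    rw [h6, mul_smul, mul_smul, mul_smul]
    exact h5

theorem prim {Ω G : Type} [Finite Ω] [Nontrivial Ω] [Group G] [Group.IsSolvable G] [MulAction G Ω]
    [IsPreprimitive G Ω] :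
    ∃ γ : Ω → Fin 3, Uneven γ ∧ ∀ h : G, (∀ ω, γ (h • ω) = γ ω) → ∀ ω : Ω, h ^ 4 • ω = ω := by
  let H := (MulAction.toPermHom G Ω).range
  have hsolv : Group.IsSolvable H :=
    Group.isSolvable_of_surjective (MulAction.toPermHom G Ω).rangeRestrict_surjective
  let f : Ω →ₑ[(MulAction.toPermHom G Ω).rangeRestrict] Ω := ⟨id, fun g x => rfl⟩
  have hprim : IsPreprimitive H Ω := IsPreprimitive.of_surjective (f := f) Function.surjective_id
  have hnt : Nontrivial H := by
    by_contra hN
    rw [not_nontrivial_iff_subsingleton] at hN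
    obtain ⟨x, y, hxy⟩ := exists_pair_ne Ω
    obtain ⟨g, hg⟩ := exists_smul_eq H x y
    rw [Subsingleton.elim g 1, one_smul] at hg
    exact hxy hg
  obtain ⟨p, hp, N, hN, hN0, hcomm, hexp⟩ := exists_elementary H
  have htr : IsPretransitive N Ω := by
    apply IsQuasiPreprimitive.isPretransitive_of_normal
    intro hfix
    apply hN0
    rw [eq_bot_iff]
    intro x hx
    rw [Subgroup.mem_bot]
    apply Subtype.ext
    apply Equiv.ext
    intro ω
    have : ω ∈ fixedPoints N Ω := by rw [hfix]; trivial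
    exact this ⟨x, hx⟩
  let _ : CommGroup N := { (inferInstance : Group N) with
    mul_comm := fun x y => Subtype.ext (hcomm x x.2 y y.2) }
  let _ : Module (ZMod p) (Additive N) := AddCommGroup.zmodModule (fun x => by
    change Additive.ofMul ((Additive.toMul x) ^ p) = 0
    have : (Additive.toMul x) ^ p = 1 := Subtype.ext (hexp _ (Additive.toMul x).2)
    rw [this]
    rfl)
  obtain ⟨γ, h1, h2⟩ := prim_core (Ω := Ω) (H := H) (V := Additive N) (p := p)
    (fun v => ((Additive.toMul v : N) : H)) (fun u v => rfl)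
    (fun u v h => Additive.toMul.injective (Subtype.ext h))
    (fun h v => ⟨Additive.ofMul ⟨h * (Additive.toMul v : N) * h⁻¹,
      hN.conj_mem _ (Additive.toMul v).2 h⟩, rfl⟩)
    (fun x y => by
      obtain ⟨n, hn⟩ := exists_smul_eq N x y
      exact ⟨Additive.ofMul n, hn⟩)
  refine ⟨γ, h1, fun g hg ω => ?_⟩
  have := h2 ((MulAction.toPermHom G Ω).rangeRestrict g) hg ω
  rw [← map_pow] at this
  exact this

end V1130.ThreeCol
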