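import Mathlib
import Pool.Agent.V1130.ThreeColPrim

/-!
Three-colourings for arbitrary actions of solvable groups: induction along blocks.
-/

namespace V1130.ThreeCol

open Equiv MulAction
open scoped Pointwise

/-- colouring whose stabilizer acts as a 2-group -/
def Good (G : Type) {Ω : Type} [Group G] [MulAction G Ω] (γ : Ω → Fin 3) : Prop :=
  ∀ g : G, (∀ ω, γ (g • ω) = γ ω) → ∀ ω : Ω, ∃ k : ℕ, g ^ 2 ^ k • ω = ω

theorem shift_eq_zero {X : Type} (γ : X → Fin 3) (hγ : Uneven γ) (f : X → X)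
    (hf : Function.Bijective f) (d : Fin 3) (h : ∀ x, γ (f x) = γ x + d) : d = 0 := by
  by_contra hd
  have key : ∀ i, Nat.card {v // γ v = i} = Nat.card {v // γ v = i + d} := by
    intro i
    apply Nat.card_congr
    refine (Equiv.ofBijective f hf).subtypeEquiv (fun v => ?_)
    change γ v = i ↔ γ (f v) = i + d
    rw [h]
    exact ⟨fun h => by rw [h], fun h => add_right_cancel h⟩
  obtain ⟨i, j, hij⟩ := hγ
  have : ∀ d i j : Fin 3, d ≠ 0 → j = i ∨ j = i + d ∨ j = i + d + d := by decide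
  rcases this d i j hd with h1 | h1 | h1
  · rw [h1] at hij; exact hij rfl
  · rw [h1] at hij; exact hij (key i)
  · rw [h1] at hij; exact hij ((key i).trans (key _))

section stab

variable {G Ω : Type} [Group G] [MulAction G Ω] (B : Set Ω)

/-- the setwise stabilizer acts on the set -/
instance stabAct : MulAction (stabilizer G B) B where
  smul s x := ⟨(s : G) • (x : Ω), by
    have h : (s : G) • B = B := s.2
    have h2 : (s : G) • (x : Ω) ∈ (s : G) • B := Set.smul_mem_smul_set x.2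
    rwa [h] at h2⟩
  one_smul x := Subtype.ext (one_smul G _)
  mul_smul s t x := Subtype.ext (mul_smul (s : G) (t : G) (x : Ω))

theorem stabAct_coe (s : stabilizer G B) (x : B) : ((s • x : B) : Ω) = (s : G) • (x : Ω) := rfl

theorem stab_preprimitive [IsPretransitive G Ω] (hB : IsBlock G B)
    (hmin : ∀ B' : Set Ω, IsBlock G B' → ¬ B'.Subsingleton → B' ⊆ B → B' = B) :
    IsPreprimitive (stabilizer G B) B := by
  have htr : ∀ x y : B, ∃ s : stabilizer G B, s • x = y := by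
    intro x y
    obtain ⟨g, hg⟩ := exists_smul_eq G (x : Ω) (y : Ω)
    have h1 : g • B = B := hB.smul_eq_of_mem x.2 (by rw [hg]; exact y.2)
    exact ⟨⟨g, h1⟩, Subtype.ext hg⟩
  refine { exists_smul_eq := htr, isTrivialBlock_of_isBlock := ?_ }
  intro C hC
  by_cases hs : C.Subsingleton
  · exact Or.inl hs
  right
  have hC' : IsBlock G (Subtype.val '' C : Set Ω) := by
    rw [isBlock_iff_smul_eq_of_mem]
    rintro g _ ⟨a, ha, rfl⟩ ⟨b, hb, hab⟩
    have h1 : g • B = B := hB.smul_eq_of_mem a.2 (by rw [← hab]; exact b.2)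
    let s : stabilizer G B := ⟨g, h1⟩
    have h2 : s • C = C := hC.smul_eq_of_mem ha (by
      have : s • a = b := Subtype.ext hab.symm
      rw [this]; exact hb)
    ext x
    rw [Set.mem_smul_set]
    constructor
    · rintro ⟨_, ⟨c, hc, rfl⟩, rfl⟩
      refine ⟨s • c, ?_, rfl⟩
      rw [← h2]
      exact Set.smul_mem_smul_set hc
    · rintro ⟨c, hc, rfl⟩
      rw [← h2, Set.mem_smul_set] at hc
      obtain ⟨c', hc', rfl⟩ := hc
      exact ⟨c', ⟨c', hc', rfl⟩, rfl⟩
  have h1 := hmin _ hC' (fun h => hs (by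
    intro a ha b hb
    exact Subtype.ext (h ⟨a, ha, rfl⟩ ⟨b, hb, rfl⟩))) (by
    rintro _ ⟨a, _, rfl⟩; exact a.2)
  ext x
  simp only [Set.mem_univ, iff_true]
  have hx : (x : Ω) ∈ (Subtype.val '' C : Set Ω) := by rw [h1]; exact x.2
  obtain ⟨y, hy, hxy⟩ := hx
  rw [← Subtype.ext hxy]
  exact hy

end stab

theorem pow_two_pow_add {G : Type} [Group G] (g : G) (k : ℕ) : g ^ 2 ^ (k + 2) = (g ^ 2 ^ k) ^ 4 := by
  rw [← pow_mul, pow_add]; norm_num

theorem transitive_case {G Ω : Type} [Finite Ω] [Group G] [Group.IsSolvable G] [MulAction G Ω]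
    [IsPretransitive G Ω]
    (ih : ∀ (Ω' : Type) [Finite Ω'] [MulAction G Ω'], Nat.card Ω' < Nat.card Ω →
      ∃ γ : Ω' → Fin 3, Good G γ) : ∃ γ : Ω → Fin 3, Good G γ := by
  classical
  rcases subsingleton_or_nontrivial Ω with hΩ | hΩ
  · exact ⟨fun _ => 0, fun g _ ω => ⟨0, Subsingleton.elim _ _⟩⟩
  by_cases hprim : IsPreprimitive G Ω
  · obtain ⟨γ, _, h⟩ := prim (G := G) (Ω := Ω)
    exact ⟨γ, fun g hg ω => ⟨2, h g hg ω⟩⟩
  let 𝓑 : Set (Set Ω) := {B | IsBlock G B ∧ ¬ B.Subsingleton ∧ B ≠ Set.univ}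
  have hne : 𝓑.Nonempty := by
    by_contra hemp
    apply hprim
    refine { isTrivialBlock_of_isBlock := ?_ }
    intro B hB
    by_contra hB'
    rw [IsTrivialBlock, not_or] at hB'
    exact hemp ⟨B, hB, hB'.1, hB'.2⟩
  obtain ⟨B, ⟨hB, hBs, hBu⟩, hmin⟩ := Set.exists_min_image 𝓑 Set.ncard (Set.toFinite _) hne
  have hBprim : IsPreprimitive (stabilizer G B) B := by
    apply stab_preprimitive B hB
    intro B' hB' hs' hsub
    have h1 : B' ≠ Set.univ := by
      rintro rfl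
      exact hBu (Set.univ_subset_iff.1 hsub)
    exact Set.eq_of_subset_of_ncard_le hsub (hmin B' ⟨hB', hs', h1⟩) (Set.toFinite _)
  rw [Set.not_subsingleton_iff] at hBs
  have hBn : Nontrivial B := hBs.coe_sort
  obtain ⟨γ0, hun, hγ0⟩ := prim (G := stabilizer G B) (Ω := B)
  -- the set of blocks
  have hcard : Nat.card (orbit G B) < Nat.card Ω := by
    have h1 := hB.ncard_block_mul_ncard_orbit_eq hBs.nonempty
    have h2 : 1 < B.ncard := (Set.one_lt_ncard (Set.toFinite _)).2 hBs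
    have h3 : 0 < (orbit G B).ncard := (Set.ncard_pos (Set.toFinite _)).2 ⟨B, mem_orbit_self B⟩
    have h4 : Nat.card (orbit G B) = (orbit G B).ncard := rfl
    rw [h4, ← h1]
    nlinarith
  obtain ⟨c, hc⟩ := ih (orbit G B) hcard
  obtain ⟨b0, hb0⟩ := hBs.nonempty
  choose t ht using fun ω : Ω => exists_smul_eq G b0 ω
  let q : Ω → orbit G B := fun ω => ⟨t ω • B, mem_orbit _ _⟩
  have q_mem : ∀ ω, ω ∈ (q ω : Set Ω) := by
    intro ω
    have h1 : t ω • b0 ∈ t ω • B := Set.smul_mem_smul_set hb0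
    rw [ht] at h1
    exact h1
  choose s hs using fun Q : orbit G B => Q.2
  have hs' : ∀ Q : orbit G B, s Q • B = (Q : Set Ω) := hs
  have q_uniq : ∀ ω (Q : orbit G B), ω ∈ (Q : Set Ω) → Q = q ω := by
    intro ω Q hω
    apply Subtype.ext
    change (Q : Set Ω) = t ω • B
    rw [← hs' Q] at hω ⊢
    have h1 : ((t ω)⁻¹ * s Q) • B = B := by
      apply hB.smul_eq_of_nonempty
      refine ⟨(t ω)⁻¹ • ω, ?_, ?_⟩
      · rw [mul_smul]
        exact Set.smul_mem_smul_set hω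
      · rw [← Set.mem_smul_set_iff_inv_smul_mem]
        exact q_mem ω
    rw [mul_smul, inv_smul_eq_iff] at h1
    exact h1
  let γ0' : Ω → Fin 3 := fun x => if h : x ∈ B then γ0 ⟨x, h⟩ else 0
  have hγ0' : ∀ x : B, γ0' x = γ0 x := fun x => dif_pos x.2
  let γ : Ω → Fin 3 := fun ω => γ0' ((s (q ω))⁻¹ • ω) + c (q ω)
  have hγ : ∀ (Q : orbit G B) (x : B), γ (s Q • (x : Ω)) = γ0 x + c Q := by
    intro Q x
    have h1 : q (s Q • (x : Ω)) = Q := by
      refine (q_uniq _ Q ?_).symm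
      rw [← hs' Q]
      exact Set.smul_mem_smul_set x.2
    change γ0' ((s (q (s Q • (x : Ω))))⁻¹ • s Q • (x : Ω)) + c (q (s Q • (x : Ω))) = _
    rw [h1, inv_smul_smul, hγ0']
  have hstab : ∀ (g : G) (Q : orbit G B), (s (g • Q))⁻¹ * g * s Q ∈ stabilizer G B := by
    intro g Q
    rw [mem_stabilizer_iff, mul_smul, mul_smul, hs' Q, inv_smul_eq_iff, hs' (g • Q)]
    rfl
  have hkey : ∀ g : G, (∀ ω, γ (g • ω) = γ ω) → ∀ (Q : orbit G B), c (g • Q) = c Q ∧
      ∀ x : B, γ0 ((⟨_, hstab g Q⟩ : stabilizer G B) • x) = γ0 x := by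
    intro g hg Q
    let h : stabilizer G B := ⟨_, hstab g Q⟩
    have h1 : ∀ x : B, γ0 (h • x) = γ0 x + (c Q - c (g • Q)) := by
      intro x
      have e1 := hγ (g • Q) (h • x)
      have e2 : s (g • Q) • ((h • x : B) : Ω) = g • s Q • (x : Ω) := by
        rw [stabAct_coe]
        change s (g • Q) • ((s (g • Q))⁻¹ * g * s Q) • (x : Ω) = _
        rw [← mul_smul, ← mul_smul]
        congr 1
        group
      rw [e2, hg, hγ] at e1
      rw [← add_sub_assoc, e1, add_sub_cancel_right]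
    have h2 := shift_eq_zero γ0 hun (fun x => h • x) (MulAction.bijective h) _ h1
    refine ⟨(sub_eq_zero.1 h2).symm, fun x => ?_⟩
    have := h1 x
    rw [h2, add_zero] at this
    exact this
  refine ⟨γ, fun g hg ω => ?_⟩
  obtain ⟨k, hk⟩ := hc g (fun Q => (hkey g hg Q).1) (q ω)
  have hg' : ∀ n : ℕ, ∀ ω, γ (g ^ n • ω) = γ ω := by
    intro n
    induction n with
    | zero => intro ω; rw [pow_zero, one_smul]
    | succ n ihn => intro ω; rw [pow_succ', mul_smul, hg, ihn]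
  set g' := g ^ 2 ^ k with hg'def
  have h1 := (hkey g' (hg' _) (q ω)).2
  set Q := q ω with hQ
  have hmem : (s (g' • Q))⁻¹ * g' * s Q ∈ stabilizer G B := hstab g' Q
  have h2 := hγ0 ⟨_, hmem⟩ h1
  have hx : (s Q)⁻¹ • ω ∈ B := by
    rw [← Set.mem_smul_set_iff_inv_smul_mem, hs' Q]
    exact q_mem ω
  have h3 := congrArg Subtype.val (h2 ⟨_, hx⟩)
  refine ⟨k + 2, ?_⟩
  rw [pow_two_pow_add]
  rw [stabAct_coe] at h3
  have h4 : ((((⟨(s (g' • Q))⁻¹ * g' * s Q, hmem⟩ : stabilizer G B) ^ 4 : stabilizer G B)) : G) =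
      (s Q)⁻¹ * g' ^ 4 * s Q := by
    change ((s (g' • Q))⁻¹ * g' * s Q) ^ 4 = _
    rw [hk]
    simp only [pow_succ, pow_zero, one_mul]
    group
  rw [h4] at h3
  change ((s Q)⁻¹ * g' ^ 4 * s Q) • (s Q)⁻¹ • ω = (s Q)⁻¹ • ω at h3
  rw [mul_smul, smul_inv_smul, mul_smul] at h3
  exact smul_left_cancel _ h3

theorem exists_good (n : ℕ) : ∀ (Ω G : Type) [Finite Ω] [Group G] [Group.IsSolvable G]
    [MulAction G Ω], Nat.card Ω = n → ∃ γ : Ω → Fin 3, Good G γ := by
  induction n using Nat.strong_induction_on with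
  | _ n ih =>
    intro Ω G _ _ _ _ hn
    subst hn
    by_cases htr : IsPretransitive G Ω
    · exact transitive_case (fun Ω' _ _ h => ih _ h Ω' G rfl)
    have hlt : ∀ ω : Ω, Nat.card (orbit G ω) < Nat.card Ω := by
      intro ω
      have h1 : orbit G ω ≠ Set.univ := by
        intro h
        apply htr
        exact (isPretransitive_iff_orbit_eq_univ ω).2 h
      exact Set.ncard_lt_card h1
    choose Γ hΓ using fun ω : Ω => ih _ (hlt ω) (orbit G ω) G rfl
    let r : Ω → Ω := fun ω => Quotient.out (s := orbitRel G Ω) (Quotient.mk _ ω)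
    have r_rel : ∀ ω, r ω ∈ orbit G ω := by
      intro ω
      have := Quotient.mk_out (s := orbitRel G Ω) ω
      exact orbitRel_apply.1 this
    have r_eq : ∀ ω ω', ω ∈ orbit G ω' → r ω = r ω' := by
      intro ω ω' h
      have : (Quotient.mk (orbitRel G Ω) ω) = Quotient.mk _ ω' :=
        Quotient.sound (orbitRel_apply.2 h)
      change Quotient.out _ = Quotient.out _
      rw [this]
    have hmem : ∀ ω, ω ∈ orbit G (r ω) := fun ω => mem_orbit_symm.1 (r_rel ω)
    let γ : Ω → Fin 3 := fun ω => Γ (r ω) ⟨ω, hmem ω⟩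
    have hγ : ∀ ω ρ (h : ω ∈ orbit G ρ), r ω = ρ → γ ω = Γ ρ ⟨ω, h⟩ := by
      rintro ω ρ h rfl
      rfl
    refine ⟨γ, fun g hg ω => ?_⟩
    have h1 : ∀ x : orbit G (r ω), Γ (r ω) (g • x) = Γ (r ω) x := by
      intro x
      have e1 : r x = r ω := by
        rw [r_eq _ _ x.2]
        exact r_eq _ _ (r_rel ω)
      have e2 : r (g • (x : Ω)) = r ω := by
        rw [r_eq (g • (x : Ω)) x (mem_orbit _ _), e1]
      have := hg x
      rw [hγ x (r ω) x.2 e1, hγ (g • (x : Ω)) (r ω) (g • x).2 e2] at this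
      exact this
    obtain ⟨k, hk⟩ := hΓ (r ω) g h1 ⟨ω, hmem ω⟩
    exact ⟨k, congrArg Subtype.val hk⟩

end V1130.ThreeCol
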