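import Mathlib

/-!
Helper file: labelled graphs (partial actions of a free group) without reduced cycles.
-/

namespace Pool.Agent.V1130.FreeExt

set_option linter.unusedVariables false
set_option linter.unusedSimpArgs false

/-- letters: generator index and sign -/
abbrev Letter := ℕ × Bool

/-- the inverse letter -/
def inv (l : Letter) : Letter := (l.1, !l.2)

@[simp] theorem inv_inv (l : Letter) : inv (inv l) = l := by
  simp [inv]

theorem inv_ne (l : Letter) : inv l ≠ l := by
  intro h
  have := congrArg Prod.snd h
  simp [inv] at this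

variable {X : Type*}

/-- Paths; the last letter acts first. -/
def Pth (S : Letter → X → X → Prop) : List Letter → X → X → Prop
  | [], x, y => x = y
  | l :: w, x, z => ∃ y, Pth S w x y ∧ S l y z

/-- Reduced words -/
def Reduced (w : List Letter) : Prop := w.IsChain fun a b => b ≠ inv a

theorem Reduced.of_append_left {u v : List Letter} (h : Reduced (u ++ v)) : Reduced u := by
  rw [Reduced, List.isChain_iff_forall_rel_of_append_cons_cons] at *
  intro a b l₁ l₂ e
  exact h (a := a) (b := b) (l₁ := l₁) (l₂ := l₂ ++ v) (by rw [e]; simp)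

theorem Reduced.of_append_right {u v : List Letter} (h : Reduced (u ++ v)) : Reduced v := by
  rw [Reduced, List.isChain_iff_forall_rel_of_append_cons_cons] at *
  intro a b l₁ l₂ e
  exact h (a := a) (b := b) (l₁ := u ++ l₁) (l₂ := l₂) (by rw [e]; simp)

theorem Reduced.rel {u v : List Letter} {a b : Letter} (h : Reduced (u ++ a :: b :: v)) :
    b ≠ inv a := by
  rw [Reduced, List.isChain_iff_forall_rel_of_append_cons_cons] at h
  exact h rfl

theorem reduced_nil : Reduced [] := List.IsChain.nil

theorem reduced_cons_cons {a b : Letter} {v : List Letter} :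
    Reduced (a :: b :: v) ↔ b ≠ inv a ∧ Reduced (b :: v) := List.isChain_cons_cons

theorem pth_append {S : Letter → X → X → Prop} {u v : List Letter} {x z : X} :
    Pth S (u ++ v) x z ↔ ∃ y, Pth S v x y ∧ Pth S u y z := by
  induction u generalizing z with
  | nil => simp [Pth]
  | cons l u ih =>
    simp only [List.cons_append, Pth, ih]
    constructor
    · rintro ⟨y, ⟨y', h1, h2⟩, h3⟩
      exact ⟨y', h1, y, h2, h3⟩
    · rintro ⟨y', h1, y, h2, h3⟩
      exact ⟨y, ⟨y', h1, h2⟩, h3⟩

theorem Pth.mono {S S' : Letter → X → X → Prop} {w : List Letter} {x y : X}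
    (h : Pth S w x y) (hS : ∀ l ∈ w, ∀ x y, S l x y → S' l x y) : Pth S' w x y := by
  induction w generalizing y with
  | nil => exact h
  | cons l w ih =>
    obtain ⟨z, h1, h2⟩ := h
    exact ⟨z, ih h1 (fun l' hl' => hS l' (List.mem_cons_of_mem _ hl')),
      hS l (List.mem_cons_self) _ _ h2⟩

/-- No nonempty reduced closed path. -/
def Forest (S : Letter → X → X → Prop) : Prop :=
  ∀ (w : List Letter) (x : X), w ≠ [] → Reduced w → ¬ Pth S w x x

/-- A labelled graph: symmetric and functional. -/
structure Lab (S : Letter → X → X → Prop) : Prop where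
  sym : ∀ l x y, S l x y → S (inv l) y x
  fn : ∀ l x y y', S l x y → S l x y' → y = y'

/-- To prove that a graph is a forest it suffices to consider cyclically reduced words. -/
theorem forest_of_cyc {S : Letter → X → X → Prop} (hS : Lab S)
    (h : ∀ (w : List Letter) (x : X), w ≠ [] → Reduced (w ++ w) → ¬ Pth S w x x) : Forest S := by
  have key : ∀ n : ℕ, ∀ (w : List Letter) (x : X), w.length = n → w ≠ [] → Reduced w →
      ¬ Pth S w x x := by
    intro n
    induction n using Nat.strong_induction_on with
    | _ n ih =>
      intro w x hn hw hr hp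
      by_cases hc : Reduced (w ++ w)
      · exact h w x hw hc hp
      · -- the junction fails
        obtain ⟨b, w₁, rfl⟩ := List.exists_cons_of_ne_nil hw
        obtain ⟨w₂, a, hwa⟩ : ∃ w₂ a, b :: w₁ = w₂ ++ [a] :=
          ⟨(b :: w₁).dropLast, (b :: w₁).getLast (by simp), (List.dropLast_append_getLast _).symm⟩
        have hba : b = inv a := by
          by_contra hba
          apply hc
          conv => rw [hwa]; arg 1; rw [List.append_assoc, ← hwa]
          rw [Reduced, List.singleton_append, List.isChain_append_cons_cons]
          refine ⟨?_, hba, hr⟩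
          rw [← hwa]; exact hr
        cases w₂ with
        | nil =>
          simp only [List.nil_append, List.cons.injEq] at hwa
          exact inv_ne a (hba.symm.trans hwa.1)
        | cons c w₃ =>
          simp only [List.cons_append, List.cons.injEq] at hwa
          obtain ⟨rfl, rfl⟩ := hwa
          -- w = b :: (w₃ ++ [a])
          obtain ⟨y, hy, hby⟩ := hp
          rw [pth_append] at hy
          obtain ⟨z, ⟨x', hx', haz⟩, hw₃⟩ := hy
          simp only [Pth] at hx'
          subst hx'
          -- S a x z, Pth w₃ z y, S b y x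
          have h1 : S a x y := by
            have := hS.sym _ _ _ hby
            rwa [hba, inv_inv] at this
          have h2 : z = y := hS.fn _ _ _ _ haz h1
          subst h2
          have hne : w₃ ≠ [] := by
            rintro rfl
            have : Reduced (b :: a :: []) := by simpa using hr
            rw [reduced_cons_cons] at this
            apply this.1
            rw [hba, inv_inv]
          have hr3 : Reduced w₃ := by
            have : Reduced ([b] ++ (w₃ ++ [a])) := by simpa using hr
            exact this.of_append_right.of_append_left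
          refine ih w₃.length ?_ w₃ z rfl hne hr3 hw₃
          rw [← hn]; simp
  intro w x hw hr
  exact key _ w x rfl hw hr

/-- Adding leaves to a forest. -/
theorem forest_leaf {S S' : Letter → X → X → Prop} (hF : Forest S) (hS' : Lab S') (Y : Set X)
    (hleaf : ∀ y ∈ Y, ∀ l z l' z', S' l y z → S' l' y z' → l = l')
    (hold : ∀ l x y, x ∉ Y → y ∉ Y → S' l x y → S l x y) : Forest S' := by
  apply forest_of_cyc hS'
  intro w x hw hr hp
  have hrw : Reduced w := hr.of_append_left
  -- the starting point is not a leaf
  have hx : x ∉ Y := by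
    intro hx
    obtain ⟨b, w₁, rfl⟩ := List.exists_cons_of_ne_nil hw
    obtain ⟨w₂, a, hwa⟩ : ∃ w₂ a, b :: w₁ = w₂ ++ [a] :=
      ⟨(b :: w₁).dropLast, (b :: w₁).getLast (by simp), (List.dropLast_append_getLast _).symm⟩
    have h1 : ∃ y, S' b y x := by
      obtain ⟨y, -, h⟩ := hp
      exact ⟨y, h⟩
    have h2 : ∃ z, S' a x z := by
      rw [hwa, pth_append] at hp
      obtain ⟨z, ⟨x', hx', haz⟩, -⟩ := hp
      simp only [Pth] at hx'
      subst hx'
      exact ⟨z, haz⟩
    obtain ⟨y, hy⟩ := h1
    obtain ⟨z, hz⟩ := h2
    have h3 := hleaf x hx _ _ _ _ (hS'.sym _ _ _ hy) hz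
    have h4 : Reduced (w₂ ++ a :: b :: w₁) := by
      have : w₂ ++ a :: b :: w₁ = (b :: w₁) ++ (b :: w₁) := by
        conv_rhs => arg 1; rw [hwa]
        simp
      rw [this]; exact hr
    apply h4.rel
    rw [← h3, inv_inv]
  have key : ∀ (w : List Letter) (y : X), Reduced w → y ∉ Y → Pth S' w x y → Pth S w x y := by
    intro w
    induction w with
    | nil => intro y _ _ h; exact h
    | cons l w ih =>
      intro y hr hy hp
      obtain ⟨z, hz, hzy⟩ := hp
      by_cases hzY : z ∈ Y
      · exfalso
        cases w with
        | nil =>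
          simp only [Pth] at hz
          exact hx (hz ▸ hzY)
        | cons l' w' =>
          obtain ⟨u, hu, huz⟩ := hz
          have h3 := hleaf z hzY _ _ _ _ (hS'.sym _ _ _ huz) hzy
          have := (reduced_cons_cons.1 hr).1
          apply this
          rw [← h3, inv_inv]
      · have hrw : Reduced w := (show Reduced ([l] ++ w) from hr).of_append_right
        exact ⟨z, ih z hrw hzY hz, hold l z y hzY hy hzy⟩
  exact hF w x hw hrw (key w x hrw hx hp)

/-- Joining distinct components of a forest by edges with a new label. -/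
theorem forest_join {S S' : Letter → X → X → Prop} (hF : Forest S) (hS' : Lab S') (i : ℕ)
    {T : Type*} (γ : Bool → T → X)
    (hold : ∀ l x y, l.1 ≠ i → S' l x y → S l x y)
    (hnew : ∀ ε x y, S' (i, ε) x y → ∃ s, x = γ ε s ∧ y = γ (!ε) s)
    (hcomp : ∀ w ε s ε' s', Pth S w (γ ε s) (γ ε' s') → ε = ε' ∧ s = s') : Forest S' := by
  apply forest_of_cyc hS'
  intro w x hw hr hp
  by_cases hi : ∃ l ∈ w, l.1 = i
  · obtain ⟨l, hl, hli⟩ := hi
    obtain ⟨p, q, rfl⟩ := List.append_of_mem hl
    -- rotate: the word `q ++ p ++ [l]`, starting with `l`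
    rw [show p ++ l :: q = (p ++ [l]) ++ q by simp, pth_append] at hp
    obtain ⟨m, hq, hpl⟩ := hp
    have hrot : Pth S' (q ++ (p ++ [l])) m m := pth_append.2 ⟨x, hpl, hq⟩
    have hrred : Reduced ((q ++ p) ++ [l]) := by
      have h1 : Reduced (p ++ [l] ++ (q ++ (p ++ [l]) ++ q)) := by
        have : p ++ [l] ++ (q ++ (p ++ [l]) ++ q) = p ++ l :: q ++ (p ++ l :: q) := by simp
        rw [this]; exact hr
      have h2 := h1.of_append_right.of_append_left
      simpa using h2
    rw [← List.append_assoc, pth_append] at hrot
    obtain ⟨z, ⟨m', hm', hmz⟩, hz⟩ := hrot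
    simp only [Pth] at hm'
    subst hm'
    obtain ⟨li, ε⟩ := l
    simp only at hli
    subst hli
    obtain ⟨s, rfl, rfl⟩ := hnew ε _ _ hmz
    -- now a path `q ++ p` from `γ (!ε) s` to `γ ε s`
    generalize q ++ p = r at hz hrred
    by_cases hri : ∃ l ∈ r, l.1 = li
    · -- split at the last occurrence
      have hsplit : ∃ (u : List Letter) (l' : Letter) (v : List Letter), r = u ++ l' :: v ∧
          l'.1 = li ∧ ∀ l ∈ v, l.1 ≠ li := by
        clear hz hrred
        induction r with
        | nil => simp at hri
        | cons c r ih =>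
          by_cases h : ∃ l ∈ r, l.1 = li
          · obtain ⟨u, l', v, e, h1, h2⟩ := ih h
            exact ⟨c :: u, l', v, by rw [e]; simp, h1, h2⟩
          · push Not at h
            obtain ⟨l, hl, hli⟩ := hri
            rcases List.mem_cons.1 hl with rfl | hl
            · exact ⟨[], l, r, rfl, hli, h⟩
            · exact absurd hli (h l hl)
      obtain ⟨u, l', v, rfl, hl', hv⟩ := hsplit
      rw [show u ++ l' :: v = (u ++ [l']) ++ v by simp, pth_append] at hz
      obtain ⟨y, hvy, hy⟩ := hz
      rw [pth_append] at hy
      obtain ⟨y', ⟨y'', hy'', hyy'⟩, -⟩ := hy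
      simp only [Pth] at hy''
      subst hy''
      obtain ⟨li', ε'⟩ := l'
      simp only at hl'
      subst hl'
      obtain ⟨s', rfl, rfl⟩ := hnew ε' _ _ hyy'
      have hvS : Pth S v (γ (!ε) s) (γ ε' s') := hvy.mono (fun l hl x y h => hold l x y (hv l hl) h)
      obtain ⟨he, hs⟩ := hcomp _ _ _ _ _ hvS
      subst hs
      subst he
      have hvred : Reduced v := by
        have h1 : Reduced (u ++ [(li', !ε)] ++ (v ++ [(li', ε)])) := by
          have : u ++ [(li', !ε)] ++ (v ++ [(li', ε)]) = u ++ (li', !ε) :: v ++ [(li', ε)] := by simp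
          rw [this]; exact hrred
        exact h1.of_append_right.of_append_left
      have hvnil : v = [] := by
        by_contra hne
        exact hF v _ hne hvred hvS
      subst hvnil
      have h2 : Reduced (u ++ (li', !ε) :: (li', ε) :: []) := by
        have : u ++ (li', !ε) :: (li', ε) :: [] = u ++ [(li', !ε)] ++ [(li', ε)] := by simp
        rw [this]; exact hrred
      apply h2.rel
      simp [inv]
    · push Not at hri
      have hrS : Pth S r (γ (!ε) s) (γ ε s) := hz.mono (fun l hl x y h => hold l x y (hri l hl) h)
      obtain ⟨he, -⟩ := hcomp _ _ _ _ _ hrS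
      simp at he
  · push Not at hi
    have hpS : Pth S w x x := hp.mono (fun l hl x y h => hold l x y (hi l hl) h)
    exact hF w x hw hr.of_append_left hpS

end Pool.Agent.V1130.FreeExt
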