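import Mathlib

/-!
Helper file: finite partial isomorphisms of relational structures, ultrahomogeneity and strong
amalgamation.
-/

namespace Pool.Agent.V1130.RelStr

set_option linter.unusedVariables false
set_option linter.unusedSimpArgs false

open FirstOrder Language Structure Substructure CategoryTheory

universe u v w

variable {L : FirstOrder.Language.{u, v}}

/-- A class `K` of `L`-structures has strong amalgamation if any two embeddings `A → B`, `A → C`
between members of `K` can be completed by embeddings `B → D`, `C → D` with `D` in `K` that agree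
on `A` and whose images meet exactly in the image of `A`. -/
def StrongAmalgamation (K : Set (Bundled.{w} L.Structure)) : Prop :=
  ∀ (A B C : Bundled.{w} L.Structure) (AB : A ↪[L] B) (AC : A ↪[L] C),
    A ∈ K → B ∈ K → C ∈ K →
    ∃ (D : Bundled.{w} L.Structure) (BD : B ↪[L] D) (CD : C ↪[L] D),
      D ∈ K ∧ BD.comp AB = CD.comp AC ∧
      ∀ (b : B) (c : C), BD b = CD c → ∃ a : A, AB a = b ∧ AC a = c

variable {M : Type*} {N : Type*} [L.Structure M] [L.Structure N]

/-- `f` is injective on the finite set `A` and preserves and reflects all relations on `A`. -/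
structure PIso (L : FirstOrder.Language.{u, v}) {M : Type*} {N : Type*} [L.Structure M]
    [L.Structure N] (A : Finset M) (f : M → N) : Prop where
  inj : Set.InjOn f (A : Set M)
  rel : ∀ {n : ℕ} (R : L.Relations n) (v : Fin n → M), (∀ i, v i ∈ A) →
    (RelMap R (f ∘ v) ↔ RelMap R v)

theorem PIso.mono {A B : Finset M} {f : M → N} (h : PIso L B f) (hAB : A ⊆ B) : PIso L A f :=
  ⟨h.inj.mono (by exact_mod_cast hAB), fun R v hv => h.rel R v fun i => hAB (hv i)⟩

theorem PIso.congr {A : Finset M} {f g : M → N} (h : PIso L A f) (hfg : ∀ a ∈ A, f a = g a) :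
    PIso L A g := by
  refine ⟨fun a ha b hb hab => h.inj ha hb ?_, fun R v hv => ?_⟩
  · rw [hfg a ha, hfg b hb, hab]
  · have : g ∘ v = f ∘ v := by
      funext i; simp [hfg _ (hv i)]
    rw [this]; exact h.rel R v hv

/-- The substructure on a set, in a relational language. -/
def subOf [L.IsRelational] (S : Set M) : L.Substructure M where
  carrier := S
  fun_mem := fun {n} f => isEmptyElim f

theorem mem_subOf [L.IsRelational] {S : Set M} {x : M} : x ∈ (subOf S : L.Substructure M) ↔ x ∈ S :=
  Iff.rfl

/-- A partial isomorphism on `A` gives an embedding of the substructure on `A`. -/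
def PIso.toEmb [L.IsRelational] {A : Finset M} {f : M → N} (h : PIso L A f)
    (S : L.Substructure M) (hS : ∀ x, x ∈ S → x ∈ A) : S ↪[L] N where
  toFun := fun x => f x
  inj' := fun a b hab => Subtype.ext (h.inj (hS _ a.2) (hS _ b.2) hab)
  map_fun' := fun {n} g => isEmptyElim g
  map_rel' := fun {n} R v => by
    have := h.rel R (fun i => (v i : M)) (fun i => hS _ (v i).2)
    exact this

theorem PIso.toEmb_apply [L.IsRelational] {A : Finset M} {f : M → N} (h : PIso L A f)
    (S : L.Substructure M) (hS : ∀ x, x ∈ S → x ∈ A) (x : S) : h.toEmb S hS x = f x := rfl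

/-- Embeddings restrict to partial isomorphisms. -/
theorem PIso.of_emb {S : L.Substructure M} (e : S ↪[L] N) (A : Finset M)
    (hA : ∀ x ∈ A, x ∈ S) (f : M → N) (hf : ∀ x (hx : x ∈ S), f x = e ⟨x, hx⟩) : PIso L A f := by
  refine ⟨fun a ha b hb hab => ?_, fun {n} R v hv => ?_⟩
  · have ha' := hA a ha
    have hb' := hA b hb
    rw [hf a ha', hf b hb'] at hab
    have := e.injective hab
    exact congrArg Subtype.val this
  · have h1 : f ∘ v = e ∘ (fun i => (⟨v i, hA _ (hv i)⟩ : S)) := by
      funext i; simp [hf _ (hA _ (hv i))]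
    rw [h1, e.map_rel]
    rfl

theorem PIso.of_equiv (g : M ≃[L] N) (A : Finset M) : PIso L A g :=
  ⟨fun _ _ _ _ h => g.injective h, fun R v _ => g.map_rel R v⟩

theorem PIso.comp_equiv {P : Type*} [L.Structure P] {A : Finset M} {f : M → N} (h : PIso L A f)
    (g : N ≃[L] P) : PIso L A (fun x => g (f x)) :=
  ⟨fun a ha b hb hab => h.inj ha hb (g.injective hab),
    fun R v hv => (g.map_rel R (f ∘ v)).trans (h.rel R v hv)⟩

/-- The one point extension property with avoidance of finite sets. -/
def ExtAvoid (L : FirstOrder.Language.{u, v}) (M : Type*) [L.Structure M] [DecidableEq M] : Prop :=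
  ∀ (A : Finset M) (f : M → M), PIso L A f → ∀ x ∉ A, ∀ F : Finset M,
    ∃ y ∉ F, PIso L (insert x A) (Function.update f x y)

theorem isUltrahomogeneous_of_ext [L.IsRelational] [Countable M] [DecidableEq M]
    (h : ExtAvoid L M) : L.IsUltrahomogeneous M := by
  classical
  have hcg : CG L M := Structure.cg_of_countable
  rw [isUltrahomogeneous_iff_IsExtensionPair hcg]
  rintro ⟨f, f_FG⟩ m
  have hfin : Finite f.dom := Substructure.fg_iff_finite.1 f_FG
  by_cases hm : m ∈ f.dom
  · exact ⟨⟨f, f_FG⟩, hm, le_refl _⟩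
  · have hfin' : (f.dom : Set M).Finite := hfin
    let A : Finset M := hfin'.toFinset
    have hA : ∀ x, x ∈ A ↔ x ∈ f.dom := fun x => by simp [A]
    let F : M → M := fun z => if hz : z ∈ f.dom then (f.toEquiv ⟨z, hz⟩ : M) else z
    have hF : PIso L A F := by
      refine PIso.of_emb (S := f.dom) f.toEmbedding A (fun x hx => (hA x).1 hx) F ?_
      intro x hx
      simp only [F, hx, dif_pos]
      rfl
    obtain ⟨y, -, hy⟩ := h A F hF m (fun hmA => hm ((hA m).1 hmA)) ∅
    let S : L.Substructure M := subOf (insert m (f.dom : Set M))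
    have hS : ∀ x, x ∈ S → x ∈ insert m A := by
      intro x hx
      rcases hx with rfl | hx
      · simp
      · exact Finset.mem_insert_of_mem ((hA x).2 hx)
    let e : S ↪[L] M := hy.toEmb S hS
    have hSle : f.dom ≤ S := fun x hx => Set.mem_insert_of_mem _ hx
    have hSfin : Finite S := (hfin'.insert m)
    refine ⟨⟨⟨S, e.toHom.range, e.equivRange⟩, Substructure.fg_iff_finite.2 hSfin⟩,
      Set.mem_insert _ _, ⟨hSle, ?_⟩⟩
    ext x
    have hxm : (x : M) ≠ m := fun hx => hm (hx ▸ x.2)
    simp only [Embedding.comp_apply, Equiv.coe_toEmbedding, coe_subtype,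
      Embedding.equivRange_apply, e, PIso.toEmb_apply, Substructure.coe_inclusion]
    change Function.update F m y (x : M) = _
    rw [Function.update_of_ne hxm]
    simp [F]

theorem extend_many [DecidableEq M] (h : ExtAvoid L M) (F : Finset M) (A : Finset M) (f₀ : M → M)
    (hf₀ : PIso L A f₀) (B : Finset M) :
    ∃ f : M → M, PIso L (A ∪ B) f ∧ (∀ a ∈ A, f a = f₀ a) ∧ ∀ b ∈ B, b ∉ A → f b ∉ F := by
  classical
  induction B using Finset.induction_on with
  | empty => exact ⟨f₀, by simpa using hf₀, fun _ _ => rfl, by simp⟩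
  | insert b B hb ih =>
    obtain ⟨f, hf, hfA, hfB⟩ := ih
    by_cases hbA : b ∈ A ∪ B
    · refine ⟨f, ?_, hfA, ?_⟩
      · have : A ∪ insert b B = A ∪ B := by
          rw [Finset.union_insert, Finset.insert_eq_of_mem hbA]
        rw [this]; exact hf
      · intro c hc hcA
        rcases Finset.mem_insert.1 hc with rfl | hc
        · exact absurd hbA (by simp [hcA, hb])
        · exact hfB c hc hcA
    · obtain ⟨y, hyF, hy⟩ := h _ f hf b hbA F
      refine ⟨Function.update f b y, ?_, ?_, ?_⟩
      · rw [Finset.union_insert]; exact hy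
      · intro a ha
        have : a ≠ b := fun hab => hbA (hab ▸ Finset.mem_union_left _ ha)
        rw [Function.update_of_ne this]; exact hfA a ha
      · intro c hc hcA
        by_cases hcb : c = b
        · subst hcb; simpa using hyF
        · rw [Function.update_of_ne hcb]
          exact hfB c ((Finset.mem_insert.1 hc).resolve_left hcb) hcA

theorem strongAmalgamation_of_ext [L.IsRelational] {M : Type w} [L.Structure M] [DecidableEq M]
    (h : ExtAvoid L M) : StrongAmalgamation (L.age M) := by
  classical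
  intro A B C AB AC hA hB hC
  obtain ⟨hBfg, ⟨iB⟩⟩ := hB
  obtain ⟨hCfg, ⟨iC⟩⟩ := hC
  have hBfin : Finite B := Structure.fg_iff_finite.1 hBfg
  have hCfin : Finite C := Structure.fg_iff_finite.1 hCfg
  have hAfin : Finite A := Structure.fg_iff_finite.1 hA.1
  let B' : Finset M := (Set.finite_range iB).toFinset
  let A' : Finset M := (Set.finite_range (iB.comp AB)).toFinset
  let C' : Finset M := (Set.finite_range iC).toFinset
  let f₀ : M → M := fun z => if hz : ∃ a : A, iB (AB a) = z then iC (AC hz.choose) else z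
  have hf₀ : ∀ a : A, f₀ (iB (AB a)) = iC (AC a) := by
    intro a
    have hz : ∃ a' : A, iB (AB a') = iB (AB a) := ⟨a, rfl⟩
    simp only [f₀, hz, dif_pos]
    have := hz.choose_spec
    rw [AB.injective (iB.injective this)]
  have hpf₀ : PIso L A' f₀ := by
    refine ⟨?_, ?_⟩
    · intro x hx y hy hxy
      simp only [A', Set.Finite.coe_toFinset, Set.mem_range, Embedding.comp_apply] at hx hy
      obtain ⟨a, rfl⟩ := hx
      obtain ⟨b, rfl⟩ := hy
      rw [hf₀, hf₀] at hxy
      rw [AC.injective (iC.injective hxy)]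
    · intro n R v hv
      have : ∀ i, ∃ a : A, iB (AB a) = v i := fun i => by
        have := hv i
        simpa [A'] using this
      choose a ha using this
      have h1 : v = (iB.comp AB) ∘ a := by funext i; simp [ha i]
      have h2 : f₀ ∘ v = (iC.comp AC) ∘ a := by funext i; simp [← ha i, hf₀]
      rw [h2, h1, Embedding.map_rel, Embedding.map_rel]
  obtain ⟨f, hf, hfA, hfB⟩ := extend_many h C' A' f₀ hpf₀ B'
  have hfB' : PIso L B' f := hf.mono Finset.subset_union_right
  let D : L.Substructure M := subOf (f '' (B' : Set M) ∪ (C' : Set M))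
  have hDfin : Finite D := ((B'.finite_toSet.image f).union C'.finite_toSet)
  have hBmem : ∀ b : B, iB b ∈ B' := fun b => by simp [B']
  have hCmem : ∀ c : C, iC c ∈ C' := fun c => by simp [C']
  let BD : B ↪[L] D :=
    { toFun := fun b => ⟨f (iB b), Or.inl ⟨iB b, hBmem b, rfl⟩⟩
      inj' := fun a b hab => iB.injective (hfB'.inj (hBmem a) (hBmem b) (congrArg Subtype.val hab))
      map_fun' := fun {n} g => isEmptyElim g
      map_rel' := fun {n} R v => by
        have h1 := hfB'.rel R (iB ∘ v) (fun i => hBmem _)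
        rw [iB.map_rel] at h1
        exact h1 }
  let CD : C ↪[L] D :=
    { toFun := fun c => ⟨iC c, Or.inr (hCmem c)⟩
      inj' := fun a b hab => iC.injective (congrArg Subtype.val hab)
      map_fun' := fun {n} g => isEmptyElim g
      map_rel' := fun {n} R v => by
        have h1 := iC.map_rel R v
        exact h1 }
  refine ⟨Bundled.of D, BD, CD, ⟨Structure.fg_iff_finite.2 hDfin, ⟨D.subtype⟩⟩, ?_, ?_⟩
  · ext a
    apply Subtype.ext
    change f (iB (AB a)) = iC (AC a)
    rw [hfA _ (by simp [A']), hf₀]
  · intro b c hbc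
    have hbc' : f (iB b) = iC c := congrArg Subtype.val hbc
    by_cases hbA : iB b ∈ A'
    · have : ∃ a : A, iB (AB a) = iB b := by simpa [A'] using hbA
      obtain ⟨a, ha⟩ := this
      refine ⟨a, iB.injective ha, ?_⟩
      apply iC.injective
      rw [← hbc', ← ha, hfA _ (by simp [A']), hf₀]
    · exact absurd (hbc' ▸ hCmem c) (hfB _ (hBmem b) hbA)

/-- Conversely, an ultrahomogeneous relational structure whose age has strong amalgamation has the
extension property with avoidance. -/
theorem extAvoid_of [L.IsRelational] {M : Type w} [L.Structure M] [DecidableEq M]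
    (hu : L.IsUltrahomogeneous M) (hs : StrongAmalgamation (L.age M)) : ExtAvoid L M := by
  classical
  intro A f hf x hx F
  -- extend `f` to an automorphism
  let SA : L.Substructure M := subOf (A : Set M)
  have hSAfin : Finite SA := A.finite_toSet
  obtain ⟨γ, hγ⟩ := hu SA (Substructure.fg_iff_finite.2 hSAfin) (hf.toEmb SA fun x hx => hx)
  have hγ' : ∀ a ∈ A, γ a = f a := by
    intro a ha
    have := DFunLike.congr_fun hγ (⟨a, ha⟩ : SA)
    exact this.symm
  let SB : L.Substructure M := subOf (insert x (A : Set M))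
  have hSBfin : Finite SB := A.finite_toSet.insert x
  let SC : L.Substructure M := subOf ((A : Set M) ∪ (F.image γ.symm : Finset M))
  have hSCfin : Finite SC := A.finite_toSet.union (Finset.finite_toSet _)
  have hAB : SA ≤ SB := fun a ha => Set.mem_insert_of_mem _ ha
  have hAC : SA ≤ SC := fun a ha => Or.inl ha
  obtain ⟨D, BD, CD, ⟨-, ⟨iD⟩⟩, hcomm, hmeet⟩ := hs (Bundled.of SA) (Bundled.of SB) (Bundled.of SC)
    (Substructure.inclusion hAB) (Substructure.inclusion hAC)
    ⟨Structure.fg_iff_finite.2 hSAfin, ⟨SA.subtype⟩⟩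
    ⟨Structure.fg_iff_finite.2 hSBfin, ⟨SB.subtype⟩⟩
    ⟨Structure.fg_iff_finite.2 hSCfin, ⟨SC.subtype⟩⟩
  obtain ⟨θ, hθ⟩ := hu SC (Substructure.fg_iff_finite.2 hSCfin) (iD.comp CD)
  have hθ' : ∀ c : SC, θ (c : M) = iD (CD c) := fun c => (DFunLike.congr_fun hθ c).symm
  let xB : SB := ⟨x, Set.mem_insert _ _⟩
  let y₀ : M := θ.symm (iD (BD xB))
  have hy₀C : y₀ ∉ SC := by
    intro hy
    have h1 : iD (CD ⟨y₀, hy⟩) = iD (BD xB) := by
      rw [← hθ']; simp [y₀]
    have h2 := iD.injective h1
    obtain ⟨a, ha, -⟩ := hmeet xB ⟨y₀, hy⟩ h2.symm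
    have h3 : ((show SA from a) : M) = x := congrArg Subtype.val ha
    have h4 : ((show SA from a) : M) ∈ (A : Set M) := (show SA from a).2
    exact hx (by rw [← h3]; exact h4)
  refine ⟨γ y₀, ?_, ?_⟩
  · intro hy
    apply hy₀C
    refine Or.inr ?_
    simp only [Finset.coe_image, Set.mem_image, Finset.mem_coe]
    exact ⟨γ y₀, hy, by simp⟩
  · -- the map is `γ ∘ θ⁻¹ ∘ iD ∘ BD`
    have key : PIso L (insert x A) (fun z => if hz : z ∈ SB then γ (θ.symm (iD (BD ⟨z, hz⟩))) else z) := by
      refine PIso.of_emb (S := SB)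
        ((γ.toEmbedding.comp (θ.symm.toEmbedding.comp (iD.comp BD)))) _ ?_ _ ?_
      · intro z hz
        rcases Finset.mem_insert.1 hz with rfl | hz
        · exact Set.mem_insert _ _
        · exact Set.mem_insert_of_mem _ hz
      · intro z hz
        simp only [hz, dif_pos]
        rfl
    refine key.congr ?_
    intro a ha
    by_cases hax : a = x
    · subst hax
      have : a ∈ SB := Set.mem_insert _ _
      simp only [this, dif_pos, Function.update_self]
      rfl
    · have haA : a ∈ A := (Finset.mem_insert.1 ha).resolve_left hax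
      have haB : a ∈ SB := Set.mem_insert_of_mem _ haA
      have haC : a ∈ SC := Or.inl haA
      simp only [haB, dif_pos, Function.update_of_ne hax]
      have h1 : BD ⟨a, haB⟩ = CD ⟨a, haC⟩ := DFunLike.congr_fun hcomm (⟨a, haA⟩ : SA)
      rw [h1, ← hθ' ⟨a, haC⟩]
      simp [hγ' a haA]

/-- Partial isomorphisms of an ultrahomogeneous structure extend to automorphisms. -/
theorem PIso.exists_equiv [L.IsRelational] {M : Type w} [L.Structure M]
    (hu : L.IsUltrahomogeneous M) {A : Finset M} {f : M → M} (hf : PIso L A f) :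
    ∃ γ : M ≃[L] M, ∀ a ∈ A, γ a = f a := by
  let SA : L.Substructure M := subOf (A : Set M)
  have hSAfin : Finite SA := A.finite_toSet
  obtain ⟨γ, hγ⟩ := hu SA (Substructure.fg_iff_finite.2 hSAfin) (hf.toEmb SA fun x hx => hx)
  exact ⟨γ, fun a ha => (DFunLike.congr_fun hγ (⟨a, ha⟩ : SA)).symm⟩

end Pool.Agent.V1130.RelStr
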