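import Mathlib
import Pool.Agent.H212R2.KLS.T1

/-!
# Brunn-Minkowski for Haar measures, and a Grünbaum inequality for symmetric convex sets
-/

set_option autoImplicit false

open MeasureTheory Set
open scoped ENNReal Pointwise

namespace Pool.Agent.V1130.Bal

section BM

variable {F : Type*} [NormedAddCommGroup F] [NormedSpace ℝ F] [FiniteDimensional ℝ F]
  [MeasurableSpace F] [BorelSpace F] (ν : Measure F) [ν.IsAddHaarMeasure]

theorem two (t : ℝ) (ht0 : 0 < t) (ht1 : t < 1) (A C D : Set F)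
    (hA : IsCompact A) (hC : IsCompact C) (hD : IsCompact D)
    (h : ∀ x ∈ A, ∀ y ∈ C, (1 - t) • x + t • y ∈ D) (v : ℝ≥0∞) (hvA : v ≤ ν A)
    (hvC : v ≤ ν C) : v ≤ ν D := by
  have hPL := Pool.Agent.H212R2.KLS.PL ν t ht0 ht1
    (A.indicator 1) (C.indicator 1)
    (D.indicator 1) (measurable_one.indicator hA.measurableSet)
    (measurable_one.indicator hC.measurableSet) (measurable_one.indicator hD.measurableSet) ?_
  · rw [lintegral_indicator_one hA.measurableSet, lintegral_indicator_one hC.measurableSet,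
      lintegral_indicator_one hD.measurableSet] at hPL
    refine le_trans ?_ hPL
    rcases eq_or_ne v 0 with rfl | hv0
    · exact zero_le
    · have hvt : v ≠ ∞ := ne_top_of_le_ne_top hC.measure_ne_top hvC
      calc v = v ^ (1 - t) * v ^ t := by
            rw [← ENNReal.rpow_add _ _ hv0 hvt]
            norm_num
        _ ≤ (ν A) ^ (1 - t) * (ν C) ^ t := by
            gcongr
  · intro x y
    by_cases hx : x ∈ A
    · by_cases hy : y ∈ C
      · rw [indicator_of_mem hx, indicator_of_mem hy, indicator_of_mem (h x hx y hy)]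
        simp
      · rw [indicator_of_notMem hy, ENNReal.zero_rpow_of_pos ht0, mul_zero]
        exact zero_le
    · rw [indicator_of_notMem hx, ENNReal.zero_rpow_of_pos (by linarith), zero_mul]
      exact zero_le

theorem smul_vol (A : Set F) (a s : ℝ) (ha : 0 < a)
    (hs : 0 < s) (h : a ^ (Module.finrank ℝ F) ≤ ν.real A) :
    ENNReal.ofReal (s ^ (Module.finrank ℝ F)) ≤ ν ((s / a) • A) := by
  set n := Module.finrank ℝ F
  have hsa : 0 < s / a := div_pos hs ha
  rw [Measure.addHaar_smul, abs_of_pos (pow_pos hsa _)]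
  have h1 : ENNReal.ofReal (a ^ n) ≤ ν A :=
    ENNReal.ofReal_le_of_le_toReal h
  calc ENNReal.ofReal (s ^ n) = ENNReal.ofReal ((s / a) ^ n) * ENNReal.ofReal (a ^ n) := by
        rw [← ENNReal.ofReal_mul (pow_nonneg hsa.le n), ← mul_pow, div_mul_cancel₀ _ ha.ne']
    _ ≤ _ := by gcongr

theorem translate (A B : Set F) (hA : IsCompact A) (hB : IsCompact B)
    (hne : A.Nonempty) : ν.real B ≤ ν.real (A + B) := by
  obtain ⟨x, hx⟩ := hne
  refine ENNReal.toReal_mono (hA.add hB).measure_ne_top ?_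
  have h1 : ν (x +ᵥ B) = ν B := measure_vadd ν x B
  rw [← h1]
  refine measure_mono ?_
  rintro _ ⟨y, hy, rfl⟩
  exact Set.add_mem_add hx hy

theorem bm (hn : 0 < Module.finrank ℝ F) (A B : Set F) (hA : IsCompact A) (hB : IsCompact B)
    (hAn : A.Nonempty) (hBn : B.Nonempty) (a b : ℝ) (ha : 0 ≤ a) (hb : 0 ≤ b)
    (hVA : a ^ (Module.finrank ℝ F) ≤ ν.real A) (hVB : b ^ (Module.finrank ℝ F) ≤ ν.real B) :
    (a + b) ^ (Module.finrank ℝ F) ≤ ν.real (A + B) := by
  rcases ha.eq_or_lt with rfl | ha0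
  · rw [zero_add]
    exact hVB.trans (translate ν A B hA hB hAn)
  rcases hb.eq_or_lt with rfl | hb0
  · rw [add_zero, add_comm A B]
    exact hVA.trans (translate ν B A hB hA hBn)
  have hab : 0 < a + b := by linarith
  have h1 := two ν (b / (a + b)) (div_pos hb0 hab) ((div_lt_one hab).mpr (by linarith))
    (((a + b) / a) • A) (((a + b) / b) • B) (A + B) (hA.smul _) (hB.smul _) (hA.add hB) ?_
    (ENNReal.ofReal ((a + b) ^ (Module.finrank ℝ F))) (smul_vol ν A a (a + b) ha0 hab hVA)
    (smul_vol ν B b (a + b) hb0 hab hVB)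
  · have h2 := ENNReal.toReal_mono (hA.add hB).measure_ne_top h1
    rwa [ENNReal.toReal_ofReal (pow_nonneg hab.le _)] at h2
  · rintro _ ⟨x, hx, rfl⟩ _ ⟨y, hy, rfl⟩
    have e1 : (1 - b / (a + b)) • ((a + b) / a) • x = x := by
      rw [smul_smul]
      have : (1 - b / (a + b)) * ((a + b) / a) = 1 := by field_simp; ring
      rw [this, one_smul]
    have e2 : (b / (a + b)) • ((a + b) / b) • y = y := by
      rw [smul_smul]
      have : (b / (a + b)) * ((a + b) / b) = 1 := by field_simp
      rw [this, one_smul]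
    show (1 - b / (a + b)) • ((a + b) / a) • x + (b / (a + b)) • ((a + b) / b) • y ∈ A + B
    rw [e1, e2]
    exact Set.add_mem_add hx hy

/-- Brunn-Minkowski for several sets -/
theorem bm_sum (hn : 0 < Module.finrank ℝ F) (A : ℕ → Set F) (hA : ∀ i, IsCompact (A i))
    (hAn : ∀ i, (A i).Nonempty) (a : ℕ → ℝ) (ha : ∀ i, 0 ≤ a i)
    (hVA : ∀ i, (a i) ^ (Module.finrank ℝ F) ≤ ν.real (A i)) (m : ℕ) :
    IsCompact (∑ i ∈ Finset.range (m + 1), A i) ∧ (∑ i ∈ Finset.range (m + 1), A i).Nonempty ∧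
    (∑ i ∈ Finset.range (m + 1), a i) ^ (Module.finrank ℝ F) ≤
      ν.real (∑ i ∈ Finset.range (m + 1), A i) := by
  induction m with
  | zero => simpa using ⟨hA 0, hAn 0, hVA 0⟩
  | succ m ih =>
    obtain ⟨h1, h2, h3⟩ := ih
    rw [Finset.sum_range_succ, Finset.sum_range_succ a]
    exact ⟨h1.add (hA _), h2.add (hAn _),
      bm ν hn _ _ h1 (hA _) h2 (hAn _) _ _ (Finset.sum_nonneg fun i _ => ha i) (ha _) h3 (hVA _)⟩

end BM

section Sym

variable {F : Type*} [NormedAddCommGroup F] [NormedSpace ℝ F] [FiniteDimensional ℝ F]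
  [MeasurableSpace F] [BorelSpace F] (ν : Measure F) [ν.IsAddHaarMeasure]

/-- a linear map of finite order preserves Haar measure -/
theorem mp_of_pow (S : F →ₗ[ℝ] F) (m : ℕ) (hm : 0 < m) (hS : S ^ m = 1) :
    MeasurePreserving S ν ν := by
  have hd : |LinearMap.det S| = 1 := by
    have h1 : (LinearMap.det S) ^ m = 1 := by rw [← map_pow, hS, map_one]
    have h2 : |LinearMap.det S| ^ m = 1 := by rw [← abs_pow, h1, abs_one]
    exact (pow_eq_one_iff_of_nonneg (abs_nonneg _) hm.ne').1 h2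
  have hd0 : LinearMap.det S ≠ 0 := by
    intro h
    rw [h, abs_zero] at hd
    exact zero_ne_one hd
  have hc : Continuous S := S.continuous_of_finiteDimensional
  refine ⟨hc.measurable, ?_⟩
  rw [Measure.map_linearMap_addHaar_eq_smul_addHaar ν hd0, abs_inv, hd]
  simp

variable (D : F →ₗ[ℝ] ℝ) (S : F →ₗ[ℝ] F) (m : ℕ) (C : Set F)

/-- distribution of the linear functional -/
noncomputable def AA (t : ℝ) : ℝ := ν.real (C ∩ {y | D y ≤ t})

variable {D S m C} in
theorem AA_mono (hC : IsCompact C) : Monotone (AA ν D C) := by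
  intro s t hst
  refine ENNReal.toReal_mono ((measure_mono inter_subset_left).trans_lt hC.measure_lt_top).ne ?_
  exact measure_mono (inter_subset_inter_right _ fun y hy => le_trans hy hst)

theorem level (hC : IsCompact C) (s : ℝ) (hs : 0 ≤ s) :
    ν (C ∩ {y | AA ν D C (D y) ≤ s}) ≤ ENNReal.ofReal s := by
  have hDc : Continuous D := D.continuous_of_finiteDimensional
  have hm : MeasurableSet (C ∩ {y | AA ν D C (D y) ≤ s}) :=
    hC.measurableSet.inter
      (measurableSet_le ((AA_mono ν hC).measurable.comp hDc.measurable) measurable_const)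
  rw [hm.measure_eq_iSup_isCompact]
  refine iSup_le fun K => iSup_le fun hK => iSup_le fun hKc => ?_
  rcases K.eq_empty_or_nonempty with rfl | hne
  · simp
  · obtain ⟨y, hyK, hy⟩ := hKc.exists_isMaxOn hne hDc.continuousOn
    have h1 : K ⊆ C ∩ {z | D z ≤ D y} := fun z hz => ⟨(hK hz).1, hy hz⟩
    refine (measure_mono h1).trans ?_
    have h2 : AA ν D C (D y) ≤ s := (hK hyK).2
    have h3 : ν (C ∩ {z | D z ≤ D y}) ≠ ∞ :=
      ((measure_mono inter_subset_left).trans_lt hC.measure_lt_top).ne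
    rw [← ENNReal.ofReal_toReal h3]
    exact ENNReal.ofReal_le_ofReal h2

end Sym

end Pool.Agent.V1130.Bal
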