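import Mathlib
import Pool.Agent.V1130.BalA

/-!
# A Grünbaum inequality for symmetric convex sets
-/

set_option autoImplicit false

open MeasureTheory Set
open scoped ENNReal Pointwise

namespace Pool.Agent.V1130.Bal

variable {F : Type*} [NormedAddCommGroup F] [NormedSpace ℝ F] [FiniteDimensional ℝ F]
  [MeasurableSpace F] [BorelSpace F] (ν : Measure F) [ν.IsAddHaarMeasure]

variable (D : F →ₗ[ℝ] ℝ) (S : F →ₗ[ℝ] F) (C : Set F)

/-- the root of the distribution function -/
noncomputable def psi (y : F) : ℝ := (AA ν D C (D y)) ^ ((Module.finrank ℝ F : ℝ)⁻¹)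

theorem AA_nonneg (t : ℝ) : 0 ≤ AA ν D C t := measureReal_nonneg

theorem psi_nonneg (y : F) : 0 ≤ psi ν D C y := Real.rpow_nonneg (AA_nonneg ν D C _) _

theorem psi_pow (hn : 0 < Module.finrank ℝ F) (y : F) :
    (psi ν D C y) ^ (Module.finrank ℝ F) = AA ν D C (D y) :=
  Real.rpow_inv_natCast_pow (AA_nonneg ν D C _) hn.ne'

theorem psi_meas (hC : IsCompact C) : Measurable (psi ν D C) := by
  have hDc : Continuous D := D.continuous_of_finiteDimensional
  exact ((AA_mono ν hC).measurable.comp hDc.measurable).pow_const _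

variable {S C} in
theorem pow_mem (hCS : ∀ y ∈ C, S y ∈ C) (i : ℕ) : ∀ y ∈ C, (S ^ i) y ∈ C := by
  induction i with
  | zero => intro y hy; simpa using hy
  | succ i ih => intro y hy; rw [pow_succ']; exact hCS _ (ih y hy)

theorem pointwise (hn : 0 < Module.finrank ℝ F) (m : ℕ) (hC : IsCompact C) (hcv : Convex ℝ C)
    (hCS : ∀ y ∈ C, S y ∈ C)
    (hD : ∀ y, ∑ i ∈ Finset.range (m + 1), D ((S ^ i) y) = 0) (y : F) (hy : y ∈ C) :
    ∑ i ∈ Finset.range (m + 1), psi ν D C ((S ^ i) y) ≤ ((m : ℝ) + 1) * psi ν D C 0 := by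
  have hDc : Continuous D := D.continuous_of_finiteDimensional
  set d := Module.finrank ℝ F with hd
  have hcl : ∀ t : ℝ, IsCompact (C ∩ {z | D z ≤ t}) := fun t =>
    hC.inter_right (isClosed_le hDc continuous_const)
  obtain ⟨-, -, h3⟩ := bm_sum ν hn (fun i => C ∩ {z | D z ≤ D ((S ^ i) y)}) (fun i => hcl _)
    (fun i => ⟨(S ^ i) y, pow_mem hCS i y hy, (le_refl (D ((S ^ i) y)) : D ((S ^ i) y) ≤ D ((S ^ i) y))⟩)
    (fun i => psi ν D C ((S ^ i) y)) (fun i => psi_nonneg ν D C _)
    (fun i => (psi_pow ν D C hn _).le) m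
  have hm0 : (0 : ℝ) < (m : ℝ) + 1 := by positivity
  have hsub : (∑ i ∈ Finset.range (m + 1), (C ∩ {z | D z ≤ D ((S ^ i) y)})) ⊆
      ((m : ℝ) + 1) • (C ∩ {z | D z ≤ 0}) := by
    intro z hz
    rw [Set.mem_finset_sum] at hz
    obtain ⟨x, hx, hxz⟩ := hz
    refine ⟨((m : ℝ) + 1)⁻¹ • z, ⟨?_, ?_⟩, ?_⟩
    · rw [← hxz, Finset.smul_sum]
      refine hcv.sum_mem (fun _ _ => by positivity) ?_ (fun i hi => (hx hi).1)
      rw [Finset.sum_const, Finset.card_range, nsmul_eq_mul]
      push_cast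
      field_simp
    · show D (((m : ℝ) + 1)⁻¹ • z) ≤ 0
      rw [map_smul, ← hxz, map_sum, smul_eq_mul]
      have : ∑ i ∈ Finset.range (m + 1), D (x i) ≤ 0 := by
        rw [← hD y]
        exact Finset.sum_le_sum fun i hi => (hx hi).2
      exact mul_nonpos_of_nonneg_of_nonpos (by positivity) this
    · show ((m : ℝ) + 1) • ((m : ℝ) + 1)⁻¹ • z = z
      rw [smul_smul, mul_inv_cancel₀ hm0.ne', one_smul]
  have h4 : ν.real (∑ i ∈ Finset.range (m + 1), (C ∩ {z | D z ≤ D ((S ^ i) y)})) ≤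
      (((m : ℝ) + 1) * psi ν D C 0) ^ d := by
    rw [mul_pow, psi_pow ν D C hn, map_zero]
    have h5 : ν.real (((m : ℝ) + 1) • (C ∩ {z | D z ≤ 0})) = ((m : ℝ) + 1) ^ d * AA ν D C 0 := by
      unfold AA Measure.real
      rw [Measure.addHaar_smul, ENNReal.toReal_mul, abs_of_pos (pow_pos hm0 _),
        ENNReal.toReal_ofReal (pow_pos hm0 _).le]
    rw [← h5]
    exact ENNReal.toReal_mono ((hcl 0).smul _).measure_ne_top (measure_mono hsub)
  exact (pow_le_pow_iff_left₀ (Finset.sum_nonneg fun i _ => psi_nonneg ν D C _)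
    (mul_nonneg hm0.le (psi_nonneg ν D C _)) hn.ne').1 (h3.trans h4)

/-- the integral of the root of the distribution function -/
theorem upper (hn : 0 < Module.finrank ℝ F) (m : ℕ) (hC : IsCompact C) (hcv : Convex ℝ C)
    (hCS : ∀ y ∈ C, S y ∈ C) (hS : S ^ (m + 1) = 1)
    (hD : ∀ y, ∑ i ∈ Finset.range (m + 1), D ((S ^ i) y) = 0) :
    ∫⁻ y in C, ENNReal.ofReal (psi ν D C y) ∂ν ≤ ENNReal.ofReal (psi ν D C 0) * ν C := by
  have hm0 : (0 : ℝ) < (m : ℝ) + 1 := by positivity
  have hmeas : Measurable fun y => ENNReal.ofReal (psi ν D C y) :=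
    (psi_meas ν D C hC).ennreal_ofReal
  have hSi : ∀ i : ℕ, (S ^ i) ^ (m + 1) = 1 := fun i => by
    rw [← pow_mul, mul_comm, pow_mul, hS, one_pow]
  have hmp : ∀ i : ℕ, MeasurePreserving (⇑(S ^ i)) ν ν := fun i =>
    mp_of_pow ν _ (m + 1) (by omega) (hSi i)
  have hpre : ∀ i : ℕ, ⇑(S ^ i) ⁻¹' C = C := by
    intro i
    ext y
    constructor
    · intro hy
      have h1 : ((S ^ i) ^ m) ((S ^ i) y) ∈ C := by
        rw [← pow_mul]
        exact pow_mem hCS _ _ hy
      have h2 : ((S ^ i) ^ m) ((S ^ i) y) = ((S ^ i) ^ (m + 1)) y := by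
        rw [pow_succ]; rfl
      rw [h2, hSi] at h1
      exact h1
    · intro hy
      exact pow_mem hCS i y hy
  have hint : ∀ i : ℕ, ∫⁻ y in C, ENNReal.ofReal (psi ν D C ((S ^ i) y)) ∂ν =
      ∫⁻ y in C, ENNReal.ofReal (psi ν D C y) ∂ν := by
    intro i
    have := (hmp i).setLIntegral_comp_preimage hC.measurableSet hmeas
    rw [hpre i] at this
    exact this
  have h1 : ((m : ℝ≥0∞) + 1) * ∫⁻ y in C, ENNReal.ofReal (psi ν D C y) ∂ν ≤
      ENNReal.ofReal (((m : ℝ) + 1) * psi ν D C 0) * ν C := by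
    calc ((m : ℝ≥0∞) + 1) * ∫⁻ y in C, ENNReal.ofReal (psi ν D C y) ∂ν
        = ∑ i ∈ Finset.range (m + 1), ∫⁻ y in C, ENNReal.ofReal (psi ν D C ((S ^ i) y)) ∂ν := by
          rw [Finset.sum_congr rfl fun i _ => hint i, Finset.sum_const, Finset.card_range,
            nsmul_eq_mul]
          push_cast
          ring
      _ = ∫⁻ y in C, ∑ i ∈ Finset.range (m + 1), ENNReal.ofReal (psi ν D C ((S ^ i) y)) ∂ν := by
          rw [lintegral_finset_sum']
          intro i _
          exact (hmeas.comp (hmp i).measurable).aemeasurable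
      _ ≤ ∫⁻ y in C, ENNReal.ofReal (((m : ℝ) + 1) * psi ν D C 0) ∂ν := by
          refine setLIntegral_mono' hC.measurableSet fun y hy => ?_
          rw [← ENNReal.ofReal_sum_of_nonneg fun i _ => psi_nonneg ν D C _]
          exact ENNReal.ofReal_le_ofReal (pointwise ν D S C hn m hC hcv hCS hD y hy)
      _ = _ := by rw [setLIntegral_const]
  have h2 : ENNReal.ofReal (((m : ℝ) + 1) * psi ν D C 0) =
      ((m : ℝ≥0∞) + 1) * ENNReal.ofReal (psi ν D C 0) := by
    rw [ENNReal.ofReal_mul hm0.le]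
    congr 1
    rw [ENNReal.ofReal_add (by positivity) (by norm_num), ENNReal.ofReal_natCast, ENNReal.ofReal_one]
  rw [h2, mul_assoc] at h1
  have h3 : ((m : ℝ≥0∞) + 1) ≠ 0 := by positivity
  have h4 : ((m : ℝ≥0∞) + 1) ≠ ∞ := by finiteness
  exact (ENNReal.mul_le_mul_iff_right h3 h4).1 h1

/-- the lower bound for the integral of the root of the distribution function -/
theorem lower (hn : 0 < Module.finrank ℝ F) (hC : IsCompact C) (v : ℝ) (hv : 0 ≤ v)
    (hvV : v ^ (Module.finrank ℝ F) = ν.real C) :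
    ENNReal.ofReal (v ^ (Module.finrank ℝ F + 1) *
      ((Module.finrank ℝ F : ℝ) / ((Module.finrank ℝ F : ℝ) + 1))) ≤
    ∫⁻ y in C, ENNReal.ofReal (psi ν D C y) ∂ν := by
  set d := Module.finrank ℝ F with hd
  have hmeas := psi_meas ν D C hC
  rw [lintegral_eq_lintegral_meas_lt _ (Filter.Eventually.of_forall fun y => psi_nonneg ν D C y)
    hmeas.aemeasurable]
  have hlow : ∀ t ∈ Ioc (0 : ℝ) v, ENNReal.ofReal (v ^ d - t ^ d) ≤
      (ν.restrict C) {y | t < psi ν D C y} := by
    intro t ht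
    have hm1 : MeasurableSet {y | t < psi ν D C y} := measurableSet_lt measurable_const hmeas
    rw [Measure.restrict_apply hm1]
    have h1 : C ∩ {y | AA ν D C (D y) ≤ t ^ d} = C \ {y | t < psi ν D C y} := by
      ext y
      simp only [mem_inter_iff, mem_ofPred_eq, mem_sdiff, not_lt]
      refine and_congr_right fun _ => ?_
      rw [← psi_pow ν D C hn y]
      exact pow_le_pow_iff_left₀ (psi_nonneg ν D C y) ht.1.le hn.ne'
    have h2 := level ν D C hC (t ^ d) (pow_nonneg ht.1.le _)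
    rw [h1] at h2
    have h3 : ν C ≤ ν ({y | t < psi ν D C y} ∩ C) + ν (C \ {y | t < psi ν D C y}) := by
      rw [inter_comm]
      exact measure_le_inter_add_sdiff ν C _
    have h4 : ν C = ENNReal.ofReal (v ^ d) := by
      rw [hvV]
      exact (ENNReal.ofReal_toReal hC.measure_ne_top).symm
    rw [h4] at h3
    rw [ENNReal.ofReal_sub _ (pow_nonneg ht.1.le _)]
    exact tsub_le_iff_right.2 (h3.trans (add_le_add_right h2 _))
  calc ENNReal.ofReal (v ^ (d + 1) * ((d : ℝ) / ((d : ℝ) + 1)))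
      = ∫⁻ t in Ioc 0 v, ENNReal.ofReal (v ^ d - t ^ d) := by
        rw [← ofReal_integral_eq_lintegral_ofReal]
        · congr 1
          rw [← intervalIntegral.integral_of_le hv, intervalIntegral.integral_sub
            (by simp) (by simp), integral_pow]
          simp only [intervalIntegral.integral_const, smul_eq_mul]
          have : (0 : ℝ) < (d : ℝ) + 1 := by positivity
          field_simp
          ring
        · refine Continuous.integrableOn_Ioc ?_
          fun_prop
        · rw [Filter.EventuallyLE, ae_restrict_iff' measurableSet_Ioc]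
          refine Filter.Eventually.of_forall fun t ht => ?_
          have := pow_le_pow_left₀ ht.1.le ht.2 d
          show (0 : ℝ) ≤ v ^ d - t ^ d
          linarith
    _ ≤ ∫⁻ t in Ioc 0 v, (ν.restrict C) {y | t < psi ν D C y} :=
        setLIntegral_mono' measurableSet_Ioc hlow
    _ ≤ ∫⁻ t in Ioi 0, (ν.restrict C) {y | t < psi ν D C y} :=
        lintegral_mono_set Ioc_subset_Ioi_self

/-- **Grünbaum's inequality for symmetric convex sets** -/
theorem sym_compact (hn : 0 < Module.finrank ℝ F) (m : ℕ) (hC : IsCompact C) (hcv : Convex ℝ C)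
    (hCS : ∀ y ∈ C, S y ∈ C) (hS : S ^ (m + 1) = 1)
    (hD : ∀ y, ∑ i ∈ Finset.range (m + 1), D ((S ^ i) y) = 0) :
    ν.real C * ((Module.finrank ℝ F : ℝ) / ((Module.finrank ℝ F : ℝ) + 1)) ^ Module.finrank ℝ F ≤
      ν.real (C ∩ {y | D y ≤ 0}) := by
  set d := Module.finrank ℝ F with hd
  rcases (measureReal_nonneg (μ := ν) (s := C)).eq_or_lt with h0 | h0
  · rw [← h0, zero_mul]
    exact measureReal_nonneg
  set v : ℝ := (ν.real C) ^ ((d : ℝ)⁻¹) with hv
  have hv0 : 0 ≤ v := Real.rpow_nonneg h0.le _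
  have hvV : v ^ d = ν.real C := Real.rpow_inv_natCast_pow h0.le hn.ne'
  have h1 := (lower ν D C hn hC v hv0 hvV).trans (upper ν D S C hn m hC hcv hCS hS hD)
  have h4 : ν C = ENNReal.ofReal (v ^ d) := by
    rw [hvV]
    exact (ENNReal.ofReal_toReal hC.measure_ne_top).symm
  rw [h4, ← ENNReal.ofReal_mul (psi_nonneg ν D C 0), ENNReal.ofReal_le_ofReal_iff
    (mul_nonneg (psi_nonneg ν D C 0) (pow_nonneg hv0 _))] at h1
  have hVpos : 0 < v ^ d := by rw [hvV]; exact h0
  have h5 : v * ((d : ℝ) / ((d : ℝ) + 1)) ≤ psi ν D C 0 := by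
    have : v * ((d : ℝ) / ((d : ℝ) + 1)) * v ^ d ≤ psi ν D C 0 * v ^ d := by
      calc _ = v ^ (d + 1) * ((d : ℝ) / ((d : ℝ) + 1)) := by ring
        _ ≤ _ := h1
    exact le_of_mul_le_mul_right this hVpos
  have h6 := pow_le_pow_left₀ (mul_nonneg hv0 (by positivity)) h5 d
  rw [mul_pow, hvV, psi_pow ν D C hn, map_zero] at h6
  exact h6

/-- the same inequality for bounded convex sets -/
theorem sym_convex (hn : 0 < Module.finrank ℝ F) (m : ℕ) (hC : Bornology.IsBounded C)
    (hcv : Convex ℝ C)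
    (hCS : ∀ y ∈ C, S y ∈ C) (hS : S ^ (m + 1) = 1)
    (hD : ∀ y, ∑ i ∈ Finset.range (m + 1), D ((S ^ i) y) = 0) :
    ν C * ENNReal.ofReal
      (((Module.finrank ℝ F : ℝ) / ((Module.finrank ℝ F : ℝ) + 1)) ^ Module.finrank ℝ F) ≤
      ν (C ∩ {y | D y ≤ 0}) := by
  set d := Module.finrank ℝ F with hd
  have hcc : IsCompact (closure C) := hC.isCompact_closure
  have hSc : Continuous S := S.continuous_of_finiteDimensional
  have h1 := sym_compact ν D S (closure C) hn m hcc hcv.closure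
    (fun y hy => map_mem_closure hSc hy hCS) hS hD
  have h2 : ENNReal.ofReal (ν.real (closure C) * ((d : ℝ) / ((d : ℝ) + 1)) ^ d) ≤
      ν (closure C ∩ {y | D y ≤ 0}) := by
    refine (ENNReal.ofReal_le_ofReal h1).trans ?_
    exact ENNReal.ofReal_toReal_le
  have h3 : ν (closure C) = ν C := by
    refine le_antisymm ?_ (measure_mono subset_closure)
    calc ν (closure C) ≤ ν (C ∪ frontier C) := by
          refine measure_mono ?_
          rw [← closure_sdiff_interior C]
          intro z hz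
          by_cases h : z ∈ C
          · exact Or.inl h
          · exact Or.inr ⟨hz, fun h' => h (interior_subset h')⟩
      _ ≤ ν C + ν (frontier C) := measure_union_le _ _
      _ = ν C := by rw [hcv.addHaar_frontier ν, add_zero]
  have h4 : ν (closure C ∩ {y | D y ≤ 0}) ≤ ν (C ∩ {y | D y ≤ 0}) := by
    calc ν (closure C ∩ {y | D y ≤ 0}) ≤ ν ((C ∩ {y | D y ≤ 0}) ∪ frontier C) := by
          refine measure_mono ?_
          rw [← closure_sdiff_interior C]
          intro z hz
          by_cases h : z ∈ C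
          · exact Or.inl ⟨h, hz.2⟩
          · exact Or.inr ⟨hz.1, fun h' => h (interior_subset h')⟩
      _ ≤ ν (C ∩ {y | D y ≤ 0}) + ν (frontier C) := measure_union_le _ _
      _ = _ := by rw [hcv.addHaar_frontier ν, add_zero]
  rw [ENNReal.ofReal_mul measureReal_nonneg] at h2
  have h5 : ENNReal.ofReal (ν.real (closure C)) = ν C := by
    rw [← h3]
    exact ENNReal.ofReal_toReal hcc.measure_ne_top
  rw [h5] at h2
  exact h2.trans h4

end Pool.Agent.V1130.Bal
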