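import Mathlib
import Pool.Agent.V1130.BalB

/-!
# Slices of a convex body with a symmetry
-/

set_option autoImplicit false

open MeasureTheory Set
open scoped ENNReal Pointwise

namespace Pool.Agent.V1130.Bal

variable {F : Type*} [NormedAddCommGroup F] [NormedSpace ℝ F] [FiniteDimensional ℝ F]
  [MeasurableSpace F] [BorelSpace F] (ν : Measure F) [ν.IsAddHaarMeasure]
variable {G : Type*} [NormedAddCommGroup G] [NormedSpace ℝ G] [FiniteDimensional ℝ G]
  [MeasurableSpace G] [BorelSpace G] (μ : Measure G) [μ.IsAddHaarMeasure]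

theorem slices (D : F →ₗ[ℝ] ℝ) (S : F →ₗ[ℝ] F) (R : G →ₗ[ℝ] G) (K : Set (F × G))
    (hn : 0 < Module.finrank ℝ F) (m r : ℕ) (hK : IsCompact K) (hcv : Convex ℝ K)
    (hinv : ∀ q ∈ K, (S q.1, R q.2) ∈ K) (hS : S ^ (m + 1) = 1) (hR : R ^ (r + 1) = 1)
    (hD : ∀ y, ∑ i ∈ Finset.range (m + 1), D ((S ^ i) y) = 0) :
    (ν.prod μ) K * ENNReal.ofReal
      (((Module.finrank ℝ F : ℝ) / ((Module.finrank ℝ F : ℝ) + 1)) ^ Module.finrank ℝ F) ≤
      (ν.prod μ) (K ∩ {q | D q.1 ≤ 0}) := by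
  set c : ℝ≥0∞ := ENNReal.ofReal
      (((Module.finrank ℝ F : ℝ) / ((Module.finrank ℝ F : ℝ) + 1)) ^ Module.finrank ℝ F) with hc
  have hDc : Continuous D := D.continuous_of_finiteDimensional
  have hH : MeasurableSet {y : F | D y ≤ 0} := measurableSet_le hDc.measurable measurable_const
  have hsl : ∀ y : F, IsCompact (Prod.mk y ⁻¹' K) := fun y =>
    (hK.image continuous_snd).of_isClosed_subset
      (hK.isClosed.preimage (Continuous.prodMk_right y)) fun z hz => ⟨(y, z), hz, rfl⟩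
  have hgm : Measurable fun y : F => μ (Prod.mk y ⁻¹' K) :=
    measurable_measure_prodMk_left hK.measurableSet
  have hgf : ∀ y : F, μ (Prod.mk y ⁻¹' K) ≠ ∞ := fun y => (hsl y).measure_ne_top
  have hg0 : ∀ y : F, 0 ≤ μ.real (Prod.mk y ⁻¹' K) := fun y => measureReal_nonneg
  have hge : ∀ y : F, μ (Prod.mk y ⁻¹' K) = ENNReal.ofReal (μ.real (Prod.mk y ⁻¹' K)) := fun y =>
    (ENNReal.ofReal_toReal (hgf y)).symm
  have hgrm : Measurable fun y : F => μ.real (Prod.mk y ⁻¹' K) := hgm.ennreal_toReal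
  have h1 : (ν.prod μ) K = ∫⁻ s in Ioi 0, ν {y | s < μ.real (Prod.mk y ⁻¹' K)} := by
    rw [Measure.prod_apply hK.measurableSet]
    simp_rw [hge]
    exact lintegral_eq_lintegral_meas_lt ν (Filter.Eventually.of_forall hg0) hgrm.aemeasurable
  have h2 : (ν.prod μ) (K ∩ {q | D q.1 ≤ 0}) =
      ∫⁻ s in Ioi 0, ν ({y | s < μ.real (Prod.mk y ⁻¹' K)} ∩ {y | D y ≤ 0}) := by
    have hm2 : MeasurableSet (K ∩ {q : F × G | D q.1 ≤ 0}) :=
      hK.measurableSet.inter (measurable_fst hH)
    rw [Measure.prod_apply hm2]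
    have h3 : ∀ y : F, μ (Prod.mk y ⁻¹' (K ∩ {q : F × G | D q.1 ≤ 0})) =
        ({y : F | D y ≤ 0}).indicator (fun y => μ (Prod.mk y ⁻¹' K)) y := by
      intro y
      by_cases hy : D y ≤ 0
      · rw [indicator_of_mem (show y ∈ {y : F | D y ≤ 0} from hy)]
        congr 1
        ext z
        exact ⟨fun h => h.1, fun h => ⟨h, hy⟩⟩
      · rw [indicator_of_notMem (show y ∉ {y : F | D y ≤ 0} from hy)]
        convert measure_empty (μ := μ)
        ext z
        exact ⟨fun h => absurd h.2 hy, fun h => absurd h (notMem_empty z)⟩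
    simp_rw [h3]
    rw [lintegral_indicator hH]
    simp_rw [hge]
    rw [lintegral_eq_lintegral_meas_lt (ν.restrict {y : F | D y ≤ 0})
      (Filter.Eventually.of_forall hg0) hgrm.aemeasurable]
    refine lintegral_congr fun s => ?_
    rw [Measure.restrict_apply (measurableSet_lt measurable_const hgrm)]
  rw [h1, h2, ← lintegral_mul_const']
  · refine setLIntegral_mono' measurableSet_Ioi fun s hs => ?_
    have hs0 : (0 : ℝ) < s := hs
    apply sym_convex ν D S _ hn m
    · -- bounded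
      refine (hK.image continuous_fst).isBounded.subset ?_
      intro y hy
      have hy' : s < μ.real (Prod.mk y ⁻¹' K) := hy
      have hne : (Prod.mk y ⁻¹' K).Nonempty := by
        rw [nonempty_iff_ne_empty]
        intro h
        rw [h] at hy'
        simp at hy'
        linarith
      obtain ⟨z, hz⟩ := hne
      exact ⟨(y, z), hz, rfl⟩
    · -- convex
      rw [convex_iff_forall_pos]
      intro y hy y' hy' a b ha hb hab
      have hy1 : s < μ.real (Prod.mk y ⁻¹' K) := hy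
      have hy2 : s < μ.real (Prod.mk y' ⁻¹' K) := hy'
      have hmin := two μ b hb (by linarith) (Prod.mk y ⁻¹' K) (Prod.mk y' ⁻¹' K)
        (Prod.mk (a • y + b • y') ⁻¹' K) (hsl _) (hsl _) (hsl _) ?_
        (min (μ (Prod.mk y ⁻¹' K)) (μ (Prod.mk y' ⁻¹' K))) (min_le_left _ _) (min_le_right _ _)
      · show s < μ.real (Prod.mk (a • y + b • y') ⁻¹' K)
        have h4 := ENNReal.toReal_mono (hgf _) hmin
        rw [ENNReal.toReal_min (hgf _) (hgf _)] at h4
        exact (lt_min hy1 hy2).trans_le h4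
      · intro z hz w hw
        have ha' : 1 - b = a := by linarith
        rw [ha']
        have := hcv (show (y, z) ∈ K from hz) (show (y', w) ∈ K from hw) ha.le hb.le hab
        exact this
    · -- invariant
      intro y hy
      have hy1 : s < μ.real (Prod.mk y ⁻¹' K) := hy
      show s < μ.real (Prod.mk (S y) ⁻¹' K)
      refine hy1.trans_le (ENNReal.toReal_mono (hgf _) ?_)
      have hmp := mp_of_pow μ R (r + 1) (by omega) hR
      rw [← hmp.measure_preimage (hsl (S y)).measurableSet.nullMeasurableSet]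
      refine measure_mono fun z hz => ?_
      exact hinv (y, z) hz
    · exact hS
    · exact hD
  · exact ENNReal.ofReal_ne_top

/-- the decomposed form: `E = F × G` through a linear equivalence -/
theorem decomposed {E : Type*} [NormedAddCommGroup E] [NormedSpace ℝ E] [FiniteDimensional ℝ E]
    [MeasurableSpace E] [BorelSpace E] (κ : Measure E) [κ.IsAddHaarMeasure]
    (e : (F × G) ≃ₗ[ℝ] E)
    (D : E →ₗ[ℝ] ℝ) (T : E →ₗ[ℝ] E) (S : F →ₗ[ℝ] F) (R : G →ₗ[ℝ] G) (K : Set E)
    (hn : 0 < Module.finrank ℝ F) (m r : ℕ) (hK : IsCompact K) (hcv : Convex ℝ K)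
    (hDe : ∀ y z, D (e (y, z)) = D (e (y, 0)))
    (hTe : ∀ y z, T (e (y, z)) = e (S y, R z))
    (hinv : ∀ f ∈ K, T f ∈ K) (hS : S ^ (m + 1) = 1) (hR : R ^ (r + 1) = 1)
    (hD : ∀ y, ∑ i ∈ Finset.range (m + 1), D ((T ^ i) y) = 0) :
    κ K * ENNReal.ofReal
      (((Module.finrank ℝ F : ℝ) / ((Module.finrank ℝ F : ℝ) + 1)) ^ Module.finrank ℝ F) ≤
      κ (K ∩ {f | D f ≤ 0}) := by
  let ν : Measure F := Measure.addHaar
  let μ : Measure G := Measure.addHaar
  let ec : (F × G) ≃L[ℝ] E := e.toContinuousLinearEquiv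
  have hec : ∀ q, ec q = e q := fun q => rfl
  have : (Measure.map ec (ν.prod μ)).IsAddHaarMeasure := ec.isAddHaarMeasure_map _
  obtain ⟨c, hc⟩ : ∃ c : ℝ≥0∞, κ = c • Measure.map ec (ν.prod μ) :=
    ⟨_, Measure.isAddLeftInvariant_eq_smul κ (Measure.map ec (ν.prod μ))⟩
  have hDc : Continuous D := D.continuous_of_finiteDimensional
  have hKm := hK.measurableSet
  have hHm : MeasurableSet (K ∩ {f | D f ≤ 0}) :=
    hKm.inter (measurableSet_le hDc.measurable measurable_const)
  have hm : Measurable ec := ec.continuous.measurable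
  rw [hc, Measure.smul_apply, Measure.smul_apply, Measure.map_apply hm hKm,
    Measure.map_apply hm hHm, smul_eq_mul, smul_eq_mul, mul_assoc]
  refine mul_le_mul_right ?_ c
  have hKc : IsCompact (ec ⁻¹' K) := ec.toHomeomorph.isCompact_preimage.2 hK
  let D' : F →ₗ[ℝ] ℝ := D ∘ₗ e.toLinearMap ∘ₗ LinearMap.inl ℝ F G
  have hD' : ∀ y, D' y = D (e (y, 0)) := fun y => rfl
  have hpow : ∀ (i : ℕ) (y : F), (T ^ i) (e (y, 0)) = e ((S ^ i) y, 0) := by
    intro i
    induction i with
    | zero => intro y; rfl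
    | succ i ih =>
      intro y
      rw [pow_succ, pow_succ]
      show (T ^ i) (T (e (y, 0))) = e ((S ^ i) (S y), 0)
      rw [hTe, map_zero, ih]
  have h := slices ν μ D' S R (ec ⁻¹' K) hn m r hKc
    (hcv.linear_preimage (ec : (F × G) ≃L[ℝ] E).toLinearEquiv.toLinearMap) ?_ hS hR ?_
  · refine h.trans (measure_mono ?_)
    rintro ⟨y, z⟩ ⟨h1, h2⟩
    refine ⟨h1, ?_⟩
    show D (ec (y, z)) ≤ 0
    rw [hec, hDe]
    exact h2
  · rintro ⟨y, z⟩ hq
    show ec (S y, R z) ∈ K
    rw [hec, ← hTe]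
    exact hinv _ hq
  · intro y
    rw [← hD (e (y, 0))]
    refine Finset.sum_congr rfl fun i _ => ?_
    rw [hD', hpow]

end Pool.Agent.V1130.Bal
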