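import Mathlib
import Pool.Agent.H931R3.Bal12
import Pool.Agent.V1130.BalA

/-!
# Order polytopes and linear extensions
-/

set_option autoImplicit false

open MeasureTheory Set
open scoped ENNReal

namespace Pool.Agent.V1130.Bal

open Pool.Agent.H13R3.WB

variable (P : Type) [Fintype P] [PartialOrder P]

/-- the order polytope -/
def Kp : Set (P → ℝ) := {f | Monotone f ∧ ∀ a, f a ∈ Icc (0 : ℝ) 1}

/-- the unit cube -/
def cube (P : Type) : Set (P → ℝ) := {f | ∀ a, f a ∈ Icc (0 : ℝ) 1}

variable {P}

/-- the functions in the cube with a given order -/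
def cell {n : ℕ} (σ : P ≃ Fin n) : Set (P → ℝ) := {f | f ∈ cube P ∧ ∀ a b, σ a < σ b → f a < f b}

omit [Fintype P] [PartialOrder P] in
theorem cube_eq : cube P = Set.univ.pi fun _ => Icc (0 : ℝ) 1 := by
  ext f
  exact ⟨fun h i _ => h i, fun h a => h a (mem_univ a)⟩

omit [Fintype P] [PartialOrder P] in
theorem cube_compact : IsCompact (cube P) := by
  rw [cube_eq]
  exact isCompact_univ_pi fun _ => isCompact_Icc

omit [PartialOrder P] in
theorem cube_vol : volume (cube P) = 1 := by
  rw [cube_eq, volume_pi_pi]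
  simp

theorem Kp_compact : IsCompact (Kp P) := by
  refine cube_compact.of_isClosed_subset ?_ fun f hf => hf.2
  have h : Kp P = (⋂ a : P, ⋂ b : P, ⋂ _ : a ≤ b, {f : P → ℝ | f a ≤ f b}) ∩ cube P := by
    ext f
    simp only [Kp, cube, mem_ofPred_eq, mem_inter_iff, mem_iInter]
    exact ⟨fun h => ⟨fun a b hab => h.1 hab, h.2⟩, fun h => ⟨fun a b hab => h.1 a b hab, h.2⟩⟩
  rw [h]
  refine IsClosed.inter ?_ cube_compact.isClosed
  exact isClosed_iInter fun a => isClosed_iInter fun b => isClosed_iInter fun _ =>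
    isClosed_le (continuous_apply a) (continuous_apply b)

theorem Kp_convex : Convex ℝ (Kp P) := by
  intro f hf g hg s t hs ht hst
  constructor
  · intro a b hab
    show s * f a + t * g a ≤ s * f b + t * g b
    have h1 := mul_le_mul_of_nonneg_left (hf.1 hab) hs
    have h2 := mul_le_mul_of_nonneg_left (hg.1 hab) ht
    linarith
  · intro a
    exact (convex_Icc (0 : ℝ) 1) (hf.2 a) (hg.2 a) hs ht hst

/-- a permutation of coordinates -/
theorem funLeft_pow {Q : Type*} (e : Equiv.Perm Q) (k : ℕ) :
    (LinearMap.funLeft ℝ ℝ e) ^ k = LinearMap.funLeft ℝ ℝ ⇑(e ^ k) := by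
  induction k with
  | zero => ext f a; simp
  | succ k ih =>
    rw [pow_succ, ih, pow_succ']
    ext f a
    simp [LinearMap.funLeft_apply]

theorem funLeft_order {Q : Type*} [Finite Q] (e : Equiv.Perm Q) :
    ∃ r : ℕ, (LinearMap.funLeft ℝ ℝ e) ^ (r + 1) = 1 := by
  refine ⟨orderOf e - 1, ?_⟩
  rw [Nat.sub_add_cancel (orderOf_pos e), funLeft_pow, pow_orderOf_eq_one]
  ext f a
  simp

theorem funLeft_mp {Q : Type*} [Fintype Q] (e : Equiv.Perm Q) :
    MeasurePreserving (LinearMap.funLeft ℝ ℝ e) (volume : Measure (Q → ℝ)) volume := by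
  obtain ⟨r, hr⟩ := funLeft_order e
  exact mp_of_pow volume _ (r + 1) (by omega) hr

omit [PartialOrder P] in
theorem cell_meas {n : ℕ} (σ : P ≃ Fin n) : MeasurableSet (cell σ) := by
  have h : cell σ = cube P ∩ ⋂ a : P, ⋂ b : P, ⋂ _ : σ a < σ b, {f : P → ℝ | f a < f b} := by
    ext f
    simp only [cell, mem_ofPred_eq, mem_inter_iff, mem_iInter]
  rw [h]
  refine MeasurableSet.inter ?_ ?_
  · rw [cube_eq]
    exact MeasurableSet.univ_pi fun _ => measurableSet_Icc
  · exact MeasurableSet.iInter fun a => MeasurableSet.iInter fun b => MeasurableSet.iInter fun _ =>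
      measurableSet_lt (measurable_pi_apply a) (measurable_pi_apply b)

omit [PartialOrder P] in
theorem cell_vol {n : ℕ} (σ τ : P ≃ Fin n) : volume (cell σ) = volume (cell τ) := by
  classical
  set e : Equiv.Perm P := τ.trans σ.symm with he
  have h := funLeft_mp e
  rw [← h.measure_preimage (cell_meas τ).nullMeasurableSet]
  congr 1
  ext f
  have e1 : ∀ a, σ (e a) = τ a := fun a => by simp [he]
  constructor
  · rintro ⟨h1, h2⟩
    refine ⟨fun a => h1 _, fun a b hab => h2 _ _ ?_⟩
    rw [e1, e1]
    exact hab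
  · rintro ⟨h1, h2⟩
    refine ⟨fun a => ?_, fun a b hab => ?_⟩
    · have := h1 (e.symm a)
      rwa [LinearMap.funLeft_apply, Equiv.apply_symm_apply] at this
    · have := h2 (e.symm a) (e.symm b) (by rw [← e1, ← e1]; simpa using hab)
      rwa [LinearMap.funLeft_apply, LinearMap.funLeft_apply, Equiv.apply_symm_apply,
        Equiv.apply_symm_apply] at this

omit [PartialOrder P] in
theorem cell_lt_iff {n : ℕ} {σ : P ≃ Fin n} {f : P → ℝ} (hf : f ∈ cell σ) (a b : P) :
    f a < f b ↔ σ a < σ b := by
  constructor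
  · intro h
    rcases lt_trichotomy (σ a) (σ b) with h1 | h1 | h1
    · exact h1
    · rw [σ.injective h1] at h
      exact absurd h (lt_irrefl _)
    · exact absurd (hf.2 b a h1) (not_lt.2 h.le)
  · exact hf.2 a b

omit [PartialOrder P] in
theorem cell_disj {n : ℕ} {σ τ : P ≃ Fin n} (h : σ ≠ τ) : Disjoint (cell σ) (cell τ) := by
  rw [Set.disjoint_left]
  intro f h1 h2
  apply h
  have h3 : StrictMono (τ ∘ σ.symm) := by
    intro i j hij
    have h4 : σ (σ.symm i) < σ (σ.symm j) := by simpa using hij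
    exact (cell_lt_iff h2 _ _).1 ((cell_lt_iff h1 _ _).2 h4)
  have h5 : τ ∘ σ.symm = id := by
    refine h3.range_inj strictMono_id |>.1 ?_
    rw [(σ.symm.trans τ).surjective.range_eq |> fun (h : range (τ ∘ σ.symm) = univ) => h, range_id]
  ext a
  have := congrFun h5 (σ a)
  simp only [Function.comp_apply, Equiv.symm_apply_apply, id_eq] at this
  rw [this]

omit [PartialOrder P] in
theorem hyper_null {a b : P} (h : a ≠ b) : volume {f : P → ℝ | f a = f b} = 0 := by
  classical
  let L : (P → ℝ) →ₗ[ℝ] ℝ := (LinearMap.proj a : (P → ℝ) →ₗ[ℝ] ℝ) - LinearMap.proj b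
  have h1 : {f : P → ℝ | f a = f b} = (LinearMap.ker L : Set (P → ℝ)) := by
    ext f
    simp [L, sub_eq_zero]
  rw [h1]
  refine Measure.addHaar_submodule _ _ ?_
  intro h2
  have h3 : (Pi.single a (1 : ℝ) : P → ℝ) ∈ LinearMap.ker L := by rw [h2]; trivial
  simp [L, h] at h3

omit [PartialOrder P] in
open scoped Classical in
theorem sum_cells (B : Set (P → ℝ)) (hB : MeasurableSet B) (hBc : B ⊆ cube P) :
    volume B = ∑ σ : P ≃ Fin (Fintype.card P), volume (B ∩ cell σ) := by
  have h1 : volume B = volume (⋃ σ : P ≃ Fin (Fintype.card P), B ∩ cell σ) := by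
    refine le_antisymm ?_ (measure_mono (iUnion_subset fun σ => inter_subset_left))
    have hnull : volume (⋃ a : P, ⋃ b : P, ⋃ _ : a ≠ b, {f : P → ℝ | f a = f b}) = 0 := by
      rw [measure_iUnion_null_iff]
      intro a
      rw [measure_iUnion_null_iff]
      intro b
      rw [measure_iUnion_null_iff]
      intro h
      exact hyper_null h
    refine (measure_mono ?_).trans ((measure_union_le
      (⋃ σ : P ≃ Fin (Fintype.card P), B ∩ cell σ) _).trans (by rw [hnull, add_zero]))
    intro f hf
    by_cases hinj : Function.Injective f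
    · left
      obtain ⟨σ, hσ⟩ := Pool.Agent.H931R3.Bal.exists_rank f hinj rfl
      exact mem_iUnion.2 ⟨σ, hf, hBc hf, fun a b hab => (hσ a b).1 hab⟩
    · right
      rw [Function.Injective] at hinj
      push Not at hinj
      obtain ⟨a, b, hab, hne⟩ := hinj
      exact mem_iUnion.2 ⟨a, mem_iUnion.2 ⟨b, mem_iUnion.2 ⟨hne, hab⟩⟩⟩
  rw [h1, measure_iUnion, tsum_fintype]
  · intro σ τ h
    exact (cell_disj h).mono inter_subset_right inter_subset_right
  · intro σ
    exact hB.inter (cell_meas σ)

theorem prob_ge {a b : P} (hab : a ≠ b) (c : ℝ)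
    (h : volume (Kp P) * ENNReal.ofReal c ≤ volume (Kp P ∩ {f | f a ≤ f b})) :
    c ≤ prob P a b := by
  classical
  set n := Fintype.card P with hn
  obtain ⟨σ0⟩ : Nonempty (P ≃ Fin n) := ⟨Fintype.equivFin P⟩
  set v := volume (cell σ0) with hv
  have hvol : ∀ σ : P ≃ Fin n, volume (cell σ) = v := fun σ => cell_vol σ σ0
  have hv1 : v ≤ 1 := by
    rw [← cube_vol (P := P)]
    exact measure_mono fun f hf => hf.1
  have hv0 : v ≠ 0 := by
    intro h0
    have h1 := sum_cells (cube P) cube_compact.measurableSet Subset.rfl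
    rw [cube_vol] at h1
    have h2 : ∀ σ : P ≃ Fin n, volume (cube P ∩ cell σ) = 0 := fun σ => by
      refine measure_mono_null inter_subset_right ?_
      rw [hvol, h0]
    rw [Finset.sum_congr rfl fun σ _ => h2 σ] at h1
    simp at h1
  have hvt : v ≠ ∞ := ne_top_of_le_ne_top ENNReal.one_ne_top hv1
  have hKm : MeasurableSet (Kp P) := Kp_compact.measurableSet
  have hK1 : volume (Kp P) =
      (Nat.card {f : P ≃ Fin n // Monotone f} : ℝ≥0∞) * v := by
    rw [sum_cells (Kp P) hKm fun f hf => hf.2]
    have h1 : ∀ σ : P ≃ Fin n, volume (Kp P ∩ cell σ) = if Monotone σ then v else 0 := by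
      intro σ
      split_ifs with hσ
      · rw [← hvol σ]
        congr 1
        refine inter_eq_right.2 fun f hf => ⟨?_, hf.1⟩
        intro x y hxy
        by_contra hlt
        push Not at hlt
        have := (cell_lt_iff hf y x).1 hlt
        exact absurd (hσ hxy) (not_le.2 this)
      · convert measure_empty (μ := (volume : Measure (P → ℝ)))
        rw [Set.eq_empty_iff_forall_notMem]
        rintro f ⟨h1, h2⟩
        apply hσ
        intro x y hxy
        by_contra hlt
        push Not at hlt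
        exact absurd (h1.1 hxy) (not_le.2 (h2.2 y x hlt))
    rw [Finset.sum_congr rfl fun σ _ => h1 σ, Finset.sum_ite, Finset.sum_const, Finset.sum_const_zero,
      add_zero, nsmul_eq_mul, Nat.card_eq_fintype_card, Fintype.card_subtype]
  have hK2 : volume (Kp P ∩ {f | f a ≤ f b}) =
      (Nat.card {f : P ≃ Fin n // Monotone f ∧ f a < f b} : ℝ≥0∞) * v := by
    rw [sum_cells (Kp P ∩ {f | f a ≤ f b}) (hKm.inter
      (measurableSet_le (measurable_pi_apply a) (measurable_pi_apply b))) fun f hf => hf.1.2]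
    have h1 : ∀ σ : P ≃ Fin n, volume (Kp P ∩ {f | f a ≤ f b} ∩ cell σ) =
        if Monotone σ ∧ σ a < σ b then v else 0 := by
      intro σ
      split_ifs with hσ
      · rw [← hvol σ]
        congr 1
        refine inter_eq_right.2 fun f hf => ⟨⟨?_, hf.1⟩, (hf.2 a b hσ.2).le⟩
        intro x y hxy
        by_contra hlt
        push Not at hlt
        have := (cell_lt_iff hf y x).1 hlt
        exact absurd (hσ.1 hxy) (not_le.2 this)
      · convert measure_empty (μ := (volume : Measure (P → ℝ)))
        rw [Set.eq_empty_iff_forall_notMem]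
        rintro f ⟨⟨h1, h3⟩, h2⟩
        apply hσ
        constructor
        · intro x y hxy
          by_contra hlt
          push Not at hlt
          exact absurd (h1.1 hxy) (not_le.2 (h2.2 y x hlt))
        · by_contra hlt
          rcases (not_lt.1 hlt).eq_or_lt with h4 | h4
          · exact hab (σ.injective h4).symm
          · exact absurd h3 (not_le.2 (h2.2 b a h4))
    rw [Finset.sum_congr rfl fun σ _ => h1 σ, Finset.sum_ite, Finset.sum_const, Finset.sum_const_zero,
      add_zero, nsmul_eq_mul, Nat.card_eq_fintype_card, Fintype.card_subtype]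
  rw [hK1, hK2] at h
  have hpos : 0 < Nat.card {f : P ≃ Fin n // Monotone f} := by
    have := Pool.Agent.H931R3.Bal.LEn_nonempty (P := P) hn.symm
    obtain ⟨f⟩ := this
    have : Nonempty {f : P ≃ Fin n // Monotone f} := ⟨f⟩
    exact Nat.card_pos
  set N1 := Nat.card {f : P ≃ Fin n // Monotone f}
  set N2 := Nat.card {f : P ≃ Fin n // Monotone f ∧ f a < f b}
  show c ≤ (N2 : ℝ) / N1
  rw [le_div_iff₀ (by exact_mod_cast hpos)]
  rcases le_or_gt c 0 with hc | hc
  · have : c * (N1 : ℝ) ≤ 0 := mul_nonpos_of_nonpos_of_nonneg hc (by positivity)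
    exact this.trans (by positivity)
  have h2 := ENNReal.toReal_mono (by finiteness) h
  rw [ENNReal.toReal_mul, ENNReal.toReal_mul, ENNReal.toReal_mul, ENNReal.toReal_ofReal hc.le,
    ENNReal.toReal_natCast, ENNReal.toReal_natCast] at h2
  have hvr : 0 < v.toReal := ENNReal.toReal_pos hv0 hvt
  have h3 : (c * (N1 : ℝ)) * v.toReal ≤ (N2 : ℝ) * v.toReal := by
    calc _ = (N1 : ℝ) * v.toReal * c := by ring
      _ ≤ _ := h2
  exact le_of_mul_le_mul_right h3 hvr

end Pool.Agent.V1130.Bal
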