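import Mathlib
import Pool.Agent.V1130.BalC
import Pool.Agent.V1130.BalD

/-!
# Orbits of automorphisms of posets
-/

set_option autoImplicit false

open MeasureTheory Set
open scoped ENNReal

namespace Pool.Agent.V1130.Bal

open Pool.Agent.H13R3.WB

variable {P : Type} [Fintype P] [DecidableEq P]

section Coll

variable (O : Finset P)

/-- the index set with the orbit collapsed -/
abbrev QQ := Option {a : P // a ∉ O}

/-- sums over the orbit -/
def MM : (P → ℝ) →ₗ[ℝ] (QQ O → ℝ) where
  toFun f q := match q with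
    | none => ∑ a ∈ O, f a
    | some b => f b
  map_add' f g := by
    ext q
    cases q with
    | none => simp [Finset.sum_add_distrib]
    | some b => simp
  map_smul' c f := by
    ext q
    cases q with
    | none => simp [Finset.mul_sum]
    | some b => simp

/-- functions constant on the orbit -/
noncomputable def NN : (QQ O → ℝ) →ₗ[ℝ] (P → ℝ) where
  toFun q a := if h : a ∈ O then q none / O.card else q (some ⟨a, h⟩)
  map_add' f g := by
    ext a
    by_cases h : a ∈ O
    · simp [h, add_div]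
    · simp [h]
  map_smul' c f := by
    ext a
    by_cases h : a ∈ O
    · simp [h, mul_div_assoc]
    · simp [h]

theorem MM_none (f : P → ℝ) : MM O f none = ∑ a ∈ O, f a := rfl
theorem MM_some (f : P → ℝ) (b : {a : P // a ∉ O}) : MM O f (some b) = f b := rfl
theorem NN_mem (q : QQ O → ℝ) {a : P} (h : a ∈ O) : NN O q a = q none / O.card := by
  simp [NN, h]
theorem NN_not (q : QQ O → ℝ) {a : P} (h : a ∉ O) : NN O q a = q (some ⟨a, h⟩) := by
  simp [NN, h]

theorem MN (hO : O.Nonempty) (q : QQ O → ℝ) : MM O (NN O q) = q := by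
  have hc : (O.card : ℝ) ≠ 0 := by
    have := Finset.card_pos.2 hO
    positivity
  ext b
  cases b with
  | none =>
    rw [MM_none, Finset.sum_congr rfl fun a ha => NN_mem O q ha, Finset.sum_const, nsmul_eq_mul]
    field_simp
  | some b => rw [MM_some, NN_not O q b.2]

/-- the decomposition of the space of functions -/
noncomputable def ee (hO : O.Nonempty) :
    (LinearMap.ker (MM O) × (QQ O → ℝ)) ≃ₗ[ℝ] (P → ℝ) :=
  LinearEquiv.ofBijective ((Submodule.subtype (LinearMap.ker (MM O))).coprod (NN O)) (by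
    constructor
    · rintro ⟨w, q⟩ ⟨w', q'⟩ h
      simp only [LinearMap.coprod_apply, Submodule.subtype_apply] at h
      have h1 := congrArg (MM O) h
      rw [map_add, map_add, MN O hO, MN O hO, LinearMap.mem_ker.1 w.2, LinearMap.mem_ker.1 w'.2,
        zero_add, zero_add] at h1
      subst h1
      rw [add_left_inj] at h
      rw [Subtype.ext h]
    · intro f
      refine ⟨(⟨f - NN O (MM O f), ?_⟩, MM O f), ?_⟩
      · rw [LinearMap.mem_ker, map_sub, MN O hO, sub_self]
      · simp)

theorem ee_apply (hO : O.Nonempty) (w : LinearMap.ker (MM O)) (q : QQ O → ℝ) :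
    ee O hO (w, q) = (w : P → ℝ) + NN O q := rfl

theorem finrank_ker (hO : O.Nonempty) : Module.finrank ℝ (LinearMap.ker (MM O)) + 1 = O.card := by
  have h1 := LinearMap.finrank_range_add_finrank_ker (MM O)
  have h2 : LinearMap.range (MM O) = ⊤ := by
    rw [LinearMap.range_eq_top]
    intro q
    exact ⟨NN O q, MN O hO q⟩
  rw [h2, finrank_top, Module.finrank_fintype_fun_eq_card, Module.finrank_fintype_fun_eq_card,
    Fintype.card_option] at h1
  have h3 : Fintype.card {a : P // a ∉ O} = Fintype.card P - O.card := by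
    rw [Fintype.card_subtype_compl]
    simp
  have h4 := Finset.card_le_univ O
  omega

variable (α : P ≃ P) (hα : ∀ a, α a ∈ O ↔ a ∈ O)

/-- the permutation of the collapsed index set -/
def piQ : Equiv.Perm (QQ O) :=
  Equiv.optionCongr (α.subtypeEquiv fun a => by rw [hα])

include hα in
theorem sum_inv (f : P → ℝ) : ∑ a ∈ O, f (α a) = ∑ a ∈ O, f a :=
  Finset.sum_equiv α (fun a => (hα a).symm) fun a _ => rfl

theorem MT (f : P → ℝ) : MM O (LinearMap.funLeft ℝ ℝ α f) =
    LinearMap.funLeft ℝ ℝ (piQ O α hα) (MM O f) := by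
  ext b
  cases b with
  | none =>
    rw [MM_none, LinearMap.funLeft_apply]
    exact sum_inv O α hα f
  | some b => rfl

theorem TN (q : QQ O → ℝ) : LinearMap.funLeft ℝ ℝ α (NN O q) =
    NN O (LinearMap.funLeft ℝ ℝ (piQ O α hα) q) := by
  ext a
  rw [LinearMap.funLeft_apply]
  by_cases h : a ∈ O
  · rw [NN_mem O _ ((hα a).2 h), NN_mem O _ h]
    rfl
  · rw [NN_not O _ (fun h' => h ((hα a).1 h')), NN_not O _ h]
    rfl

include hα in
theorem T_ker (f : P → ℝ) (hf : f ∈ LinearMap.ker (MM O)) :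
    LinearMap.funLeft ℝ ℝ α f ∈ LinearMap.ker (MM O) := by
  rw [LinearMap.mem_ker, MT O α hα, LinearMap.mem_ker.1 hf, map_zero]

end Coll

theorem iter_eq (α : P ≃ P) (i : ℕ) (f : P → ℝ) (a : P) :
    ((LinearMap.funLeft ℝ ℝ α) ^ i) f a = f ((⇑α)^[i] a) := by
  rw [funLeft_pow, LinearMap.funLeft_apply, Equiv.Perm.coe_pow]

/-- the main estimate -/
theorem orbit_vol [PartialOrder P] (α : P ≃o P) (x : P) (k : ℕ) (hk0 : 1 ≤ k)
    (hk : Function.minimalPeriod α x = k + 1) (D : (P → ℝ) →ₗ[ℝ] ℝ)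
    (hD : (∀ f, D f = f x - f (α x)) ∨ (∀ f, D f = f (α x) - f x)) :
    volume (Kp P) * ENNReal.ofReal (((k : ℝ) / ((k : ℝ) + 1)) ^ k) ≤
      volume (Kp P ∩ {f | D f ≤ 0}) := by
  classical
  set O : Finset P := (Finset.range (k + 1)).image fun i => (⇑α)^[i] x with hO
  have hper : (⇑α)^[k + 1] x = x := by
    rw [← hk]
    exact Function.iterate_minimalPeriod
  have hmem : ∀ a, a ∈ O ↔ ∃ i, i < k + 1 ∧ (⇑α)^[i] x = a := by
    intro a
    simp [hO, Finset.mem_image]
  have hinv : ∀ a, α a ∈ O ↔ a ∈ O := by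
    intro a
    rw [hmem, hmem]
    constructor
    · rintro ⟨i, hi, h⟩
      rcases i with _ | i
      · refine ⟨k, by omega, α.injective ?_⟩
        rw [← h, ← Function.iterate_succ_apply' (⇑α) k x, hper]
        rfl
      · refine ⟨i, by omega, α.injective ?_⟩
        rw [← h, Function.iterate_succ_apply']
    · rintro ⟨i, hi, h⟩
      rcases Nat.lt_or_ge (i + 1) (k + 1) with h1 | h1
      · exact ⟨i + 1, h1, by rw [Function.iterate_succ_apply', h]⟩
      · have : i = k := by omega
        subst this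
        refine ⟨0, by omega, ?_⟩
        rw [← h, ← Function.iterate_succ_apply' (⇑α) i x, hper]
        rfl
  have hcard : O.card = k + 1 := by
    rw [hO, Finset.card_image_of_injOn, Finset.card_range]
    intro i hi j hj hij
    have hinj := Function.iterate_injOn_Iio_minimalPeriod (f := ⇑α) (x := x)
    rw [hk] at hinj
    exact hinj (by simpa using hi) (by simpa using hj) hij
  have hxO : x ∈ O := (hmem x).2 ⟨0, by omega, rfl⟩
  have hOne : O.Nonempty := ⟨x, hxO⟩
  have hperO : ∀ a ∈ O, (⇑α)^[k + 1] a = a := by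
    intro a ha
    obtain ⟨i, -, rfl⟩ := (hmem a).1 ha
    rw [← Function.iterate_add_apply, add_comm, Function.iterate_add_apply, hper]
  have hinvn : ∀ (i : ℕ) (a : P), (⇑α)^[i] a ∈ O ↔ a ∈ O := by
    intro i
    induction i with
    | zero => intro a; rfl
    | succ i ih => intro a; rw [Function.iterate_succ_apply, ih, hinv]
  let T : (P → ℝ) →ₗ[ℝ] (P → ℝ) := LinearMap.funLeft ℝ ℝ α.toEquiv
  let S : LinearMap.ker (MM O) →ₗ[ℝ] LinearMap.ker (MM O) :=
    T.restrict fun f hf => T_ker O α.toEquiv hinv f hf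
  let R : (QQ O → ℝ) →ₗ[ℝ] (QQ O → ℝ) := LinearMap.funLeft ℝ ℝ (piQ O α.toEquiv hinv)
  have hfin : Module.finrank ℝ (LinearMap.ker (MM O)) = k := by
    have := finrank_ker O hOne
    omega
  have hSpow : ∀ (i : ℕ) (w : LinearMap.ker (MM O)), (((S ^ i) w : LinearMap.ker (MM O)) : P → ℝ) =
      (T ^ i) (w : P → ℝ) := by
    intro i
    induction i with
    | zero => intro w; rfl
    | succ i ih =>
      intro w
      rw [pow_succ, pow_succ]
      exact ih (S w)
  have hS : S ^ (k + 1) = 1 := by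
    ext w a
    rw [hSpow]
    show ((LinearMap.funLeft ℝ ℝ α.toEquiv) ^ (k + 1)) (w : P → ℝ) a = (w : P → ℝ) a
    rw [iter_eq]
    show (w : P → ℝ) ((⇑α)^[k + 1] a) = (w : P → ℝ) a
    by_cases ha : a ∈ O
    · rw [hperO a ha]
    · have hw0 : ∀ b : P, b ∉ O → (w : P → ℝ) b = 0 := by
        intro b hb
        have := congrFun (LinearMap.mem_ker.1 w.2) (some ⟨b, hb⟩)
        exact this
      rw [hw0 a ha, hw0 _ (fun h => ha ((hinvn _ _).1 h))]
  obtain ⟨r, hR⟩ := funLeft_order (piQ O α.toEquiv hinv)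
  have hsum : ∀ f : P → ℝ, ∑ i ∈ Finset.range (k + 1), (f ((⇑α)^[i + 1] x) - f ((⇑α)^[i] x)) = 0 := by
    intro f
    rw [Finset.sum_range_sub (fun i => f ((⇑α)^[i] x)), hper]
    simp
  have hDx : ∀ (i : ℕ) (f : P → ℝ), D ((T ^ i) f) = f ((⇑α)^[i] x) - f ((⇑α)^[i + 1] x) ∨
      True := fun _ _ => Or.inr trivial
  have hTi : ∀ (i : ℕ) (f : P → ℝ) (a : P), (T ^ i) f a = f ((⇑α)^[i] a) :=
    fun i f a => iter_eq α.toEquiv i f a
  have hD0 : ∀ y, ∑ i ∈ Finset.range (k + 1), D ((T ^ i) y) = 0 := by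
    intro f
    rcases hD with hD | hD
    · rw [← neg_eq_zero, ← Finset.sum_neg_distrib, ← hsum f]
      refine Finset.sum_congr rfl fun i _ => ?_
      rw [hD, hTi, hTi, Function.iterate_succ_apply, neg_sub]
    · rw [← hsum f]
      refine Finset.sum_congr rfl fun i _ => ?_
      rw [hD, hTi, hTi, Function.iterate_succ_apply]
  have hαx : α x ∈ O := (hinv x).2 hxO
  have hDN : ∀ q, D (NN O q) = 0 := by
    intro q
    rcases hD with hD | hD <;> rw [hD, NN_mem O q hxO, NN_mem O q hαx, sub_self]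
  have key := decomposed (volume : Measure (P → ℝ)) (ee O hOne) D T S R (Kp P)
    (by rw [hfin]; omega) k r Kp_compact Kp_convex ?_ ?_ ?_ hS hR hD0
  · rw [hfin] at key
    exact key
  · intro y z
    rw [ee_apply, ee_apply, map_add, map_add, hDN, hDN]
  · intro y z
    rw [ee_apply, map_add, ee_apply]
    congr 1
    exact TN O α.toEquiv hinv z
  · intro f hf
    exact ⟨fun a b hab => hf.1 (α.monotone hab), fun a => hf.2 (α a)⟩

/-- orbits of automorphisms give balanced pairs -/
theorem orbit_prob [PartialOrder P] (α : P ≃o P) (x : P) (k : ℕ) (hk0 : 1 ≤ k)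
    (hk : Function.minimalPeriod α x = k + 1) :
    ((k : ℝ) / ((k : ℝ) + 1)) ^ k ≤ prob P x (α x) ∧
    ((k : ℝ) / ((k : ℝ) + 1)) ^ k ≤ prob P (α x) x := by
  have hne : x ≠ α x := by
    intro h
    have : Function.minimalPeriod α x = 1 :=
      Function.minimalPeriod_eq_one_iff_isFixedPt.2 h.symm
    omega
  constructor
  · refine prob_ge hne _ ?_
    have h := orbit_vol α x k hk0 hk
      ((LinearMap.proj x : (P → ℝ) →ₗ[ℝ] ℝ) - LinearMap.proj (α x)) (Or.inl fun f => rfl)
    convert h using 5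
    rename_i f
    simp
  · refine prob_ge hne.symm _ ?_
    have h := orbit_vol α x k hk0 hk
      ((LinearMap.proj (α x) : (P → ℝ) →ₗ[ℝ] ℝ) - LinearMap.proj x) (Or.inr fun f => rfl)
    convert h using 5
    rename_i f
    simp

end Pool.Agent.V1130.Bal
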