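import Mathlib

/-!
Continuity of Möbius transformations on the one-point compactification of a field.
-/

namespace V1130.GLCont

open Filter Topology OnePoint Matrix

variable {K : Type} [Field K] [DecidableEq K] [TopologicalSpace K] [IsTopologicalRing K]
  [ContinuousInv₀ K] [T2Space K]

/-- The action of `A` is continuous. -/
def C (A : GL (Fin 2) K) : Prop := Continuous fun x : OnePoint K => A • x

omit [IsTopologicalRing K] [ContinuousInv₀ K] [T2Space K] in
theorem C.mul {A B : GL (Fin 2) K} (hA : C A) (hB : C B) : C (A * B) := by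
  have : (fun x : OnePoint K => (A * B) • x) = (fun x => A • x) ∘ (fun x => B • x) := by
    ext x; exact mul_smul _ _ _
  rw [C, this]
  exact hA.comp hB

theorem C_of_affine (A : GL (Fin 2) K) (h : A 1 0 = 0) : C A := by
  have hdet : A 0 0 * A 1 1 - A 0 1 * A 1 0 ≠ 0 := by
    have := A.det_ne_zero
    rwa [Matrix.det_fin_two] at this
  rw [h, mul_zero, sub_zero] at hdet
  have h00 : A 0 0 ≠ 0 := left_ne_zero_of_mul hdet
  have h11 : A 1 1 ≠ 0 := right_ne_zero_of_mul hdet
  let e : K ≃ₜ K := (Homeomorph.mulLeft₀ (A 0 0 / A 1 1) (div_ne_zero h00 h11)).trans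
    (Homeomorph.addRight (A 0 1 / A 1 1))
  have : (fun x : OnePoint K => A • x) = e.onePointCongr := by
    ext x
    cases x with
    | infty =>
      rw [smul_infty_eq_self_iff.2 h]
      rfl
    | coe k =>
      rw [smul_some_eq_ite, if_neg (by rw [h]; simpa using h11)]
      change _ = ((e k : K) : OnePoint K)
      congr 1
      change _ = A 0 0 / A 1 1 * k + A 0 1 / A 1 1
      rw [h, zero_mul, zero_add, add_div, mul_div_right_comm]
  rw [C, this]
  exact (e.onePointCongr).continuous

/-- the swap `x ↦ x⁻¹` -/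
noncomputable def W (K : Type) [Field K] : GL (Fin 2) K :=
  GeneralLinearGroup.mkOfDetNeZero !![0, 1; 1, 0] (by rw [Matrix.det_fin_two_of]; simp)

omit [TopologicalSpace K] [IsTopologicalRing K] [ContinuousInv₀ K] [T2Space K] in
theorem W_infty : W K • (∞ : OnePoint K) = ((0 : K) : OnePoint K) := by
  rw [smul_infty_eq_ite]
  have h10 : (W K) 1 0 = 1 := rfl
  have h00 : (W K) 0 0 = 0 := rfl
  rw [h10, h00, if_neg one_ne_zero, zero_div]

omit [TopologicalSpace K] [IsTopologicalRing K] [ContinuousInv₀ K] [T2Space K] in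
theorem W_coe (k : K) : W K • (k : OnePoint K) = if k = 0 then ∞ else ((k⁻¹ : K) : OnePoint K) := by
  rw [smul_some_eq_ite]
  have h10 : (W K) 1 0 = 1 := rfl
  have h00 : (W K) 0 0 = 0 := rfl
  have h01 : (W K) 0 1 = 1 := rfl
  have h11 : (W K) 1 1 = 0 := rfl
  rw [h10, h00, h01, h11, one_mul, add_zero, zero_mul, zero_add, one_div]

theorem C_W (h0 : Tendsto (fun x : K => x⁻¹) (𝓝[≠] 0) (cocompact K))
    (hinf : Tendsto (fun x : K => x⁻¹) (cocompact K) (𝓝 0)) : C (W K) := by
  rw [C, continuous_iff]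
  constructor
  · rw [W_infty, coclosedCompact_eq_cocompact]
    have h1 : Tendsto (fun x : K => ((x⁻¹ : K) : OnePoint K)) (cocompact K)
        (𝓝 ((0 : K) : OnePoint K)) :=
      (OnePoint.continuous_coe.tendsto 0).comp hinf
    refine h1.congr' ?_
    have : ({0} : Set K)ᶜ ∈ cocompact K := isCompact_singleton.compl_mem_cocompact
    filter_upwards [this] with x hx
    rw [W_coe, if_neg (show x ≠ 0 from hx)]
  · rw [continuous_iff_continuousAt]
    intro x
    by_cases hx : x = 0
    · subst hx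
      rw [continuousAt_iff_punctured_nhds]
      have h1 : W K • ((0 : K) : OnePoint K) = ∞ := by rw [W_coe, if_pos rfl]
      rw [h1]
      have h2 : Tendsto (fun x : K => ((x⁻¹ : K) : OnePoint K)) (𝓝[≠] 0) (𝓝 ∞) := by
        have := OnePoint.tendsto_coe_infty (X := K)
        rw [coclosedCompact_eq_cocompact] at this
        exact this.comp h0
      refine h2.congr' ?_
      filter_upwards [self_mem_nhdsWithin] with y hy
      rw [W_coe, if_neg (show y ≠ 0 from hy)]
    · have h1 : ContinuousAt (fun x : K => ((x⁻¹ : K) : OnePoint K)) x :=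
        (OnePoint.continuous_coe.continuousAt).comp (continuousAt_inv₀ hx)
      refine h1.congr ?_
      filter_upwards [isOpen_ne.mem_nhds hx] with y hy
      rw [W_coe, if_neg hy]

theorem C_all (h0 : Tendsto (fun x : K => x⁻¹) (𝓝[≠] 0) (cocompact K))
    (hinf : Tendsto (fun x : K => x⁻¹) (cocompact K) (𝓝 0)) (A : GL (Fin 2) K) : C A := by
  by_cases hc : A 1 0 = 0
  · exact C_of_affine A hc
  have hdet : A 0 0 * A 1 1 - A 0 1 * A 1 0 ≠ 0 := by
    have := A.det_ne_zero
    rwa [Matrix.det_fin_two] at this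
  have hd1 : (!![(A 0 1 * A 1 0 - A 0 0 * A 1 1) / A 1 0, A 0 0 / A 1 0; 0, 1] :
      Matrix (Fin 2) (Fin 2) K).det ≠ 0 := by
    rw [Matrix.det_fin_two_of, mul_one, mul_zero, sub_zero]
    refine div_ne_zero ?_ hc
    intro h
    apply hdet
    linear_combination -h
  have hd2 : (!![A 1 0, A 1 1; 0, 1] : Matrix (Fin 2) (Fin 2) K).det ≠ 0 := by
    rw [Matrix.det_fin_two_of, mul_one, mul_zero, sub_zero]
    exact hc
  have key : A = GeneralLinearGroup.mkOfDetNeZero _ hd1 * W K *
      GeneralLinearGroup.mkOfDetNeZero _ hd2 := by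
    apply Units.ext
    change (A : Matrix (Fin 2) (Fin 2) K) = _ * (!![0, 1; 1, 0] : Matrix (Fin 2) (Fin 2) K) * _
    change (A : Matrix (Fin 2) (Fin 2) K) =
      (!![(A 0 1 * A 1 0 - A 0 0 * A 1 1) / A 1 0, A 0 0 / A 1 0; 0, 1] :
      Matrix (Fin 2) (Fin 2) K) * (!![0, 1; 1, 0] : Matrix (Fin 2) (Fin 2) K) *
      (!![A 1 0, A 1 1; 0, 1] : Matrix (Fin 2) (Fin 2) K)
    ext i j
    fin_cases i <;> fin_cases j <;> simp [Matrix.mul_apply, Fin.sum_univ_two] <;> field_simp <;>
      ring
  rw [key]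
  exact ((C_of_affine _ rfl).mul (C_W h0 hinf)).mul (C_of_affine _ rfl)

end V1130.GLCont
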