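import Mathlib

/-!
The field of Laurent series over a finite field: neighbourhoods of zero, local compactness,
behaviour of the inverse at infinity.
-/

namespace V1130.LaurentTop

open Filter Topology Valued WithZero LaurentSeries HahnSeries

variable {F : Type} [Field F]

/-- series whose coefficients below `n` vanish -/
def B (F : Type) [Field F] (n : ℤ) : Set (LaurentSeries F) := {f | ∀ i < n, f.coeff i = 0}

theorem mem_B_iff {n : ℤ} {f : LaurentSeries F} :
    f ∈ B F n ↔ Valued.v f ≤ exp (-n : ℤ) :=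
  (LaurentSeries.valuation_le_iff_coeff_lt_eq_zero F).symm

theorem B_mem_nhds (n : ℤ) : B F n ∈ 𝓝 (0 : LaurentSeries F) := by
  rw [Valued.mem_nhds_zero]
  obtain ⟨x, hx⟩ := LaurentSeries.valuation_surjective F (exp (-n : ℤ))
  have hx0 : Valued.v.restrict x ≠ 0 := by
    simp only [ne_eq]
    intro h
    have : Valued.v x = 0 := by simpa using h
    rw [hx] at this
    exact exp_ne_zero this
  refine ⟨Units.mk0 _ hx0, fun y hy => ?_⟩
  rw [mem_B_iff, ← hx]
  exact (Valued.v.restrict_lt_iff.mp hy).le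

theorem exists_B_subset {s : Set (LaurentSeries F)} (hs : s ∈ 𝓝 (0 : LaurentSeries F)) :
    ∃ n : ℤ, B F n ⊆ s := by
  rw [Valued.mem_nhds_zero] at hs
  obtain ⟨γ, hγ⟩ := hs
  have hne : MonoidWithZeroHom.ValueGroup₀.embedding γ.1 ≠ 0 := by
    simp
  refine ⟨1 - log (MonoidWithZeroHom.ValueGroup₀.embedding γ.1), fun x hx => hγ ?_⟩
  rw [mem_B_iff] at hx
  change Valued.v.restrict x < γ.1
  rw [Valuation.restrict_lt_iff_lt_embedding]
  refine lt_of_le_of_lt hx ?_
  rw [← lt_log_iff_exp_lt hne]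
  omega

theorem B_sub {n : ℤ} {f g : LaurentSeries F} (hf : f ∈ B F n) (hg : g ∈ B F n) :
    f - g ∈ B F n := by
  intro i hi
  rw [HahnSeries.coeff_sub, hf i hi, hg i hi, sub_zero]

theorem B_add {n : ℤ} {f g : LaurentSeries F} (hf : f ∈ B F n) (hg : g ∈ B F n) :
    f + g ∈ B F n := by
  intro i hi
  rw [HahnSeries.coeff_add, hf i hi, hg i hi, add_zero]

theorem mem_nhds_iff {s : Set (LaurentSeries F)} {x : LaurentSeries F} :
    s ∈ 𝓝 x ↔ ∃ n : ℤ, ∀ y, y - x ∈ B F n → y ∈ s := by
  have h : 𝓝 x = map (fun y => y + x) (𝓝 (0 : LaurentSeries F)) := by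
    rw [map_add_right_nhds_zero]
  rw [h, mem_map]
  constructor
  · intro hs
    obtain ⟨n, hn⟩ := exists_B_subset hs
    refine ⟨n, fun y hy => ?_⟩
    have := hn hy
    simpa using this
  · rintro ⟨n, hn⟩
    refine mem_of_superset (B_mem_nhds n) fun y hy => ?_
    exact hn _ (by simpa using hy)

/-- the parametrisation of `B n` by coefficient sequences -/
noncomputable def par (n : ℤ) (s : ℕ → F) : LaurentSeries F :=
  HahnSeries.ofSuppBddBelow (fun i : ℤ => if n ≤ i then s (i - n).toNat else 0) ⟨n, by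
    intro i hi
    rw [Function.mem_support] at hi
    by_contra h
    exact hi (if_neg h)⟩

theorem par_coeff (n : ℤ) (s : ℕ → F) (i : ℤ) :
    (par n s).coeff i = if n ≤ i then s (i - n).toNat else 0 := rfl

theorem par_mem (n : ℤ) (s : ℕ → F) : par n s ∈ B F n := by
  intro i hi
  rw [par_coeff, if_neg (by omega)]

theorem range_par (n : ℤ) : Set.range (par (F := F) n) = B F n := by
  ext f
  constructor
  · rintro ⟨s, rfl⟩
    exact par_mem n s
  · intro hf
    refine ⟨fun k => f.coeff (n + k), ?_⟩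
    ext i
    rw [par_coeff]
    by_cases h : n ≤ i
    · rw [if_pos h]
      congr 1
      omega
    · rw [if_neg h, hf i (by omega)]

theorem continuous_par [TopologicalSpace F] [DiscreteTopology F] (n : ℤ) :
    Continuous (par (F := F) n) := by
  rw [continuous_iff_continuousAt]
  intro s S hS
  rw [mem_nhds_iff] at hS
  obtain ⟨m, hm⟩ := hS
  rw [mem_map]
  have h1 : {t : ℕ → F | ∀ k ∈ Finset.range (m - n).toNat, t k = s k} ∈ 𝓝 s := by
    have : {t : ℕ → F | ∀ k ∈ Finset.range (m - n).toNat, t k = s k} =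
        ⋂ k ∈ Finset.range (m - n).toNat, {t : ℕ → F | t k = s k} := by
      ext t; simp
    rw [this, Filter.biInter_finset_mem]
    intro k _
    have : IsOpen {t : ℕ → F | t k = s k} :=
      (isOpen_discrete ({s k} : Set F)).preimage
        (show Continuous fun t : ℕ → F => t k from continuous_apply k)
    exact this.mem_nhds rfl
  refine mem_of_superset h1 fun t ht => hm _ ?_
  intro i hi
  rw [HahnSeries.coeff_sub, par_coeff, par_coeff]
  by_cases h : n ≤ i
  · rw [if_pos h, if_pos h, ht _ (by rw [Finset.mem_range]; omega), sub_self]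
  · rw [if_neg h, if_neg h, sub_self]

theorem isCompact_B [Finite F] (n : ℤ) : IsCompact (B F n) := by
  let _ : TopologicalSpace F := ⊥
  have _ : DiscreteTopology F := ⟨rfl⟩
  rw [← range_par n]
  exact isCompact_range (continuous_par n)

instance [Finite F] : LocallyCompactSpace (LaurentSeries F) :=
  IsCompact.locallyCompactSpace_of_mem_nhds_of_addGroup (isCompact_B 0) (B_mem_nhds 0)

theorem inv_mem_B {n : ℤ} {f : LaurentSeries F} (hf : f ∉ B F n) : f⁻¹ ∈ B F (-n) := by
  rw [mem_B_iff, not_le] at hf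
  rw [mem_B_iff, map_inv₀, neg_neg]
  have h1 : (exp (-n : ℤ) : ℤᵐ⁰) ≠ 0 := exp_ne_zero
  have h2 := (inv_lt_inv₀ (lt_of_le_of_lt zero_le hf) (zero_lt_iff.2 h1)).2 hf
  rw [← exp_neg, neg_neg] at h2
  exact h2.le

theorem tendsto_inv_cocompact [Finite F] :
    Tendsto (fun x : LaurentSeries F => x⁻¹) (cocompact (LaurentSeries F)) (𝓝 0) := by
  intro S hS
  obtain ⟨m, hm⟩ := exists_B_subset hS
  rw [mem_map]
  refine mem_of_superset ((isCompact_B (F := F) (-m)).compl_mem_cocompact) fun x hx => hm ?_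
  have := inv_mem_B hx
  rwa [neg_neg] at this

theorem tendsto_inv_zero {K : Type} [Field K] [TopologicalSpace K] [IsTopologicalRing K]
    [T2Space K] :
    Tendsto (fun x : K => x⁻¹) (𝓝[≠] 0) (cocompact K) := by
  intro S hS
  rw [mem_cocompact] at hS
  obtain ⟨C, hC, hCS⟩ := hS
  have hopen : IsOpen {p : K × K | p.1 * p.2 ≠ 1} :=
    isOpen_ne.preimage (continuous_fst.mul continuous_snd)
  obtain ⟨U, V, hU, hV, hCU, h0V, hUV⟩ := generalized_tube_lemma hC (isCompact_singleton (x := (0 : K)))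
    hopen (by
      rintro ⟨a, b⟩ ⟨_, hb⟩
      rw [Set.mem_singleton_iff] at hb
      change a * b ≠ 1
      rw [show b = 0 from hb, mul_zero]
      exact zero_ne_one)
  rw [mem_map, mem_nhdsWithin]
  refine ⟨V, hV, h0V rfl, fun x hx => hCS ?_⟩
  intro hxC
  have h1 : (x⁻¹, x) ∈ U ×ˢ V := ⟨hCU hxC, hx.1⟩
  exact hUV h1 (inv_mul_cancel₀ hx.2)

end V1130.LaurentTop
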