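import Mathlib
import Pool.Agent.V1130.LaurentTop

/-!
An involutory automorphism of a Laurent series field of characteristic two and a discontinuous
invariant character of its multiplicative group.
-/

namespace V1130.LaurentChar

open Filter Topology WithZero LaurentSeries HahnSeries V1130.LaurentTop

variable {F : Type} [Field F] (s : F ≃+* F)

/-- coefficientwise automorphism -/
noncomputable def sig (hs : ∀ x, s (s x) = x) : LaurentSeries F ≃+* LaurentSeries F where
  toFun f := HahnSeries.map f (s : F →+* F)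
  invFun f := HahnSeries.map f (s : F →+* F)
  left_inv f := by
    ext n
    simp [hs]
  right_inv f := by
    ext n
    simp [hs]
  map_mul' f g := HahnSeries.map_mul ((s : F →+* F) : F →ₙ+* F)
  map_add' f g := by
    ext n
    simp

theorem sig_coeff (hs : ∀ x, s (s x) = x) (f : LaurentSeries F) (n : ℤ) :
    (sig s hs f).coeff n = s (f.coeff n) := rfl

theorem sig_sig (hs : ∀ x, s (s x) = x) (f : LaurentSeries F) : sig s hs (sig s hs f) = f := by
  ext n
  rw [sig_coeff, sig_coeff, hs]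

theorem continuous_sig (hs : ∀ x, s (s x) = x) : Continuous (sig s hs) := by
  rw [continuous_iff_continuousAt]
  intro x S hS
  rw [V1130.LaurentTop.mem_nhds_iff] at hS
  obtain ⟨n, hn⟩ := hS
  rw [mem_map, V1130.LaurentTop.mem_nhds_iff]
  refine ⟨n, fun y hy => hn _ ?_⟩
  intro i hi
  rw [← map_sub, sig_coeff, hy i hi, map_zero]

theorem B_mul {n k : ℤ} {f g : LaurentSeries F} (hf : f ∈ B F n) (hg : g ∈ B F k) :
    f * g ∈ B F (n + k) := by
  rw [mem_B_iff] at *
  rw [map_mul, neg_add, exp_add]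
  exact mul_le_mul' hf hg

theorem B_mono {n k : ℤ} (h : n ≤ k) {f : LaurentSeries F} (hf : f ∈ B F k) : f ∈ B F n :=
  fun i hi => hf i (by omega)

theorem one_mem_B : (1 : LaurentSeries F) ∈ B F 0 := by
  rw [mem_B_iff, map_one, neg_zero, exp_zero]

theorem single_mem_B (m : ℤ) (a : F) : (HahnSeries.single m a : LaurentSeries F) ∈ B F m := by
  intro i hi
  exact HahnSeries.coeff_single_of_ne (by omega)

theorem sq_coeff_odd [CharP F 2] (t : LaurentSeries F) {n : ℤ} (hn : Odd n) :
    (t ^ 2).coeff n = 0 := by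
  rw [sq, HahnSeries.coeff_mul]
  refine Finset.sum_involution (fun p _ => (p.2, p.1)) ?_ ?_ ?_ ?_
  · intro p _
    change t.coeff p.1 * t.coeff p.2 + t.coeff p.2 * t.coeff p.1 = 0
    rw [mul_comm (t.coeff p.2), CharTwo.add_self_eq_zero]
  · intro p hp _ h
    rw [Finset.mem_antidiagonal] at hp
    have h1 : p.2 = p.1 := congrArg Prod.fst h
    have h2 := hp.2.2
    rw [h1] at h2
    rw [← h2] at hn
    obtain ⟨k, hk⟩ := hn
    omega
  · intro p hp
    rw [Finset.mem_antidiagonal] at hp ⊢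
    exact ⟨hp.2.1, hp.1, by rw [← hp.2.2, add_comm]⟩
  · intro p _
    rfl

/-- `1 + ω X^m` up to higher order -/
def Lead (ω : F) (m : ℤ) (P : LaurentSeries F) : Prop :=
  ∃ b ∈ B F (m + 1), P = 1 + HahnSeries.single m ω + b

theorem not_fixed_of_lead [CharP F 2] (hs : ∀ x, s (s x) = x) {ω : F} (hω : s ω ≠ ω) {m : ℤ}
    (hm : Odd m) (hm0 : 0 < m) {P : LaurentSeries F} (hP : Lead ω m P)
    (t : LaurentSeries F) (ht : t ≠ 0) : sig s hs (P * t ^ 2) ≠ P * t ^ 2 := by
  intro h
  obtain ⟨b, hb, rfl⟩ := hP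
  have ht2 : t ^ 2 ≠ 0 := pow_ne_zero 2 ht
  set D := (t ^ 2).order with hD
  set c := (t ^ 2).coeff D with hc
  have hc0 : c ≠ 0 := fun h' => ht2 (HahnSeries.coeff_order_eq_zero.mp h')
  have hDe : ¬ Odd D := fun h' => hc0 (sq_coeff_odd t h')
  rw [Int.not_odd_iff_even] at hDe
  have htB : t ^ 2 ∈ B F D := fun i hi => HahnSeries.coeff_eq_zero_of_lt_order hi
  have e1 : ((1 + HahnSeries.single m ω + b) * t ^ 2).coeff D = c := by
    have h1 : HahnSeries.single m ω * t ^ 2 ∈ B F (m + D) := B_mul (single_mem_B m ω) htB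
    have h2 : b * t ^ 2 ∈ B F (m + 1 + D) := B_mul hb htB
    rw [add_mul, add_mul, one_mul, HahnSeries.coeff_add, HahnSeries.coeff_add,
      h1 D (by omega), h2 D (by omega), add_zero, add_zero]
  have e2 : ((1 + HahnSeries.single m ω + b) * t ^ 2).coeff (D + m) = ω * c := by
    have h2 : b * t ^ 2 ∈ B F (m + 1 + D) := B_mul hb htB
    rw [add_mul, add_mul, one_mul, HahnSeries.coeff_add, HahnSeries.coeff_add,
      h2 (D + m) (by omega), add_zero, HahnSeries.coeff_single_mul_add,
      sq_coeff_odd t (hDe.add_odd hm), zero_add]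
  have f1 : s c = c := by
    have := congrArg (fun f => HahnSeries.coeff f D) h
    simp only [sig_coeff, e1] at this
    exact this
  have f2 : s (ω * c) = ω * c := by
    have := congrArg (fun f => HahnSeries.coeff f (D + m)) h
    simp only [sig_coeff, e2] at this
    exact this
  rw [map_mul, f1] at f2
  exact hω (mul_right_cancel₀ hc0 f2)

/-- the test units -/
noncomputable def tu (ω : F) (i : ℕ) : LaurentSeries F := 1 + HahnSeries.single (2 * i + 1 : ℤ) ω

theorem prod_tu_mem (ω : F) (T : Finset ℕ) (j : ℕ) (hT : ∀ i ∈ T, j < i) :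
    (∏ i ∈ T, tu ω i) - 1 ∈ B F (2 * j + 2) := by
  classical
  induction T using Finset.induction_on with
  | empty => rw [Finset.prod_empty, sub_self]; intro i _; rfl
  | insert a T ha ih =>
    rw [Finset.prod_insert ha]
    have h1 := ih (fun i hi => hT i (Finset.mem_insert_of_mem hi))
    have h2 : (HahnSeries.single (2 * a + 1 : ℤ) ω : LaurentSeries F) ∈ B F (2 * j + 2) :=
      B_mono (by have := hT a (Finset.mem_insert_self a T); omega) (single_mem_B _ _)
    have h3 : tu ω a * ∏ i ∈ T, tu ω i - 1 =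
        ((∏ i ∈ T, tu ω i) - 1) + HahnSeries.single (2 * a + 1 : ℤ) ω +
          HahnSeries.single (2 * a + 1 : ℤ) ω * ((∏ i ∈ T, tu ω i) - 1) := by
      rw [tu]; ring
    rw [h3]
    exact B_add (B_add h1 h2) (B_mono (by omega) (B_mul h2 h1))

theorem lead_prod (ω : F) (T : Finset ℕ) (hT : T.Nonempty) :
    Lead ω (2 * (T.min' hT : ℕ) + 1 : ℤ) (∏ i ∈ T, tu ω i) := by
  classical
  set j := T.min' hT with hj
  have hjT : j ∈ T := T.min'_mem hT
  rw [← Finset.mul_prod_erase T _ hjT]
  have h1 : (∏ i ∈ T.erase j, tu ω i) - 1 ∈ B F (2 * j + 2) := by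
    apply prod_tu_mem
    intro i hi
    exact lt_of_le_of_ne (T.min'_le i (Finset.mem_of_mem_erase hi))
      (Finset.ne_of_mem_erase hi).symm
  refine ⟨(1 + HahnSeries.single (2 * (j : ℕ) + 1 : ℤ) ω) * ((∏ i ∈ T.erase j, tu ω i) - 1), ?_, ?_⟩
  · have h2 : (1 + HahnSeries.single (2 * (j : ℕ) + 1 : ℤ) ω : LaurentSeries F) ∈ B F 0 :=
      B_add one_mem_B (B_mono (by omega) (single_mem_B _ _))
    exact B_mono (by omega) (B_mul h2 h1)
  · rw [tu]; ring

end V1130.LaurentChar
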