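import Mathlib
import Pool.Agent.V1130.LaurentChar

/-!
The invariant character.
-/

namespace V1130.LaurentChi

open Filter Topology WithZero LaurentSeries HahnSeries V1130.LaurentTop V1130.LaurentChar

variable {F : Type} [Field F] (s : F ≃+* F) (hs : ∀ x, s (s x) = x)


/-- units which become fixed after multiplication with a square -/
def A0 : Subgroup (LaurentSeries F)ˣ where
  carrier := {u | ∃ t : (LaurentSeries F)ˣ, sig s hs (u * t ^ 2 : LaurentSeries F) = u * t ^ 2}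
  one_mem' := ⟨1, by simp⟩
  mul_mem' := by
    rintro u v ⟨t, ht⟩ ⟨r, hr⟩
    refine ⟨t * r, ?_⟩
    have h : ((u * v : (LaurentSeries F)ˣ) : LaurentSeries F) * ((t * r : (LaurentSeries F)ˣ) : LaurentSeries F) ^ 2 =
      (u * t ^ 2 : LaurentSeries F) * (v * r ^ 2) := by
      rw [Units.val_mul, Units.val_mul]; ring
    rw [h, map_mul, ht, hr]
  inv_mem' := by
    rintro u ⟨t, ht⟩
    refine ⟨t⁻¹, ?_⟩
    have h : ((u⁻¹ : (LaurentSeries F)ˣ) : LaurentSeries F) * ((t⁻¹ : (LaurentSeries F)ˣ) : LaurentSeries F) ^ 2 =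
      (u * t ^ 2 : LaurentSeries F)⁻¹ := by
      rw [Units.val_inv_eq_inv_val, Units.val_inv_eq_inv_val, mul_inv, inv_pow]
    rw [h, map_inv₀, ht]

theorem sq_mem (u : (LaurentSeries F)ˣ) : u ^ 2 ∈ A0 s hs := by
  refine ⟨u⁻¹, ?_⟩
  have h : ((u ^ 2 : (LaurentSeries F)ˣ) : LaurentSeries F) * ((u⁻¹ : (LaurentSeries F)ˣ) : LaurentSeries F) ^ 2 = 1 := by
    rw [Units.val_pow_eq_pow_val, ← mul_pow, ← Units.val_mul, mul_inv_cancel, Units.val_one,
      one_pow]
  rw [h, map_one]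

theorem mul_sig_mem (u : (LaurentSeries F)ˣ) :
    u * Units.map (sig s hs).toRingHom.toMonoidHom u ∈ A0 s hs := by
  refine ⟨1, ?_⟩
  rw [Units.val_one, one_pow, mul_one, Units.val_mul, map_mul]
  change sig s hs u * sig s hs (sig s hs u) = u * sig s hs u
  rw [sig_sig, mul_comm]

/-- the quotient as an additive group -/
def V := Additive ((LaurentSeries F)ˣ ⧸ A0 s hs)

noncomputable instance instV : AddCommGroup (V s hs) :=
  inferInstanceAs (AddCommGroup (Additive ((LaurentSeries F)ˣ ⧸ A0 s hs)))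

/-- class of a unit -/
noncomputable def cl (u : (LaurentSeries F)ˣ) : V s hs :=
  Additive.ofMul (QuotientGroup.mk u : (LaurentSeries F)ˣ ⧸ A0 s hs)

/-- the class map -/
noncomputable def clHom : (LaurentSeries F)ˣ →* Multiplicative (V s hs) where
  toFun u := Multiplicative.ofAdd (cl s hs u)
  map_one' := rfl
  map_mul' _ _ := rfl

theorem cl_mul (u v : (LaurentSeries F)ˣ) : cl s hs (u * v) = cl s hs u + cl s hs v := rfl

theorem cl_one : cl s hs 1 = 0 := rfl

theorem cl_eq_zero {u : (LaurentSeries F)ˣ} : cl s hs u = 0 ↔ u ∈ A0 s hs :=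
  QuotientGroup.eq_one_iff u

theorem cl_prod {ι : Type} (T : Finset ι) (u : ι → (LaurentSeries F)ˣ) :
    cl s hs (∏ i ∈ T, u i) = ∑ i ∈ T, cl s hs (u i) := by
  classical
  induction T using Finset.induction_on with
  | empty => rfl
  | insert a T ha ih => rw [Finset.prod_insert ha, Finset.sum_insert ha, cl_mul, ih]

theorem two_nsmul_V (v : V s hs) : 2 • v = 0 := by
  obtain ⟨u, hu⟩ := QuotientGroup.mk_surjective (Additive.toMul v)
  have : v = cl s hs u := hu.symm
  rw [this, two_nsmul, ← cl_mul, ← sq]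
  exact (cl_eq_zero s hs).2 (sq_mem s hs u)

noncomputable instance : Module (ZMod 2) (V s hs) :=
  AddCommGroup.zmodModule (two_nsmul_V s hs)

/-- `ψ : ZMod 2 → {±1}` -/
def psi : Multiplicative (ZMod 2) →* ℤˣ where
  toFun x := if Multiplicative.toAdd x = 0 then 1 else -1
  map_one' := rfl
  map_mul' := by decide

theorem tu_ne_zero (ω : F) (i : ℕ) : tu ω i ≠ 0 := by
  intro h
  have h1 := congrArg (fun f => HahnSeries.coeff f 0) h
  simp only [tu, HahnSeries.coeff_add, HahnSeries.coeff_zero] at h1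
  rw [HahnSeries.coeff_single_of_ne (by omega), add_zero, HahnSeries.coeff_one, if_pos rfl] at h1
  exact one_ne_zero h1

/-- the class of the test units -/
noncomputable def e (ω : F) (i : ℕ) : V s hs :=
  cl s hs (Units.mk0 (tu ω i) (tu_ne_zero ω i))

theorem sum_e_ne_zero [CharP F 2] {ω : F} (hω : s ω ≠ ω) (T : Finset ℕ) (hT : T.Nonempty) :
    ∑ i ∈ T, e s hs ω i ≠ 0 := by
  intro h
  have h1 : ∑ i ∈ T, e s hs ω i = cl s hs
      (∏ i ∈ T, Units.mk0 (tu ω i) (tu_ne_zero ω i)) := (cl_prod s hs _ _).symm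
  rw [h1, cl_eq_zero] at h
  obtain ⟨t, ht⟩ := h
  rw [Units.coe_prod] at ht
  simp only [Units.val_mk0] at ht
  exact not_fixed_of_lead s hs hω (m := 2 * (T.min' hT : ℕ) + 1) ⟨T.min' hT, rfl⟩ (by omega)
    (lead_prod ω T hT) t t.ne_zero ht

theorem linInd [CharP F 2] {ω : F} (hω : s ω ≠ ω) :
    LinearIndependent (ZMod 2) (e s hs ω) := by
  classical
  rw [linearIndependent_iff']
  intro T g hg
  by_contra hne
  push Not at hne
  obtain ⟨i, hi, hgi⟩ := hne
  have h2 : ∀ x : ZMod 2, x ≠ 0 → x = 1 := by decide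
  refine sum_e_ne_zero s hs hω (T.filter fun i => g i ≠ 0) ⟨i, by simp [hi, hgi]⟩ ?_
  rw [Finset.sum_filter]
  refine (Finset.sum_congr rfl fun j _ => ?_).trans hg
  by_cases hj : g j = 0
  · rw [if_neg (by simpa using hj), hj, zero_smul]
  · rw [if_pos hj, h2 _ hj, one_smul]

theorem exists_functional [CharP F 2] {ω : F} (hω : s ω ≠ ω) :
    ∃ f : V s hs →ₗ[ZMod 2] ZMod 2, ∀ i, f (e s hs ω i) = 1 := by
  have hli := linInd s hs hω
  obtain ⟨f, hf⟩ := LinearMap.exists_extend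
    ((Finsupp.linearCombination (ZMod 2) (fun _ : ℕ => (1 : ZMod 2))) ∘ₗ
      (hli.repr : Submodule.span (ZMod 2) (Set.range (e s hs ω)) →ₗ[ZMod 2] (ℕ →₀ ZMod 2)))
  refine ⟨f, fun i => ?_⟩
  have h1 := LinearMap.congr_fun hf ⟨e s hs ω i, Submodule.subset_span ⟨i, rfl⟩⟩
  simp only [LinearMap.comp_apply, Submodule.subtype_apply] at h1
  rw [h1]
  have h2 := hli.repr_eq_single i ⟨e s hs ω i, Submodule.subset_span ⟨i, rfl⟩⟩ rfl
  change Finsupp.linearCombination (ZMod 2) (fun _ : ℕ => (1 : ZMod 2)) (hli.repr _) = 1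
  rw [h2, Finsupp.linearCombination_single, one_smul]

theorem exists_char [CharP F 2] {ω : F} (hω : s ω ≠ ω) :
    ∃ χ : (LaurentSeries F)ˣ →* ℤˣ,
      (∀ u, χ (Units.map (sig s hs).toRingHom.toMonoidHom u) = χ u) ∧
      ∀ i, χ (Units.mk0 (tu ω i) (tu_ne_zero ω i)) = -1 := by
  obtain ⟨f, hf⟩ := exists_functional s hs hω
  let χ : (LaurentSeries F)ˣ →* ℤˣ :=
    (psi.comp (AddMonoidHom.toMultiplicative f.toAddMonoidHom)).comp (clHom s hs)
  have hχ : ∀ u, χ u = psi (Multiplicative.ofAdd (f (cl s hs u))) := fun _ => rfl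
  refine ⟨χ, fun u => ?_, fun i => ?_⟩
  · have h1 : χ (u * Units.map (sig s hs).toRingHom.toMonoidHom u) = 1 := by
      rw [hχ, (cl_eq_zero s hs).2 (mul_sig_mem s hs u), map_zero]
      rfl
    rw [map_mul] at h1
    rcases Int.units_eq_one_or (χ u) with h | h
    · rw [h, one_mul] at h1; rw [h, h1]
    · rw [h] at h1; rw [h]
      rcases Int.units_eq_one_or (χ (Units.map (sig s hs).toRingHom.toMonoidHom u)) with h' | h'
      · rw [h'] at h1; exact absurd h1 (by decide)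
      · exact h'
  · rw [hχ]
    change psi (Multiplicative.ofAdd (f (e s hs ω i))) = -1
    rw [hf i]
    rfl

theorem tendsto_tu (ω : F) : Tendsto (fun i : ℕ => tu ω i) atTop (𝓝 1) := by
  intro S hS
  rw [V1130.LaurentTop.mem_nhds_iff] at hS
  obtain ⟨n, hn⟩ := hS
  rw [mem_map, mem_atTop_sets]
  refine ⟨n.toNat, fun i hi => hn _ ?_⟩
  change (1 + HahnSeries.single (2 * i + 1 : ℤ) ω - 1 : LaurentSeries F) ∈ B F n
  rw [add_sub_cancel_left]
  exact B_mono (by omega) (single_mem_B _ _)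

end V1130.LaurentChi
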