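import Mathlib

/-!
Twisted `PGL₂`: for a field `K` of characteristic two, an involutory automorphism `σ` and a
`σ`-invariant character `χ : Kˣ → {±1}`, the permutations `x ↦ A • σ^{χ(det A)} x` of the
projective line form a sharply 3-transitive group.
-/

namespace V1130.TwistedPGL

open OnePoint Matrix

section

variable {K : Type} [Field K] [DecidableEq K] (σ : K ≃+* K) (χ : Kˣ →* ℤˣ)

/-- `σ^ε` -/
def tw (ε : ℤˣ) : K →+* K := if ε = 1 then RingHom.id K else σ.toRingHom

omit [DecidableEq K] in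
@[simp] theorem tw_one : tw σ 1 = RingHom.id K := if_pos rfl

omit [DecidableEq K] in
theorem tw_neg_one : tw σ (-1) = σ.toRingHom := if_neg (by decide)

omit [DecidableEq K] in
theorem tw_mul (hσ : ∀ x, σ (σ x) = x) (ε δ : ℤˣ) (x : K) :
    tw σ (ε * δ) x = tw σ ε (tw σ δ x) := by
  rcases Int.units_eq_one_or ε with rfl | rfl <;> rcases Int.units_eq_one_or δ with rfl | rfl
  · simp
  · simp
  · simp
  · rw [show (-1 : ℤˣ) * -1 = 1 by decide, tw_one, tw_neg_one]
    exact (hσ x).symm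

omit [DecidableEq K] in
theorem chi_tw (hχ : ∀ u, χ (Units.map σ.toRingHom.toMonoidHom u) = χ u) (ε : ℤˣ) (u : Kˣ) :
    χ (Units.map (tw σ ε).toMonoidHom u) = χ u := by
  rcases Int.units_eq_one_or ε with rfl | rfl
  · rw [tw_one]; congr 1
  · rw [tw_neg_one]; exact hχ u

/-- `π` is the twisted Möbius transformation of `A`. -/
def IsTw (π : Equiv.Perm (OnePoint K)) (A : GL (Fin 2) K) : Prop :=
  ∀ x, π x = A • OnePoint.map (tw σ (χ (GeneralLinearGroup.det A))) x

omit [DecidableEq K] in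
theorem map_map_tw (hσ : ∀ x, σ (σ x) = x) (ε δ : ℤˣ) (x : OnePoint K) :
    OnePoint.map (tw σ ε) (OnePoint.map (tw σ δ) x) = OnePoint.map (tw σ (ε * δ)) x := by
  cases x with
  | infty => rfl
  | coe x =>
    simp only [OnePoint.map_some]
    rw [tw_mul σ hσ]

theorem IsTw.mul (hσ : ∀ x, σ (σ x) = x)
    (hχ : ∀ u, χ (Units.map σ.toRingHom.toMonoidHom u) = χ u)
    {π ρ : Equiv.Perm (OnePoint K)} {A B : GL (Fin 2) K} (hA : IsTw σ χ π A)
    (hB : IsTw σ χ ρ B) :
    IsTw σ χ (π * ρ) (A * B.map (tw σ (χ (GeneralLinearGroup.det A)))) := by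
  intro x
  rw [Equiv.Perm.mul_apply, hB x, hA, OnePoint.map_smul, map_map_tw σ hσ, ← mul_smul]
  congr 3
  rw [map_mul, map_mul]
  congr 2
  rw [← chi_tw σ χ hχ (χ (GeneralLinearGroup.det A)) (GeneralLinearGroup.det B)]
  congr 1
  ext
  simp [GeneralLinearGroup.map_det]

theorem exists_perm (hσ : ∀ x, σ (σ x) = x) (A : GL (Fin 2) K) :
    ∃ π : Equiv.Perm (OnePoint K), IsTw σ χ π A := by
  have h : ∀ x : OnePoint K, OnePoint.map (tw σ (χ (GeneralLinearGroup.det A)))
      (OnePoint.map (tw σ (χ (GeneralLinearGroup.det A))) x) = x := by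
    intro x
    rw [map_map_tw σ hσ, Int.units_mul_self, tw_one]
    cases x <;> rfl
  let τ : Equiv.Perm (OnePoint K) := ⟨OnePoint.map (tw σ (χ (GeneralLinearGroup.det A))),
    OnePoint.map (tw σ (χ (GeneralLinearGroup.det A))), h, h⟩
  exact ⟨τ.trans (MulAction.toPerm A), fun x => rfl⟩

theorem IsTw.inv (hσ : ∀ x, σ (σ x) = x)
    {π : Equiv.Perm (OnePoint K)} {A : GL (Fin 2) K} (hA : IsTw σ χ π A)
    (hχ : ∀ u, χ (Units.map σ.toRingHom.toMonoidHom u) = χ u) :
    IsTw σ χ π⁻¹ (A⁻¹.map (tw σ (χ (GeneralLinearGroup.det A)))) := by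
  intro x
  obtain ⟨y, rfl⟩ := π.surjective x
  have hd : χ (GeneralLinearGroup.det (A⁻¹.map (tw σ (χ (GeneralLinearGroup.det A)))))
      = χ (GeneralLinearGroup.det A) := by
    have h1 : GeneralLinearGroup.det (A⁻¹.map (tw σ (χ (GeneralLinearGroup.det A)))) =
        Units.map (tw σ (χ (GeneralLinearGroup.det A))).toMonoidHom
          (GeneralLinearGroup.det A)⁻¹ := by
      ext
      rw [GeneralLinearGroup.map_det, map_inv]
      rfl
    rw [h1, chi_tw σ χ hχ, map_inv, Int.units_inv_eq_self]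
  rw [hd, hA y]
  have h2 : (π⁻¹ : Equiv.Perm (OnePoint K))
      (A • OnePoint.map (tw σ (χ (GeneralLinearGroup.det A))) y) = y := by
    rw [← hA y]; exact π.symm_apply_apply y
  rw [h2, OnePoint.map_smul, ← mul_smul]
  have h3 : A⁻¹.map (tw σ (χ (GeneralLinearGroup.det A))) *
      A.map (tw σ (χ (GeneralLinearGroup.det A))) = 1 := by
    rw [← map_mul, inv_mul_cancel, map_one]
  rw [h3, one_smul, map_map_tw σ hσ, Int.units_mul_self, tw_one]
  cases y <;> rfl

/-- The twisted `PGL₂(K)` as a group of permutations of the projective line. -/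
def G (hσ : ∀ x, σ (σ x) = x)
    (hχ : ∀ u, χ (Units.map σ.toRingHom.toMonoidHom u) = χ u) :
    Subgroup (Equiv.Perm (OnePoint K)) where
  carrier := {π | ∃ A, IsTw σ χ π A}
  one_mem' := ⟨1, fun x => by
    rw [map_one, map_one, tw_one, one_smul]
    cases x <;> rfl⟩
  mul_mem' := by
    rintro π ρ ⟨A, hA⟩ ⟨B, hB⟩
    exact ⟨_, hA.mul σ χ hσ hχ hB⟩
  inv_mem' := by
    rintro π ⟨A, hA⟩
    exact ⟨_, hA.inv σ χ hσ hχ⟩

/-- homogeneous coordinates -/
def vec (p : OnePoint K) : K × K := p.elim (1, 0) (fun k => (k, 1))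

@[simp] theorem vec_infty : vec (∞ : OnePoint K) = (1, 0) := rfl
@[simp] theorem vec_coe (k : K) : vec (k : OnePoint K) = (k, 1) := rfl

theorem smul_eq_of_vec (A : GL (Fin 2) K) (p q : OnePoint K) (l : K) (hl : l ≠ 0)
    (h0 : A 0 0 * (vec p).1 + A 0 1 * (vec p).2 = l * (vec q).1)
    (h1 : A 1 0 * (vec p).1 + A 1 1 * (vec p).2 = l * (vec q).2) : A • p = q := by
  cases p with
  | infty =>
    rw [smul_infty_eq_ite]
    cases q with
    | infty =>
      simp only [vec_infty, mul_one, mul_zero, add_zero] at h0 h1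
      rw [if_pos h1]
    | coe k =>
      simp only [vec_infty, vec_coe, mul_one, mul_zero, add_zero] at h0 h1
      rw [if_neg (by rw [h1]; exact hl), h0, h1, mul_div_cancel_left₀ _ hl]
  | coe m =>
    rw [smul_some_eq_ite]
    cases q with
    | infty =>
      simp only [vec_infty, vec_coe, mul_one, mul_zero] at h0 h1
      rw [if_pos h1]
    | coe k =>
      simp only [vec_coe, mul_one] at h0 h1
      rw [if_neg (by rw [h1]; exact hl), h0, h1, mul_div_cancel_left₀ _ hl]

theorem det_vec_ne_zero {p q : OnePoint K} (h : p ≠ q) :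
    (vec p).1 * (vec q).2 - (vec p).2 * (vec q).1 ≠ 0 := by
  cases p with
  | infty =>
    cases q with
    | infty => exact absurd rfl h
    | coe k => simp
  | coe m =>
    cases q with
    | infty => simp
    | coe k =>
      simp only [vec_coe, mul_one, one_mul]
      intro h1
      exact h (by rw [sub_eq_zero.1 h1])

theorem exists_gl (a b c : OnePoint K) (hab : a ≠ b) (hac : a ≠ c) (hbc : b ≠ c) :
    ∃ A : GL (Fin 2) K, A • (∞ : OnePoint K) = a ∧ A • ((0 : K) : OnePoint K) = b ∧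
      A • ((1 : K) : OnePoint K) = c := by
  have dab := det_vec_ne_zero hab
  have dac := det_vec_ne_zero hac
  have dbc := det_vec_ne_zero hbc
  set D := (vec a).1 * (vec b).2 - (vec a).2 * (vec b).1 with hD
  set α := ((vec c).1 * (vec b).2 - (vec c).2 * (vec b).1) / D with hα
  set β := ((vec a).1 * (vec c).2 - (vec a).2 * (vec c).1) / D with hβ
  have hα0 : α ≠ 0 := div_ne_zero (by
    intro h; apply dbc; linear_combination -h) dab
  have hβ0 : β ≠ 0 := div_ne_zero dac dab
  have hdet : (!![α * (vec a).1, β * (vec b).1; α * (vec a).2, β * (vec b).2] :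
      Matrix (Fin 2) (Fin 2) K).det ≠ 0 := by
    rw [Matrix.det_fin_two_of]
    have : α * (vec a).1 * (β * (vec b).2) - β * (vec b).1 * (α * (vec a).2) = α * β * D := by
      rw [hD]; ring
    rw [this]
    exact mul_ne_zero (mul_ne_zero hα0 hβ0) dab
  refine ⟨GeneralLinearGroup.mkOfDetNeZero _ hdet, ?_, ?_, ?_⟩
  · refine smul_eq_of_vec _ _ _ α hα0 ?_ ?_
    · change α * (vec a).1 * 1 + β * (vec b).1 * 0 = _
      ring
    · change α * (vec a).2 * 1 + β * (vec b).2 * 0 = _
      ring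
  · refine smul_eq_of_vec _ _ _ β hβ0 ?_ ?_
    · change α * (vec a).1 * 0 + β * (vec b).1 * 1 = _
      ring
    · change α * (vec a).2 * 0 + β * (vec b).2 * 1 = _
      ring
  · refine smul_eq_of_vec _ _ _ 1 one_ne_zero ?_ ?_
    · change α * (vec a).1 * 1 + β * (vec b).1 * 1 = _
      rw [hα, hβ]
      field_simp
      rw [hD]
      ring
    · change α * (vec a).2 * 1 + β * (vec b).2 * 1 = _
      rw [hα, hβ]
      field_simp
      rw [hD]
      ring

variable (hσ : ∀ x, σ (σ x) = x) (hχ : ∀ u, χ (Units.map σ.toRingHom.toMonoidHom u) = χ u)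

theorem exists_G (a b c : OnePoint K) (hab : a ≠ b) (hac : a ≠ c) (hbc : b ≠ c) :
    ∃ g : G σ χ hσ hχ, g • (∞ : OnePoint K) = a ∧ g • ((0 : K) : OnePoint K) = b ∧
      g • ((1 : K) : OnePoint K) = c := by
  obtain ⟨A, h1, h2, h3⟩ := exists_gl a b c hab hac hbc
  obtain ⟨π, hπ⟩ := exists_perm σ χ hσ A
  refine ⟨⟨π, A, hπ⟩, ?_, ?_, ?_⟩
  · change π ∞ = a
    rw [hπ, OnePoint.map_infty, h1]
  · change π ((0 : K) : OnePoint K) = b
    rw [hπ, OnePoint.map_some, map_zero, h2]
  · change π ((1 : K) : OnePoint K) = c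
    rw [hπ, OnePoint.map_some, map_one, h3]

/-- the stabilizer of `∞` and `0` -/
theorem stab (g : G σ χ hσ hχ) (h1 : g • (∞ : OnePoint K) = ∞)
    (h2 : g • ((0 : K) : OnePoint K) = ((0 : K) : OnePoint K)) :
    ∃ u : Kˣ, ∀ k : K, g • (k : OnePoint K) = ((u * tw σ (χ u) k : K) : OnePoint K) := by
  obtain ⟨π, A, hπ⟩ := g
  change π ∞ = ∞ at h1
  change π ((0 : K) : OnePoint K) = ((0 : K) : OnePoint K) at h2
  rw [hπ, OnePoint.map_infty, smul_infty_eq_self_iff] at h1
  rw [hπ, OnePoint.map_some, map_zero, smul_some_eq_ite, h1] at h2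
  have hdet : A 0 0 * A 1 1 - A 0 1 * A 1 0 ≠ 0 := by
    have := A.det_ne_zero
    rwa [Matrix.det_fin_two] at this
  rw [h1, mul_zero, sub_zero] at hdet
  have h00 : A 0 0 ≠ 0 := left_ne_zero_of_mul hdet
  have h11 : A 1 1 ≠ 0 := right_ne_zero_of_mul hdet
  rw [if_neg (by simpa using h11)] at h2
  have h01 : A 0 1 = 0 := by
    have := OnePoint.coe_injective h2
    rw [mul_zero, zero_add, zero_mul, zero_add, div_eq_zero_iff] at this
    exact this.resolve_right h11
  refine ⟨Units.mk0 _ h00 * (Units.mk0 _ h11)⁻¹, fun k => ?_⟩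
  have hd : χ (Units.mk0 _ h00 * (Units.mk0 _ h11)⁻¹) = χ (GeneralLinearGroup.det A) := by
    have : GeneralLinearGroup.det A = Units.mk0 _ h00 * Units.mk0 _ h11 := by
      ext
      change (A : Matrix (Fin 2) (Fin 2) K).det = A 0 0 * A 1 1
      rw [Matrix.det_fin_two, h1, mul_zero, sub_zero]
    rw [this, map_mul, map_mul, map_inv, Int.units_inv_eq_self]
  change π (k : OnePoint K) = _
  rw [hπ, OnePoint.map_some, smul_some_eq_ite, if_neg (by rw [h1]; simpa using h11), hd, h1, h01]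
  congr 1
  simp only [Units.val_mul, Units.val_mk0, Units.val_inv_eq_inv_val, zero_mul, zero_add, add_zero]
  field_simp

/-- every `u` gives an element of the stabilizer of `∞` and `0` -/
theorem exists_stab (u : Kˣ) :
    ∃ g : G σ χ hσ hχ, g • (∞ : OnePoint K) = ∞ ∧
      ∀ k : K, g • (k : OnePoint K) = ((u * tw σ (χ u) k : K) : OnePoint K) := by
  have hdet : (!![(u : K), 0; 0, 1] : Matrix (Fin 2) (Fin 2) K).det ≠ 0 := by
    rw [Matrix.det_fin_two_of]; simp
  obtain ⟨π, hπ⟩ := exists_perm σ χ hσ (GeneralLinearGroup.mkOfDetNeZero _ hdet)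
  have hd : GeneralLinearGroup.det (GeneralLinearGroup.mkOfDetNeZero _ hdet) = u := by
    ext
    change (!![(u : K), 0; 0, 1] : Matrix (Fin 2) (Fin 2) K).det = u
    rw [Matrix.det_fin_two_of]; simp
  refine ⟨⟨π, _, hπ⟩, ?_, fun k => ?_⟩
  · change π ∞ = ∞
    rw [hπ, OnePoint.map_infty, smul_infty_eq_self_iff]
    rfl
  · change π (k : OnePoint K) = _
    rw [hπ, OnePoint.map_some, hd]
    refine smul_eq_of_vec _ _ _ 1 one_ne_zero ?_ ?_
    · change (u : K) * _ + 0 * 1 = 1 * _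
      simp
    · change (0 : K) * _ + 1 * 1 = 1 * 1
      simp

theorem eq_one_of_forall (g : G σ χ hσ hχ) (h1 : g • (∞ : OnePoint K) = ∞)
    (h : ∀ k : K, g • (k : OnePoint K) = (k : OnePoint K)) : g = 1 := by
  apply Subtype.ext
  apply Equiv.ext
  intro x
  cases x with
  | infty => exact h1
  | coe k => exact h k

theorem no_inv [CharP K 2] (hN : ∀ u : Kˣ, χ u = -1 → (u : K) * σ u ≠ 1)
    (g : G σ χ hσ hχ) (h1 : g • (∞ : OnePoint K) = ∞)
    (h2 : g • ((0 : K) : OnePoint K) = ((0 : K) : OnePoint K)) (hg : g * g = 1) : g = 1 := by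
  obtain ⟨u, hu⟩ := stab σ χ hσ hχ g h1 h2
  have h3 : (g * g) • ((1 : K) : OnePoint K) = ((1 : K) : OnePoint K) := by rw [hg, one_smul]
  rw [mul_smul, hu, hu, map_one, mul_one] at h3
  have h4 := OnePoint.coe_injective h3
  rcases Int.units_eq_one_or (χ u) with hχu | hχu
  · rw [hχu, tw_one, RingHom.id_apply] at h4
    have h5 : (u : K) = 1 := by
      have : ((u : K) - 1) ^ 2 = 0 := by
        rw [sub_sq, sq, h4]
        have : (2 : K) = 0 := CharTwo.two_eq_zero
        linear_combination (1 - (u : K)) * this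
      exact sub_eq_zero.1 (pow_eq_zero_iff (by norm_num) |>.1 this)
    refine eq_one_of_forall σ χ hσ hχ g h1 fun k => ?_
    rw [hu, hχu, tw_one, RingHom.id_apply, h5, one_mul]
  · rw [hχu, tw_neg_one] at h4
    exact absurd h4 (hN u hχu)

theorem three_stab (g : G σ χ hσ hχ) (h1 : g • (∞ : OnePoint K) = ∞)
    (h2 : g • ((0 : K) : OnePoint K) = ((0 : K) : OnePoint K))
    (h3 : g • ((1 : K) : OnePoint K) = ((1 : K) : OnePoint K)) : g = 1 := by
  obtain ⟨u, hu⟩ := stab σ χ hσ hχ g h1 h2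
  rw [hu, map_one, mul_one] at h3
  have h4 : (u : K) = 1 := OnePoint.coe_injective h3
  have h5 : u = 1 := Units.ext h4
  refine eq_one_of_forall σ χ hσ hχ g h1 fun k => ?_
  rw [hu, h5, map_one, tw_one, RingHom.id_apply, Units.val_one, one_mul]

theorem exists_third (a b : OnePoint K) : ∃ c : OnePoint K, a ≠ c ∧ b ≠ c := by
  have h01 : ((0 : K) : OnePoint K) ≠ ((1 : K) : OnePoint K) :=
    fun h => zero_ne_one (OnePoint.coe_injective h)
  by_cases ha : a = ∞
  · by_cases hb : b = ((0 : K) : OnePoint K)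
    · exact ⟨((1 : K) : OnePoint K), by rw [ha]; exact OnePoint.infty_ne_coe _, by rw [hb]; exact h01⟩
    · exact ⟨((0 : K) : OnePoint K), by rw [ha]; exact OnePoint.infty_ne_coe _, hb⟩
  · by_cases hb : b = ∞
    · by_cases ha' : a = ((0 : K) : OnePoint K)
      · exact ⟨((1 : K) : OnePoint K), by rw [ha']; exact h01,
          by rw [hb]; exact OnePoint.infty_ne_coe _⟩
      · exact ⟨((0 : K) : OnePoint K), ha', by rw [hb]; exact OnePoint.infty_ne_coe _⟩
    · exact ⟨∞, ha, hb⟩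

end

end V1130.TwistedPGL
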