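import Mathlib

/-!
# Edge colourings in which every four vertices contain a monochromatic triangle: structure
-/

set_option autoImplicit false

namespace Pool.Agent.V1130.Tur

variable {V C : Type*}

/-- the three pairs of `x, y, z` have the same colour -/
def Mo (c : V → V → C) (x y z : V) : Prop := c x y = c x z ∧ c x y = c y z

/-- every four vertices contain a monochromatic triangle -/
def Cov (c : V → V → C) : Prop := ∀ x y z w : V, x ≠ y → x ≠ z → x ≠ w → y ≠ z → y ≠ w → z ≠ w →
  Mo c x y z ∨ Mo c x y w ∨ Mo c x z w ∨ Mo c y z w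

/-- every triple without a pair of colour `s` is monochromatic -/
def SS (c : V → V → C) (s : C) : Prop := ∀ x y z : V, x ≠ y → x ≠ z → y ≠ z →
  c x y ≠ s → c x z ≠ s → c y z ≠ s → Mo c x y z

section

variable {c : V → V → C} (hc : ∀ x y, c x y = c y x) (hcov : Cov c)
include hc hcov

/-- a vertex with three colours -/
theorem three_colours {v a b e : V} (hva : v ≠ a) (hvb : v ≠ b) (hve : v ≠ e)
    (h1 : c v a ≠ c v b) (h2 : c v a ≠ c v e) (h3 : c v b ≠ c v e) : SS c (c a b) := by
  have hab : a ≠ b := fun h => h1 (by rw [h])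
  have hae : a ≠ e := fun h => h2 (by rw [h])
  have hbe : b ≠ e := fun h => h3 (by rw [h])
  -- four vertices, three different colours at `v`
  have key : ∀ x y z : V, v ≠ x → v ≠ y → v ≠ z → c v x ≠ c v y → c v x ≠ c v z → c v y ≠ c v z →
      Mo c x y z := by
    intro x y z hx hy hz g1 g2 g3
    have hxy : x ≠ y := fun h => g1 (by rw [h])
    have hxz : x ≠ z := fun h => g2 (by rw [h])
    have hyz : y ≠ z := fun h => g3 (by rw [h])
    rcases hcov v x y z hx hy hz hxy hxz hyz with h | h | h | h
    · exact absurd h.1 g1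
    · exact absurd h.1 g2
    · exact absurd h.1 g3
    · exact h
  have habe := key a b e hva hvb hve h1 h2 h3
  have s1 : c a e = c a b := habe.1.symm
  have s2 : c b e = c a b := habe.2.symm
  -- pairs with one of the three vertices
  have ha : ∀ w, v ≠ w → c v w ≠ c v a → c w a = c a b := by
    intro w hw g
    by_cases g' : c v w = c v b
    · have := key w a e hw hva hve g (by rw [g']; exact h3) h2
      rw [this.2.trans s1]
    · have := key w a b hw hva hvb g g' h1
      exact this.2
  have hb : ∀ w, v ≠ w → c v w ≠ c v b → c w b = c a b := by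
    intro w hw g
    by_cases g' : c v w = c v a
    · have := key w b e hw hvb hve g (by rw [g']; exact h2) h3
      exact this.2.trans s2
    · have := key w b a hw hvb hva g g' h1.symm
      rw [this.2, hc]
  have he : ∀ w, v ≠ w → c v w ≠ c v e → c w e = c a b := by
    intro w hw g
    by_cases g' : c v w = c v a
    · have := key w e b hw hve hvb g (by rw [g']; exact h1) h3.symm
      rw [this.2, hc e b, s2]
    · have := key w e a hw hve hva g g' h2.symm
      rw [this.2, hc e a, s1]
  -- different colours at `v`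
  have hdiff : ∀ w w', v ≠ w → v ≠ w' → c v w ≠ c v w' → c w w' = c a b := by
    intro w w' hw hw' g
    by_cases g1 : c v w = c v a
    · by_cases g2 : c v w' = c v b
      · have := key w w' e hw hw' hve g (by rw [g1]; exact h2) (by rw [g2]; exact h3)
        rw [this.1]
        exact he w hw (by rw [g1]; exact h2)
      · have := key w w' b hw hw' hvb g (by rw [g1]; exact h1) g2
        rw [this.1]
        exact hb w hw (by rw [g1]; exact h1)
    · by_cases g2 : c v w' = c v a
      · by_cases g3 : c v w = c v b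
        · have := key w w' e hw hw' hve g (by rw [g3]; exact h3) (by rw [g2]; exact h2)
          rw [this.1]
          exact he w hw (by rw [g3]; exact h3)
        · have := key w w' b hw hw' hvb g g3 (by rw [g2]; exact h1)
          rw [this.1]
          exact hb w hw g3
      · have := key w w' a hw hw' hva g g1 g2
        rw [this.1]
        exact ha w hw g1
  -- equal colours at `v`
  have hsame : ∀ w w', v ≠ w → v ≠ w' → w ≠ w' → c v w = c v w' → c w w' ≠ c a b →
      c w w' = c v w := by
    intro w w' hw hw' hne g gs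
    have main : ∀ g0 : V, v ≠ g0 → c v w ≠ c v g0 → c w g0 = c a b → c w w' = c v w := by
      intro g0 hg0 hgc hgs
      have n1 : w ≠ g0 := fun h => hgc (by rw [h])
      have n2 : w' ≠ g0 := fun h => hgc (by rw [← h]; exact g)
      rcases hcov v w w' g0 hw hw' hg0 hne n1 n2 with h | h | h | h
      · exact h.2.symm
      · exact absurd h.1 hgc
      · exact absurd (g.trans h.1) hgc
      · exact absurd (h.1.trans hgs) gs
    by_cases g1 : c v w = c v a
    · exact main b hvb (by rw [g1]; exact h1) (hb w hw (by rw [g1]; exact h1))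
    · exact main a hva g1 (ha w hw g1)
  -- conclusion
  have hSv : ∀ x y, v ≠ x → v ≠ y → x ≠ y → c x y ≠ c a b → Mo c v x y := by
    intro x y hx hy hxy g
    have g1 : c v x = c v y := by
      by_contra hcon
      exact g (hdiff x y hx hy hcon)
    exact ⟨g1, (hsame x y hx hy hxy g1 g).symm⟩
  intro x y z hxy hxz hyz g1 g2 g3
  by_cases hx : v = x
  · subst hx
    exact hSv y z hxy hxz hyz g3
  by_cases hy : v = y
  · subst hy
    have := hSv x z hx hyz hxz g2
    exact ⟨by rw [hc x v, this.2], by rw [hc x v]; exact this.1⟩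
  by_cases hz : v = z
  · subst hz
    have := hSv x y hx hy hxy g1
    exact ⟨by rw [hc x v]; exact this.2.symm, by rw [hc y v, ← this.1]; exact this.2.symm⟩
  have m1 := hSv x y hx hy hxy g1
  have m2 := hSv x z hx hz hxz g2
  have m3 := hSv y z hy hz hyz g3
  exact ⟨m1.2.symm.trans m2.2, (m1.2.symm.trans m1.1).trans m3.2⟩

end

section

variable {c : V → V → C} (hc : ∀ x y, c x y = c y x)
  (hpal : ∀ v, ∃ α β : C, ∀ w, v ≠ w → c v w = α ∨ c v w = β) (hns : ∀ s, ¬ SS c s)
include hc hpal hns

/-- a vertex which misses the colour `s` -/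
theorem misses (s : C) : ∃ x, ∀ w, x ≠ w → c x w ≠ s := by
  have h := hns s
  unfold SS at h
  push Not at h
  obtain ⟨x, y, z, hxy, hxz, hyz, g1, g2, g3, hm⟩ := h
  have main : ∀ x y z : V, x ≠ y → x ≠ z → c x y ≠ s → c x z ≠ s → c x y ≠ c x z →
      ∃ x, ∀ w, x ≠ w → c x w ≠ s := by
    intro x y z hxy hxz g1 g2 g
    refine ⟨x, fun w hw hs => ?_⟩
    obtain ⟨α, β, hab⟩ := hpal x
    rcases hab y hxy with e1 | e1 <;> rcases hab z hxz with e2 | e2 <;>
      rcases hab w hw with e3 | e3 <;> simp_all
  by_cases g : c x y = c x z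
  · have g' : c y x ≠ c y z := by
      intro h'
      exact hm ⟨g, by rw [← h', hc]⟩
    exact main y x z hxy.symm hyz (by rw [hc]; exact g1) g3 g'
  · exact main x y z hxy hxz g1 g2 g

/-- there is a rainbow triangle -/
theorem rainbow (v w : V) (hvw : v ≠ w) : ∃ a b e : V, a ≠ b ∧ a ≠ e ∧ b ≠ e ∧
    c a b ≠ c a e ∧ c a b ≠ c b e ∧ c a e ≠ c b e := by
  obtain ⟨x, hx⟩ := misses hc hpal hns (c v w)
  have hxv : x ≠ v := by
    rintro rfl
    exact hx w hvw rfl
  have hxw : x ≠ w := by
    rintro rfl
    exact hx v hvw.symm (hc _ _)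
  by_cases g : c x v = c x w
  · obtain ⟨x', hx'⟩ := misses hc hpal hns (c x v)
    have n1 : x' ≠ x := by
      rintro rfl
      exact hx' v hxv rfl
    have n2 : x' ≠ v := by
      rintro rfl
      exact hx' x hxv.symm (hc _ _)
    have p1 := hx' v n2
    have p2 := hx' x n1
    have p3 := hx v hxv
    have p4 := hx x' n1.symm
    -- the colour of `v x'` is that of `v w`
    have p5 : c v x' = c v w := by
      obtain ⟨α, β, hab⟩ := hpal v
      have q1 := hab w hvw
      have q2 := hab x hxv.symm
      have q3 := hab x' n2.symm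
      rw [hc x' v] at p1
      rw [hc x v] at p1 p3
      rcases q1 with e1 | e1 <;> rcases q2 with e2 | e2 <;> rcases q3 with e3 | e3 <;> simp_all
    refine ⟨v, x, x', hxv.symm, n2.symm, n1.symm, ?_, ?_, ?_⟩
    · rw [p5, hc v x]; exact p3
    · rw [hc v x, hc x x']; exact fun h => p2 h.symm
    · rw [p5, hc x x', hc x' x]; exact fun h => p4 h.symm
  · exact ⟨x, v, w, hxv, hxw, hvw, g, hx v hxv, hx w hxw⟩

/-- classes by the missing colour -/
theorem classes (v w : V) (hvw : v ≠ w) : ∃ (κ : Fin 3 → C) (p : V → Fin 3), Function.Injective κ ∧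
    ∀ x y, x ≠ y → ∃ k, k ≠ p x ∧ k ≠ p y ∧ c x y = κ k := by
  obtain ⟨a, b, e, hab, hae, hbe, g1, g2, g3⟩ := rainbow hc hpal hns v w hvw
  let κ : Fin 3 → C := ![c b e, c a e, c a b]
  have k0 : κ 0 = c b e := rfl
  have k1 : κ 1 = c a e := rfl
  have k2 : κ 2 = c a b := rfl
  have hκ : Function.Injective κ := by
    intro i j hij
    fin_cases i <;> fin_cases j <;> simp_all [κ]
  have hp : ∀ x, ∃ i : Fin 3, ∀ y, x ≠ y → ∃ k, k ≠ i ∧ c x y = κ k := by
    intro x
    obtain ⟨α, β, hαβ⟩ := hpal x
    -- it is enough that two different colours of the triangle are seen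
    have main : ∀ (i j k : Fin 3) (y z : V), x ≠ y → x ≠ z → j ≠ i → k ≠ i → j ≠ k →
        c x y = κ j → c x z = κ k → ∃ i : Fin 3, ∀ y, x ≠ y → ∃ k, k ≠ i ∧ c x y = κ k := by
      intro i j k y z hy hz hj hk hjk e1 e2
      refine ⟨i, fun t ht => ?_⟩
      have hne : κ j ≠ κ k := fun h => hjk (hκ h)
      rcases hαβ y hy with f1 | f1 <;> rcases hαβ z hz with f2 | f2 <;>
        rcases hαβ t ht with f3 | f3
      · exact absurd (e1.symm.trans (f1.trans (f2.symm.trans e2))) hne
      · exact absurd (e1.symm.trans (f1.trans (f2.symm.trans e2))) hne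
      · exact ⟨j, hj, by rw [f3, ← f1, e1]⟩
      · exact ⟨k, hk, by rw [f3, ← f2, e2]⟩
      · exact ⟨k, hk, by rw [f3, ← f2, e2]⟩
      · exact ⟨j, hj, by rw [f3, ← f1, e1]⟩
      · exact absurd (e1.symm.trans (f1.trans (f2.symm.trans e2))) hne
      · exact absurd (e1.symm.trans (f1.trans (f2.symm.trans e2))) hne
    by_cases xa : x = a
    · subst xa
      exact main 0 2 1 b e hab hae (by decide) (by decide) (by decide) rfl rfl
    by_cases xb : x = b
    · subst xb
      exact main 1 2 0 a e hab.symm hbe (by decide) (by decide) (by decide) (by rw [hc]; rfl) rfl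
    by_cases xe : x = e
    · subst xe
      exact main 2 1 0 a b hae.symm hbe.symm (by decide) (by decide) (by decide)
        (by rw [hc]; rfl) (by rw [hc]; rfl)
    -- colours seen from the three vertices of the triangle
    have sa : c x a = κ 1 ∨ c x a = κ 2 := by
      obtain ⟨α', β', h'⟩ := hpal a
      have q1 := h' b hab
      have q2 := h' e hae
      have q3 := h' x (Ne.symm xa)
      rw [k1, k2, hc x a]
      rcases q1 with q1 | q1 <;> rcases q2 with q2 | q2 <;> rcases q3 with q3 | q3 <;> simp_all
    have sb : c x b = κ 0 ∨ c x b = κ 2 := by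
      obtain ⟨α', β', h'⟩ := hpal b
      have q1 := h' a hab.symm
      have q2 := h' e hbe
      have q3 := h' x (Ne.symm xb)
      rw [hc b a] at q1
      rw [k0, k2, hc x b]
      rcases q1 with q1 | q1 <;> rcases q2 with q2 | q2 <;> rcases q3 with q3 | q3 <;> simp_all
    have se : c x e = κ 0 ∨ c x e = κ 1 := by
      obtain ⟨α', β', h'⟩ := hpal e
      have q1 := h' a hae.symm
      have q2 := h' b hbe.symm
      have q3 := h' x (Ne.symm xe)
      rw [hc e a] at q1
      rw [hc e b] at q2
      rw [k0, k1, hc x e]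
      rcases q1 with q1 | q1 <;> rcases q2 with q2 | q2 <;> rcases q3 with q3 | q3 <;> simp_all
    rcases sa with sa | sa <;> rcases sb with sb | sb
    · exact main 2 1 0 a b xa xb (by decide) (by decide) (by decide) sa sb
    · exact main 0 1 2 a b xa xb (by decide) (by decide) (by decide) sa sb
    · exact main 1 2 0 a b xa xb (by decide) (by decide) (by decide) sa sb
    · rcases se with se | se
      · exact main 1 2 0 a e xa xe (by decide) (by decide) (by decide) sa se
      · exact main 0 2 1 a e xa xe (by decide) (by decide) (by decide) sa se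
  choose p hp using hp
  refine ⟨κ, p, hκ, fun x y hxy => ?_⟩
  obtain ⟨k, h1, h2⟩ := hp x y hxy
  obtain ⟨k', h3, h4⟩ := hp y x hxy.symm
  have : k = k' := hκ (by rw [← h2, ← h4, hc])
  subst this
  exact ⟨k, h1, h3, h2⟩

end

end Pool.Agent.V1130.Tur
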