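import Mathlib
import Pool.Agent.V1130.TurA

/-!
# Edge colourings in which every four vertices contain a monochromatic triangle: the three classes
-/

set_option autoImplicit false

namespace Pool.Agent.V1130.Tur

variable {V C : Type*}

/-- a triple of Turán's construction: three vertices in a class, or two vertices in a class and one
in the next class -/
def TT (p : V → Fin 3) (x y z : V) : Prop :=
  (p x = p y ∧ p y = p z) ∨ (p x = p y ∧ p z = p x + 1) ∨ (p x = p z ∧ p y = p x + 1) ∨
    (p y = p z ∧ p x = p y + 1)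

/-- the structure theorem -/
theorem structure_thm {c : V → V → C} (hc : ∀ x y, c x y = c y x) (hcov : Cov c) (v₀ w₀ : V)
    (hvw : v₀ ≠ w₀) : (∃ s, SS c s) ∨ ∃ p : V → Fin 3, (∀ i, ∃ x y, x ≠ y ∧ p x = i ∧ p y = i) ∧
      ∀ x y z, x ≠ y → x ≠ z → y ≠ z → (Mo c x y z ↔ TT p x y z) := by
  by_cases hS : ∃ s, SS c s
  · exact Or.inl hS
  right
  have hns : ∀ s, ¬ SS c s := fun s h => hS ⟨s, h⟩
  have hpal : ∀ v, ∃ α β : C, ∀ w, v ≠ w → c v w = α ∨ c v w = β := by
    intro v
    by_contra hcon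
    push Not at hcon
    -- some neighbour
    obtain ⟨a, hva⟩ : ∃ a, v ≠ a := by
      by_cases h : v = v₀
      · exact ⟨w₀, h ▸ hvw⟩
      · exact ⟨v₀, h⟩
    obtain ⟨b, hvb, hb1, -⟩ := hcon (c v a) (c v a)
    obtain ⟨e, hve, he1, he2⟩ := hcon (c v a) (c v b)
    exact hns _ (three_colours hc hcov hva hvb hve hb1.symm he1.symm he2.symm)
  obtain ⟨κ, p, hκ, hp⟩ := classes hc hpal hns v₀ w₀ hvw
  have third : ∀ i j : Fin 3, i ≠ j → ∀ k k', k ≠ i → k ≠ j → k' ≠ i → k' ≠ j → k = k' := by decide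
  -- colours between different classes
  have cross : ∀ x y, p x ≠ p y → ∀ k, k ≠ p x → k ≠ p y → c x y = κ k := by
    intro x y hxy k h1 h2
    obtain ⟨k', g1, g2, g3⟩ := hp x y (fun h => hxy (by rw [h]))
    rw [g3, third _ _ hxy k k' h1 h2 g1 g2]
  -- every class has two elements
  have big : ∀ i, ∃ x y, x ≠ y ∧ p x = i ∧ p y = i := by
    intro i
    by_contra hcon
    push Not at hcon
    have hone : ∀ x y, p x = i → p y = i → x = y := by
      intro x y hx hy
      by_contra hne
      exact hcon x y hne hx hy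
    apply hns (κ i)
    intro x y z hxy hxz hyz g1 g2 g3
    obtain ⟨k1, a1, b1, e1⟩ := hp x y hxy
    obtain ⟨k2, a2, b2, e2⟩ := hp x z hxz
    obtain ⟨k3, a3, b3, e3⟩ := hp y z hyz
    have h1 : k1 ≠ i := fun h => g1 (by rw [e1, h])
    have h2 : k2 ≠ i := fun h => g2 (by rw [e2, h])
    have h3 : k3 ≠ i := fun h => g3 (by rw [e3, h])
    have n1 : ¬ (p x = i ∧ p y = i) := fun h => hxy (hone x y h.1 h.2)
    have n2 : ¬ (p x = i ∧ p z = i) := fun h => hxz (hone x z h.1 h.2)
    have n3 : ¬ (p y = i ∧ p z = i) := fun h => hyz (hone y z h.1 h.2)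
    have fin : ∀ i a b d k1 k2 k3 : Fin 3, k1 ≠ a → k1 ≠ b → k2 ≠ a → k2 ≠ d → k3 ≠ b → k3 ≠ d →
        k1 ≠ i → k2 ≠ i → k3 ≠ i → ¬ (a = i ∧ b = i) → ¬ (a = i ∧ d = i) → ¬ (b = i ∧ d = i) →
        k1 = k2 ∧ k1 = k3 := by decide
    obtain ⟨f1, f2⟩ := fin i (p x) (p y) (p z) k1 k2 k3 a1 b1 a2 b2 a3 b3 h1 h2 h3 n1 n2 n3
    exact ⟨by rw [e1, e2, f1], by rw [e1, e3, f2]⟩
  -- the condition for pairs of classes
  have cond : ∀ i j k : Fin 3, i ≠ j → k ≠ i → k ≠ j →
      (∀ x y, x ≠ y → p x = i → p y = i → c x y = κ k) ∨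
      (∀ x y, x ≠ y → p x = j → p y = j → c x y = κ k) := by
    intro i j k hij hki hkj
    by_contra hcon
    push Not at hcon
    obtain ⟨⟨x, y, hxy, hx, hy, h1⟩, ⟨z, w, hzw, hz, hw, h2⟩⟩ := hcon
    have nxz : x ≠ z := fun h => hij (by rw [← hx, ← hz, h])
    have nxw : x ≠ w := fun h => hij (by rw [← hx, ← hw, h])
    have nyz : y ≠ z := fun h => hij (by rw [← hy, ← hz, h])
    have nyw : y ≠ w := fun h => hij (by rw [← hy, ← hw, h])
    have exz : c x z = κ k := cross x z (by rw [hx, hz]; exact hij) k (by rw [hx]; exact hki)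
      (by rw [hz]; exact hkj)
    have exw : c x w = κ k := cross x w (by rw [hx, hw]; exact hij) k (by rw [hx]; exact hki)
      (by rw [hw]; exact hkj)
    have eyz : c y z = κ k := cross y z (by rw [hy, hz]; exact hij) k (by rw [hy]; exact hki)
      (by rw [hz]; exact hkj)
    rcases hcov x y z w hxy nxz nxw nyz nyw hzw with h | h | h | h
    · exact h1 (h.1.trans exz)
    · exact h1 (h.1.trans exw)
    · exact h2 (by rw [← h.2, exz])
    · exact h2 (by rw [← h.2, eyz])
  have notboth : ∀ i k k' : Fin 3, k ≠ k' → (∀ x y, x ≠ y → p x = i → p y = i → c x y = κ k) →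
      (∀ x y, x ≠ y → p x = i → p y = i → c x y = κ k') → False := by
    intro i k k' hkk h1 h2
    obtain ⟨x, y, hxy, hx, hy⟩ := big i
    exact hkk (hκ ((h1 x y hxy hx hy).symm.trans (h2 x y hxy hx hy)))
  have c01 := cond 0 1 2 (by decide) (by decide) (by decide)
  have c12 := cond 1 2 0 (by decide) (by decide) (by decide)
  have c20 := cond 2 0 1 (by decide) (by decide) (by decide)
  rcases c01 with h0 | h1
  · -- inner colour of the class `i` is `i + 2`
    have h2 := c20.resolve_right fun h => notboth 0 2 1 (by decide) h0 h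
    have h1 := c12.resolve_right fun h => notboth 2 1 0 (by decide) h2 h
    have inner : ∀ x y, x ≠ y → p x = p y → c x y = κ (p x + 2) := by
      intro x y hxy hpxy
      have fin : ∀ i : Fin 3, i = 0 ∨ i = 1 ∨ i = 2 := by decide
      rcases fin (p x) with h | h | h
      · rw [h]; exact h0 x y hxy h (hpxy ▸ h)
      · rw [h]; exact h1 x y hxy h (hpxy ▸ h)
      · rw [h]; exact h2 x y hxy h (hpxy ▸ h)
    -- the colour as a function of the classes
    have col : ∀ x y, x ≠ y → c x y = κ (if p x = p y then p x + 2 else - (p x + p y)) := by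
      intro x y hxy
      split_ifs with h
      · exact inner x y hxy h
      · have fin : ∀ i j : Fin 3, i ≠ j → - (i + j) ≠ i ∧ - (i + j) ≠ j := by decide
        exact cross x y h _ (fin _ _ h).1 (fin _ _ h).2
    refine ⟨p, big, fun x y z hxy hxz hyz => ?_⟩
    unfold Mo TT
    rw [col x y hxy, col x z hxz, col y z hyz, hκ.eq_iff, hκ.eq_iff]
    have fin : ∀ a b d : Fin 3,
        (((if a = b then a + 2 else -(a + b)) = (if a = d then a + 2 else -(a + d))) ∧
        ((if a = b then a + 2 else -(a + b)) = (if b = d then b + 2 else -(b + d)))) ↔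
        ((a = b ∧ b = d) ∨ (a = b ∧ d = a + 1) ∨ (a = d ∧ b = a + 1) ∨ (b = d ∧ a = b + 1)) := by
      decide
    exact fin (p x) (p y) (p z)
  · -- inner colour of the class `i` is `i + 1`
    have h2 := c12.resolve_left fun h => notboth 1 2 0 (by decide) h1 h
    have h0 := c20.resolve_left fun h => notboth 2 0 1 (by decide) h2 h
    have inner : ∀ x y, x ≠ y → p x = p y → c x y = κ (p x + 1) := by
      intro x y hxy hpxy
      have fin : ∀ i : Fin 3, i = 0 ∨ i = 1 ∨ i = 2 := by decide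
      rcases fin (p x) with h | h | h
      · rw [h]; exact h0 x y hxy h (hpxy ▸ h)
      · rw [h]; exact h1 x y hxy h (hpxy ▸ h)
      · rw [h]; exact h2 x y hxy h (hpxy ▸ h)
    have col : ∀ x y, x ≠ y → c x y = κ (if p x = p y then p x + 1 else - (p x + p y)) := by
      intro x y hxy
      split_ifs with h
      · exact inner x y hxy h
      · have fin : ∀ i j : Fin 3, i ≠ j → - (i + j) ≠ i ∧ - (i + j) ≠ j := by decide
        exact cross x y h _ (fin _ _ h).1 (fin _ _ h).2
    refine ⟨fun x => - p x, ?_, fun x y z hxy hxz hyz => ?_⟩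
    · intro i
      obtain ⟨x, y, h, hx, hy⟩ := big (-i)
      exact ⟨x, y, h, by show -p x = i; rw [hx, neg_neg], by show -p y = i; rw [hy, neg_neg]⟩
    unfold Mo TT
    rw [col x y hxy, col x z hxz, col y z hyz, hκ.eq_iff, hκ.eq_iff]
    have fin : ∀ a b d : Fin 3,
        (((if a = b then a + 1 else -(a + b)) = (if a = d then a + 1 else -(a + d))) ∧
        ((if a = b then a + 1 else -(a + b)) = (if b = d then b + 1 else -(b + d)))) ↔
        ((-a = -b ∧ -b = -d) ∨ (-a = -b ∧ -d = -a + 1) ∨ (-a = -d ∧ -b = -a + 1) ∨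
          (-b = -d ∧ -a = -b + 1)) := by
      decide
    exact fin (p x) (p y) (p z)

end Pool.Agent.V1130.Tur
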