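import Mathlib

/-!
# Two colours: every four vertices contain a monochromatic triangle
-/

set_option autoImplicit false

open Finset

namespace Pool.Agent.V1130.Tur

section two

variable {V : Type*} [DecidableEq V] (R : V → V → Prop)

/-- all pairs of `s` are in `R` -/
def AllR (s : Finset V) : Prop := ∀ x ∈ s, ∀ y ∈ s, x ≠ y → R x y

/-- no pair of `s` is in `R` -/
def NoR (s : Finset V) : Prop := ∀ x ∈ s, ∀ y ∈ s, x ≠ y → ¬ R x y

open scoped Classical in
/-- the number of pairs in `R` -/
noncomputable def nR (U : Finset V) : ℕ := ((U.powersetCard 2).filter (AllR R)).card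

open scoped Classical in
/-- the number of pairs not in `R` -/
noncomputable def nB (U : Finset V) : ℕ := ((U.powersetCard 2).filter (NoR R)).card

open scoped Classical in
/-- the number of monochromatic triples -/
noncomputable def nM (U : Finset V) : ℕ :=
  ((U.powersetCard 3).filter fun s => AllR R s ∨ NoR R s).card

variable {R} (hR : ∀ x y, R x y → R y x)
include hR

theorem nR_add_nB (U : Finset V) : nR R U + nB R U = U.card.choose 2 := by
  classical
  unfold nR nB
  rw [← card_powersetCard, ← card_union_of_disjoint, ← filter_or]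
  · congr 1
    rw [filter_eq_self]
    intro t ht
    obtain ⟨-, ht⟩ := mem_powersetCard.1 ht
    obtain ⟨x, y, hxy, rfl⟩ := card_eq_two.1 ht
    by_cases h : R x y
    · left
      intro a ha b hb hab
      simp only [mem_insert, mem_singleton] at ha hb
      rcases ha with rfl | rfl <;> rcases hb with rfl | rfl
      · exact absurd rfl hab
      · exact h
      · exact hR _ _ h
      · exact absurd rfl hab
    · right
      intro a ha b hb hab
      simp only [mem_insert, mem_singleton] at ha hb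
      rcases ha with rfl | rfl <;> rcases hb with rfl | rfl
      · exact absurd rfl hab
      · exact h
      · exact fun h' => h (hR _ _ h')
      · exact absurd rfl hab
  · rw [disjoint_left]
    intro t h1 h2
    obtain ⟨h1, h1'⟩ := mem_filter.1 h1
    obtain ⟨-, h2'⟩ := mem_filter.1 h2
    obtain ⟨-, ht⟩ := mem_powersetCard.1 h1
    obtain ⟨x, y, hxy, rfl⟩ := card_eq_two.1 ht
    exact h2' x (by simp) y (by simp) hxy (h1' x (by simp) y (by simp) hxy)

omit hR in
theorem AllR_insert {v : V} {t : Finset V} (hv : ∀ x ∈ t, R v x) (hv' : ∀ x ∈ t, R x v) :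
    AllR R (insert v t) ↔ AllR R t := by
  constructor
  · intro h x hx y hy hxy
    exact h x (mem_insert_of_mem hx) y (mem_insert_of_mem hy) hxy
  · intro h x hx y hy hxy
    rcases mem_insert.1 hx with e1 | hx1
    · rcases mem_insert.1 hy with e2 | hy1
      · exact absurd (e1.trans e2.symm) hxy
      · rw [e1]; exact hv y hy1
    · rcases mem_insert.1 hy with e2 | hy1
      · rw [e2]; exact hv' x hx1
      · exact h x hx1 y hy1 hxy

omit hR in
theorem NoR_insert {v : V} {t : Finset V} (hv : ∀ x ∈ t, ¬ R v x) (hv' : ∀ x ∈ t, ¬ R x v) :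
    NoR R (insert v t) ↔ NoR R t := by
  constructor
  · intro h x hx y hy hxy
    exact h x (mem_insert_of_mem hx) y (mem_insert_of_mem hy) hxy
  · intro h x hx y hy hxy
    rcases mem_insert.1 hx with e1 | hx1
    · rcases mem_insert.1 hy with e2 | hy1
      · exact absurd (e1.trans e2.symm) hxy
      · rw [e1]; exact hv y hy1
    · rcases mem_insert.1 hy with e2 | hy1
      · rw [e2]; exact hv' x hx1
      · exact h x hx1 y hy1 hxy

omit hR in
theorem card_filter_insert {v : V} {W : Finset V} (hv : v ∉ W) (k : ℕ) (Q : Finset V → Prop)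
    [DecidablePred Q] :
    (((insert v W).powersetCard (k + 1)).filter Q).card =
      ((W.powersetCard (k + 1)).filter Q).card +
        ((W.powersetCard k).filter fun t => Q (insert v t)).card := by
  rw [powersetCard_succ_insert hv, filter_union, card_union_of_disjoint]
  · congr 1
    rw [filter_image, card_image_of_injOn]
    intro s hs t ht hst
    have h1 : v ∉ s := fun h => hv ((mem_powersetCard.1 (mem_filter.1 hs).1).1 h)
    have h2 : v ∉ t := fun h => hv ((mem_powersetCard.1 (mem_filter.1 ht).1).1 h)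
    rw [← erase_insert h1, ← erase_insert h2]
    exact congrArg (fun u => erase u v) hst
  · rw [disjoint_left]
    intro s h1 h2
    have h3 := (mem_powersetCard.1 (mem_filter.1 h1).1).1
    obtain ⟨t, -, rfl⟩ := mem_image.1 (mem_filter.1 h2).1
    exact hv (h3 (mem_insert_self v t))

theorem step_red {v : V} {W : Finset V} (hv : v ∉ W) (h : ∀ x ∈ W, R v x) :
    nM R (insert v W) = nM R W + nR R W ∧ nR R (insert v W) = nR R W + W.card ∧
      nB R (insert v W) = nB R W := by
  classical
  have h' : ∀ x ∈ W, R x v := fun x hx => hR _ _ (h x hx)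
  have hsub : ∀ {k : ℕ} {t : Finset V}, t ∈ W.powersetCard k → ∀ x ∈ t, x ∈ W := fun ht x hx =>
    (mem_powersetCard.1 ht).1 hx
  refine ⟨?_, ?_, ?_⟩
  · unfold nM nR
    rw [show 3 = 2 + 1 from rfl, card_filter_insert hv 2]
    congr 2
    apply filter_congr
    intro t ht
    have e1 : AllR R (insert v t) ↔ AllR R t :=
      AllR_insert (fun x hx => h x (hsub ht x hx)) fun x hx => h' x (hsub ht x hx)
    rw [e1]
    refine or_iff_left fun hno => ?_
    obtain ⟨hsub', ht2⟩ := mem_powersetCard.1 ht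
    obtain ⟨x, hx⟩ : t.Nonempty := by rw [← card_pos]; omega
    exact hno v (mem_insert_self _ _) x (mem_insert_of_mem hx)
      (fun e => hv (by rw [e]; exact hsub' hx)) (h x (hsub' hx))
  · unfold nR
    rw [card_filter_insert hv 1]
    congr 1
    rw [filter_true_of_mem, card_powersetCard, Nat.choose_one_right]
    intro t ht
    rw [AllR_insert (fun x hx => h x (hsub ht x hx)) fun x hx => h' x (hsub ht x hx)]
    obtain ⟨-, ht1⟩ := mem_powersetCard.1 ht
    obtain ⟨x, rfl⟩ := card_eq_one.1 ht1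
    intro a ha b hb hab
    rw [mem_singleton] at ha hb
    exact absurd (ha.trans hb.symm) hab
  · unfold nB
    rw [card_filter_insert hv 1]
    rw [filter_false_of_mem (s := W.powersetCard 1), card_empty, add_zero]
    intro t ht hno
    obtain ⟨hsub', ht1⟩ := mem_powersetCard.1 ht
    obtain ⟨x, rfl⟩ := card_eq_one.1 ht1
    have hx := hsub' (mem_singleton_self x)
    exact hno v (mem_insert_self _ _) x (mem_insert_of_mem (mem_singleton_self x))
      (fun e => hv (by rw [e]; exact hx)) (h x hx)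

theorem step_blue {v : V} {W : Finset V} (hv : v ∉ W) (h : ∀ x ∈ W, ¬ R v x) :
    nM R (insert v W) = nM R W + nB R W ∧ nR R (insert v W) = nR R W ∧
      nB R (insert v W) = nB R W + W.card := by
  classical
  have h' : ∀ x ∈ W, ¬ R x v := fun x hx hh => h x hx (hR _ _ hh)
  have hsub : ∀ {k : ℕ} {t : Finset V}, t ∈ W.powersetCard k → ∀ x ∈ t, x ∈ W := fun ht x hx =>
    (mem_powersetCard.1 ht).1 hx
  refine ⟨?_, ?_, ?_⟩
  · unfold nM nB
    rw [show 3 = 2 + 1 from rfl, card_filter_insert hv 2]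
    congr 2
    apply filter_congr
    intro t ht
    have e1 : NoR R (insert v t) ↔ NoR R t :=
      NoR_insert (fun x hx => h x (hsub ht x hx)) fun x hx => h' x (hsub ht x hx)
    rw [e1]
    refine or_iff_right fun hno => ?_
    obtain ⟨hsub', ht2⟩ := mem_powersetCard.1 ht
    obtain ⟨x, hx⟩ : t.Nonempty := by rw [← card_pos]; omega
    exact h x (hsub' hx) (hno v (mem_insert_self _ _) x (mem_insert_of_mem hx)
      (fun e => hv (by rw [e]; exact hsub' hx)))
  · unfold nR
    rw [card_filter_insert hv 1]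
    rw [filter_false_of_mem (s := W.powersetCard 1), card_empty, add_zero]
    intro t ht hno
    obtain ⟨hsub', ht1⟩ := mem_powersetCard.1 ht
    obtain ⟨x, rfl⟩ := card_eq_one.1 ht1
    have hx := hsub' (mem_singleton_self x)
    exact h x hx (hno v (mem_insert_self _ _) x (mem_insert_of_mem (mem_singleton_self x))
      (fun e => hv (by rw [e]; exact hx)))
  · unfold nB
    rw [card_filter_insert hv 1]
    congr 1
    rw [filter_true_of_mem, card_powersetCard, Nat.choose_one_right]
    intro t ht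
    rw [NoR_insert (fun x hx => h x (hsub ht x hx)) fun x hx => h' x (hsub ht x hx)]
    obtain ⟨-, ht1⟩ := mem_powersetCard.1 ht
    obtain ⟨x, rfl⟩ := card_eq_one.1 ht1
    intro a ha b hb hab
    rw [mem_singleton] at ha hb
    exact absurd (ha.trans hb.symm) hab

variable (hcov : ∀ x y z w : V, x ≠ y → x ≠ z → x ≠ w → y ≠ z → y ≠ w → z ≠ w →
  ((R x y ∧ R x z ∧ R y z) ∨ (¬ R x y ∧ ¬ R x z ∧ ¬ R y z)) ∨
  ((R x y ∧ R x w ∧ R y w) ∨ (¬ R x y ∧ ¬ R x w ∧ ¬ R y w)) ∨
  ((R x z ∧ R x w ∧ R z w) ∨ (¬ R x z ∧ ¬ R x w ∧ ¬ R z w)) ∨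
  ((R y z ∧ R y w ∧ R z w) ∨ (¬ R y z ∧ ¬ R y w ∧ ¬ R z w)))
include hcov

/-- there is a vertex all of whose pairs have the same colour -/
theorem exists_mono (U : Finset V) (hU : U.Nonempty) :
    ∃ v ∈ U, (∀ x ∈ U, x ≠ v → R v x) ∨ (∀ x ∈ U, x ≠ v → ¬ R v x) := by
  classical
  let N : V → Finset V := fun v => U.filter fun x => x ≠ v ∧ R v x
  have hN : ∀ v x, x ∈ N v ↔ x ∈ U ∧ x ≠ v ∧ R v x := fun v x => mem_filter
  obtain ⟨v, hvU, hmax⟩ := exists_max_image U (fun v => (N v).card) hU
  by_cases hdom : ∀ x ∈ U, x ≠ v → R v x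
  · exact ⟨v, hvU, Or.inl hdom⟩
  push Not at hdom
  obtain ⟨w, hwU, hwv, hvw⟩ := hdom
  -- the neighbours of `w` are neighbours of `v`
  have hsub : N w ⊆ N v := by
    intro x hx
    obtain ⟨hxU, hxw, hwx⟩ := (hN w x).1 hx
    by_contra hxv
    have hxv0 : x ≠ v := by
      rintro rfl
      exact hvw (hR _ _ hwx)
    have hvx : ¬ R v x := fun h => hxv ((hN v x).2 ⟨hxU, hxv0, h⟩)
    -- a neighbour of `v` which is not a neighbour of `w`
    obtain ⟨y, hyv, hyw⟩ : ∃ y ∈ N v, y ∉ N w := by
      by_contra hcon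
      push Not at hcon
      have h1 : N v ⊂ N w := ⟨hcon, fun h => hxv (h hx)⟩
      have h2 := card_lt_card h1
      have h3 := hmax w hwU
      omega
    obtain ⟨hyU, hyv0, hvy⟩ := (hN v y).1 hyv
    have hyw0 : y ≠ w := by
      rintro rfl
      exact hvw hvy
    have hyx : y ≠ x := by
      rintro rfl
      exact hvx hvy
    have hwy : ¬ R w y := fun h => hyw ((hN w y).2 ⟨hyU, hyw0, h⟩)
    have := hcov v w x y hwv.symm hxv0.symm hyv0.symm hxw.symm hyw0.symm hyx.symm
    tauto
  by_cases hiso : ∀ x ∈ U, x ≠ w → ¬ R w x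
  · exact ⟨w, hwU, Or.inr hiso⟩
  push Not at hiso
  obtain ⟨x, hxU, hxw, hwx⟩ := hiso
  exfalso
  have hxv := hsub ((hN w x).2 ⟨hxU, hxw, hwx⟩)
  obtain ⟨-, hxv0, hvx⟩ := (hN v x).1 hxv
  -- a neighbour of `v` which is not a neighbour of `x`
  have hxvw : w ∈ N x := (hN x w).2 ⟨hwU, hxw.symm, hR _ _ hwx⟩
  have hvNx : v ∈ N x := (hN x v).2 ⟨hvU, hxv0.symm, hR _ _ hvx⟩
  obtain ⟨y, hyv, hyx⟩ : ∃ y ∈ (N v).erase x, y ∉ (N x).erase v := by
    by_contra hcon
    push Not at hcon
    have hw1 : w ∈ (N x).erase v := mem_erase.2 ⟨hwv, hxvw⟩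
    have hw2 : w ∉ (N v).erase x := fun h => hvw ((hN v w).1 (mem_of_mem_erase h)).2.2
    have h1 : (N v).erase x ⊂ (N x).erase v := ⟨hcon, fun h => hw2 (h hw1)⟩
    have h2 := card_lt_card h1
    rw [card_erase_of_mem hxv, card_erase_of_mem hvNx] at h2
    have h3 := hmax x hxU
    have h4 : 0 < (N v).card := card_pos.2 ⟨x, hxv⟩
    have h5 : 0 < (N x).card := card_pos.2 ⟨v, hvNx⟩
    omega
  obtain ⟨hyx0, hyv⟩ := mem_erase.1 hyv
  obtain ⟨hyU, hyv0, hvy⟩ := (hN v y).1 hyv
  have hxy : ¬ R x y := fun h => hyx (mem_erase.2 ⟨hyv0, (hN x y).2 ⟨hyU, hyx0, h⟩⟩)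
  have hyw0 : y ≠ w := by
    rintro rfl
    exact hvw hvy
  have := hcov v w x y hwv.symm hxv0.symm hyv0.symm hxw.symm hyw0.symm hyx0.symm
  tauto

/-- the lower bound for the number of monochromatic triples -/
theorem two_bound (m : ℕ) : ∀ U : Finset V, U.card = m + 1 →
    ((m + 1 : ℝ) * m * (m - 1)) / 12 - (m + 1) * m / 8 + ((nR R U : ℝ) - nB R U) ^ 2 / (4 * m) ≤
      nM R U := by
  induction m with
  | zero =>
    intro U hU
    simp
  | succ m ih =>
    intro U hU
    obtain ⟨v, hvU, hv⟩ := exists_mono hR hcov U (by rw [← card_pos]; omega)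
    obtain ⟨W, hvW, rfl⟩ : ∃ W, v ∉ W ∧ insert v W = U := ⟨U.erase v, notMem_erase _ _, insert_erase hvU⟩
    have hW : W.card = m + 1 := by
      rw [card_insert_of_notMem hvW] at hU
      omega
    have h1 := ih W hW
    have hsum : (nR R W : ℝ) + nB R W = (m + 1) * m / 2 := by
      have := nR_add_nB hR W
      rw [hW] at this
      have h2 : (nR R W : ℝ) + nB R W = ((m + 1).choose 2 : ℕ) := by exact_mod_cast this
      rw [h2, Nat.cast_choose_two]
      push_cast
      ring
    have hne : ∀ x ∈ W, x ≠ v := fun x hx h => hvW (h ▸ hx)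
    -- the inequality of the squares
    have key : ∀ D q : ℝ, q ^ 2 = 1 → (m = 0 → D = 0) →
        (D + q * (m + 1)) ^ 2 / (4 * (m + 1)) ≤ D ^ 2 / (4 * m) + q * D / 2 + (m + 1) / 4 := by
      intro D q hq hD
      have e : (D + q * (m + 1)) ^ 2 / (4 * (m + 1)) =
          D ^ 2 / (4 * (m + 1)) + q * D / 2 + (m + 1) / 4 := by
        have : (m : ℝ) + 1 ≠ 0 := by positivity
        field_simp
        linear_combination 2 * ((m : ℝ) + 1) ^ 2 * hq
      rw [e]
      rcases Nat.eq_zero_or_pos m with h0 | h0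
      · rw [hD h0]; simp
      · have hm : (0 : ℝ) < m := by exact_mod_cast h0
        have : D ^ 2 / (4 * ((m : ℝ) + 1)) ≤ D ^ 2 / (4 * m) := by
          apply div_le_div_of_nonneg_left (sq_nonneg D) (by positivity)
          linarith
        linarith
    have hD0 : m = 0 → (nR R W : ℝ) - nB R W = 0 := by
      intro h0
      subst h0
      have a1 : (0 : ℝ) ≤ nR R W := Nat.cast_nonneg _
      have a2 : (0 : ℝ) ≤ nB R W := Nat.cast_nonneg _
      norm_num at hsum
      linarith
    rcases hv with hv | hv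
    · obtain ⟨e1, e2, e3⟩ := step_red hR hvW
        (fun x hx => hv x (mem_insert_of_mem hx) (hne x hx))
      have h3 := key ((nR R W : ℝ) - nB R W) 1 (by norm_num) hD0
      rw [e1, e2, e3, hW]
      push_cast
      have e4 : (nR R W : ℝ) + ((m : ℝ) + 1) - nB R W = (nR R W : ℝ) - nB R W + 1 * (m + 1) := by ring
      rw [e4]
      have hR' : (nR R W : ℝ) = ((m + 1) * m / 2 + ((nR R W : ℝ) - nB R W)) / 2 := by linarith
      nlinarith
    · obtain ⟨e1, e2, e3⟩ := step_blue hR hvW
        (fun x hx => hv x (mem_insert_of_mem hx) (hne x hx))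
      have h3 := key ((nR R W : ℝ) - nB R W) (-1) (by norm_num) hD0
      rw [e1, e2, e3, hW]
      push_cast
      have e4 : (nR R W : ℝ) - (nB R W + ((m : ℝ) + 1)) = (nR R W : ℝ) - nB R W + (-1) * (m + 1) := by ring
      rw [e4]
      have hB' : (nB R W : ℝ) = ((m + 1) * m / 2 - ((nR R W : ℝ) - nB R W)) / 2 := by linarith
      nlinarith

end two

end Pool.Agent.V1130.Tur
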