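import Mathlib
import Pool.Agent.V1130.TurA
import Pool.Agent.V1130.TurC

/-!
# The number of monochromatic triples in the two-coloured case
-/

set_option autoImplicit false

open Finset

namespace Pool.Agent.V1130.Tur

variable {V C : Type*}

/-- all pairs of elements of `s` have the same colour -/
def MonoS (c : V → V → C) (s : Finset V) : Prop := ∃ a, ∀ x ∈ s, ∀ y ∈ s, x ≠ y → c x y = a

theorem monoS_iff [DecidableEq V] {c : V → V → C} (hc : ∀ x y, c x y = c y x) {x y z : V}
    (hxy : x ≠ y) (hxz : x ≠ z) (hyz : y ≠ z) : MonoS c {x, y, z} ↔ Mo c x y z := by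
  constructor
  · rintro ⟨a, h⟩
    have h1 := h x (by simp) y (by simp) hxy
    have h2 := h x (by simp) z (by simp) hxz
    have h3 := h y (by simp) z (by simp) hyz
    exact ⟨h1.trans h2.symm, h1.trans h3.symm⟩
  · rintro ⟨h1, h2⟩
    refine ⟨c x y, fun u hu w hw huw => ?_⟩
    simp only [mem_insert, mem_singleton] at hu hw
    rcases hu with rfl | rfl | rfl <;> rcases hw with rfl | rfl | rfl
    · exact absurd rfl huw
    · rfl
    · exact h1.symm
    · exact hc _ _
    · exact absurd rfl huw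
    · exact h2.symm
    · exact (hc _ _).trans h1.symm
    · exact (hc _ _).trans h2.symm
    · exact absurd rfl huw

/-- two colours: `s` and not `s` -/
theorem mo_two {c : V → V → C} {x y z : V} (s : C) (h : Mo c x y z) :
    (c x y = s ∧ c x z = s ∧ c y z = s) ∨ (¬ c x y = s ∧ ¬ c x z = s ∧ ¬ c y z = s) := by
  by_cases hs : c x y = s
  · exact Or.inl ⟨hs, h.1.symm.trans hs, h.2.symm.trans hs⟩
  · exact Or.inr ⟨hs, fun h' => hs (h.1.trans h'), fun h' => hs (h.2.trans h')⟩

open scoped Classical in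
/-- the number of monochromatic triples -/
noncomputable def nMono [Fintype V] (c : V → V → C) : ℕ :=
  (((univ : Finset V).powersetCard 3).filter (MonoS c)).card

theorem ss_bound [Fintype V] [DecidableEq V] {c : V → V → C} (hc : ∀ x y, c x y = c y x)
    (hcov : Cov c) (s : C) (hS : SS c s) (m : ℕ) (hV : Fintype.card V = m + 1) :
    ((m + 1 : ℝ) * m * (m - 1)) / 12 - (m + 1) * m / 8 ≤ nMono c := by
  classical
  let R : V → V → Prop := fun x y => c x y = s
  have hR : ∀ x y, R x y → R y x := fun x y h => (hc y x).trans h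
  have hcovR : ∀ x y z w : V, x ≠ y → x ≠ z → x ≠ w → y ≠ z → y ≠ w → z ≠ w →
      ((R x y ∧ R x z ∧ R y z) ∨ (¬ R x y ∧ ¬ R x z ∧ ¬ R y z)) ∨
      ((R x y ∧ R x w ∧ R y w) ∨ (¬ R x y ∧ ¬ R x w ∧ ¬ R y w)) ∨
      ((R x z ∧ R x w ∧ R z w) ∨ (¬ R x z ∧ ¬ R x w ∧ ¬ R z w)) ∨
      ((R y z ∧ R y w ∧ R z w) ∨ (¬ R y z ∧ ¬ R y w ∧ ¬ R z w)) := by
    intro x y z w h1 h2 h3 h4 h5 h6
    rcases hcov x y z w h1 h2 h3 h4 h5 h6 with h | h | h | h
    · exact Or.inl (mo_two s h)
    · exact Or.inr (Or.inl (mo_two s h))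
    · exact Or.inr (Or.inr (Or.inl (mo_two s h)))
    · exact Or.inr (Or.inr (Or.inr (mo_two s h)))
  have key := two_bound hR hcovR m univ (by rw [card_univ, hV])
  have e : nM R univ = nMono c := by
    unfold nM nMono
    congr 1
    apply filter_congr
    intro t ht
    obtain ⟨-, ht3⟩ := mem_powersetCard.1 ht
    obtain ⟨x, y, z, hxy, hxz, hyz, rfl⟩ := card_eq_three.1 ht3
    constructor
    · rintro (h | h)
      · exact ⟨s, fun u hu w hw huw => h u hu w hw huw⟩
      · rw [monoS_iff hc hxy hxz hyz]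
        exact hS x y z hxy hxz hyz (h x (by simp) y (by simp) hxy) (h x (by simp) z (by simp) hxz)
          (h y (by simp) z (by simp) hyz)
    · rintro ⟨a, h⟩
      by_cases ha : a = s
      · left
        intro u hu w hw huw
        exact (h u hu w hw huw).trans ha
      · right
        intro u hu w hw huw h'
        exact ha ((h u hu w hw huw).symm.trans h')
  rw [e] at key
  have hsq : 0 ≤ ((nR R univ : ℝ) - nB R univ) ^ 2 / (4 * m) := by positivity
  linarith

end Pool.Agent.V1130.Tur
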