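import Mathlib

/-!
# The number of triples of Turán's construction
-/

set_option autoImplicit false

open Finset

namespace Pool.Agent.V1130.Tur

variable {V : Type*} [Fintype V]

/-- the class `i` of `p` -/
def cls (p : V → Fin 3) (i : Fin 3) : Finset V := univ.filter fun x => p x = i

theorem mem_cls {p : V → Fin 3} {i : Fin 3} {x : V} : x ∈ cls p i ↔ p x = i := by
  simp [cls]

/-- for some `i`, at least two elements of `s` are in the class `i` and the other elements of `s`
are in the class `i + 1` (mod 3) -/
def TurS (p : V → Fin 3) (s : Finset V) : Prop :=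
  ∃ i, 2 ≤ (s.filter fun x => p x = i).card ∧ ∀ x ∈ s, p x = i ∨ p x = i + 1

theorem card_F [DecidableEq V] (p : V → Fin 3) (i : Fin 3) :
    (((univ : Finset V).powersetCard 3).filter fun s =>
      2 ≤ (s.filter fun x => p x = i).card ∧ ∀ x ∈ s, p x = i ∨ p x = i + 1).card =
      (cls p i).card.choose 3 + (cls p i).card.choose 2 * (cls p (i + 1)).card := by
  have hne : ∀ j : Fin 3, j + 1 ≠ j := by decide
  have e : (((univ : Finset V).powersetCard 3).filter fun s =>
      2 ≤ (s.filter fun x => p x = i).card ∧ ∀ x ∈ s, p x = i ∨ p x = i + 1) =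
      powersetCard 3 (cls p i) ∪
        ((powersetCard 2 (cls p i)) ×ˢ (cls p (i + 1))).image (fun q => insert q.2 q.1) := by
    ext s
    simp only [mem_filter, mem_union, mem_image, mem_product, mem_powersetCard, subset_univ,
      true_and]
    constructor
    · rintro ⟨hs, h2, hall⟩
      by_cases h : ∀ x ∈ s, p x = i
      · left
        exact ⟨fun x hx => mem_cls.2 (h x hx), hs⟩
      · right
        push Not at h
        obtain ⟨v, hv, hpv⟩ := h
        have hpv' := (hall v hv).resolve_left hpv
        have hsub : s.filter (fun x => p x = i) ⊆ s.erase v := by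
          intro x hx
          obtain ⟨h3, h4⟩ := mem_filter.1 hx
          exact mem_erase.2 ⟨fun h5 => hpv (h5 ▸ h4), h3⟩
        have heq := eq_of_subset_of_card_le hsub (by rw [card_erase_of_mem hv]; omega)
        refine ⟨(s.erase v, v), ⟨⟨?_, ?_⟩, mem_cls.2 hpv'⟩, insert_erase hv⟩
        · show s.erase v ⊆ cls p i
          rw [← heq]
          intro x hx
          exact mem_cls.2 (mem_filter.1 hx).2
        · show (s.erase v).card = 2
          rw [card_erase_of_mem hv, hs]
    · rintro (⟨h1, h2⟩ | ⟨⟨t, v⟩, ⟨⟨h1, h2⟩, h3⟩, rfl⟩)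
      · refine ⟨h2, ?_, fun x hx => Or.inl (mem_cls.1 (h1 hx))⟩
        rw [filter_true_of_mem (fun x hx => mem_cls.1 (h1 hx)), h2]
        omega
      · have h3' := mem_cls.1 h3
        have hv : v ∉ t := fun h => hne i (h3'.symm.trans (mem_cls.1 (h1 h)))
        refine ⟨by rw [card_insert_of_notMem hv, h2], ?_, ?_⟩
        · calc 2 = t.card := h2.symm
            _ ≤ _ := card_le_card fun x hx =>
              mem_filter.2 ⟨mem_insert_of_mem hx, mem_cls.1 (h1 hx)⟩
        · intro x hx
          rcases mem_insert.1 hx with e1 | hx1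
          · right
            rw [e1]
            exact h3'
          · left
            exact mem_cls.1 (h1 hx1)
  rw [e, card_union_of_disjoint, card_powersetCard, card_image_of_injOn, card_product,
    card_powersetCard]
  · rintro ⟨t, v⟩ h ⟨t', v'⟩ h' heq
    simp only [coe_product, Set.mem_prod, mem_coe, mem_powersetCard] at h h'
    obtain ⟨⟨h1, h2⟩, h3⟩ := h
    obtain ⟨⟨h1', h2'⟩, h3'⟩ := h'
    have g3 := mem_cls.1 h3
    have g3' := mem_cls.1 h3'
    have heq' : insert v t = insert v' t' := heq
    have hv : v = v' := by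
      have : v ∈ insert v' t' := by rw [← heq']; exact mem_insert_self _ _
      rcases mem_insert.1 this with e1 | e1
      · exact e1
      · exact absurd (g3.symm.trans (mem_cls.1 (h1' e1))) (hne i)
    have hvt : v ∉ t := fun h => hne i (g3.symm.trans (mem_cls.1 (h1 h)))
    have hvt' : v' ∉ t' := fun h => hne i (g3'.symm.trans (mem_cls.1 (h1' h)))
    have ht : t = t' := by
      rw [← erase_insert hvt, ← erase_insert hvt', heq', hv]
    rw [hv, ht]
  · rw [disjoint_left]
    intro s h1 h2
    obtain ⟨⟨t, v⟩, h3, rfl⟩ := mem_image.1 h2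
    obtain ⟨-, h4⟩ := mem_product.1 h3
    have h5 := mem_cls.1 ((mem_powersetCard.1 h1).1 (mem_insert_self v t))
    exact hne i ((mem_cls.1 h4).symm.trans h5)

open scoped Classical in
theorem card_turS (p : V → Fin 3) :
    (((univ : Finset V).powersetCard 3).filter (TurS p)).card =
      ∑ i : Fin 3, ((cls p i).card.choose 3 + (cls p i).card.choose 2 * (cls p (i + 1)).card) := by
  have e : ((univ : Finset V).powersetCard 3).filter (TurS p) =
      (univ : Finset (Fin 3)).biUnion fun i => ((univ : Finset V).powersetCard 3).filter fun s =>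
        2 ≤ (s.filter fun x => p x = i).card ∧ ∀ x ∈ s, p x = i ∨ p x = i + 1 := by
    ext s
    simp only [mem_filter, mem_biUnion, mem_univ, true_and]
    constructor
    · rintro ⟨h1, i, h2⟩
      exact ⟨i, h1, h2⟩
    · rintro ⟨i, h1, h2⟩
      exact ⟨h1, i, h2⟩
  rw [e, card_biUnion]
  · refine sum_congr rfl fun i _ => ?_
    exact card_F p i
  · intro i _ j _ hij
    show Disjoint _ _
    rw [disjoint_left]
    intro s h1 h2
    obtain ⟨h3, h4, -⟩ := mem_filter.1 h1
    obtain ⟨-, h5, -⟩ := mem_filter.1 h2
    have h6 : Disjoint (s.filter fun x => p x = i) (s.filter fun x => p x = j) := by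
      rw [disjoint_left]
      intro x hx hx'
      exact hij ((mem_filter.1 hx).2.symm.trans (mem_filter.1 hx').2)
    have h7 : ((s.filter fun x => p x = i) ∪ (s.filter fun x => p x = j)).card ≤ s.card :=
      card_le_card (union_subset (filter_subset _ _) (filter_subset _ _))
    rw [card_union_of_disjoint h6, (mem_powersetCard.1 h3).2] at h7
    omega

theorem card_cls_sum (p : V → Fin 3) :
    (cls p 0).card + (cls p 1).card + (cls p 2).card = Fintype.card V := by
  have := card_eq_sum_card_fiberwise (f := p) (s := (univ : Finset V)) (t := univ)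
    (fun x _ => mem_univ _)
  rw [card_univ] at this
  rw [this, Fin.sum_univ_three]
  rfl

end Pool.Agent.V1130.Tur
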