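import Mathlib

/-!
# The integer inequality for the number of triples of Turán's construction
-/

set_option autoImplicit false

namespace Pool.Agent.V1130.Tur

/-- six times the number of triples of Turán's construction with classes of sizes `c`, `b`, `a` -/
def PP (a b c : ℤ) : ℤ := a * (a - 1) * (a - 2) + b * (b - 1) * (b - 2) + c * (c - 1) * (c - 2) +
  3 * (a * (b * (b - 1)) + b * (c * (c - 1)) + c * (a * (a - 1)))

/-- the three numbers differ by at most one -/
def Bal (a b c : ℤ) : Prop :=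
  a ≤ b + 1 ∧ b ≤ a + 1 ∧ b ≤ c + 1 ∧ c ≤ b + 1 ∧ a ≤ c + 1 ∧ c ≤ a + 1

theorem key0 (a b c m : ℤ) (ha : 0 ≤ a) (hb : 0 ≤ b) (hc : 0 ≤ c) (h : a + b + c = 3 * m)
    (hbt : 0 ≤ (b - a) * (c - b)) : 24 * (m * (m - 1) * (2 * m - 1)) ≤ 4 * PP a b c ∧
      (4 * PP a b c = 24 * (m * (m - 1) * (2 * m - 1)) → 2 ≤ m → Bal a b c) := by
  obtain ⟨c, rfl⟩ : ∃ c', c' = c := ⟨c, rfl⟩
  have hid : 4 * PP a b c - 24 * (m * (m - 1) * (2 * m - 1)) =
      (b - m) ^ 2 * (45 * m - 15 * (b - m) - 9) + 3 * (b - 1) * (a - c) ^ 2 +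
        12 * (c * ((b - a) * (c - b))) := by
    have hc' : c = 3 * m - a - b := by linarith
    subst hc'
    unfold PP
    ring
  have hm : 0 ≤ m := by omega
  rcases hm.eq_or_lt with h0 | hm1
  · have : a = 0 ∧ b = 0 ∧ c = 0 := by omega
    obtain ⟨rfl, rfl, rfl⟩ := this
    refine ⟨by rw [← h0]; unfold PP; norm_num, fun _ h2 => by omega⟩
  have hK : 0 ≤ 12 * (c * ((b - a) * (c - b))) := by positivity
  rcases hb.eq_or_lt with hb0 | hb1
  · have hb0' : b = 0 := hb0.symm
    subst hb0'
    have hac : a = 0 ∨ c = 0 := by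
      have : a * c = 0 := by nlinarith [mul_nonneg ha hc]
      exact mul_eq_zero.1 this
    have hlt : 0 < 4 * PP a 0 c - 24 * (m * (m - 1) * (2 * m - 1)) := by
      have e : 4 * PP a 0 c - 24 * (m * (m - 1) * (2 * m - 1)) = 12 * (m * (m * (5 * m - 3))) := by
        rcases hac with rfl | rfl
        · have : c = 3 * m := by omega
          subst this
          unfold PP
          ring
        · have : a = 3 * m := by omega
          subst this
          unfold PP
          ring
      rw [e]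
      have : 0 < 5 * m - 3 := by omega
      positivity
    exact ⟨by linarith, fun h1 _ => by omega⟩
  · have h45 : 0 < 45 * m - 15 * (b - m) - 9 := by omega
    have h1 : 0 ≤ (b - m) ^ 2 * (45 * m - 15 * (b - m) - 9) := by positivity
    have hb1' : 0 ≤ b - 1 := by omega
    have h2 : 0 ≤ 3 * (b - 1) * (a - c) ^ 2 := by positivity
    refine ⟨by linarith, fun heq h2m => ?_⟩
    have e1 : (b - m) ^ 2 * (45 * m - 15 * (b - m) - 9) = 0 := by linarith
    have e2 : 3 * (b - 1) * (a - c) ^ 2 = 0 := by linarith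
    have e3 : b = m := by
      rcases mul_eq_zero.1 e1 with e | e
      · have := pow_eq_zero_iff (two_ne_zero) |>.1 e
        omega
      · omega
    have e4 : a = c := by
      rcases mul_eq_zero.1 e2 with e | e
      · omega
      · have := pow_eq_zero_iff (two_ne_zero) |>.1 e
        omega
    unfold Bal
    omega

theorem key1 (a b c m : ℤ) (ha : 0 ≤ a) (hb : 0 ≤ b) (hc : 0 ≤ c) (h : a + b + c = 3 * m + 1)
    (hbt : 0 ≤ (b - a) * (c - b)) : 24 * (m * m * (2 * m - 1)) ≤ 4 * PP a b c ∧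
      (4 * PP a b c = 24 * (m * m * (2 * m - 1)) → 2 ≤ m → Bal a b c) := by
  have hid : ∀ y, b = m + y → 4 * PP a b c - 24 * (m * m * (2 * m - 1)) =
      (45 * m * y ^ 2 - 30 * m * y - 3 * m - 15 * y ^ 3 + 21 * y ^ 2 - 9 * y + 3) +
        3 * (b - 1) * (a - c) ^ 2 + 12 * (c * ((b - a) * (c - b))) := by
    intro y hy
    have hy' : y = b - m := by linarith
    have hc' : c = 3 * m + 1 - a - b := by linarith
    subst hc'
    subst hy'
    unfold PP
    ring
  have hm : 0 ≤ m := by omega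
  have hK : 0 ≤ 12 * (c * ((b - a) * (c - b))) := by positivity
  rcases hb.eq_or_lt with hb0 | hb1
  · have hb0' : b = 0 := hb0.symm
    subst hb0'
    have hac : a = 0 ∨ c = 0 := by
      have : a * c = 0 := by nlinarith [mul_nonneg ha hc]
      exact mul_eq_zero.1 this
    have e : 4 * PP a 0 c - 24 * (m * m * (2 * m - 1)) = 12 * (m * (5 * m ^ 2 + 2 * m - 1)) := by
      rcases hac with rfl | rfl
      · have : c = 3 * m + 1 := by omega
        subst this
        unfold PP
        ring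
      · have : a = 3 * m + 1 := by omega
        subst this
        unfold PP
        ring
    rcases hm.eq_or_lt with h0 | hm1
    · rw [← h0] at e ⊢
      refine ⟨by linarith, fun _ h2 => by omega⟩
    · have : 0 < 5 * m ^ 2 + 2 * m - 1 := by nlinarith
      have : 0 < 12 * (m * (5 * m ^ 2 + 2 * m - 1)) := by positivity
      exact ⟨by linarith, fun h1 _ => by omega⟩
  · obtain ⟨y, hy⟩ : ∃ y, b = m + y := ⟨b - m, by ring⟩
    have hid' := hid y hy
    have hb1' : 0 ≤ b - 1 := by omega
    have h2 : 0 ≤ 3 * (b - 1) * (a - c) ^ 2 := by positivity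
    rcases lt_trichotomy y 0 with hy0 | hy0 | hy0
    · -- negative
      obtain ⟨z, hz, hz1⟩ : ∃ z, y = -z ∧ 1 ≤ z := ⟨-y, by ring, by omega⟩
      have hE : 0 < 45 * m * y ^ 2 - 30 * m * y - 3 * m - 15 * y ^ 3 + 21 * y ^ 2 - 9 * y + 3 := by
        subst hz
        have h3 : 0 ≤ m * z := by positivity
        have h4 : 0 ≤ m * (z - 1) := mul_nonneg hm (by omega)
        have h5 : 0 ≤ z ^ 2 := sq_nonneg z
        have h6 : 0 ≤ m * z ^ 2 := by positivity
        have h7 : 0 ≤ z ^ 3 := by positivity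
        nlinarith
      exact ⟨by linarith, fun h1 _ => by omega⟩
    · -- zero
      subst hy0
      have hd : 1 ≤ (a - c) ^ 2 := by
        have : a - c ≠ 0 := by omega
        have := sq_pos_of_ne_zero this
        omega
      have h3 : 0 ≤ 3 * (b - 1) * ((a - c) ^ 2 - 1) := by
        have : 0 ≤ (a - c) ^ 2 - 1 := by omega
        positivity
      refine ⟨by nlinarith, fun h1 h2m => ?_⟩
      have h4 : 3 * (b - 1) * ((a - c) ^ 2 - 1) = 0 := by nlinarith
      have h5 : (a - c) ^ 2 = 1 := by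
        rcases mul_eq_zero.1 h4 with e | e
        · omega
        · omega
      have h6 : (a - c - 1) * (a - c + 1) = 0 := by linear_combination h5
      rcases mul_eq_zero.1 h6 with e | e
      · unfold Bal; omega
      · unfold Bal; omega
    · -- positive
      rcases (show y = 1 ∨ 2 ≤ y by omega) with hy1 | hy2
      · subst hy1
        refine ⟨by nlinarith, fun h1 _ => ?_⟩
        exfalso
        nlinarith
      · have hy3 : 0 ≤ 2 * m + 1 - y := by omega
        have hm1 : 1 ≤ m := by omega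
        have hE : 0 < 45 * m * y ^ 2 - 30 * m * y - 3 * m - 15 * y ^ 3 + 21 * y ^ 2 - 9 * y + 3 := by
          have h3 : 0 ≤ (y ^ 2 - 4) * (2 * m + 1 - y) := mul_nonneg (by nlinarith) hy3
          have h4 : 0 ≤ m * (y * (y - 2)) := by
            have : 0 ≤ y - 2 := by omega
            positivity
          have h5 : 0 ≤ (m - 1) * (y - 2) := mul_nonneg (by omega) (by omega)
          nlinarith
        exact ⟨by linarith, fun h1 _ => by omega⟩

theorem key2 (a b c m : ℤ) (ha : 0 ≤ a) (hb : 0 ≤ b) (hc : 0 ≤ c) (h : a + b + c = 3 * m + 2)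
    (hbt : 0 ≤ (b - a) * (c - b)) : 24 * (m * m * (2 * m + 1)) ≤ 4 * PP a b c ∧
      (4 * PP a b c = 24 * (m * m * (2 * m + 1)) → 2 ≤ m → Bal a b c) := by
  have hid : ∀ y, b = m + y → 4 * PP a b c - 24 * (m * m * (2 * m + 1)) =
      (45 * m * y ^ 2 - 60 * m * y + 12 * m - 15 * y ^ 3 + 51 * y ^ 2 - 48 * y + 12) +
        3 * (b - 1) * (a - c) ^ 2 + 12 * (c * ((b - a) * (c - b))) := by
    intro y hy
    have hy' : y = b - m := by linarith
    have hc' : c = 3 * m + 2 - a - b := by linarith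
    subst hc'
    subst hy'
    unfold PP
    ring
  have hm : 0 ≤ m := by omega
  have hK : 0 ≤ 12 * (c * ((b - a) * (c - b))) := by positivity
  rcases hb.eq_or_lt with hb0 | hb1
  · have hb0' : b = 0 := hb0.symm
    subst hb0'
    have hac : a = 0 ∨ c = 0 := by
      have : a * c = 0 := by nlinarith [mul_nonneg ha hc]
      exact mul_eq_zero.1 this
    have e : 4 * PP a 0 c - 24 * (m * m * (2 * m + 1)) = 12 * (m * (5 * m ^ 2 + 7 * m + 2)) := by
      rcases hac with rfl | rfl
      · have : c = 3 * m + 2 := by omega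
        subst this
        unfold PP
        ring
      · have : a = 3 * m + 2 := by omega
        subst this
        unfold PP
        ring
    refine ⟨?_, fun h1 h2m => ?_⟩
    · have : 0 ≤ 12 * (m * (5 * m ^ 2 + 7 * m + 2)) := by positivity
      linarith
    · have hm1 : 0 < m := by omega
      have : 0 < 12 * (m * (5 * m ^ 2 + 7 * m + 2)) := by positivity
      omega
  · obtain ⟨y, hy⟩ : ∃ y, b = m + y := ⟨b - m, by ring⟩
    have hid' := hid y hy
    have hb1' : 0 ≤ b - 1 := by omega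
    have h2 : 0 ≤ 3 * (b - 1) * (a - c) ^ 2 := by positivity
    rcases (show y ≤ 0 ∨ y = 1 ∨ y = 2 ∨ 3 ≤ y by omega) with hy0 | hy0 | hy0 | hy0
    · obtain ⟨z, hz, hz1⟩ : ∃ z, y = -z ∧ 0 ≤ z := ⟨-y, by ring, by omega⟩
      have hE : 0 < 45 * m * y ^ 2 - 60 * m * y + 12 * m - 15 * y ^ 3 + 51 * y ^ 2 - 48 * y + 12 := by
        subst hz
        have h3 : 0 ≤ m * z := by positivity
        have h5 : 0 ≤ z ^ 2 := sq_nonneg z
        have h6 : 0 ≤ m * z ^ 2 := by positivity
        have h7 : 0 ≤ z ^ 3 := by positivity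
        nlinarith
      exact ⟨by linarith, fun h1 _ => by omega⟩
    · subst hy0
      have hd : 1 ≤ (a - c) ^ 2 := by
        have : a - c ≠ 0 := by omega
        have := sq_pos_of_ne_zero this
        omega
      have h3 : 0 ≤ 3 * (b - 1) * ((a - c) ^ 2 - 1) := by
        have : 0 ≤ (a - c) ^ 2 - 1 := by omega
        positivity
      refine ⟨by nlinarith, fun h1 h2m => ?_⟩
      have h4 : 3 * (b - 1) * ((a - c) ^ 2 - 1) = 0 := by nlinarith
      have h5 : (a - c) ^ 2 = 1 := by
        rcases mul_eq_zero.1 h4 with e | e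
        · omega
        · omega
      have h6 : (a - c - 1) * (a - c + 1) = 0 := by linear_combination h5
      rcases mul_eq_zero.1 h6 with e | e
      · unfold Bal; omega
      · unfold Bal; omega
    · subst hy0
      refine ⟨by nlinarith, fun h1 h2m => ?_⟩
      exfalso
      nlinarith
    · have hy3 : 0 ≤ 2 * m + 2 - y := by omega
      have hm1 : 1 ≤ m := by omega
      have hE : 0 < 45 * m * y ^ 2 - 60 * m * y + 12 * m - 15 * y ^ 3 + 51 * y ^ 2 - 48 * y + 12 := by
        have h3 : 0 ≤ (y ^ 2 - 9) * (2 * m + 2 - y) := mul_nonneg (by nlinarith) hy3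
        have h4 : 0 ≤ m * (y * (y - 3)) := by
          have : 0 ≤ y - 3 := by omega
          positivity
        have h5 : 0 ≤ (m - 1) * (y - 3) := mul_nonneg (by omega) (by omega)
        nlinarith
      exact ⟨by linarith, fun h1 _ => by omega⟩

theorem PP_rot (a b c : ℤ) : PP a b c = PP b c a := by
  unfold PP
  ring

theorem Bal_rot {a b c : ℤ} (h : Bal b c a) : Bal a b c := by
  unfold Bal at *
  omega

/-- one of the three rotations has its middle element between the other two -/
theorem between (a b c : ℤ) : 0 ≤ (b - a) * (c - b) ∨ 0 ≤ (c - b) * (a - c) ∨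
    0 ≤ (a - c) * (b - a) := by
  by_contra hcon
  push Not at hcon
  obtain ⟨h1, h2, h3⟩ := hcon
  have h4 : 0 < ((b - a) * (c - b)) * ((c - b) * (a - c)) := mul_pos_of_neg_of_neg h1 h2
  have h5 : ((b - a) * (c - b)) * ((c - b) * (a - c)) * ((a - c) * (b - a)) < 0 :=
    mul_neg_of_pos_of_neg h4 h3
  nlinarith [sq_nonneg ((b - a) * (c - b) * (a - c))]

/-- reduction to the case that `b` is between `a` and `c` -/
theorem reduce {F n : ℤ} {Q : Prop} (h : ∀ a b c : ℤ, 0 ≤ a → 0 ≤ b → 0 ≤ c → a + b + c = n →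
    0 ≤ (b - a) * (c - b) → F ≤ 4 * PP a b c ∧ (4 * PP a b c = F → Q → Bal a b c)) :
    ∀ a b c : ℤ, 0 ≤ a → 0 ≤ b → 0 ≤ c → a + b + c = n →
      F ≤ 4 * PP a b c ∧ (4 * PP a b c = F → Q → Bal a b c) := by
  intro a b c ha hb hc hn
  rcases between a b c with h1 | h1 | h1
  · exact h a b c ha hb hc hn h1
  · have := h b c a hb hc ha (by linarith) h1
    rw [← PP_rot] at this
    exact ⟨this.1, fun h2 h3 => Bal_rot (this.2 h2 h3)⟩
  · have := h c a b hc ha hb (by linarith) h1
    rw [← PP_rot b c a, ← PP_rot a b c] at this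
    exact ⟨this.1, fun h2 h3 => Bal_rot (Bal_rot (this.2 h2 h3))⟩

/-- Turán's number -/
def turan (n : ℕ) : ℕ :=
  if n % 3 = 0 then n / 3 * (n / 3 - 1) * (2 * (n / 3) - 1)
  else if n % 3 = 1 then n / 3 * (n / 3) * (2 * (n / 3) - 1)
  else n / 3 * (n / 3) * (2 * (n / 3) + 1)

theorem turan0 (m : ℕ) : (turan (3 * m) : ℤ) = m * (m - 1) * (2 * m - 1) := by
  have h1 : (3 * m) % 3 = 0 := by omega
  have h2 : (3 * m) / 3 = m := by omega
  unfold turan
  rw [if_pos h1, h2]
  rcases Nat.eq_zero_or_pos m with rfl | h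
  · simp
  · obtain ⟨k, rfl⟩ : ∃ k, m = k + 1 := ⟨m - 1, by omega⟩
    have h3 : 2 * (k + 1) - 1 = 2 * k + 1 := by omega
    rw [h3, Nat.add_sub_cancel]
    push_cast
    ring

theorem turan1 (m : ℕ) : (turan (3 * m + 1) : ℤ) = m * m * (2 * m - 1) := by
  have h1 : ¬ (3 * m + 1) % 3 = 0 := by omega
  have h1' : (3 * m + 1) % 3 = 1 := by omega
  have h2 : (3 * m + 1) / 3 = m := by omega
  unfold turan
  rw [if_neg h1, if_pos h1', h2]
  rcases Nat.eq_zero_or_pos m with rfl | h
  · simp
  · obtain ⟨k, rfl⟩ : ∃ k, m = k + 1 := ⟨m - 1, by omega⟩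
    have h3 : 2 * (k + 1) - 1 = 2 * k + 1 := by omega
    rw [h3]
    push_cast
    ring

theorem turan2 (m : ℕ) : (turan (3 * m + 2) : ℤ) = m * m * (2 * m + 1) := by
  have h1 : ¬ (3 * m + 2) % 3 = 0 := by omega
  have h1' : ¬ (3 * m + 2) % 3 = 1 := by omega
  have h2 : (3 * m + 2) / 3 = m := by omega
  unfold turan
  rw [if_neg h1, if_neg h1', h2]
  push_cast
  ring

/-- the inequality for all sizes -/
theorem PP_ge (n : ℕ) (a b c : ℤ) (ha : 0 ≤ a) (hb : 0 ≤ b) (hc : 0 ≤ c) (h : a + b + c = n) :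
    6 * (turan n : ℤ) ≤ PP a b c ∧ (PP a b c = 6 * (turan n : ℤ) → 6 ≤ n → Bal a b c) := by
  obtain ⟨m, hm⟩ : ∃ m, n = 3 * m ∨ n = 3 * m + 1 ∨ n = 3 * m + 2 := ⟨n / 3, by omega⟩
  rcases hm with rfl | rfl | rfl
  · have := reduce (Q := 2 ≤ (m : ℤ)) (fun a b c ha hb hc hs hbt => key0 a b c m ha hb hc hs hbt)
      a b c ha hb hc (by rw [h]; push_cast; ring)
    rw [turan0]
    exact ⟨by linarith [this.1], fun h1 h2 => this.2 (by linarith) (by omega)⟩
  · have := reduce (Q := 2 ≤ (m : ℤ)) (fun a b c ha hb hc hs hbt => key1 a b c m ha hb hc hs hbt)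
      a b c ha hb hc (by rw [h]; push_cast; ring)
    rw [turan1]
    exact ⟨by linarith [this.1], fun h1 h2 => this.2 (by linarith) (by omega)⟩
  · have := reduce (Q := 2 ≤ (m : ℤ)) (fun a b c ha hb hc hs hbt => key2 a b c m ha hb hc hs hbt)
      a b c ha hb hc (by rw [h]; push_cast; ring)
    rw [turan2]
    exact ⟨by linarith [this.1], fun h1 h2 => this.2 (by linarith) (by omega)⟩

/-- the bound of the two-coloured case is larger than Turán's number minus one, and larger than
Turán's number for at least six vertices -/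
theorem bound_gt (m : ℕ) : (turan (m + 1) : ℝ) - 1 <
      ((m + 1 : ℝ) * m * (m - 1)) / 12 - (m + 1) * m / 8 ∧
    (6 ≤ m + 1 → (turan (m + 1) : ℝ) < ((m + 1 : ℝ) * m * (m - 1)) / 12 - (m + 1) * m / 8) := by
  obtain ⟨k, hk⟩ : ∃ k, m + 1 = 3 * k ∨ m + 1 = 3 * k + 1 ∨ m + 1 = 3 * k + 2 :=
    ⟨(m + 1) / 3, by omega⟩
  rcases hk with hk | hk | hk
  · have e : (turan (m + 1) : ℝ) = k * (k - 1) * (2 * k - 1) := by
      have := turan0 k
      rw [← hk] at this
      exact_mod_cast this
    have hm : (m : ℝ) = 3 * k - 1 := by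
      have : (m : ℝ) + 1 = 3 * k := by exact_mod_cast hk
      linarith
    have hid : ((m + 1 : ℝ) * m * (m - 1)) / 12 - (m + 1) * m / 8 - turan (m + 1) =
        k * (2 * k ^ 2 - 3 * k - 1) / 8 := by
      rw [e, hm]
      ring
    have hk1 : 1 ≤ k := by omega
    rcases (show k = 1 ∨ 2 ≤ k by omega) with h1 | h1
    · subst h1
      norm_num at hid
      refine ⟨by linarith, fun h => by omega⟩
    · have h2 : (2 : ℝ) ≤ k := by exact_mod_cast h1
      have h3 : 0 < (k : ℝ) * (2 * k ^ 2 - 3 * k - 1) / 8 := by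
        have : 0 < 2 * (k : ℝ) ^ 2 - 3 * k - 1 := by nlinarith
        positivity
      exact ⟨by linarith, fun _ => by linarith⟩
  · have e : (turan (m + 1) : ℝ) = k * k * (2 * k - 1) := by
      have := turan1 k
      rw [← hk] at this
      exact_mod_cast this
    have hm : (m : ℝ) = 3 * k := by
      have : (m : ℝ) + 1 = 3 * k + 1 := by exact_mod_cast hk
      linarith
    have hid : ((m + 1 : ℝ) * m * (m - 1)) / 12 - (m + 1) * m / 8 - turan (m + 1) =
        k * (2 * k ^ 2 - k - 5) / 8 := by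
      rw [e, hm]
      ring
    rcases (show k = 0 ∨ k = 1 ∨ 2 ≤ k by omega) with h1 | h1 | h1
    · subst h1
      norm_num at hid
      refine ⟨by linarith, fun h => by omega⟩
    · subst h1
      norm_num at hid
      refine ⟨by linarith, fun h => by omega⟩
    · have h2 : (2 : ℝ) ≤ k := by exact_mod_cast h1
      have h3 : 0 < (k : ℝ) * (2 * k ^ 2 - k - 5) / 8 := by
        have : 0 < 2 * (k : ℝ) ^ 2 - k - 5 := by nlinarith
        positivity
      exact ⟨by linarith, fun _ => by linarith⟩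
  · have e : (turan (m + 1) : ℝ) = k * k * (2 * k + 1) := by
      have := turan2 k
      rw [← hk] at this
      exact_mod_cast this
    have hm : (m : ℝ) = 3 * k + 1 := by
      have : (m : ℝ) + 1 = 3 * k + 2 := by exact_mod_cast hk
      linarith
    have hid : ((m + 1 : ℝ) * m * (m - 1)) / 12 - (m + 1) * m / 8 - turan (m + 1) =
        (2 * k ^ 3 + k ^ 2 - 5 * k - 2) / 8 := by
      rw [e, hm]
      ring
    rcases (show k = 0 ∨ k = 1 ∨ 2 ≤ k by omega) with h1 | h1 | h1
    · subst h1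
      norm_num at hid
      refine ⟨by linarith, fun h => by omega⟩
    · subst h1
      norm_num at hid
      refine ⟨by linarith, fun h => by omega⟩
    · have h2 : (2 : ℝ) ≤ k := by exact_mod_cast h1
      have h3 : 0 < (2 * (k : ℝ) ^ 3 + k ^ 2 - 5 * k - 2) / 8 := by
        have h4 : (k : ℝ) ^ 3 = k * k ^ 2 := by ring
        have h5 : 0 ≤ ((k : ℝ) - 2) * k ^ 2 := mul_nonneg (by linarith) (sq_nonneg _)
        have h6 : 4 ≤ (k : ℝ) ^ 2 := by nlinarith
        have : 0 < 2 * (k : ℝ) ^ 3 + k ^ 2 - 5 * k - 2 := by nlinarith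
        positivity
      exact ⟨by linarith, fun _ => by linarith⟩

end Pool.Agent.V1130.Tur
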