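import Mathlib
import Pool.Agent.V1130.TurB
import Pool.Agent.V1130.TurD
import Pool.Agent.V1130.TurE
import Pool.Agent.V1130.TurF

/-!
# The exact bound for the number of monochromatic triples
-/

set_option autoImplicit false

open Finset

namespace Pool.Agent.V1130.Tur

variable {V C : Type*}

theorem choose2 (a : ℕ) : 2 * (a.choose 2 : ℤ) = a * (a - 1) := by
  induction a with
  | zero => simp
  | succ a ih =>
    rw [Nat.choose_succ_succ' a 1, Nat.choose_one_right]
    push_cast
    linarith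

theorem choose3 (a : ℕ) : 6 * (a.choose 3 : ℤ) = a * (a - 1) * (a - 2) := by
  induction a with
  | zero => simp
  | succ a ih =>
    have h2 := choose2 a
    rw [Nat.choose_succ_succ' a 2]
    push_cast
    linear_combination ih + 3 * h2

/-- the count in terms of the polynomial `PP` -/
theorem sum_eq (f : Fin 3 → ℕ) :
    6 * ((∑ i : Fin 3, ((f i).choose 3 + (f i).choose 2 * f (i + 1)) : ℕ) : ℤ) =
      PP (f 2) (f 1) (f 0) := by
  rw [Fin.sum_univ_three]
  have e1 : (0 : Fin 3) + 1 = 1 := rfl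
  have e2 : (1 : Fin 3) + 1 = 2 := rfl
  have e3 : (2 : Fin 3) + 1 = 0 := rfl
  rw [e1, e2, e3]
  push_cast
  have h0 := choose2 (f 0)
  have h1 := choose2 (f 1)
  have h2 := choose2 (f 2)
  have g0 := choose3 (f 0)
  have g1 := choose3 (f 1)
  have g2 := choose3 (f 2)
  unfold PP
  linear_combination g0 + g1 + g2 + 3 * (f 1 : ℤ) * h0 + 3 * (f 2 : ℤ) * h1 + 3 * (f 0 : ℤ) * h2

/-- triples of Turán's construction -/
theorem tt_iff [DecidableEq V] (p : V → Fin 3) {x y z : V} (hxy : x ≠ y) (hxz : x ≠ z)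
    (hyz : y ≠ z) : TT p x y z ↔ TurS p {x, y, z} := by
  have e : ∀ i, (({x, y, z} : Finset V).filter fun u => p u = i).card =
      (if p x = i then 1 else 0) + ((if p y = i then 1 else 0) + (if p z = i then 1 else 0)) := by
    intro i
    rw [card_filter, sum_insert (by simp [hxy, hxz]), sum_insert (by simp [hyz]), sum_singleton]
  have fin : ∀ a b d : Fin 3, ((a = b ∧ b = d) ∨ (a = b ∧ d = a + 1) ∨ (a = d ∧ b = a + 1) ∨
      (b = d ∧ a = b + 1)) ↔ ∃ i : Fin 3, 2 ≤ (if a = i then 1 else 0) +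
        ((if b = i then 1 else 0) + (if d = i then 1 else 0)) ∧
          ((a = i ∨ a = i + 1) ∧ (b = i ∨ b = i + 1) ∧ (d = i ∨ d = i + 1)) := by decide
  unfold TT TurS
  rw [fin (p x) (p y) (p z)]
  refine exists_congr fun i => ?_
  rw [e i]
  refine and_congr_right fun _ => ?_
  simp

theorem cov_of_cover [DecidableEq V] {c : V → V → C} (hc : ∀ T : Finset V, T.card = 4 →
    ∃ s, s.card = 3 ∧ MonoS c s ∧ s ⊆ T) : Cov c := by
  intro x y z w hxy hxz hxw hyz hyw hzw
  have hT : ({x, y, z, w} : Finset V).card = 4 := by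
    rw [card_insert_of_notMem (by simp [hxy, hxz, hxw]), card_insert_of_notMem (by simp [hyz, hyw]),
      card_insert_of_notMem (by simp [hzw]), card_singleton]
  obtain ⟨s, hs3, ⟨a, ha⟩, hsT⟩ := hc _ hT
  obtain ⟨t, htT, hts⟩ : ∃ t ∈ ({x, y, z, w} : Finset V), t ∉ s := by
    by_contra hcon
    push Not at hcon
    have := card_le_card (show ({x, y, z, w} : Finset V) ⊆ s from hcon)
    omega
  have hs : s = ({x, y, z, w} : Finset V).erase t := by
    apply eq_of_subset_of_card_le
    · intro u hu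
      exact mem_erase.2 ⟨fun h => hts (h ▸ hu), hsT hu⟩
    · rw [card_erase_of_mem htT, hT, hs3]
  have hmem : ∀ u, u ∈ ({x, y, z, w} : Finset V) → u ≠ t → u ∈ s := by
    intro u hu hne
    rw [hs]
    exact mem_erase.2 ⟨hne, hu⟩
  have mo : ∀ u v r, u ∈ s → v ∈ s → r ∈ s → u ≠ v → u ≠ r → v ≠ r → Mo c u v r := by
    intro u v r hu hv hr h1 h2 h3
    exact ⟨(ha u hu v hv h1).trans (ha u hu r hr h2).symm,
      (ha u hu v hv h1).trans (ha v hv r hr h3).symm⟩
  have hx : x ∈ ({x, y, z, w} : Finset V) := by simp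
  have hy : y ∈ ({x, y, z, w} : Finset V) := by simp
  have hz : z ∈ ({x, y, z, w} : Finset V) := by simp
  have hw : w ∈ ({x, y, z, w} : Finset V) := by simp
  simp only [mem_insert, mem_singleton] at htT
  rcases htT with rfl | rfl | rfl | rfl
  · exact Or.inr (Or.inr (Or.inr (mo _ _ _ (hmem _ hy hxy.symm) (hmem _ hz hxz.symm)
      (hmem _ hw hxw.symm) hyz hyw hzw)))
  · exact Or.inr (Or.inr (Or.inl (mo _ _ _ (hmem _ hx hxy) (hmem _ hz hyz.symm)
      (hmem _ hw hyw.symm) hxz hxw hzw)))
  · exact Or.inr (Or.inl (mo _ _ _ (hmem _ hx hxz) (hmem _ hy hyz)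
      (hmem _ hw hzw.symm) hxy hxw hyw))
  · exact Or.inl (mo _ _ _ (hmem _ hx hxw) (hmem _ hy hyw) (hmem _ hz hzw) hxy hxz hyz)

/-- the dichotomy -/
theorem dichotomy [Fintype V] [DecidableEq V] {c : V → V → C} (hc : ∀ x y, c x y = c y x)
    (hcov : Cov c) :
    (∃ p : V → Fin 3, (∀ i, 2 ≤ (cls p i).card) ∧ ∀ s : Finset V, s.card = 3 →
      (MonoS c s ↔ TurS p s)) ∨
    ((Fintype.card V : ℝ) * (Fintype.card V - 1) * (Fintype.card V - 2)) / 12 -
      (Fintype.card V : ℝ) * (Fintype.card V - 1) / 8 ≤ nMono c := by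
  by_cases h1 : Fintype.card V ≤ 1
  · right
    have : (0 : ℝ) ≤ nMono c := Nat.cast_nonneg _
    rcases (show Fintype.card V = 0 ∨ Fintype.card V = 1 by omega) with h | h <;> rw [h] <;>
      norm_num
  obtain ⟨v, w, hvw⟩ := Fintype.one_lt_card_iff.1 (not_le.1 h1)
  rcases structure_thm hc hcov v w hvw with ⟨s, hS⟩ | ⟨p, hp, hT⟩
  · right
    obtain ⟨m, hm⟩ : ∃ m, Fintype.card V = m + 1 := ⟨Fintype.card V - 1, by omega⟩
    have := ss_bound hc hcov s hS m hm
    rw [hm]
    push_cast
    have e : ((m : ℝ) + 1) * (m + 1 - 1) * (m + 1 - 2) / 12 - (m + 1) * (m + 1 - 1) / 8 =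
        ((m + 1 : ℝ) * m * (m - 1)) / 12 - (m + 1) * m / 8 := by ring
    rw [e]
    exact this
  · left
    refine ⟨p, fun i => ?_, fun s hs => ?_⟩
    · obtain ⟨x, y, hxy, hx, hy⟩ := hp i
      calc 2 = ({x, y} : Finset V).card := (card_pair hxy).symm
        _ ≤ _ := card_le_card (by
          intro u hu
          simp only [mem_insert, mem_singleton] at hu
          rcases hu with rfl | rfl
          · exact mem_cls.2 hx
          · exact mem_cls.2 hy)
    · obtain ⟨x, y, z, hxy, hxz, hyz, rfl⟩ := card_eq_three.1 hs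
      rw [monoS_iff hc hxy hxz hyz, hT x y z hxy hxz hyz, tt_iff p hxy hxz hyz]

theorem six_count [Fintype V] (p : V → Fin 3) {N : ℕ}
    (hN : N = ∑ i : Fin 3, ((cls p i).card.choose 3 + (cls p i).card.choose 2 * (cls p (i + 1)).card)) :
    6 * (N : ℤ) = PP (cls p 2).card (cls p 1).card (cls p 0).card := by
  rw [hN]
  exact sum_eq fun i => (cls p i).card

/-- the bound and the case of equality -/
theorem bound [Fintype V] [DecidableEq V] {c : V → V → C} (hc : ∀ x y, c x y = c y x)
    (hcov : Cov c) : turan (Fintype.card V) ≤ nMono c ∧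
      (6 ≤ Fintype.card V → nMono c = turan (Fintype.card V) →
        ∃ p : V → Fin 3, (∀ i j, (cls p i).card ≤ (cls p j).card + 1) ∧
          ∀ s : Finset V, s.card = 3 → (MonoS c s ↔ TurS p s)) := by
  classical
  rcases dichotomy hc hcov with ⟨p, hp, hT⟩ | hB
  · have e : nMono c =
        ∑ i : Fin 3, ((cls p i).card.choose 3 + (cls p i).card.choose 2 * (cls p (i + 1)).card) := by
      rw [← card_turS]
      unfold nMono
      congr 1
      apply filter_congr
      intro s hs
      exact hT s (mem_powersetCard.1 hs).2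
    have e6 := six_count p e
    have hsum := card_cls_sum p
    have hge := PP_ge (Fintype.card V) (cls p 2).card (cls p 1).card (cls p 0).card
      (by positivity) (by positivity) (by positivity) (by rw [← hsum]; push_cast; ring)
    refine ⟨by have := hge.1; omega, fun h6 heq => ⟨p, ?_, hT⟩⟩
    have hbal := hge.2 (by rw [← e6, heq]) h6
    unfold Bal at hbal
    have fin : ∀ i : Fin 3, i = 0 ∨ i = 1 ∨ i = 2 := by decide
    intro i j
    rcases fin i with rfl | rfl | rfl <;> rcases fin j with rfl | rfl | rfl <;> omega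
  · by_cases h0 : Fintype.card V = 0
    · rw [h0]
      refine ⟨by simp [turan], fun h => by omega⟩
    obtain ⟨m, hm⟩ : ∃ m, Fintype.card V = m + 1 := ⟨Fintype.card V - 1, by omega⟩
    rw [hm] at hB ⊢
    push_cast at hB
    have e : ((m : ℝ) + 1) * (m + 1 - 1) * (m + 1 - 2) / 12 - (m + 1) * (m + 1 - 1) / 8 =
        ((m + 1 : ℝ) * m * (m - 1)) / 12 - (m + 1) * m / 8 := by ring
    rw [e] at hB
    obtain ⟨g1, g2⟩ := bound_gt m
    refine ⟨?_, fun h6 heq => ?_⟩
    · have : (turan (m + 1) : ℝ) < nMono c + 1 := by linarith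
      have : turan (m + 1) < nMono c + 1 := by exact_mod_cast this
      omega
    · exfalso
      have := g2 h6
      rw [heq] at hB
      linarith

/-- a map to `Fin 3` with classes that are as equal as possible -/
theorem exists_classes (n : ℕ) : ∃ p : Fin n → Fin 3, (cls p 0).card = (n + 2) / 3 ∧
    (cls p 1).card = (n + 1) / 3 ∧ (cls p 2).card = n / 3 := by
  induction n with
  | zero => exact ⟨fun _ => 0, by simp [cls], by simp [cls], by simp [cls]⟩
  | succ n ih =>
    obtain ⟨p, h0, h1, h2⟩ := ih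
    have key : ∀ (j i : Fin 3), (cls (Fin.cons j p : Fin (n + 1) → Fin 3) i).card =
        (if j = i then 1 else 0) + (cls p i).card := by
      intro j i
      unfold cls
      rw [Fin.card_filter_univ_succ]
      split_ifs with g1 g2 g2
      · simp only [Fin.cons_succ, Function.comp_def]
        omega
      · exact absurd g1 g2
      · exact absurd g2 g1
      · simp only [Fin.cons_succ, Function.comp_def]
        omega
    rcases (show n % 3 = 0 ∨ n % 3 = 1 ∨ n % 3 = 2 by omega) with h | h | h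
    · refine ⟨Fin.cons 0 p, ?_, ?_, ?_⟩
      · rw [key, h0, if_pos rfl]; omega
      · rw [key, h1, if_neg (by decide)]; omega
      · rw [key, h2, if_neg (by decide)]; omega
    · refine ⟨Fin.cons 1 p, ?_, ?_, ?_⟩
      · rw [key, h0, if_neg (by decide)]; omega
      · rw [key, h1, if_pos rfl]; omega
      · rw [key, h2, if_neg (by decide)]; omega
    · refine ⟨Fin.cons 2 p, ?_, ?_, ?_⟩
      · rw [key, h0, if_neg (by decide)]; omega
      · rw [key, h1, if_neg (by decide)]; omega
      · rw [key, h2, if_pos rfl]; omega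

/-- a colouring with three colours for Turán's construction -/
def col (p : V → Fin 3) (x y : V) : Fin 3 := if p x = p y then p x + 2 else - (p x + p y)

theorem col_comm (p : V → Fin 3) (x y : V) : col p x y = col p y x := by
  have fin : ∀ a b : Fin 3, (if a = b then a + 2 else - (a + b)) =
      (if b = a then b + 2 else - (b + a)) := by decide
  exact fin _ _

theorem col_mo (p : V → Fin 3) (x y z : V) : Mo (col p) x y z ↔ TT p x y z := by
  unfold Mo TT col
  have fin : ∀ a b d : Fin 3,
      (((if a = b then a + 2 else -(a + b)) = (if a = d then a + 2 else -(a + d))) ∧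
      ((if a = b then a + 2 else -(a + b)) = (if b = d then b + 2 else -(b + d)))) ↔
      ((a = b ∧ b = d) ∨ (a = b ∧ d = a + 1) ∨ (a = d ∧ b = a + 1) ∨ (b = d ∧ a = b + 1)) := by
    decide
  exact fin (p x) (p y) (p z)

theorem col_cov (p : V → Fin 3) : Cov (col p) := by
  intro x y z w _ _ _ _ _ _
  rw [col_mo, col_mo, col_mo, col_mo]
  unfold TT
  have fin : ∀ a b d e : Fin 3,
      ((a = b ∧ b = d) ∨ (a = b ∧ d = a + 1) ∨ (a = d ∧ b = a + 1) ∨ (b = d ∧ a = b + 1)) ∨
      ((a = b ∧ b = e) ∨ (a = b ∧ e = a + 1) ∨ (a = e ∧ b = a + 1) ∨ (b = e ∧ a = b + 1)) ∨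
      ((a = d ∧ d = e) ∨ (a = d ∧ e = a + 1) ∨ (a = e ∧ d = a + 1) ∨ (d = e ∧ a = d + 1)) ∨
      ((b = d ∧ d = e) ∨ (b = d ∧ e = b + 1) ∨ (b = e ∧ d = b + 1) ∨ (d = e ∧ b = d + 1)) := by
    decide
  exact fin (p x) (p y) (p z) (p w)

/-- Turán's number is attained by a colouring with three colours -/
theorem sharp (n : ℕ) : ∃ p : Fin n → Fin 3, nMono (col p) = turan n := by
  classical
  obtain ⟨p, h0, h1, h2⟩ := exists_classes n
  refine ⟨p, ?_⟩
  have e : nMono (col p) =
      ∑ i : Fin 3, ((cls p i).card.choose 3 + (cls p i).card.choose 2 * (cls p (i + 1)).card) := by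
    rw [← card_turS]
    unfold nMono
    congr 1
    apply filter_congr
    intro s hs
    obtain ⟨x, y, z, hxy, hxz, hyz, rfl⟩ := card_eq_three.1 (mem_powersetCard.1 hs).2
    rw [monoS_iff (col_comm p) hxy hxz hyz, col_mo, tt_iff p hxy hxz hyz]
  have e6 := six_count p e
  rw [h0, h1, h2] at e6
  obtain ⟨m, hm⟩ : ∃ m, n = 3 * m ∨ n = 3 * m + 1 ∨ n = 3 * m + 2 := ⟨n / 3, by omega⟩
  rcases hm with rfl | rfl | rfl
  · have a0 : (3 * m + 2) / 3 = m := by omega
    have a1 : (3 * m + 1) / 3 = m := by omega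
    have a2 : (3 * m) / 3 = m := by omega
    rw [a0, a1, a2] at e6
    have := turan0 m
    have e7 : 6 * (nMono (col p) : ℤ) = 6 * (turan (3 * m) : ℤ) := by
      rw [e6, this]
      unfold PP
      ring
    omega
  · have a0 : (3 * m + 1 + 2) / 3 = m + 1 := by omega
    have a1 : (3 * m + 1 + 1) / 3 = m := by omega
    have a2 : (3 * m + 1) / 3 = m := by omega
    rw [a0, a1, a2] at e6
    have := turan1 m
    have e7 : 6 * (nMono (col p) : ℤ) = 6 * (turan (3 * m + 1) : ℤ) := by
      rw [e6, this]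
      unfold PP
      push_cast
      ring
    omega
  · have a0 : (3 * m + 2 + 2) / 3 = m + 1 := by omega
    have a1 : (3 * m + 2 + 1) / 3 = m + 1 := by omega
    have a2 : (3 * m + 2) / 3 = m := by omega
    rw [a0, a1, a2] at e6
    have := turan2 m
    have e7 : 6 * (nMono (col p) : ℤ) = 6 * (turan (3 * m + 2) : ℤ) := by
      rw [e6, this]
      unfold PP
      push_cast
      ring
    omega

end Pool.Agent.V1130.Tur
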