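import Mathlib

/-!
Horizontal class transpositions: generating the symmetric group on the residues modulo the lcm.
-/

namespace V1130.ClassTransp

open Equiv Equiv.Perm
open scoped Pointwise

/-- the class transposition as a function -/
def tf (n a b : ℤ) (z : ℤ) : ℤ :=
  if z % n = a then z + (b - a) else if z % n = b then z - (b - a) else z

theorem emod_of_eq {n a z q : ℤ} (h0 : 0 ≤ a) (h1 : a < n) (h : z = a + n * q) : z % n = a := by
  rw [h, Int.add_mul_emod_self_left, Int.emod_eq_of_lt h0 h1]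

theorem ediv_of_eq {n a z q : ℤ} (h0 : 0 ≤ a) (h1 : a < n) (h : z = a + n * q) : z / n = q := by
  rw [h, Int.add_mul_ediv_left _ _ (by omega), Int.ediv_eq_zero_of_lt h0 h1, zero_add]

theorem tf_left {n a b z : ℤ} (h : z % n = a) : tf n a b z = z + (b - a) := if_pos h

theorem tf_right {n a b z : ℤ} (hab : a ≠ b) (h : z % n = b) : tf n a b z = z - (b - a) := by
  unfold tf
  rw [if_neg (by omega), if_pos h]

theorem tf_other {n a b z : ℤ} (h : z % n ≠ a) (h' : z % n ≠ b) : tf n a b z = z := by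
  unfold tf
  rw [if_neg h, if_neg h']

theorem eq_of_emod {n z a : ℤ} (h : z % n = a) : z = a + n * (z / n) := by
  have h1 := Int.mul_ediv_add_emod z n
  rw [h] at h1; linarith

/-- two distinct residues modulo `n` -/
def Res (n a b : ℤ) : Prop := 0 ≤ a ∧ a < n ∧ 0 ≤ b ∧ b < n ∧ a ≠ b

theorem Res.symm {n a b : ℤ} (h : Res n a b) : Res n b a :=
  ⟨h.2.2.1, h.2.2.2.1, h.1, h.2.1, h.2.2.2.2.symm⟩

theorem tf_invol {n a b : ℤ} (h : Res n a b) : Function.Involutive (tf n a b) := by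
  obtain ⟨ha, ha', hb, hb', hab⟩ := h
  intro z
  by_cases h1 : z % n = a
  · have h2 := eq_of_emod h1
    rw [tf_left h1, tf_right hab (emod_of_eq (q := z / n) hb hb' (by linarith))]
    ring
  · by_cases h2 : z % n = b
    · have h3 := eq_of_emod h2
      rw [tf_right hab h2, tf_left (emod_of_eq (q := z / n) ha ha' (by linarith))]
      ring
    · rw [tf_other h1 h2, tf_other h1 h2]

theorem tf_symm {n a b : ℤ} (h : Res n a b) : tf n a b = tf n b a := by
  obtain ⟨ha, ha', hb, hb', hab⟩ := h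
  ext z
  by_cases h1 : z % n = a
  · rw [tf_left h1, tf_right hab.symm h1]; ring
  · by_cases h2 : z % n = b
    · rw [tf_right hab h2, tf_left h2]; ring
    · rw [tf_other h1 h2, tf_other h2 h1]

open Classical in
/-- the class transposition -/
noncomputable def T (n a b : ℤ) : Perm ℤ :=
  if h : Res n a b then (tf_invol h).toPerm (tf n a b) else 1

theorem T_apply {n a b : ℤ} (h : Res n a b) (z : ℤ) :
    T n a b z = tf n a b z := by
  rw [T, dif_pos h]
  rfl

theorem T_symm {n a b : ℤ} (h : Res n a b) : T n a b = T n b a := by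
  ext z
  rw [T_apply h, T_apply h.symm, tf_symm h]

/-- `n`-periodic permutations preserving every block `[n k, n (k + 1))` -/
def P (n : ℤ) : Subgroup (Perm ℤ) where
  carrier := {g | ∀ z, g (z + n) = g z + n ∧ g z / n = z / n}
  one_mem' z := ⟨rfl, rfl⟩
  mul_mem' := by
    intro g h hg hh z
    refine ⟨?_, ?_⟩
    · rw [mul_apply, mul_apply, (hh z).1, (hg _).1]
    · rw [mul_apply, (hg _).2, (hh z).2]
  inv_mem' := by
    intro g hg z
    have e : ∀ x, g (g⁻¹ x) = x := g.apply_symm_apply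
    refine ⟨?_, ?_⟩
    · apply g.injective
      rw [(hg _).1, e, e]
    · have := (hg (g⁻¹ z)).2
      rw [e] at this
      exact this.symm

theorem mem_P {n : ℤ} {g : Perm ℤ} : g ∈ P n ↔ ∀ z, g (z + n) = g z + n ∧ g z / n = z / n := Iff.rfl

theorem T_mem_P {n : ℤ} (a b : ℤ) : T n a b ∈ P n := by
  by_cases h : Res n a b
  · intro z
    have hz : (z + n) % n = z % n := by simp
    rw [T_apply h, T_apply h]
    obtain ⟨ha, ha', hb, hb', hab⟩ := h
    by_cases h1 : z % n = a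
    · have h2 := eq_of_emod h1
      rw [tf_left h1, tf_left (hz.trans h1)]
      exact ⟨by ring, ediv_of_eq hb hb' (by linarith)⟩
    · by_cases h2 : z % n = b
      · have h3 := eq_of_emod h2
        rw [tf_right hab h2, tf_right hab (hz.trans h2)]
        exact ⟨by ring, ediv_of_eq ha ha' (by linarith)⟩
      · rw [tf_other h1 h2, tf_other (by rwa [hz]) (by rwa [hz])]
        exact ⟨rfl, rfl⟩
  · rw [T, dif_neg h]
    exact one_mem _

theorem P_add_mul {n : ℤ} {g : Perm ℤ} (hg : g ∈ P n) (z k : ℤ) : g (z + n * k) = g z + n * k := by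
  induction k using Int.induction_on with
  | zero => simp
  | succ i ih =>
    have := (hg (z + n * i)).1
    rw [show z + n * ((i : ℤ) + 1) = z + n * i + n by ring, this, ih]; ring
  | pred i ih =>
    have := (hg (z + n * (-i - 1))).1
    rw [show z + n * (-(i : ℤ) - 1) + n = z + n * (-i) by ring, ih] at this
    linarith

theorem P_le {n L : ℤ} (hn : 0 < n) (h : n ∣ L) : P n ≤ P L := by
  obtain ⟨c, rfl⟩ := h
  intro g hg z
  refine ⟨P_add_mul hg z c, ?_⟩
  rw [← Int.ediv_ediv_of_nonneg hn.le, ← Int.ediv_ediv_of_nonneg hn.le, (hg z).2]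

theorem mem_Ico_iff {L : ℤ} (hL : 0 < L) (z : ℤ) : z ∈ Set.Ico 0 L ↔ z / L = 0 := by
  constructor
  · rintro ⟨h0, h1⟩
    exact Int.ediv_eq_zero_of_lt h0 h1
  · intro h
    have h1 := Int.mul_ediv_add_emod z L
    rw [h] at h1
    have h2 := Int.emod_nonneg z hL.ne'
    have h3 := Int.emod_lt_of_pos z hL
    exact ⟨by linarith, by linarith⟩

/-- restriction to `[0, L)` -/
def res (L : ℤ) (hL : 0 < L) : P L →* Perm (Set.Ico (0 : ℤ) L) where
  toFun g := (g : Perm ℤ).subtypePerm (p := fun z => z ∈ Set.Ico 0 L) (fun z => by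
    rw [mem_Ico_iff hL, mem_Ico_iff hL, (g.2 z).2])
  map_one' := rfl
  map_mul' g h := rfl

theorem res_apply {L : ℤ} (hL : 0 < L) (g : P L) (z : Set.Ico (0 : ℤ) L) :
    ((res L hL g z : Set.Ico (0 : ℤ) L) : ℤ) = (g : Perm ℤ) z := rfl

theorem res_injective {L : ℤ} (hL : 0 < L) : Function.Injective (res L hL) := by
  intro g h hgh
  apply Subtype.ext
  apply Equiv.ext
  intro z
  have hz := Int.emod_add_mul_ediv z L
  have hm : z % L ∈ Set.Ico 0 L := ⟨Int.emod_nonneg z hL.ne', Int.emod_lt_of_pos z hL⟩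
  have := congrArg Subtype.val (congrArg (fun f => f ⟨z % L, hm⟩) hgh)
  simp only [res_apply] at this
  rw [← hz, P_add_mul g.2, P_add_mul h.2, this]

theorem isThreeCycle_comm {α : Type} [Fintype α] [DecidableEq α] (σ τ : Perm α) (x : α)
    (h1 : σ x ≠ x) (h2 : τ x ≠ x) (h : ∀ y, y ≠ x → σ y = y ∨ τ y = y) :
    (σ * τ * σ⁻¹ * τ⁻¹).IsThreeCycle := by
  have eσ : ∀ x, σ (σ⁻¹ x) = x := σ.apply_symm_apply
  have eτ : ∀ x, τ (τ⁻¹ x) = x := τ.apply_symm_apply
  have eσ' : ∀ x, σ⁻¹ (σ x) = x := σ.symm_apply_apply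
  have eτ' : ∀ x, τ⁻¹ (τ x) = x := τ.symm_apply_apply
  have mσ : ∀ {y}, σ y ≠ y → σ (σ y) ≠ σ y := fun hy h' => hy (σ.injective h')
  have mτ : ∀ {y}, τ y ≠ y → τ (τ y) ≠ τ y := fun hy h' => hy (τ.injective h')
  have mσ' : ∀ {y}, σ y ≠ y → σ (σ⁻¹ y) ≠ σ⁻¹ y := fun {y} hy h' => hy (by
    rw [eσ] at h'; rw [h', eσ, ← h'])
  have mτ' : ∀ {y}, τ y ≠ y → τ (τ⁻¹ y) ≠ τ⁻¹ y := fun {y} hy h' => hy (by
    rw [eτ] at h'; rw [h', eτ, ← h'])
  have fσ : ∀ {y}, y ≠ x → σ y ≠ y → τ y = y := fun hy h' => (h _ hy).resolve_left h'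
  have fτ : ∀ {y}, y ≠ x → τ y ≠ y → σ y = y := fun hy h' => (h _ hy).resolve_right h'
  have hστ : σ x ≠ τ x := by
    intro h'
    have := fσ h1 (mσ h1)
    rw [h'] at this
    exact mτ h2 this
  have key : σ * τ * σ⁻¹ * τ⁻¹ = swap x (τ x) * swap x (σ x) := by
    ext z
    simp only [mul_apply]
    by_cases hz1 : z = τ x
    · subst hz1
      rw [eτ', swap_apply_of_ne_of_ne h2 (Ne.symm hστ), swap_apply_right]
      have : τ (σ⁻¹ x) = σ⁻¹ x := fσ (fun h' => h1 (by
        have := congrArg σ h'; rw [eσ] at this; exact this.symm)) (mσ' h1)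
      rw [this, eσ]
    · by_cases hz2 : z = x
      · subst hz2
        rw [swap_apply_left, swap_apply_of_ne_of_ne h1 hστ]
        have h3 : τ⁻¹ z ≠ z := fun h' => h2 (by
          have := congrArg τ h'; rw [eτ] at this; exact this.symm)
        have h4 : σ (τ⁻¹ z) = τ⁻¹ z := fτ h3 (mτ' h2)
        have h5 : σ⁻¹ (τ⁻¹ z) = τ⁻¹ z := by
          apply σ.injective
          rw [eσ, h4]
        rw [h5, eτ]
      · by_cases hz3 : z = σ x
        · subst hz3
          rw [swap_apply_right, swap_apply_left]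
          have h3 : τ (σ x) = σ x := fσ h1 (mσ h1)
          have h4 : τ⁻¹ (σ x) = σ x := by
            apply τ.injective
            rw [eτ, h3]
          rw [h4, eσ', fτ h2 (mτ h2)]
        · rw [swap_apply_of_ne_of_ne hz2 hz3, swap_apply_of_ne_of_ne hz2 hz1]
          by_cases hτz : τ z = z
          · have h4 : τ⁻¹ z = z := by
              apply τ.injective
              rw [eτ, hτz]
            rw [h4]
            by_cases hσz : σ z = z
            · have h5 : σ⁻¹ z = z := by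
                apply σ.injective
                rw [eσ, hσz]
              rw [h5, hτz, hσz]
            · have h6 : σ⁻¹ z ≠ x := fun h' => hz3 (by rw [← h', eσ])
              rw [fσ h6 (mσ' hσz), eσ]
          · have h6 : τ⁻¹ z ≠ x := fun h' => hz1 (by rw [← h', eτ])
            have h7 := fτ h6 (mτ' hτz)
            have h8 : σ⁻¹ (τ⁻¹ z) = τ⁻¹ z := by
              apply σ.injective
              rw [eσ, h7]
            rw [h8, eτ, fτ hz2 hτz]
  rw [key]
  exact isThreeCycle_swap_mul_swap_same (Ne.symm h2) (Ne.symm h1) (Ne.symm hστ)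

/-- `B` behaves like a block for the maps `tf n u v` -/
def Inv (n : ℤ) (B : Set ℤ) : Prop :=
  ∀ u v, Res n u v → ∀ x ∈ B, tf n u v x ∈ B → ∀ y ∈ B, tf n u v y ∈ B

theorem exists_third {n u v : ℤ} (hn : 3 ≤ n) : ∃ w, 0 ≤ w ∧ w < n ∧ w ≠ u ∧ w ≠ v := by
  by_cases h0 : (0 : ℤ) ≠ u ∧ (0 : ℤ) ≠ v
  · exact ⟨0, le_rfl, by omega, h0.1, h0.2⟩
  · by_cases h1 : (1 : ℤ) ≠ u ∧ (1 : ℤ) ≠ v
    · exact ⟨1, by omega, by omega, h1.1, h1.2⟩
    · exact ⟨2, by omega, by omega, by omega, by omega⟩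

theorem res_emod {n : ℤ} (hn : 0 < n) {x y : ℤ} (h : x % n ≠ y % n) : Res n (x % n) (y % n) :=
  ⟨Int.emod_nonneg x hn.ne', Int.emod_lt_of_pos x hn, Int.emod_nonneg y hn.ne',
    Int.emod_lt_of_pos y hn, h⟩

theorem eq_of_div_mod {n x y : ℤ} (h1 : x / n = y / n) (h2 : x % n = y % n) : x = y := by
  have e1 := Int.mul_ediv_add_emod x n
  have e2 := Int.mul_ediv_add_emod y n
  rw [h1, h2] at e1
  exact e1.symm.trans e2

section block

variable {N m : ℤ} {B : Set ℤ}

theorem same (hN : 3 ≤ N) (hB : Inv N B) {x y : ℤ} (hx : x ∈ B) (hy : y ∈ B) (hxy : x ≠ y)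
    (h : x / N = y / N) (w : ℤ) (hw : w / N = x / N) : w ∈ B := by
  by_cases h1 : w = x
  · rwa [h1]
  by_cases h2 : w = y
  · rwa [h2]
  have hN0 : 0 < N := by omega
  have hxy' : x % N ≠ y % N := fun h' => hxy (eq_of_div_mod h h')
  have hwx : x % N ≠ w % N := fun h' => h1 (eq_of_div_mod hw h'.symm)
  have hwy : y % N ≠ w % N := fun h' => h2 (eq_of_div_mod (hw.trans h) h'.symm)
  have h3 := hB _ _ (res_emod hN0 hwy) x hx (by rwa [tf_other hxy' hwx]) y hy
  rw [tf_left rfl] at h3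
  have e1 := Int.mul_ediv_add_emod w N
  have e2 := Int.mul_ediv_add_emod y N
  rw [hw, h] at e1
  have : y + (w % N - y % N) = w := by linarith
  rwa [this] at h3

theorem lemmaA (hN : 3 ≤ N) (hB : Inv N B) {x y : ℤ} (hx : x ∈ B) (hy : y ∈ B)
    (hxy : x % N ≠ y % N) : ∃ z ∈ B, ∃ z' ∈ B, z ≠ z' ∧ z / N = z' / N := by
  have hN0 : 0 < N := by omega
  obtain ⟨w, hw0, hw1, hwx, hwy⟩ := exists_third (u := x % N) (v := y % N) hN
  have hR : Res N (y % N) w := ⟨Int.emod_nonneg y hN0.ne', Int.emod_lt_of_pos y hN0, hw0, hw1,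
    hwy.symm⟩
  have h3 := hB _ _ hR x hx (by rwa [tf_other hxy hwx.symm]) y hy
  rw [tf_left rfl] at h3
  refine ⟨y, hy, _, h3, by omega, ?_⟩
  have e2 := Int.mul_ediv_add_emod y N
  exact (ediv_of_eq (q := y / N) hw0 hw1 (by linarith)).symm

theorem exists_same (hN : 3 ≤ N) (hm : 3 ≤ m) (hmN : m ≤ N) (hB : Inv N B) (hB' : Inv m B)
    (hne : ∀ x ∈ B, ∀ y ∈ B, x % N = y % N → x % m = y % m → x = y)
    {x y : ℤ} (hx : x ∈ B) (hy : y ∈ B)
    (hxy : x ≠ y) : ∃ z ∈ B, ∃ z' ∈ B, z ≠ z' ∧ z / N = z' / N := by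
  by_cases h1 : x % N = y % N
  · have h2 : x % m ≠ y % m := fun h' => hxy (hne x hx y hy h1 h')
    have hm0 : 0 < m := by omega
    obtain ⟨s, hs0, hs1, hsx, hsy⟩ := exists_third (u := x % m) (v := y % m) hm
    have hR : Res m (x % m) s := ⟨Int.emod_nonneg x hm0.ne', Int.emod_lt_of_pos x hm0, hs0, hs1,
      hsx.symm⟩
    have h3 := hB' _ _ hR y hy (by rwa [tf_other h2.symm hsy.symm]) x hx
    rw [tf_left rfl] at h3
    have hx0 := Int.emod_nonneg x hm0.ne'
    have hx1 := Int.emod_lt_of_pos x hm0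
    refine lemmaA hN hB h3 hx fun h4 => ?_
    have h5 : N ∣ (x + (s - x % m)) - x :=
      Int.ModEq.dvd (n := N) (h4.symm : x % N = (x + (s - x % m)) % N)
    obtain ⟨c, hc⟩ := h5
    have h6 : N * c < N := by rw [← hc]; omega
    have h7 : -N < N * c := by rw [← hc]; omega
    have h8 : c < 1 := by nlinarith
    have h9 : -1 < c := by nlinarith
    have h10 : c = 0 := by omega
    rw [h10, mul_zero] at hc
    omega
  · exact lemmaA hN hB hx hy h1

theorem full_of_mem (hN : 3 ≤ N) (hB : Inv N B) {j : ℤ} (hj : ∀ w, w / N = j → w ∈ B)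
    {x : ℤ} (hx : x ∈ B) (w : ℤ) (hw : w / N = x / N) : w ∈ B := by
  by_cases h1 : w = x
  · rwa [h1]
  have hN0 : 0 < N := by omega
  have hwx : x % N ≠ w % N := fun h' => h1 (eq_of_div_mod hw h'.symm)
  obtain ⟨t, ht0, ht1, htx, htw⟩ := exists_third (u := x % N) (v := w % N) hN
  have e0 : (t + N * j) % N = t := emod_of_eq ht0 ht1 rfl
  have hy : t + N * j ∈ B := hj _ (ediv_of_eq ht0 ht1 rfl)
  have h3 := hB _ _ (res_emod hN0 hwx) _ hy (by
    rwa [tf_other (by rwa [e0]) (by rwa [e0])]) x hx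
  rw [tf_left rfl] at h3
  have e1 := Int.mul_ediv_add_emod w N
  have e2 := Int.mul_ediv_add_emod x N
  rw [hw] at e1
  have : x + (w % N - x % N) = w := by linarith
  rwa [this] at h3

theorem full_succ (hN : 3 ≤ N) (hm : 3 ≤ m) (hB : Inv N B) (hB' : Inv m B) {j : ℤ}
    (hnd : ¬ m ∣ N * (j + 1)) : (∀ w, w / N = j → w ∈ B) ↔ (∀ w, w / N = j + 1 → w ∈ B) := by
  have hm0 : 0 < m := by omega
  have hr0 := Int.emod_nonneg (N * (j + 1)) hm0.ne'
  have hr1 := Int.emod_lt_of_pos (N * (j + 1)) hm0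
  have hr2 : N * (j + 1) % m ≠ 0 := fun h => hnd (Int.dvd_of_emod_eq_zero h)
  have e := Int.mul_ediv_add_emod (N * (j + 1)) m
  set r := N * (j + 1) % m with hr
  set Q := N * (j + 1) / m with hQ
  have hR : Res m (r - 1) r := ⟨by omega, by omega, by omega, by omega, by omega⟩
  have p1 : (N * (j + 1) - 1) % m = r - 1 := emod_of_eq (q := Q) (by omega) (by omega) (by linarith)
  have d0 : (N * (j + 1)) / N = j + 1 := ediv_of_eq le_rfl (by omega) (by ring)
  have d1 : (N * (j + 1) - 1) / N = j :=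
    ediv_of_eq (a := N - 1) (by omega) (by omega) (by ring)
  constructor
  · intro hj w hw
    have hy1 : N * (j + 1) - 1 ∈ B := hj _ d1
    have hy2 : N * (j + 1) - 2 ∈ B := hj _ (ediv_of_eq (a := N - 2) (by omega) (by omega) (by ring))
    have h2 : tf m (r - 1) r (N * (j + 1) - 2) = N * (j + 1) - 2 := by
      by_cases hr1' : r = 1
      · have : (N * (j + 1) - 2) % m = m - 1 :=
          emod_of_eq (q := Q - 1) (by omega) (by omega) (by rw [mul_sub]; linarith)
        exact tf_other (by omega) (by omega)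
      · have : (N * (j + 1) - 2) % m = r - 2 :=
          emod_of_eq (q := Q) (by omega) (by omega) (by linarith)
        exact tf_other (by omega) (by omega)
    have h3 := hB' _ _ hR _ hy2 (by rwa [h2]) _ hy1
    rw [tf_left p1] at h3
    have h4 : N * (j + 1) - 1 + (r - (r - 1)) = N * (j + 1) := by ring
    rw [h4] at h3
    exact full_of_mem hN hB hj h3 w (by rw [hw, d0])
  · intro hj w hw
    have hy1 : N * (j + 1) ∈ B := hj _ d0
    have hy2 : N * (j + 1) + 1 ∈ B := hj _ (ediv_of_eq (a := 1) (by omega) (by omega) (by ring))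
    have h2 : tf m (r - 1) r (N * (j + 1) + 1) = N * (j + 1) + 1 := by
      by_cases hr1' : r = m - 1
      · have : (N * (j + 1) + 1) % m = 0 :=
          emod_of_eq (q := Q + 1) (by omega) (by omega) (by rw [mul_add]; linarith)
        exact tf_other (by omega) (by omega)
      · have : (N * (j + 1) + 1) % m = r + 1 :=
          emod_of_eq (q := Q) (by omega) (by omega) (by linarith)
        exact tf_other (by omega) (by omega)
    have h3 := hB' _ _ hR _ hy2 (by rwa [h2]) _ hy1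
    rw [tf_right (by omega) (show N * (j + 1) % m = r from rfl)] at h3
    have h4 : N * (j + 1) - (r - (r - 1)) = N * (j + 1) - 1 := by ring
    rw [h4] at h3
    exact full_of_mem hN hB hj h3 w (by rw [hw, d1])

theorem block_all (hN : 3 ≤ N) (hm : 3 ≤ m) (hmN : m ≤ N) (hB : Inv N B) (hB' : Inv m B)
    {q : ℤ} (hsub : ∀ z ∈ B, 0 ≤ z ∧ z < N * q)
    (hne : ∀ i, 0 < i → i < q → ¬ m ∣ N * i)
    {x y : ℤ} (hx : x ∈ B) (hy : y ∈ B) (hxy : x ≠ y) (z : ℤ) (hz0 : 0 ≤ z) (hz1 : z < N * q) :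
    z ∈ B := by
  have hN0 : 0 < N := by omega
  have hdiv : ∀ z, 0 ≤ z → z < N * q → 0 ≤ z / N ∧ z / N < q := by
    intro z h0 h1
    exact ⟨Int.ediv_nonneg h0 hN0.le, Int.ediv_lt_of_lt_mul hN0 (by rwa [mul_comm])⟩
  obtain ⟨a, ha, b, hb, hab, hab'⟩ := exists_same hN hm hmN hB hB' (by
    intro x hx y hy h1 h2
    by_contra hne'
    have hx' := hdiv x (hsub x hx).1 (hsub x hx).2
    have hy' := hdiv y (hsub y hy).1 (hsub y hy).2
    have e1 := Int.mul_ediv_add_emod x N
    have e2 := Int.mul_ediv_add_emod y N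
    have h3 : m ∣ y - x := Int.ModEq.dvd (n := m) h2
    have h4 : m ∣ x - y := Int.ModEq.dvd (n := m) h2.symm
    rcases lt_trichotomy (x / N) (y / N) with h | h | h
    · apply hne (y / N - x / N) (by omega) (by omega)
      rw [mul_sub]
      have : N * (y / N) - N * (x / N) = y - x := by rw [h1] at e1; linarith
      rwa [this]
    · exact hne' (eq_of_div_mod h h1)
    · apply hne (x / N - y / N) (by omega) (by omega)
      rw [mul_sub]
      have : N * (x / N) - N * (y / N) = x - y := by rw [h1] at e1; linarith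
      rwa [this]) hx hy hxy
  have hfull := same hN hB ha hb hab hab'
  have hj := hdiv a (hsub a ha).1 (hsub a ha).2
  have key : ∀ j : ℕ, (j : ℤ) < q → ((∀ w, w / N = 0 → w ∈ B) ↔ (∀ w, w / N = (j : ℤ) → w ∈ B)) := by
    intro j
    induction j with
    | zero => intro _; simp
    | succ j ih =>
      intro hj
      rw [ih (by push_cast at hj; omega)]
      push_cast
      exact full_succ hN hm hB hB' (hne _ (by omega) (by push_cast at hj; omega))
  have h0 : ∀ w, w / N = 0 → w ∈ B := by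
    obtain ⟨j, hj'⟩ := Int.eq_ofNat_of_zero_le hj.1
    rw [key j (by rw [← hj']; exact hj.2)]
    intro w hw
    exact hfull w (by rw [hw, hj'])
  have hz := hdiv z hz0 hz1
  obtain ⟨j, hj'⟩ := Int.eq_ofNat_of_zero_le hz.1
  exact (key j (by rw [← hj']; exact hz.2)).1 h0 z hj'

end block

section step

variable {L : ℤ} (hL : 0 < L) (G : Subgroup (Perm ℤ))

/-- the image of `G` in the symmetric group of `[0, L)` -/
def H : Subgroup (Perm (Set.Ico (0 : ℤ) L)) := (G.subgroupOf (P L)).map (res L hL)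

theorem mem_H {g : Perm ℤ} (hg : g ∈ G) (hP : g ∈ P L) : res L hL ⟨g, hP⟩ ∈ H hL G :=
  ⟨⟨g, hP⟩, hg, rfl⟩

theorem mem_of_H_top (h : H hL G = ⊤) {g : Perm ℤ} (hP : g ∈ P L) : g ∈ G := by
  have h1 : res L hL ⟨g, hP⟩ ∈ H hL G := by rw [h]; trivial
  obtain ⟨g', hg', h2⟩ := h1
  have := res_injective hL h2
  rw [this] at hg'
  exact hg'

theorem primitive {N m q : ℤ} (hN : 3 ≤ N) (hm : 3 ≤ m) (hmN : m ≤ N) (_hq : 0 < q)
    (hLq : L = N * q) (hmL : m ∣ L)
    (hne : ∀ i, 0 < i → i < q → ¬ m ∣ N * i)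
    (hTN : ∀ a b, Res N a b → T N a b ∈ G) (hTm : ∀ a b, Res m a b → T m a b ∈ G) :
    MulAction.IsPreprimitive (H hL G) (Set.Ico (0 : ℤ) L) := by
  have hPN : ∀ a b, T N a b ∈ P L := fun a b => P_le (by omega) ⟨q, hLq⟩ (T_mem_P a b)
  have hPm : ∀ a b, T m a b ∈ P L := fun a b => P_le (by omega) hmL (T_mem_P a b)
  have htr : ∀ x y : Set.Ico (0 : ℤ) L, ∃ h : H hL G, h • x = y := by
    intro x y
    let O : Set ℤ := {z | ∃ h : H hL G, ((h • x : Set.Ico (0 : ℤ) L) : ℤ) = z}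
    have inv : ∀ n, (∀ a b, T n a b ∈ P L) → (∀ a b, Res n a b → T n a b ∈ G) → Inv n O := by
      intro n hP hG u v hR _ _ _ z hz
      obtain ⟨h, rfl⟩ := hz
      refine ⟨⟨_, mem_H hL G (hG u v hR) (hP u v)⟩ * h, ?_⟩
      rw [← T_apply hR, mul_smul]
      rfl
    have hO1 : Inv N O := inv N hPN hTN
    have hx0 : (x : ℤ) ∈ O := ⟨1, by rw [one_smul]⟩
    obtain ⟨w, hw0, hw1, hwx, _⟩ := exists_third (u := (x : ℤ) % N) (v := (x : ℤ) % N) hN
    have hN0 : 0 < N := by omega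
    have hR : Res N ((x : ℤ) % N) w :=
      ⟨Int.emod_nonneg _ hN0.ne', Int.emod_lt_of_pos _ hN0, hw0, hw1, hwx.symm⟩
    have hx1 : tf N ((x : ℤ) % N) w x ∈ O := by
      refine ⟨⟨_, mem_H hL G (hTN _ _ hR) (hPN _ _)⟩, ?_⟩
      rw [← T_apply hR]
      rfl
    rw [tf_left rfl] at hx1
    obtain ⟨h, hh⟩ := block_all (q := q) hN hm hmN hO1 (inv m hPm hTm) (by
      rintro z ⟨h, rfl⟩
      rw [← hLq]
      exact ⟨(h • x).2.1, (h • x).2.2⟩) hne hx0 hx1 (by omega) y y.2.1 (by rw [← hLq]; exact y.2.2)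
    exact ⟨h, Subtype.ext hh⟩
  refine { exists_smul_eq := htr, isTrivialBlock_of_isBlock := ?_ }
  intro B hB
  by_cases hs : B.Subsingleton
  · exact Or.inl hs
  right
  rw [Set.not_subsingleton_iff] at hs
  obtain ⟨x, hx, y, hy, hxy⟩ := hs
  let B' : Set ℤ := Subtype.val '' B
  have inv : ∀ n, (∀ a b, T n a b ∈ P L) → (∀ a b, Res n a b → T n a b ∈ G) → Inv n B' := by
    rintro n hP hG u v hR _ ⟨b, hb, rfl⟩ hb' _ ⟨c, hc, rfl⟩
    let g : H hL G := ⟨_, mem_H hL G (hG u v hR) (hP u v)⟩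
    have hg : ∀ z : Set.Ico (0 : ℤ) L, ((g • z : Set.Ico (0 : ℤ) L) : ℤ) = tf n u v z := by
      intro z
      rw [← T_apply hR]
      rfl
    obtain ⟨d, hd, hd'⟩ := hb'
    have h1 : g • b = d := Subtype.ext (by rw [hg, hd'])
    have h2 : g • B = B := hB.smul_eq_of_mem hb (by rw [h1]; exact hd)
    have h3 : g • c ∈ B := by
      rw [← h2]
      exact Set.smul_mem_smul_set hc
    exact ⟨_, h3, hg c⟩
  ext z
  simp only [Set.mem_univ, iff_true]
  have := block_all (B := B') (q := q) hN hm hmN (inv N hPN hTN) (inv m hPm hTm) (by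
      rintro _ ⟨h, _, rfl⟩
      rw [← hLq]
      exact ⟨h.2.1, h.2.2⟩) hne ⟨x, hx, rfl⟩ ⟨y, hy, rfl⟩ (fun h => hxy (Subtype.ext h)) z z.2.1
      (by rw [← hLq]; exact z.2.2)
  obtain ⟨z', hz', hzz⟩ := this
  rw [← Subtype.ext hzz]
  exact hz'

theorem exists_threeCycle {N m : ℤ} (hN : 6 ≤ N) (hm : 4 ≤ m)
    (hNL : N ∣ L) (hmL : m ∣ L) (hlcm : ∀ x, N ∣ x → m ∣ x → L ∣ x)
    (hTN : ∀ a b, Res N a b → T N a b ∈ G) (hTm : ∀ a b, Res m a b → T m a b ∈ G) :
    ∃ g ∈ H hL G, g.IsThreeCycle := by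
  have hNL' : N ≤ L := Int.le_of_dvd hL hNL
  have hPN : ∀ a b, T N a b ∈ P L := fun a b => P_le (by omega) hNL (T_mem_P a b)
  have hPm : ∀ a b, T m a b ∈ P L := fun a b => P_le (by omega) hmL (T_mem_P a b)
  have hR1 : Res N 1 2 := ⟨by omega, by omega, by omega, by omega, by omega⟩
  have hR2 : Res N 3 4 := ⟨by omega, by omega, by omega, by omega, by omega⟩
  have hR3 : Res m 2 3 := ⟨by omega, by omega, by omega, by omega, by omega⟩
  set d := res L hL ⟨_, hPN 1 2⟩ with hd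
  set t := res L hL ⟨_, hPm 2 3⟩ with ht
  set f := res L hL ⟨_, hPN 3 4⟩ with hf
  have dH : d ∈ H hL G := mem_H hL G (hTN _ _ hR1) _
  have tH : t ∈ H hL G := mem_H hL G (hTm _ _ hR3) _
  have fH : f ∈ H hL G := mem_H hL G (hTN _ _ hR2) _
  have dv : ∀ z, ((d z : Set.Ico (0 : ℤ) L) : ℤ) = tf N 1 2 z := fun z => T_apply hR1 z
  have tv : ∀ z, ((t z : Set.Ico (0 : ℤ) L) : ℤ) = tf m 2 3 z := fun z => T_apply hR3 z
  have fv : ∀ z, ((f z : Set.Ico (0 : ℤ) L) : ℤ) = tf N 3 4 z := fun z => T_apply hR2 z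
  have cv : ∀ z : Set.Ico (0 : ℤ) L, (((d * t * d * t) z : Set.Ico (0 : ℤ) L) : ℤ) =
      tf N 1 2 (tf m 2 3 (tf N 1 2 (tf m 2 3 z))) := by
    intro z
    rw [mul_apply, mul_apply, mul_apply, dv, tv, dv, tv]
  have hcH : d * t * d * t ∈ H hL G := mul_mem (mul_mem (mul_mem dH tH) dH) tH
  refine ⟨_, mul_mem (mul_mem (mul_mem hcH fH) (inv_mem hcH)) (inv_mem fH),
    isThreeCycle_comm (d * t * d * t) f ⟨3, by omega, by omega⟩ ?_ ?_ ?_⟩
  · intro h
    have h1 := congrArg Subtype.val h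
    rw [cv] at h1
    have e1 : (3 : ℤ) % m = if m = 4 then 3 else 3 := by
      rw [Int.emod_eq_of_lt (by omega) (by omega)]; simp
    simp only [ite_self] at e1
    rw [tf_right (n := m) (by omega) e1] at h1
    have e2 : ((3 : ℤ) - (3 - 2)) % N = 2 := by
      rw [Int.emod_eq_of_lt (by omega) (by omega)]; norm_num
    rw [tf_right (n := N) (by omega) e2] at h1
    have e3 : ((3 : ℤ) - (3 - 2) - (2 - 1)) % m = 1 := by
      rw [Int.emod_eq_of_lt (by omega) (by omega)]; norm_num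
    rw [tf_other (n := m) (by omega) (by omega)] at h1
    have e4 : ((3 : ℤ) - (3 - 2) - (2 - 1)) % N = 1 := by
      rw [Int.emod_eq_of_lt (by omega) (by omega)]; norm_num
    rw [tf_left (n := N) e4] at h1
    norm_num at h1
  · intro h
    have h1 := congrArg Subtype.val h
    rw [fv] at h1
    have e1 : (3 : ℤ) % N = 3 := Int.emod_eq_of_lt (by omega) (by omega)
    rw [tf_left (n := N) e1] at h1
    simp only at h1
    omega
  · intro y hy
    have hy' : (y : ℤ) ≠ 3 := fun h => hy (Subtype.ext h)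
    have eN := Int.mul_ediv_add_emod (y : ℤ) N
    have em := Int.mul_ediv_add_emod (y : ℤ) m
    by_cases h3 : (y : ℤ) % N = 3
    · left
      apply Subtype.ext
      rw [cv]
      have hd0 : tf N 1 2 y = y := tf_other (by omega) (by omega)
      by_cases h4 : (y : ℤ) % m = 2
      · have e1 : ((y : ℤ) + (3 - 2)) % N = 4 :=
          emod_of_eq (q := (y : ℤ) / N) (by omega) (by omega) (by rw [h3] at eN; linarith)
        have e2 : ((y : ℤ) + (3 - 2)) % m = 3 :=
          emod_of_eq (q := (y : ℤ) / m) (by omega) (by omega) (by rw [h4] at em; linarith)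
        have e3 : tf N 1 2 ((y : ℤ) + (3 - 2)) = (y : ℤ) + (3 - 2) :=
          tf_other (by omega) (by omega)
        rw [tf_left (n := m) h4, e3, tf_right (n := m) (by omega) e2]
        rw [show (y : ℤ) + (3 - 2) - (3 - 2) = y by ring, hd0]
      · by_cases h5 : (y : ℤ) % m = 3
        · exfalso
          have h6 : N ∣ (y : ℤ) - 3 := ⟨(y : ℤ) / N, by rw [h3] at eN; linarith⟩
          have h7 : m ∣ (y : ℤ) - 3 := ⟨(y : ℤ) / m, by rw [h5] at em; linarith⟩
          obtain ⟨c, hc⟩ := hlcm _ h6 h7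
          have hy0 := y.2.1
          have hy1 := y.2.2
          have h8 : L * c < L := by rw [← hc]; omega
          have h9 : -L < L * c := by rw [← hc]; omega
          have h10 : c < 1 := by nlinarith
          have h11 : -1 < c := by nlinarith
          have h12 : c = 0 := by omega
          rw [h12, mul_zero] at hc
          omega
        · rw [tf_other (n := m) h4 h5, hd0, tf_other (n := m) h4 h5, hd0]
    · by_cases h3' : (y : ℤ) % N = 4
      · left
        apply Subtype.ext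
        rw [cv]
        have hd0 : tf N 1 2 y = y := tf_other (by omega) (by omega)
        by_cases h4 : (y : ℤ) % m = 2
        · have e1 : ((y : ℤ) + (3 - 2)) % N = 5 :=
            emod_of_eq (q := (y : ℤ) / N) (by omega) (by omega) (by rw [h3'] at eN; linarith)
          have e2 : ((y : ℤ) + (3 - 2)) % m = 3 :=
            emod_of_eq (q := (y : ℤ) / m) (by omega) (by omega) (by rw [h4] at em; linarith)
          have e3 : tf N 1 2 ((y : ℤ) + (3 - 2)) = (y : ℤ) + (3 - 2) :=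
            tf_other (by omega) (by omega)
          rw [tf_left (n := m) h4, e3, tf_right (n := m) (by omega) e2]
          rw [show (y : ℤ) + (3 - 2) - (3 - 2) = y by ring, hd0]
        · by_cases h5 : (y : ℤ) % m = 3
          · have e1 : ((y : ℤ) - (3 - 2)) % N = 3 :=
              emod_of_eq (q := (y : ℤ) / N) (by omega) (by omega) (by rw [h3'] at eN; linarith)
            have e2 : ((y : ℤ) - (3 - 2)) % m = 2 :=
              emod_of_eq (q := (y : ℤ) / m) (by omega) (by omega) (by rw [h5] at em; linarith)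
            have e3 : tf N 1 2 ((y : ℤ) - (3 - 2)) = (y : ℤ) - (3 - 2) :=
              tf_other (by omega) (by omega)
            rw [tf_right (n := m) (by omega) h5, e3, tf_left (n := m) e2]
            rw [show (y : ℤ) - (3 - 2) + (3 - 2) = y by ring, hd0]
          · rw [tf_other (n := m) h4 h5, hd0, tf_other (n := m) h4 h5, hd0]
      · right
        apply Subtype.ext
        rw [fv, tf_other h3 h3']

theorem res_T_eq_swap {n a b : ℤ} (hn : 0 < n) (hR : Res n a b) :
    res n hn ⟨_, T_mem_P a b⟩ = swap ⟨a, hR.1, hR.2.1⟩ ⟨b, hR.2.2.1, hR.2.2.2.1⟩ := by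
  ext z
  have h0 : ((res n hn ⟨_, T_mem_P a b⟩ z : Set.Ico (0 : ℤ) n) : ℤ) = tf n a b z := T_apply hR z
  have hz : (z : ℤ) % n = z := Int.emod_eq_of_lt z.2.1 z.2.2
  rw [h0]
  by_cases h1 : (z : ℤ) = a
  · have h2 : z = ⟨a, hR.1, hR.2.1⟩ := Subtype.ext h1
    rw [tf_left (hz.trans h1), h2, swap_apply_left]
    simp
  · by_cases h2 : (z : ℤ) = b
    · have h3 : z = ⟨b, hR.2.2.1, hR.2.2.2.1⟩ := Subtype.ext h2
      rw [tf_right hR.2.2.2.2 (hz.trans h2), h3, swap_apply_right]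
      simp
    · rw [tf_other (by rwa [hz]) (by rwa [hz]), swap_apply_of_ne_of_ne]
      · exact fun h => h1 (congrArg Subtype.val h)
      · exact fun h => h2 (congrArg Subtype.val h)

/-- `[0, n c)` as a product -/
def prodE {n : ℤ} (hn : 0 < n) (c : ℕ) (hc : L = n * c) :
    Fin c × Set.Ico (0 : ℤ) n ≃ Set.Ico (0 : ℤ) L where
  toFun p := ⟨p.2 + n * p.1, by
    have h1 := p.2.2.1
    have h2 : (0 : ℤ) ≤ n * p.1 := by positivity
    omega, by
    have h1 := p.2.2.2
    have h2 : ((p.1 : ℕ) : ℤ) + 1 ≤ c := by have := p.1.2; omega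
    have h3 : n * (((p.1 : ℕ) : ℤ) + 1) ≤ n * c := by nlinarith
    rw [hc]; linarith⟩
  invFun z := (⟨((z : ℤ) / n).toNat, by
    have h1 : (z : ℤ) / n < c := Int.ediv_lt_of_lt_mul hn (by rw [mul_comm, ← hc]; exact z.2.2)
    have h2 : 0 ≤ (z : ℤ) / n := Int.ediv_nonneg z.2.1 hn.le
    omega⟩, ⟨(z : ℤ) % n, Int.emod_nonneg _ hn.ne', Int.emod_lt_of_pos _ hn⟩)
  left_inv p := by
    have e1 : ((p.2 : ℤ) + n * ((p.1 : ℕ) : ℤ)) / n = ((p.1 : ℕ) : ℤ) :=
      ediv_of_eq p.2.2.1 p.2.2.2 rfl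
    have e2 : ((p.2 : ℤ) + n * ((p.1 : ℕ) : ℤ)) % n = p.2 :=
      emod_of_eq p.2.2.1 p.2.2.2 rfl
    refine Prod.ext (Fin.ext ?_) (Subtype.ext e2)
    simp only [e1, Int.toNat_natCast]
  right_inv z := by
    apply Subtype.ext
    have h2 : 0 ≤ (z : ℤ) / n := Int.ediv_nonneg z.2.1 hn.le
    simp only [Int.toNat_of_nonneg h2]
    exact Int.emod_add_mul_ediv _ _

theorem sign_res_T {n a b : ℤ} (hR : Res n a b) (c : ℕ) (hc : L = n * c)
    (hP : T n a b ∈ P L) : sign (res L hL ⟨_, hP⟩) = (-1) ^ c := by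
  have hn : 0 < n := lt_of_le_of_lt hR.1 hR.2.1
  have h1 := sign_eq_sign_of_equiv
    (prodCongrRight fun _ : Fin c => res n hn ⟨_, T_mem_P a b⟩) (res L hL ⟨_, hP⟩)
    (prodE hL hn c hc) (by
      rintro ⟨j, x⟩
      apply Subtype.ext
      change ((res n hn ⟨_, T_mem_P a b⟩ x : Set.Ico (0 : ℤ) n) : ℤ) + n * ((j : ℕ) : ℤ) =
        T n a b (x + n * ((j : ℕ) : ℤ))
      rw [P_add_mul (T_mem_P a b)]
      rfl)
  rw [← h1, sign_prodCongrRight, res_T_eq_swap hn hR, sign_swap (fun h => hR.2.2.2.2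
    (congrArg Subtype.val h)), Finset.prod_const, Finset.card_univ, Fintype.card_fin]

theorem top_of_threeCycle {N m : ℤ} (hN : 3 ≤ N) (hm : 3 ≤ m) (hmN : m ≤ N)
    (hNL : N ∣ L) (hmL : m ∣ L) (hlcm : ∀ x, N ∣ x → m ∣ x → L ∣ x)
    (hTN : ∀ a b, Res N a b → T N a b ∈ G) (hTm : ∀ a b, Res m a b → T m a b ∈ G)
    (h3 : ∃ g ∈ H hL G, g.IsThreeCycle) : H hL G = ⊤ := by
  obtain ⟨q, hq⟩ := hNL
  have hq0 : 0 < q := by
    by_contra h
    have : N * q ≤ 0 := mul_nonpos_of_nonneg_of_nonpos (by omega) (by omega)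
    omega
  have hprim : MulAction.IsPreprimitive (H hL G) (Set.Ico (0 : ℤ) L) := by
    refine primitive hL G hN hm hmN hq0 hq hmL ?_ hTN hTm
    intro i hi hiq hdv
    obtain ⟨c, hc⟩ := hlcm (N * i) ⟨i, rfl⟩ hdv
    rw [hq, mul_assoc] at hc
    have h1 : i = q * c := mul_left_cancel₀ (by omega) hc
    have h2 : 0 < c := by
      by_contra h
      have : q * c ≤ 0 := mul_nonpos_of_nonneg_of_nonpos (by omega) (by omega)
      omega
    nlinarith
  obtain ⟨g, hg, hg3⟩ := h3
  have hA := alternatingGroup_le_of_isPreprimitive_of_isThreeCycle_mem hprim hg3 hg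
  -- an odd element
  have hodd : ∃ g ∈ H hL G, sign g = -1 := by
    obtain ⟨q', hq'⟩ := Int.eq_ofNat_of_zero_le hq0.le
    obtain ⟨c, hc⟩ := hmL
    have hc0 : 0 < c := by
      by_contra h
      have : m * c ≤ 0 := mul_nonpos_of_nonneg_of_nonpos (by omega) (by omega)
      omega
    obtain ⟨c', hc'⟩ := Int.eq_ofNat_of_zero_le hc0.le
    have hPN : ∀ a b, T N a b ∈ P L := fun a b => P_le (by omega) ⟨q, hq⟩ (T_mem_P a b)
    have hPm : ∀ a b, T m a b ∈ P L := fun a b => P_le (by omega) ⟨c, hc⟩ (T_mem_P a b)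
    have hR1 : Res N 0 1 := ⟨by omega, by omega, by omega, by omega, by omega⟩
    have hR2 : Res m 0 1 := ⟨by omega, by omega, by omega, by omega, by omega⟩
    rcases Nat.even_or_odd q' with h1 | h1
    · rcases Nat.even_or_odd c' with h2 | h2
      · exfalso
        obtain ⟨u, hu⟩ := h1
        obtain ⟨v, hv⟩ := h2
        have e1 : q = u + u := by rw [hq', hu]; push_cast; ring
        have e2 : c = v + v := by rw [hc', hv]; push_cast; ring
        have e3 : N * (u : ℤ) = m * v := by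
          have : N * (u + u) = m * ((v : ℤ) + v) := by rw [← e1, ← e2, ← hq, ← hc]
          linarith
        obtain ⟨w, hw⟩ := hlcm (N * u) ⟨u, rfl⟩ ⟨v, e3⟩
        have e4 : L = N * (u : ℤ) + N * u := by rw [hq, e1]; ring
        have e5 : L = 2 * (L * w) := by rw [← hw]; linarith
        have e6 : L * (1 - 2 * w) = 0 := by linarith
        rcases mul_eq_zero.1 e6 with h | h
        · omega
        · omega
      · exact ⟨_, mem_H hL G (hTm _ _ hR2) (hPm _ _), by
          rw [sign_res_T hL hR2 c' (by rw [hc, hc']), h2.neg_one_pow]⟩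
    · exact ⟨_, mem_H hL G (hTN _ _ hR1) (hPN _ _), by
        rw [sign_res_T hL hR1 q' (by rw [hq, hq']), h1.neg_one_pow]⟩
  obtain ⟨h, hh, hs⟩ := hodd
  rw [eq_top_iff]
  intro x _
  rcases Int.units_eq_one_or (sign x) with hx | hx
  · exact hA (mem_alternatingGroup.2 hx)
  · have h1 : x * h⁻¹ ∈ alternatingGroup (Set.Ico (0 : ℤ) L) := by
      rw [mem_alternatingGroup, map_mul, map_inv, hx, hs]
      rfl
    have h2 := mul_mem (hA h1) hh
    rwa [inv_mul_cancel_right] at h2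

end step

end V1130.ClassTransp
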