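import Mathlib
import Pool.Agent.V1130.ThreeCol

/-!
Two-colourings of affine spaces over prime fields: commuting maps of odd order.
-/

namespace V1130.TwoCol

open Equiv

/-- a map with an odd power equal to the identity -/
def OddMap {X : Type} (F : X → X) : Prop := ∃ n, Odd n ∧ ∀ x, F^[n] x = x

theorem OddMap.bijective {X : Type} {F : X → X} (h : OddMap F) : Function.Bijective F := by
  obtain ⟨n, hn, hF⟩ := h
  obtain ⟨m, rfl⟩ := hn
  constructor
  · intro x y hxy
    have h1 : F^[2 * m + 1] x = F^[2 * m + 1] y := by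
      rw [Function.iterate_add_apply, Function.iterate_add_apply, Function.iterate_one, hxy]
    rwa [hF, hF] at h1
  · intro y
    refine ⟨F^[2 * m] y, ?_⟩
    have h1 := hF y
    rwa [add_comm, Function.iterate_add_apply, Function.iterate_one] at h1

theorem perm_small : ∀ k : ℕ, k ≤ 3 → ∀ σ τ : Perm (Fin k), Perm.sign σ = 1 → Perm.sign τ = 1 →
    σ * τ = τ * σ := by
  intro k hk
  interval_cases k <;> decide

theorem sign_odd {k : ℕ} (σ : Perm (Fin k)) (n : ℕ) (hn : Odd n) (h : σ ^ n = 1) :
    Perm.sign σ = 1 := by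
  have h1 : Perm.sign σ ^ n = 1 := by rw [← map_pow, h, map_one]
  rcases Int.units_eq_one_or (Perm.sign σ) with h2 | h2
  · exact h2
  · rw [h2, hn.neg_one_pow] at h1
    exact absurd h1 (by decide)

/-- maps of odd order which preserve a set with at most three elements commute on it -/
theorem small_comm {X : Type} {A : Set X} (hfin : A.Finite) (hA : A.ncard ≤ 3) {F G : X → X}
    (hF : OddMap F) (hG : OddMap G) (hFA : Set.MapsTo F A A) (hGA : Set.MapsTo G A A) :
    ∀ x ∈ A, F (G x) = G (F x) := by
  have _ : Finite A := hfin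
  have _ := Fintype.ofFinite A
  let e : A ≃ Fin (Fintype.card A) := Fintype.equivFin A
  have hk : Fintype.card A ≤ 3 := by
    rw [← Nat.card_eq_fintype_card]; exact hA
  have key : ∀ F : X → X, OddMap F → Set.MapsTo F A A → ∃ σ : Perm (Fin (Fintype.card A)),
      Perm.sign σ = 1 ∧ ∀ x : A, F x = e.symm (σ (e x)) := by
    intro F hF hFA
    let f : A → A := fun x => ⟨F x, hFA x.2⟩
    have hf : Function.Bijective f := by
      rw [← Finite.injective_iff_bijective]
      intro x y hxy
      exact Subtype.ext (hF.bijective.1 (congrArg Subtype.val hxy))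
    let τ : Perm A := Equiv.ofBijective f hf
    refine ⟨e.permCongr τ, ?_, ?_⟩
    · obtain ⟨n, hn, hFn⟩ := hF
      refine sign_odd _ n hn ?_
      have h1 : ∀ m : ℕ, ∀ x : A, (((τ ^ m) x : A) : X) = F^[m] x := by
        intro m
        induction m with
        | zero => intro x; rfl
        | succ m ih =>
          intro x
          rw [pow_succ', Function.iterate_succ_apply', ← ih]
          rfl
      have h2 : τ ^ n = 1 := by
        ext x
        rw [h1, hFn]
        rfl
      have h3 : (e.permCongr τ) ^ n = e.permCongrHom (τ ^ n) := by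
        rw [map_pow]; rfl
      rw [h3, h2, map_one]
    · intro x
      have : e.symm ((e.permCongr τ) (e x)) = τ x := by simp
      rw [this]
      rfl
  obtain ⟨σ, hσ, hσ'⟩ := key F hF hFA
  obtain ⟨τ, hτ, hτ'⟩ := key G hG hGA
  intro x hx
  have h1 := hτ' ⟨x, hx⟩
  have h2 := hσ' ⟨x, hx⟩
  simp only at h1 h2
  rw [h1, h2, hσ', hτ', e.apply_symm_apply, e.apply_symm_apply]
  have := congrArg (fun π : Perm (Fin (Fintype.card A)) => (e.symm (π (e ⟨x, hx⟩)) : X))
    (perm_small _ hk σ τ hσ hτ)
  exact this

theorem iter_image {X : Type} {F : X → X} {C : Set X} (h : F '' (F '' C) = C) (m : ℕ) :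
    F^[2 * m] '' C = C := by
  induction m with
  | zero => simp
  | succ m ih =>
    rw [mul_add, mul_one, Function.iterate_add, Set.image_comp, Function.iterate_succ,
      Function.iterate_one, Set.image_comp, h, ih]

/-- a map of odd order which permutes the sets of a chain fixes them -/
theorem chain_fix {X : Type} {F : X → X} (hF : OddMap F) {t : ℕ} (C : ℕ → Set X)
    (hC : ∀ a < t, ∃ a' < t, F '' C a = C a')
    (hinj : ∀ a < t, ∀ b < t, C a = C b → a = b)
    (hne : ∀ a, a + 1 < t → (C a ∩ C (a + 1)).Nonempty)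
    (hadj : ∀ a < t, ∀ b < t, (C a ∩ C b).Nonempty → a ≤ b + 1 ∧ b ≤ a + 1) :
    ∀ a < t, F '' C a = C a := by
  have h' : ∀ a, ∃ a', a < t → (a' < t ∧ F '' C a = C a') := by
    intro a
    by_cases ha : a < t
    · obtain ⟨a', h1⟩ := hC a ha
      exact ⟨a', fun _ => h1⟩
    · exact ⟨0, fun h1 => absurd h1 ha⟩
  choose f hf using h'
  have hFi := hF.bijective.1
  have hff : ∀ a ≤ t - 1, a < t → f (f a) = a := by
    intro a ha hat
    refine ThreeCol.path_lemma f (t - 1) ?_ ?_ ?_ a ha
    · intro a ha
      have := (hf a (by omega)).1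
      omega
    · intro a ha b hb hab
      refine hinj a (by omega) b (by omega) ?_
      apply hFi.image_injective
      rw [(hf a (by omega)).2, (hf b (by omega)).2, hab]
    · intro a ha
      obtain ⟨x, hx1, hx2⟩ := hne a (by omega)
      have h1 := hadj (f a) (hf a (by omega)).1 (f (a + 1)) (hf (a + 1) (by omega)).1
        ⟨F x, by rw [← (hf a (by omega)).2]; exact ⟨x, hx1, rfl⟩,
          by rw [← (hf (a + 1) (by omega)).2]; exact ⟨x, hx2, rfl⟩⟩
      have h2 : f a ≠ f (a + 1) := by
        intro h
        have h3 : C a = C (a + 1) := by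
          apply hFi.image_injective
          rw [(hf a (by omega)).2, (hf (a + 1) (by omega)).2, h]
        have := hinj a (by omega) (a + 1) (by omega) h3
        omega
      omega
  intro a ha
  have h2 : F '' (F '' C a) = C a := by
    rw [(hf a ha).2, (hf (f a) (hf a ha).1).2, hff a (by omega) ha]
  obtain ⟨n, hn, hFn⟩ := hF
  obtain ⟨m, rfl⟩ := hn
  have h3 : F^[2 * m + 1] '' C a = C a := by
    have : F^[2 * m + 1] = id := by
      funext x; exact hFn x
    rw [this, Set.image_id]
  rw [Function.iterate_succ', Set.image_comp, iter_image h2] at h3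
  exact h3

section rel

variable {k V : Type} [Field k] [AddCommGroup V] [Module k V] [Fintype V]

/-- `C` is the support of an affine relation -/
def Rel (k : Type) {V : Type} [Field k] [AddCommGroup V] [Module k V] [Fintype V]
    (C : Set V) : Prop :=
  ∃ W : V → k, (∀ v, W v ≠ 0 ↔ v ∈ C) ∧ ∑ v, W v = 0 ∧ ∑ v, W v • v = 0

theorem rel_sum {k V U : Type} [Field k] [AddCommGroup V] [Module k V] [Fintype V]
    [AddCommGroup U] [Module k U] (W : V → k) (h1 : ∑ v, W v = 0) (h2 : ∑ v, W v • v = 0)
    (F : V →ᵃ[k] U) : ∑ v, W v • F v = 0 := by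
  have h3 : ∀ v, F v = F.linear v + F 0 := by
    intro v
    have := F.map_vadd 0 v
    simpa using this
  have h4 : ∑ v, W v • F v = F.linear (∑ v, W v • v) + (∑ v, W v) • F 0 := by
    rw [map_sum, Finset.sum_smul, ← Finset.sum_add_distrib]
    apply Finset.sum_congr rfl
    intro v _
    rw [h3, smul_add, map_smul]
  rw [h4, h1, h2, map_zero, zero_smul, add_zero]

theorem rel_image {C : Set V} (h : Rel k C) (F : V →ᵃ[k] V) (hF : Function.Bijective F) :
    Rel k (F '' C) := by
  obtain ⟨W, h0, h1, h2⟩ := h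
  let e : V ≃ V := Equiv.ofBijective F hF
  have he : ∀ v, e v = F v := fun _ => rfl
  refine ⟨fun v => W (e.symm v), ?_, ?_, ?_⟩
  · intro v
    rw [h0]
    constructor
    · intro h
      exact ⟨e.symm v, h, by rw [← he, e.apply_symm_apply]⟩
    · rintro ⟨u, hu, rfl⟩
      rw [← he, e.symm_apply_apply]
      exact hu
  · rw [Equiv.sum_comp e.symm W, h1]
  · rw [← Equiv.sum_comp e (fun v => W (e.symm v) • v)]
    simp only [e.symm_apply_apply]
    exact rel_sum W h1 h2 F

theorem rel_star {C : Set V} (h : Rel k C) (f : V →ᵃ[k] k) {v : V} (hv : v ∈ C)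
    (hf : f v ≠ 0) : ∃ v' ∈ C, v' ≠ v ∧ f v' ≠ 0 := by
  classical
  obtain ⟨W, h0, h1, h2⟩ := h
  by_contra hcon
  push Not at hcon
  have h3 := rel_sum W h1 h2 f
  rw [Finset.sum_eq_single v] at h3
  · rw [smul_eq_mul] at h3
    exact mul_ne_zero ((h0 v).2 hv) hf h3
  · intro u _ hu
    by_cases huC : u ∈ C
    · rw [hcon u huC hu, smul_zero]
    · have : W u = 0 := by
        by_contra h4
        exact huC ((h0 u).1 h4)
      rw [this, zero_smul]
  · intro h4
    exact absurd (Finset.mem_univ v) h4

end rel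

end V1130.TwoCol
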