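import Mathlib
import Pool.Agent.V1130.TwoCol

/-!
Chains of circuits in affine spaces and the sets formed by them.
-/

namespace V1130.TwoCol

open Equiv

section chain

variable {k V : Type} [Field k] [AddCommGroup V] [Module k V]

/-- the circuit with apex `z a` -/
def CC {n : ℕ} (b : AffineBasis (Fin n) k V) (z : ℕ → V) (r a : ℕ) : Set V :=
  insert (z a) (b '' {i : Fin n | r * a ≤ (i : ℕ) ∧ (i : ℕ) ≤ r * a + r})

/-- the set formed by the basis and the apices -/
def SS {n : ℕ} (b : AffineBasis (Fin n) k V) (z : ℕ → V) (t : ℕ) : Set V :=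
  Set.range b ∪ z '' {a | a < t}

variable {n r t : ℕ} (b : AffineBasis (Fin n) k V) (z : ℕ → V)

/-- hypotheses on the apices -/
structure Apex {n : ℕ} (b : AffineBasis (Fin n) k V) (z : ℕ → V) (r t : ℕ) : Prop where
  hr : 1 ≤ r
  hn : r * t < n
  hz : ∀ a < t, ∀ i : Fin n, b.coord i (z a) ≠ 0 ↔ (r * a ≤ (i : ℕ) ∧ (i : ℕ) ≤ r * a + r)

variable {b z}

theorem coord_b_ne (b : AffineBasis (Fin n) k V) (i j : Fin n) : b.coord i (b j) ≠ 0 ↔ i = j := by
  rw [AffineBasis.coord_apply]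
  by_cases h : i = j
  · simp [h]
  · simp [h]

theorem Apex.lt (h : Apex b z r t) {a : ℕ} (ha : a < t) : r * a + r < n := by
  have h1 : r * (a + 1) ≤ r * t := Nat.mul_le_mul_left r ha
  have := h.hn
  rw [mul_add, mul_one] at h1
  omega

theorem Apex.z_ne_b (h : Apex b z r t) {a : ℕ} (ha : a < t) (j : Fin n) : z a ≠ b j := by
  intro hj
  have h0 := h.lt ha
  have hr := h.hr
  have h1 := (h.hz a ha ⟨r * a, by omega⟩).2 ⟨le_rfl, by simp⟩
  have h2 := (h.hz a ha ⟨r * a + 1, by omega⟩).2 ⟨by simp, by simp; omega⟩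
  rw [hj, coord_b_ne] at h1 h2
  have := congrArg Fin.val (h1.trans h2.symm)
  simp at this

theorem Apex.z_inj (h : Apex b z r t) {a a' : ℕ} (ha : a < t) (ha' : a' < t)
    (e : z a = z a') : a = a' := by
  have h0 := h.lt ha
  have h0' := h.lt ha'
  have hr := h.hr
  have h1 := (h.hz a ha ⟨r * a, by omega⟩).2 ⟨le_rfl, by simp⟩
  have h2 := (h.hz a' ha' ⟨r * a', by omega⟩).2 ⟨le_rfl, by simp⟩
  rw [e, h.hz a' ha'] at h1
  rw [← e, h.hz a ha] at h2
  simp only at h1 h2
  exact Nat.eq_of_mul_eq_mul_left hr (le_antisymm h2.1 h1.1)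

theorem icc_ncard {n l u : ℕ} (hu : u < n) :
    ({i : Fin n | l ≤ (i : ℕ) ∧ (i : ℕ) ≤ u} : Set (Fin n)).ncard = u + 1 - l := by
  by_cases hl : l < n
  · have h1 : ({i : Fin n | l ≤ (i : ℕ) ∧ (i : ℕ) ≤ u} : Set (Fin n)) =
        ↑(Finset.Icc (⟨l, hl⟩ : Fin n) ⟨u, hu⟩) := by
      ext i
      simp [Fin.le_def]
    rw [h1, Set.ncard_coe_finset, Fin.card_Icc]
  · have h1 : ({i : Fin n | l ≤ (i : ℕ) ∧ (i : ℕ) ≤ u} : Set (Fin n)) = ∅ := by
      ext i
      simp
      omega
    rw [h1, Set.ncard_empty]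
    omega

theorem Apex.mem_CC {a : ℕ} {v : V} : v ∈ CC b z r a ↔ v = z a ∨
    ∃ i : Fin n, r * a ≤ (i : ℕ) ∧ (i : ℕ) ≤ r * a + r ∧ v = b i := by
  simp only [CC, Set.mem_insert_iff, Set.mem_image, Set.mem_ofPred_eq]
  constructor
  · rintro (h | ⟨i, h, rfl⟩)
    · exact Or.inl h
    · exact Or.inr ⟨i, h.1, h.2, rfl⟩
  · rintro (h | ⟨i, h1, h2, rfl⟩)
    · exact Or.inl h
    · exact Or.inr ⟨i, ⟨h1, h2⟩, rfl⟩

theorem mem_SS {v : V} : v ∈ SS b z t ↔ (∃ i, v = b i) ∨ ∃ a < t, v = z a := by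
  simp only [SS, Set.mem_union, Set.mem_range, Set.mem_image, Set.mem_ofPred_eq]
  constructor
  · rintro (⟨i, rfl⟩ | ⟨a, ha, rfl⟩)
    · exact Or.inl ⟨i, rfl⟩
    · exact Or.inr ⟨a, ha, rfl⟩
  · rintro (⟨i, rfl⟩ | ⟨a, ha, rfl⟩)
    · exact Or.inl ⟨i, rfl⟩
    · exact Or.inr ⟨a, ha, rfl⟩

theorem Apex.ncard_CC (h : Apex b z r t) {a : ℕ} (ha : a < t) : (CC b z r a).ncard = r + 2 := by
  have h0 := h.lt ha
  rw [CC, Set.ncard_insert_of_notMem, Set.ncard_image_of_injective _ b.ind.injective,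
    icc_ncard (by omega)]
  · omega
  · rintro ⟨i, _, hi⟩
    exact h.z_ne_b ha i hi.symm

theorem Apex.ncard_SS (h : Apex b z r t) : (SS b z t).ncard = n + t := by
  rw [SS, Set.ncard_union_eq]
  · congr 1
    · rw [← Set.image_univ, Set.ncard_image_of_injective _ b.ind.injective, Set.ncard_univ,
        Nat.card_fin]
    · rw [Set.InjOn.ncard_image]
      · have : {a : ℕ | a < t} = ↑(Finset.range t) := by ext; simp
        rw [this, Set.ncard_coe_finset, Finset.card_range]
      · intro a ha a' ha' e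
        exact h.z_inj ha ha' e
  · rw [Set.disjoint_left]
    rintro _ ⟨i, rfl⟩ ⟨a, ha, e⟩
    exact h.z_ne_b ha i e

theorem Apex.CC_sub (_h : Apex b z r t) {a : ℕ} (ha : a < t) : CC b z r a ⊆ SS b z t := by
  intro v hv
  rw [Apex.mem_CC] at hv
  rw [mem_SS]
  rcases hv with hv | ⟨i, _, _, hv⟩
  · exact Or.inr ⟨a, ha, hv⟩
  · exact Or.inl ⟨i, hv⟩

theorem Apex.CC_inj (h : Apex b z r t) {a a' : ℕ} (ha : a < t) (ha' : a' < t)
    (e : CC b z r a = CC b z r a') : a = a' := by
  have h1 : z a ∈ CC b z r a' := by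
    rw [← e, Apex.mem_CC]; exact Or.inl rfl
  rw [Apex.mem_CC] at h1
  rcases h1 with h1 | ⟨i, _, _, h1⟩
  · exact h.z_inj ha ha' h1
  · exact absurd h1 (h.z_ne_b ha i)

/-- common elements of two circuits -/
theorem Apex.inter (h : Apex b z r t) {a a' : ℕ} (ha : a < t) (ha' : a' < t) (hne : a ≠ a')
    {v : V} (hv : v ∈ CC b z r a) (hv' : v ∈ CC b z r a') :
    ∃ i : Fin n, v = b i ∧ r * a ≤ (i : ℕ) ∧ (i : ℕ) ≤ r * a + r ∧
      r * a' ≤ (i : ℕ) ∧ (i : ℕ) ≤ r * a' + r := by
  rw [Apex.mem_CC] at hv hv'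
  rcases hv with hv | ⟨i, hi1, hi2, hv⟩
  · rcases hv' with hv' | ⟨i', _, _, hv'⟩
    · exact absurd (h.z_inj ha ha' (hv.symm.trans hv')) hne
    · exact absurd (hv.symm.trans hv') (h.z_ne_b ha i')
  · rcases hv' with hv' | ⟨i', h1', h2', hv'⟩
    · exact absurd (hv'.symm.trans hv) (h.z_ne_b ha' i)
    · have : i = i' := b.ind.injective (hv.symm.trans hv')
      subst this
      exact ⟨i, hv, hi1, hi2, h1', h2'⟩

theorem Apex.adj (h : Apex b z r t) {a a' : ℕ} (ha : a < t) (ha' : a' < t)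
    (hne : (CC b z r a ∩ CC b z r a').Nonempty) : a ≤ a' + 1 ∧ a' ≤ a + 1 := by
  by_cases haa : a = a'
  · omega
  obtain ⟨v, hv, hv'⟩ := hne
  obtain ⟨i, _, h1, h2, h3, h4⟩ := h.inter ha ha' haa hv hv'
  have hr := h.hr
  constructor
  · have : r * a ≤ r * (a' + 1) := by rw [mul_add, mul_one]; omega
    exact Nat.le_of_mul_le_mul_left this hr
  · have : r * a' ≤ r * (a + 1) := by rw [mul_add, mul_one]; omega
    exact Nat.le_of_mul_le_mul_left this hr

theorem Apex.rel_CC [Fintype V] (h : Apex b z r t) {a : ℕ} (ha : a < t) :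
    Rel k (CC b z r a) := by
  classical
  refine ⟨fun v => (∑ i, if b i = v then b.coord i (z a) else 0) - (if z a = v then 1 else 0),
    ?_, ?_, ?_⟩
  · intro v
    by_cases hv : z a = v
    · subst hv
      have h1 : (∑ i, if b i = z a then b.coord i (z a) else 0) = 0 := by
        apply Finset.sum_eq_zero
        intro i _
        rw [if_neg (fun e => h.z_ne_b ha i e.symm)]
      simp only [h1, if_true, zero_sub]
      constructor
      · intro _
        rw [Apex.mem_CC]; exact Or.inl rfl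
      · intro _
        simp
    · simp only [if_neg hv, sub_zero]
      by_cases hb : ∃ j, b j = v
      · obtain ⟨j, rfl⟩ := hb
        have h1 : (∑ i, if b i = b j then b.coord i (z a) else 0) = b.coord j (z a) := by
          rw [Finset.sum_eq_single j]
          · simp
          · intro i _ hij
            rw [if_neg (fun e => hij (b.ind.injective e))]
          · intro h1; exact absurd (Finset.mem_univ j) h1
        rw [h1, h.hz a ha, Apex.mem_CC]
        constructor
        · rintro ⟨h2, h3⟩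
          exact Or.inr ⟨j, h2, h3, rfl⟩
        · rintro (h2 | ⟨i, h2, h3, h4⟩)
          · exact absurd h2.symm hv
          · have := b.ind.injective h4
            subst this
            exact ⟨h2, h3⟩
      · push Not at hb
        have h1 : (∑ i, if b i = v then b.coord i (z a) else 0) = 0 := by
          apply Finset.sum_eq_zero
          intro i _
          rw [if_neg (hb i)]
        rw [h1, Apex.mem_CC]
        constructor
        · intro h2; exact absurd rfl h2
        · rintro (h2 | ⟨i, _, _, h4⟩)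
          · exact absurd h2.symm hv
          · exact absurd h4.symm (hb i)
  · rw [Finset.sum_sub_distrib, Finset.sum_comm]
    simp only [Finset.sum_ite_eq, Finset.mem_univ, if_true]
    rw [b.sum_coord_apply_eq_one, sub_self]
  · simp only [sub_smul, Finset.sum_smul, ite_smul, zero_smul, one_smul]
    rw [Finset.sum_sub_distrib, Finset.sum_comm]
    simp only [Finset.sum_ite_eq, Finset.mem_univ, if_true]
    rw [b.linear_combination_coord_eq_self, sub_self]

theorem Apex.class [Fintype V] (h : Apex b z r t) {C : Set V} (hC : Rel k C) (hne : C.Nonempty)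
    (hsub : C ⊆ SS b z t) (hcard : C.ncard ≤ r + 2) : ∃ a < t, C = CC b z r a := by
  classical
  have hr := h.hr
  -- the star property
  have star : ∀ (i : Fin n) (v : V), v ∈ C → b.coord i v ≠ 0 → ∃ v' ∈ C, v' ≠ v ∧
      (v' = b i ∨ ∃ a < t, v' = z a ∧ r * a ≤ (i : ℕ) ∧ (i : ℕ) ≤ r * a + r) := by
    intro i v hv hi
    obtain ⟨v', hv', hne', h3⟩ := rel_star hC (b.coord i) hv hi
    refine ⟨v', hv', hne', ?_⟩
    rcases mem_SS.1 (hsub hv') with ⟨j, rfl⟩ | ⟨a, ha, rfl⟩
    · rw [coord_b_ne] at h3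
      rw [h3]; exact Or.inl rfl
    · exact Or.inr ⟨a, ha, rfl, (h.hz a ha i).1 h3⟩
  set J : Finset ℕ := (Finset.range t).filter (fun a => z a ∈ C) with hJ
  have memJ : ∀ a, a ∈ J ↔ a < t ∧ z a ∈ C := by
    intro a
    rw [hJ, Finset.mem_filter, Finset.mem_range]
  have hJne : J.Nonempty := by
    obtain ⟨v, hv⟩ := hne
    rcases mem_SS.1 (hsub hv) with ⟨j, rfl⟩ | ⟨a, ha, rfl⟩
    · obtain ⟨v', hv', hne', h3 | ⟨a, ha, rfl, _⟩⟩ := star j _ hv ((coord_b_ne b j j).2 rfl)
      · exact absurd h3 hne'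
      · exact ⟨a, (memJ a).2 ⟨ha, hv'⟩⟩
    · exact ⟨a, (memJ a).2 ⟨ha, hv⟩⟩
  set m := J.min' hJne with hm
  set M := J.max' hJne with hM
  have hmJ : m ∈ J := Finset.min'_mem _ _
  have hMJ : M ∈ J := Finset.max'_mem _ _
  obtain ⟨hmt, hmC⟩ := (memJ m).1 hmJ
  obtain ⟨hMt, hMC⟩ := (memJ M).1 hMJ
  have hmle : ∀ a ∈ J, m ≤ a := fun a ha => Finset.min'_le _ _ ha
  have hleM : ∀ a ∈ J, a ≤ M := fun a ha => Finset.le_max' _ _ ha
  have hm0 := h.lt hmt
  have hM0 := h.lt hMt
  have hbm : b ⟨r * m, by omega⟩ ∈ C := by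
    obtain ⟨v', hv', hne', h3 | ⟨a, ha, rfl, h4, h5⟩⟩ := star ⟨r * m, by omega⟩ _ hmC
      ((h.hz m hmt _).2 ⟨le_rfl, by simp⟩)
    · rwa [← h3]
    · exfalso
      simp only at h4
      have h6 := hmle a ((memJ a).2 ⟨ha, hv'⟩)
      have h7 : a ≤ m := Nat.le_of_mul_le_mul_left h4 hr
      have : a = m := le_antisymm h7 h6
      subst this
      exact hne' rfl
  have hbM : b ⟨r * M + r, by omega⟩ ∈ C := by
    obtain ⟨v', hv', hne', h3 | ⟨a, ha, rfl, h4, h5⟩⟩ := star ⟨r * M + r, by omega⟩ _ hMC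
      ((h.hz M hMt _).2 ⟨by simp, le_rfl⟩)
    · rwa [← h3]
    · exfalso
      simp only at h5
      have h6 := hleM a ((memJ a).2 ⟨ha, hv'⟩)
      have h7 : M ≤ a := Nat.le_of_mul_le_mul_left (by omega : r * M ≤ r * a) hr
      have : a = M := le_antisymm h6 h7
      subst this
      exact hne' rfl
  have hint : ∀ a ∈ J, ∀ i : Fin n, r * a < (i : ℕ) → (i : ℕ) < r * a + r → b i ∈ C := by
    intro a haJ i hi1 hi2
    obtain ⟨hat, haC⟩ := (memJ a).1 haJ
    obtain ⟨v', hv', hne', h3 | ⟨a', ha', rfl, h4, h5⟩⟩ := star i _ haC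
      ((h.hz a hat _).2 ⟨by omega, by omega⟩)
    · rwa [← h3]
    · exfalso
      have h6 : a' < a + 1 := by
        apply Nat.lt_of_mul_lt_mul_left (a := r)
        rw [mul_add, mul_one]; omega
      have h7 : a < a' + 1 := by
        apply Nat.lt_of_mul_lt_mul_left (a := r)
        rw [mul_add, mul_one]; omega
      have : a' = a := by omega
      subst this
      exact hne' rfl
  have hmM : m ≤ M := hmle M hMJ
  rcases eq_or_lt_of_le hmM with hmM' | hmM'
  · refine ⟨m, hmt, ?_⟩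
    symm
    apply Set.eq_of_subset_of_ncard_le
    · intro v hv
      rw [Apex.mem_CC] at hv
      rcases hv with rfl | ⟨i, h1, h2, rfl⟩
      · exact hmC
      · by_cases h3 : (i : ℕ) = r * m
        · have : i = ⟨r * m, by omega⟩ := Fin.ext h3
          rw [this]; exact hbm
        · by_cases h4 : (i : ℕ) = r * m + r
          · have : i = ⟨r * M + r, by omega⟩ := Fin.ext (by rw [h4, hmM'])
            rw [this]; exact hbM
          · exact hint m hmJ i (by omega) (by omega)
    · rw [h.ncard_CC hmt]; exact hcard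
    · exact Set.toFinite _
  · exfalso
    have hlt : r * m + r ≤ r * M := by
      have : r * (m + 1) ≤ r * M := Nat.mul_le_mul_left r hmM'
      rwa [mul_add, mul_one] at this
    have hsub2 : insert (z m) (insert (z M) (insert (b ⟨r * M + r, by omega⟩)
        (b '' {i : Fin n | r * m ≤ (i : ℕ) ∧ (i : ℕ) ≤ r * m + r - 1}))) ⊆ C := by
      intro v hv
      simp only [Set.mem_insert_iff, Set.mem_image, Set.mem_ofPred_eq] at hv
      rcases hv with rfl | rfl | rfl | ⟨i, ⟨h1, h2⟩, rfl⟩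
      · exact hmC
      · exact hMC
      · exact hbM
      · by_cases h3 : (i : ℕ) = r * m
        · have : i = ⟨r * m, by omega⟩ := Fin.ext h3
          rw [this]; exact hbm
        · exact hint m hmJ i (by omega) (by omega)
    have hc := Set.ncard_le_ncard hsub2 (Set.toFinite _)
    rw [Set.ncard_insert_of_notMem, Set.ncard_insert_of_notMem, Set.ncard_insert_of_notMem,
      Set.ncard_image_of_injective _ b.ind.injective, icc_ncard (by omega)] at hc
    · omega
    · rintro ⟨i, ⟨_, h2⟩, h3⟩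
      have := congrArg Fin.val (b.ind.injective h3)
      simp only at this
      omega
    · simp only [Set.mem_insert_iff, Set.mem_image, Set.mem_ofPred_eq, not_or]
      refine ⟨h.z_ne_b hMt _, ?_⟩
      rintro ⟨i, _, h3⟩
      exact h.z_ne_b hMt i h3.symm
    · simp only [Set.mem_insert_iff, Set.mem_image, Set.mem_ofPred_eq, not_or]
      refine ⟨fun e => ?_, h.z_ne_b hmt _, ?_⟩
      · have := h.z_inj hmt hMt e
        omega
      · rintro ⟨i, _, h3⟩
        exact h.z_ne_b hmt i h3.symm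

/-- an affine map of odd order which preserves the set fixes all circuits -/
theorem Apex.fix [Fintype V] (h : Apex b z r t) (F : V →ᵃ[k] V) (hF : OddMap F)
    (hS : ∀ v, F v ∈ SS b z t ↔ v ∈ SS b z t) : ∀ a < t, F '' CC b z r a = CC b z r a := by
  apply chain_fix hF
  · intro a ha
    apply h.class (rel_image (h.rel_CC ha) F hF.bijective)
    · exact ⟨F (z a), z a, by rw [Apex.mem_CC]; exact Or.inl rfl, rfl⟩
    · rintro _ ⟨v, hv, rfl⟩
      exact (hS v).2 (h.CC_sub ha hv)
    · rw [Set.ncard_image_of_injective _ hF.bijective.1, h.ncard_CC ha]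
  · intro a ha a' ha' e
    exact h.CC_inj ha ha' e
  · intro a ha
    have h0 := h.lt ha
    have h0' := h.lt (Nat.lt_of_succ_lt ha)
    refine ⟨b ⟨r * a + r, by omega⟩, ?_, ?_⟩
    · rw [Apex.mem_CC]; exact Or.inr ⟨_, by simp, le_rfl, rfl⟩
    · rw [Apex.mem_CC]
      refine Or.inr ⟨_, ?_, ?_, rfl⟩
      · rw [mul_add, mul_one]
      · simp only; rw [mul_add, mul_one]; omega
  · intro a ha a' ha' hne
    exact h.adj ha ha' hne

end chain

end V1130.TwoCol
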