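import Mathlib
import Pool.Agent.V1130.TwoColChain

/-!
Chains of circuits: commuting of odd-order maps; sets of three sizes.
-/

namespace V1130.TwoCol

open Equiv

section aff

variable {k V : Type} [Field k] [AddCommGroup V] [Module k V]
variable {n r t : ℕ} {b : AffineBasis (Fin n) k V} {z : ℕ → V}

theorem comm_of_small [Finite V] (b : AffineBasis (Fin n) k V) (F G : V →ᵃ[k] V) (hF : OddMap F)
    (hG : OddMap G)
    (h : ∀ i, ∃ A : Set V, A.ncard ≤ 3 ∧ b i ∈ A ∧ Set.MapsTo F A A ∧ Set.MapsTo G A A) (v : V) :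
    F (G v) = G (F v) := by
  have h1 : F.comp G = G.comp F := by
    apply AffineMap.ext_on b.tot
    rintro _ ⟨i, rfl⟩
    obtain ⟨A, hA, hi, hFA, hGA⟩ := h i
    exact small_comm (Set.toFinite A) hA hF hG hFA hGA _ hi
  exact congrArg (fun f => f v) h1

theorem Apex.mem_iff [Fintype V] (h : Apex b z r t) (F : V →ᵃ[k] V) (hF : OddMap F)
    (hS : ∀ v, F v ∈ SS b z t ↔ v ∈ SS b z t) {a : ℕ} (ha : a < t) (v : V) :
    F v ∈ CC b z r a ↔ v ∈ CC b z r a := by
  have h1 := h.fix F hF hS a ha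
  constructor
  · intro hv
    rw [← h1] at hv
    obtain ⟨u, hu, hu'⟩ := hv
    rwa [← hF.bijective.1 hu']
  · intro hv
    rw [← h1]
    exact ⟨v, hv, rfl⟩

theorem Apex.comm [Fintype V] (h : Apex b z r t) (hr2 : r ≤ 2) (ht : r ≤ t ∨ t = 0)
    (hiso : n ≤ r * t + 4) (ht0 : t = 0 → n ≤ 3) (F G : V →ᵃ[k] V) (hF : OddMap F)
    (hG : OddMap G) (hFS : ∀ v, F v ∈ SS b z t ↔ v ∈ SS b z t)
    (hGS : ∀ v, G v ∈ SS b z t ↔ v ∈ SS b z t) (v : V) : F (G v) = G (F v) := by
  have hFC := fun a (ha : a < t) => h.mem_iff F hF hFS ha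
  have hGC := fun a (ha : a < t) => h.mem_iff G hG hGS ha
  have hr := h.hr
  apply comm_of_small b F G hF hG
  intro i
  by_cases hi : t = 0 ∨ r * t < (i : ℕ)
  · refine ⟨{v | v ∈ SS b z t ∧ ∀ a < t, v ∉ CC b z r a}, ?_, ⟨mem_SS.2 (Or.inl ⟨i, rfl⟩), ?_⟩, ?_, ?_⟩
    · have hsub : {v | v ∈ SS b z t ∧ ∀ a < t, v ∉ CC b z r a} ⊆
          b '' {j : Fin n | (if t = 0 then 0 else r * t + 1) ≤ (j : ℕ) ∧ (j : ℕ) ≤ n - 1} := by
        rintro v ⟨hv, hv'⟩
        rcases mem_SS.1 hv with ⟨j, rfl⟩ | ⟨a, ha, rfl⟩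
        · refine ⟨j, ⟨?_, by omega⟩, rfl⟩
          by_cases h0 : t = 0
          · rw [if_pos h0]; omega
          rw [if_neg h0]
          by_contra hcon
          by_cases h1 : (j : ℕ) / r < t
          · apply hv' ((j : ℕ) / r) h1
            rw [Apex.mem_CC]
            refine Or.inr ⟨j, Nat.mul_div_le _ _, ?_, rfl⟩
            have := Nat.lt_mul_div_succ (j : ℕ) hr
            rw [mul_add, mul_one] at this
            omega
          · apply hv' (t - 1) (by omega)
            rw [Apex.mem_CC]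
            obtain ⟨s, rfl⟩ := Nat.exists_eq_succ_of_ne_zero h0
            have h2 : r * (s + 1) ≤ j := by
              rw [not_lt] at h1
              exact (Nat.mul_le_mul_left r h1).trans (Nat.mul_div_le _ _)
            rw [Nat.succ_eq_add_one] at hcon ⊢
            rw [mul_add, mul_one] at h2 hcon
            rw [Nat.add_sub_cancel]
            exact Or.inr ⟨j, by omega, by omega, rfl⟩
        · exfalso
          apply hv' a ha
          rw [Apex.mem_CC]; exact Or.inl rfl
      refine (Set.ncard_le_ncard hsub (Set.toFinite _)).trans ?_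
      have hn0 : 0 < n := by have := h.hn; omega
      rw [Set.ncard_image_of_injective _ b.ind.injective, icc_ncard (by omega)]
      by_cases h0 : t = 0
      · rw [if_pos h0]
        have := ht0 h0
        omega
      · rw [if_neg h0]
        omega
    · intro a ha hmem
      rw [Apex.mem_CC] at hmem
      rcases hmem with h1 | ⟨j, _, h2, h3⟩
      · exact h.z_ne_b ha i h1.symm
      · have := b.ind.injective h3
        subst this
        rcases hi with hi | hi
        · omega
        · have h4 : r * (a + 1) ≤ r * t := Nat.mul_le_mul_left r ha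
          rw [mul_add, mul_one] at h4
          omega
    · rintro v ⟨hv, hv'⟩
      exact ⟨(hFS v).2 hv, fun a ha h1 => hv' a ha ((hFC a ha v).1 h1)⟩
    · rintro v ⟨hv, hv'⟩
      exact ⟨(hGS v).2 hv, fun a ha h1 => hv' a ha ((hGC a ha v).1 h1)⟩
  push Not at hi
  obtain ⟨ht0', hit⟩ := hi
  obtain ⟨a, ha, hia⟩ : ∃ a < t, b i ∈ CC b z r a := by
    by_cases h1 : (i : ℕ) / r < t
    · refine ⟨(i : ℕ) / r, h1, ?_⟩
      rw [Apex.mem_CC]
      refine Or.inr ⟨i, Nat.mul_div_le _ _, ?_, rfl⟩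
      have := Nat.lt_mul_div_succ (i : ℕ) hr
      rw [mul_add, mul_one] at this
      omega
    · refine ⟨t - 1, by omega, ?_⟩
      rw [Apex.mem_CC]
      obtain ⟨s, rfl⟩ := Nat.exists_eq_succ_of_ne_zero ht0'
      have h2 : r * (s + 1) ≤ i := by
        rw [not_lt] at h1
        exact (Nat.mul_le_mul_left r h1).trans (Nat.mul_div_le _ _)
      rw [Nat.succ_eq_add_one] at hit ⊢
      rw [mul_add, mul_one] at h2 hit
      rw [Nat.add_sub_cancel]
      exact Or.inr ⟨i, by omega, by omega, rfl⟩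
  by_cases hr1 : r = 1
  · refine ⟨CC b z r a, ?_, hia, fun v hv => (hFC a ha v).2 hv, fun v hv => (hGC a ha v).2 hv⟩
    rw [h.ncard_CC ha]; omega
  by_cases hex : ∃ a' < t, a' ≠ a ∧ b i ∈ CC b z r a'
  · obtain ⟨a', ha', hne, hia'⟩ := hex
    refine ⟨CC b z r a ∩ CC b z r a', ?_, ⟨hia, hia'⟩, ?_, ?_⟩
    · have hsub : CC b z r a ∩ CC b z r a' ⊆ CC b z r a \ {z a} := by
        rintro v ⟨hv, hv'⟩
        refine ⟨hv, ?_⟩
        rintro rfl
        obtain ⟨j, hj, _⟩ := h.inter ha ha' hne.symm hv hv'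
        exact h.z_ne_b ha j hj
      refine (Set.ncard_le_ncard hsub (Set.toFinite _)).trans ?_
      rw [Set.ncard_sdiff_singleton_of_mem (by rw [Apex.mem_CC]; exact Or.inl rfl), h.ncard_CC ha]
      omega
    · rintro v ⟨hv, hv'⟩
      exact ⟨(hFC a ha v).2 hv, (hFC a' ha' v).2 hv'⟩
    · rintro v ⟨hv, hv'⟩
      exact ⟨(hGC a ha v).2 hv, (hGC a' ha' v).2 hv'⟩
  · push Not at hex
    have ht2 : 2 ≤ t := by omega
    obtain ⟨a', ha', hne, x, hx, hx'⟩ : ∃ a' < t, a' ≠ a ∧ (CC b z r a ∩ CC b z r a').Nonempty := by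
      have h0 := h.lt ha
      by_cases h1 : a + 1 < t
      · have h0' := h.lt h1
        refine ⟨a + 1, h1, by omega, b ⟨r * a + r, by omega⟩, ?_, ?_⟩
        · rw [Apex.mem_CC]; exact Or.inr ⟨_, by simp, le_rfl, rfl⟩
        · rw [Apex.mem_CC]
          refine Or.inr ⟨_, ?_, ?_, rfl⟩
          · rw [mul_add, mul_one]
          · simp only; rw [mul_add, mul_one]; omega
      · obtain ⟨s, rfl⟩ : ∃ s, a = s + 1 := ⟨a - 1, by omega⟩
        have h0' := h.lt (show s < t by omega)
        refine ⟨s, by omega, by omega, b ⟨r * s + r, by omega⟩, ?_, ?_⟩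
        · rw [Apex.mem_CC]
          refine Or.inr ⟨_, ?_, ?_, rfl⟩
          · rw [mul_add, mul_one]
          · simp only; rw [mul_add, mul_one]; omega
        · rw [Apex.mem_CC]; exact Or.inr ⟨_, by simp, le_rfl, rfl⟩
    refine ⟨CC b z r a \ CC b z r a', ?_, ⟨hia, hex a' ha' hne⟩, ?_, ?_⟩
    · have hsub : CC b z r a \ CC b z r a' ⊆ CC b z r a \ {x} := by
        rintro v ⟨hv, hv'⟩
        refine ⟨hv, ?_⟩
        rintro rfl
        exact hv' hx'
      refine (Set.ncard_le_ncard hsub (Set.toFinite _)).trans ?_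
      rw [Set.ncard_sdiff_singleton_of_mem hx, h.ncard_CC ha]
      omega
    · rintro v ⟨hv, hv'⟩
      exact ⟨(hFC a ha v).2 hv, fun h1 => hv' ((hFC a' ha' v).1 h1)⟩
    · rintro v ⟨hv, hv'⟩
      exact ⟨(hGC a ha v).2 hv, fun h1 => hv' ((hGC a' ha' v).1 h1)⟩

/-- apices for `p` odd -/
theorem apex_odd {p : ℕ} [hp : Fact p.Prime] (hp2 : p ≠ 2) {V : Type} [AddCommGroup V]
    [Module (ZMod p) V] {n : ℕ} (b : AffineBasis (Fin n) (ZMod p) V) {t : ℕ} (ht : t < n) :
    ∃ z : ℕ → V, Apex b z 1 t := by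
  have h2 : (2 : ZMod p) ≠ 0 := by
    intro h
    have : (p : ℕ) ∣ 2 := (ZMod.natCast_eq_zero_iff 2 p).1 (by exact_mod_cast h)
    have := (Nat.prime_dvd_prime_iff_eq hp.1 Nat.prime_two).1 this
    exact hp2 this
  let w : ℕ → V := fun a => if h : a + 1 < n then
      AffineMap.lineMap (b ⟨a, by omega⟩) (b ⟨a + 1, h⟩) (2 : ZMod p) else 0
  refine ⟨w, le_rfl, by omega, ?_⟩
  intro a ha i
  have hwa : w a = AffineMap.lineMap (b ⟨a, by omega⟩) (b ⟨a + 1, by omega⟩) (2 : ZMod p) :=
    dif_pos (by omega)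
  rw [hwa, AffineMap.apply_lineMap, AffineBasis.coord_apply, AffineBasis.coord_apply,
    AffineMap.lineMap_apply]
  simp only [Fin.ext_iff, vsub_eq_sub, vadd_eq_add, smul_eq_mul]
  by_cases h1' : (i : ℕ) = a
  · rw [if_pos h1', if_neg (by omega)]
    constructor
    · intro _; omega
    · intro _ h
      apply (one_ne_zero : (1 : ZMod p) ≠ 0)
      linear_combination -h
  · by_cases h2' : (i : ℕ) = a + 1
    · rw [if_neg h1', if_pos h2']
      constructor
      · intro _; omega
      · intro _ h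
        apply h2
        linear_combination h
    · rw [if_neg h1', if_neg h2']
      constructor
      · intro h; simp at h
      · intro h; omega

/-- apices for `p = 2` -/
theorem apex_two {V : Type} [AddCommGroup V] [Module (ZMod 2) V] {n : ℕ}
    (b : AffineBasis (Fin n) (ZMod 2) V) {t : ℕ} (ht : 2 * t < n) :
    ∃ z : ℕ → V, Apex b z 2 t := by
  let w : ℕ → V := fun a => if h : 2 * a + 2 < n then
    (b ⟨2 * a, by omega⟩ -ᵥ b ⟨2 * a + 1, by omega⟩) +ᵥ b ⟨2 * a + 2, h⟩ else 0
  refine ⟨w, by norm_num, ht, ?_⟩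
  intro a ha i
  have hwa : w a = (b ⟨2 * a, by omega⟩ -ᵥ b ⟨2 * a + 1, by omega⟩) +ᵥ
      b ⟨2 * a + 2, by omega⟩ := dif_pos (by omega)
  rw [hwa, AffineMap.map_vadd, AffineMap.linearMap_vsub, AffineBasis.coord_apply,
    AffineBasis.coord_apply, AffineBasis.coord_apply]
  simp only [Fin.ext_iff, vsub_eq_sub, vadd_eq_add]
  by_cases h1 : (i : ℕ) = 2 * a
  · rw [if_pos h1, if_neg (by omega), if_neg (by omega)]
    constructor
    · intro _; omega
    · intro _; simp
  · by_cases h2 : (i : ℕ) = 2 * a + 1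
    · rw [if_neg h1, if_pos h2, if_neg (by omega)]
      constructor
      · intro _; omega
      · intro _; simp
    · by_cases h3 : (i : ℕ) = 2 * a + 2
      · rw [if_neg h1, if_neg h2, if_pos h3]
        constructor
        · intro _; omega
        · intro _; simp
      · rw [if_neg h1, if_neg h2, if_neg h3]
        constructor
        · intro h; simp at h
        · intro h; omega

/-- affine maps of odd order preserving the set commute -/
def AffGood (k : Type) {V : Type} [Field k] [AddCommGroup V] [Module k V] (S : Set V) : Prop :=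
  ∀ F G : V →ᵃ[k] V, OddMap F → OddMap G → (∀ v, F v ∈ S ↔ v ∈ S) → (∀ v, G v ∈ S ↔ v ∈ S) →
    ∀ v, F (G v) = G (F v)

theorem AffGood.compl {S : Set V} (h : AffGood k S) : AffGood k Sᶜ := by
  intro F G hF hG hFS hGS
  refine h F G hF hG (fun v => ?_) (fun v => ?_)
  · have := hFS v
    simp only [Set.mem_compl_iff] at this
    exact not_iff_not.1 this
  · have := hGS v
    simp only [Set.mem_compl_iff] at this
    exact not_iff_not.1 this

/-- three good sets of different sizes -/
def AffThree (k V : Type) [Field k] [AddCommGroup V] [Module k V] : Prop :=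
  ∃ S : Fin 3 → Set V, Function.Injective (fun i => (S i).ncard) ∧ ∀ i, AffGood k (S i)

theorem affThree_of (S0 S1 S2 : Set V) (h0 : AffGood k S0) (h1 : AffGood k S1)
    (h2 : AffGood k S2) (h01 : S0.ncard ≠ S1.ncard) (h02 : S0.ncard ≠ S2.ncard)
    (h12 : S1.ncard ≠ S2.ncard) : AffThree k V := by
  refine ⟨![S0, S1, S2], ?_, ?_⟩
  · intro i j hij
    fin_cases i <;> fin_cases j <;> simp_all
  · intro i
    fin_cases i
    · exact h0
    · exact h1
    · exact h2

theorem affine_odd {p : ℕ} [hp : Fact p.Prime] (hp2 : p ≠ 2) {V : Type} [AddCommGroup V]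
    [Module (ZMod p) V] [Finite V] [Nontrivial V] : AffThree (ZMod p) V := by
  classical
  have _ := Fintype.ofFinite V
  set d := Module.finrank (ZMod p) V with hd
  have hd0 : 0 < d := Module.finrank_pos
  obtain ⟨b⟩ := AffineBasis.exists_affineBasis_of_finiteDimensional (ι := Fin (d + 1))
    (k := ZMod p) (V := V) (P := V) (by rw [Fintype.card_fin])
  have key : ∀ t, t < d + 1 → d + 1 ≤ t + 4 → (t = 0 → d + 1 ≤ 3) →
      ∃ S : Set V, AffGood (ZMod p) S ∧ S.ncard = d + 1 + t := by
    intro t ht h4 h0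
    obtain ⟨z, hz⟩ := apex_odd hp2 b ht
    refine ⟨SS b z t, ?_, hz.ncard_SS⟩
    intro F G hF hG hFS hGS
    exact hz.comm (by norm_num) (by omega) (by omega) h0 F G hF hG hFS hGS
  by_cases hd1 : d = 1
  · obtain ⟨S0, h0, c0⟩ := key 0 (by omega) (by omega) (by omega)
    obtain ⟨S1, h1, c1⟩ := key 1 (by omega) (by omega) (by omega)
    refine affThree_of S0 S1 {b 0} h0 h1 ?_ (by omega) (by rw [Set.ncard_singleton]; omega)
      (by rw [Set.ncard_singleton]; omega)
    intro F G _ _ hFS hGS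
    have hF0 : F (b 0) = b 0 := (hFS (b 0)).2 rfl
    have hG0 : G (b 0) = b 0 := (hGS (b 0)).2 rfl
    have hline : ∀ v : V, ∃ c : ZMod p, v = AffineMap.lineMap (b 0) (b ⟨1, by omega⟩) c := by
      intro v
      refine ⟨b.coord ⟨1, by omega⟩ v, ?_⟩
      have e1 := b.linear_combination_coord_eq_self v
      have e2 := b.sum_coord_apply_eq_one v
      have hu : (Finset.univ : Finset (Fin (d + 1))) = {0, ⟨1, by omega⟩} := by
        ext i
        simp only [Finset.mem_univ, Finset.mem_insert, Finset.mem_singleton, true_iff]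
        rcases Nat.eq_zero_or_pos (i : ℕ) with h | h
        · left; exact Fin.ext h
        · right; apply Fin.ext; simp only; omega
      have hne : (0 : Fin (d + 1)) ∉ ({⟨1, by omega⟩} : Finset (Fin (d + 1))) := by
        rw [Finset.mem_singleton]
        intro h
        have := congrArg Fin.val h
        simp at this
      rw [hu, Finset.sum_insert hne, Finset.sum_singleton] at e1 e2
      rw [AffineMap.lineMap_apply, vsub_eq_sub, vadd_eq_add]
      conv_lhs => rw [← e1]
      have e3 : b.coord 0 v = 1 - b.coord ⟨1, by omega⟩ v := by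
        rw [← e2]; ring
      rw [e3, sub_smul, smul_sub, one_smul]
      abel
    obtain ⟨α, hα⟩ := hline (F (b ⟨1, by omega⟩))
    obtain ⟨β, hβ⟩ := hline (G (b ⟨1, by omega⟩))
    intro v
    obtain ⟨c, rfl⟩ := hline v
    rw [AffineMap.apply_lineMap, AffineMap.apply_lineMap, AffineMap.apply_lineMap,
      AffineMap.apply_lineMap, hF0, hG0, hF0, hα, hβ, AffineMap.apply_lineMap,
      AffineMap.apply_lineMap, hF0, hG0, hα, hβ]
    simp only [AffineMap.lineMap_apply, vsub_eq_sub, vadd_eq_add, add_sub_cancel_right, smul_smul]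
    rw [mul_comm α β]
  · obtain ⟨S0, h0, c0⟩ := key d (by omega) (by omega) (by omega)
    obtain ⟨S1, h1, c1⟩ := key (d - 1) (by omega) (by omega) (by omega)
    obtain ⟨S2, h2, c2⟩ := key (d - 2) (by omega) (by omega) (by omega)
    exact affThree_of S0 S1 S2 h0 h1 h2 (by omega) (by omega) (by omega)

end aff

end V1130.TwoCol
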