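import Mathlib
import Pool.Agent.V1130.TwoColAff

/-!
Good sets in spaces of dimension at least four over the field with two elements.
-/

namespace V1130.TwoCol

open Equiv

/-- the permutation of the list determined by the images of a basis -/
def sg (a0 a1 a2 a3 a4 a5 m : ℕ) : ℕ :=
  if m = 0 then a0 else if m = 1 then a1 else if m = 2 then a2 else if m = 4 then a3 else
  if m = 8 then a4 else if m = 3 then a0 ^^^ (a1 ^^^ a2) else if m = 7 then a1 ^^^ (a2 ^^^ a3) else
  if m = 14 then a2 ^^^ (a3 ^^^ a4) else a5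

def L8 : List ℕ := [0, 1, 2, 4, 8, 3, 7, 14]
def L9 : List ℕ := [0, 1, 2, 4, 8, 3, 7, 14, 16]

/-- the search -/
def chk (L E : List ℕ) : Bool := L.all fun a0 => L.all fun a1 => (a1 == a0) ||
  L.all fun a2 => (a2 == a0) || ((a2 == a1) || (!(L.elem (a0 ^^^ (a1 ^^^ a2))) ||
  L.all fun a3 => (a3 == a0) || ((a3 == a1) || ((a3 == a2) || ((a3 == a0 ^^^ (a1 ^^^ a2)) ||
  (!(L.elem (a1 ^^^ (a2 ^^^ a3))) ||
  L.all fun a4 => (a4 == a0) || ((a4 == a1) || ((a4 == a2) || ((a4 == a3) ||
  ((a4 == a0 ^^^ (a1 ^^^ a2)) || ((a4 == a1 ^^^ (a2 ^^^ a3)) ||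
  (!(L.elem (a2 ^^^ (a3 ^^^ a4))) ||
  E.all fun a5 => (a5 == a0) || ((a5 == a1) || ((a5 == a2) || ((a5 == a3) || ((a5 == a4) ||
  ((a5 == a0 ^^^ (a1 ^^^ a2)) || ((a5 == a1 ^^^ (a2 ^^^ a3)) || ((a5 == a2 ^^^ (a3 ^^^ a4)) ||
  L.all fun i => (sg a0 a1 a2 a3 a4 a5)^[8] i == i)))))))))))))))))))

set_option maxRecDepth 100000 in
theorem chk8 : chk L8 [100] = true := by decide +kernel

set_option maxRecDepth 100000 in
theorem chk9 : chk L9 L9 = true := by decide +kernel

theorem chk_spec {L E : List ℕ} (h : chk L E = true) (a0 a1 a2 a3 a4 a5 : ℕ) (m0 : a0 ∈ L)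
    (m1 : a1 ∈ L) (m2 : a2 ∈ L) (m3 : a3 ∈ L) (m4 : a4 ∈ L) (m5 : a5 ∈ E)
    (n10 : a1 ≠ a0) (n20 : a2 ≠ a0) (n21 : a2 ≠ a1) (z0 : a0 ^^^ (a1 ^^^ a2) ∈ L)
    (n30 : a3 ≠ a0) (n31 : a3 ≠ a1) (n32 : a3 ≠ a2) (n3z : a3 ≠ a0 ^^^ (a1 ^^^ a2))
    (y : a1 ^^^ (a2 ^^^ a3) ∈ L)
    (n40 : a4 ≠ a0) (n41 : a4 ≠ a1) (n42 : a4 ≠ a2) (n43 : a4 ≠ a3)
    (n4z : a4 ≠ a0 ^^^ (a1 ^^^ a2)) (n4y : a4 ≠ a1 ^^^ (a2 ^^^ a3))
    (z1 : a2 ^^^ (a3 ^^^ a4) ∈ L)
    (n50 : a5 ≠ a0) (n51 : a5 ≠ a1) (n52 : a5 ≠ a2) (n53 : a5 ≠ a3) (n54 : a5 ≠ a4)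
    (n5z : a5 ≠ a0 ^^^ (a1 ^^^ a2)) (n5y : a5 ≠ a1 ^^^ (a2 ^^^ a3))
    (n5w : a5 ≠ a2 ^^^ (a3 ^^^ a4)) :
    ∀ i ∈ L, (sg a0 a1 a2 a3 a4 a5)^[8] i = i := by
  unfold chk at h
  simp only [List.all_eq_true, Bool.or_eq_true, beq_iff_eq, Bool.not_eq_true', List.elem_eq_mem,
    decide_eq_false_iff_not] at h
  have h1 := (h a0 m0 a1 m1).resolve_left n10
  have h2 := ((((h1 a2 m2).resolve_left n20).resolve_left n21).resolve_left (not_not.2 z0))
  have h3 := (((((h2 a3 m3).resolve_left n30).resolve_left n31).resolve_left n32).resolve_left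
    n3z).resolve_left (not_not.2 y)
  have h4 := (((((((h3 a4 m4).resolve_left n40).resolve_left n41).resolve_left n42).resolve_left
    n43).resolve_left n4z).resolve_left n4y).resolve_left (not_not.2 z1)
  exact ((((((((h4 a5 m5).resolve_left n50).resolve_left n51).resolve_left n52).resolve_left
    n53).resolve_left n54).resolve_left n5z).resolve_left n5y).resolve_left n5w

theorem fix_of_pow8 {X : Type} {F : X → X} (hF : OddMap F) {x : X} (h : F^[8] x = x) :
    F x = x := by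
  obtain ⟨n, hn, hFn⟩ := hF
  have h1 : Function.IsPeriodicPt F 8 x := h
  have h2 : Function.IsPeriodicPt F n x := hFn x
  have h3 := h1.gcd h2
  have h4 : Nat.gcd 8 n = 1 := by
    have : Nat.Coprime (2 ^ 3) n := Nat.Coprime.pow_left 3 (Nat.coprime_two_left.2 hn)
    exact this
  rw [h4] at h3
  exact h3

section

variable {V : Type} [AddCommGroup V] [Module (ZMod 2) V]

theorem three_sum (F : V →ᵃ[ZMod 2] V) (u v w : V) : F (u + (v + w)) = F u + (F v + F w) := by
  have h3 : ∀ v, F v = F.linear v + F 0 := by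
    intro v
    have := F.map_vadd 0 v
    simpa using this
  have h2 : ∀ x : V, x + x = 0 := by
    intro x
    have : (2 : ZMod 2) • x = x + x := two_smul _ _
    rw [← this, show (2 : ZMod 2) = 0 from rfl, zero_smul]
  rw [h3, h3 u, h3 v, h3 w, map_add, map_add]
  have := h2 (F 0)
  calc F.linear u + (F.linear v + F.linear w) + F 0
      = F.linear u + (F.linear v + F.linear w) + F 0 + 0 := by rw [add_zero]
    _ = F.linear u + (F.linear v + F.linear w) + F 0 + (F 0 + F 0) := by rw [this]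
    _ = _ := by abel

variable {d : ℕ} (B : Module.Basis (Fin d) (ZMod 2) V)

/-- the vector with a given mask -/
noncomputable def vec (m : ℕ) : V := ∑ j : Fin d, (if m.testBit j then (1 : ZMod 2) else 0) • B j

theorem vec_repr (m : ℕ) (j : Fin d) : B.repr (vec B m) j = if m.testBit j then 1 else 0 := by
  rw [vec, Module.Basis.repr_sum_self]

theorem vec_add (m m' : ℕ) : vec B (m ^^^ m') = vec B m + vec B m' := by
  apply B.repr.injective
  ext j
  rw [map_add, Finsupp.add_apply, vec_repr, vec_repr, vec_repr, Nat.testBit_xor]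
  cases m.testBit j <;> cases m'.testBit j <;> simp <;> rfl

theorem vec_inj {m m' : ℕ} (hm : m < 2 ^ d) (hm' : m' < 2 ^ d) (h : vec B m = vec B m') :
    m = m' := by
  apply Nat.eq_of_testBit_eq
  intro i
  by_cases hi : i < d
  · have h1 := vec_repr B m ⟨i, hi⟩
    rw [h, vec_repr] at h1
    simp only at h1
    cases h2 : m.testBit i <;> cases h3 : m'.testBit i <;> simp_all
  · rw [Nat.testBit_lt_two_pow (hm.trans_le (Nat.pow_le_pow_right (by norm_num) (by omega))),
      Nat.testBit_lt_two_pow (hm'.trans_le (Nat.pow_le_pow_right (by norm_num) (by omega)))]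

theorem vec_pow (j : Fin d) : vec B (2 ^ (j : ℕ)) = B j := by
  apply B.repr.injective
  ext i
  rw [vec_repr, Module.Basis.repr_self, Nat.testBit_two_pow]
  by_cases h : j = i
  · subst h; simp
  · rw [Finsupp.single_eq_of_ne (Ne.symm h)]
    have : (j : ℕ) ≠ i := fun e => h (Fin.ext e)
    simp [this]

theorem vec_zero : vec B 0 = 0 := by
  simp [vec]

theorem exotic (L : List ℕ) (hL : (L = L8 ∧ d = 4) ∨ (L = L9 ∧ d = 5)) :
    AffGood (ZMod 2) (vec B '' {m | m ∈ L}) := by
  have hlt : ∀ m ∈ L, m < 2 ^ d := by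
    rcases hL with ⟨rfl, rfl⟩ | ⟨rfl, rfl⟩ <;> decide
  have hmem : ∀ m ∈ [0, 1, 2, 4, 8, 3, 7, 14], m ∈ L := by
    rcases hL with ⟨rfl, rfl⟩ | ⟨rfl, rfl⟩ <;> decide
  have hbas : ∀ j : Fin d, 2 ^ (j : ℕ) ∈ L := by
    rcases hL with ⟨rfl, rfl⟩ | ⟨rfl, rfl⟩ <;> decide
  have key : ∀ F : V →ᵃ[ZMod 2] V, OddMap F →
      (∀ v, F v ∈ vec B '' {m | m ∈ L} ↔ v ∈ vec B '' {m | m ∈ L}) → ∀ v, F v = v := by
    intro F hF hFS
    have hFi := hF.bijective.1
    have h0 : ∀ m, ∃ a, m ∈ L → a ∈ L ∧ F (vec B m) = vec B a := by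
      intro m
      by_cases hm : m ∈ L
      · obtain ⟨a, ha, ha'⟩ := (hFS (vec B m)).2 ⟨m, hm, rfl⟩
        exact ⟨a, fun _ => ⟨ha, ha'.symm⟩⟩
      · exact ⟨0, fun h => absurd h hm⟩
    choose f hf using h0
    have hinj : ∀ m ∈ L, ∀ m' ∈ L, m ≠ m' → f m ≠ f m' := by
      intro m hm m' hm' hne e
      apply hne
      apply vec_inj B (hlt m hm) (hlt m' hm')
      apply hFi
      rw [(hf m hm).2, (hf m' hm').2, e]
    have h3 : ∀ m ∈ L, ∀ m1 ∈ L, ∀ m2 ∈ L, ∀ m3 ∈ L, m = m1 ^^^ (m2 ^^^ m3) →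
        f m = f m1 ^^^ (f m2 ^^^ f m3) := by
      intro m hm m1 hm1 m2 hm2 m3 hm3 e
      apply vec_inj B (hlt _ (hf m hm).1)
      · exact Nat.xor_lt_two_pow (hlt _ (hf _ hm1).1)
          (Nat.xor_lt_two_pow (hlt _ (hf _ hm2).1) (hlt _ (hf _ hm3).1))
      · rw [← (hf m hm).2, vec_add, vec_add, ← (hf m1 hm1).2, ← (hf m2 hm2).2, ← (hf m3 hm3).2, e,
          vec_add, vec_add, three_sum]
    have i0 : (0 : ℕ) ∈ L := hmem 0 (by decide)
    have i1 : (1 : ℕ) ∈ L := hmem 1 (by decide)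
    have i2 : (2 : ℕ) ∈ L := hmem 2 (by decide)
    have i4 : (4 : ℕ) ∈ L := hmem 4 (by decide)
    have i8 : (8 : ℕ) ∈ L := hmem 8 (by decide)
    have i3 : (3 : ℕ) ∈ L := hmem 3 (by decide)
    have i7 : (7 : ℕ) ∈ L := hmem 7 (by decide)
    have i14 : (14 : ℕ) ∈ L := hmem 14 (by decide)
    have e3 := h3 3 i3 0 i0 1 i1 2 i2 (by decide)
    have e7 := h3 7 i7 1 i1 2 i2 4 i4 (by decide)
    have e14 := h3 14 i14 2 i2 4 i4 8 i8 (by decide)
    obtain ⟨a5, hsg, h8⟩ : ∃ a5, (∀ m ∈ L, f m = sg (f 0) (f 1) (f 2) (f 4) (f 8) a5 m) ∧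
        ∀ i ∈ L, (sg (f 0) (f 1) (f 2) (f 4) (f 8) a5)^[8] i = i := by
      rcases hL with ⟨rfl, rfl⟩ | ⟨rfl, rfl⟩
      · refine ⟨100, ?_, ?_⟩
        · intro m hm
          simp only [L8, List.mem_cons, List.not_mem_nil, or_false] at hm
          rcases hm with rfl | rfl | rfl | rfl | rfl | rfl | rfl | rfl <;>
            simp [sg, e3, e7, e14]
        · have hne : ∀ m ∈ L8, (100 : ℕ) ≠ f m := by
            intro m hm e
            have := hlt _ (hf m hm).1
            omega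
          apply chk_spec chk8 <;> first
            | exact (hf _ i0).1
            | exact (hf _ i1).1
            | exact (hf _ i2).1
            | exact (hf _ i4).1
            | exact (hf _ i8).1
            | (rw [← e3]; exact (hf _ i3).1)
            | (rw [← e7]; exact (hf _ i7).1)
            | (rw [← e14]; exact (hf _ i14).1)
            | (apply hinj <;> decide)
            | (rw [← e3]; apply hinj <;> decide)
            | (rw [← e7]; apply hinj <;> decide)
            | (rw [← e14]; apply hinj <;> decide)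
            | (apply hne; decide)
            | (rw [← e3]; apply hne; decide)
            | (rw [← e7]; apply hne; decide)
            | (rw [← e14]; apply hne; decide)
            | decide
      · have i16 : (16 : ℕ) ∈ L9 := by decide
        refine ⟨f 16, ?_, ?_⟩
        · intro m hm
          simp only [L9, List.mem_cons, List.not_mem_nil, or_false] at hm
          rcases hm with rfl | rfl | rfl | rfl | rfl | rfl | rfl | rfl | rfl <;>
            simp [sg, e3, e7, e14]
        · apply chk_spec chk9 <;> first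
            | exact (hf _ i0).1
            | exact (hf _ i1).1
            | exact (hf _ i2).1
            | exact (hf _ i4).1
            | exact (hf _ i8).1
            | exact (hf _ i16).1
            | (rw [← e3]; exact (hf _ i3).1)
            | (rw [← e7]; exact (hf _ i7).1)
            | (rw [← e14]; exact (hf _ i14).1)
            | (apply hinj <;> decide)
            | (rw [← e3]; apply hinj <;> decide)
            | (rw [← e7]; apply hinj <;> decide)
            | (rw [← e14]; apply hinj <;> decide)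
    have hit : ∀ n : ℕ, ∀ m ∈ L, F^[n] (vec B m) = vec B ((sg (f 0) (f 1) (f 2) (f 4) (f 8) a5)^[n] m) ∧
        (sg (f 0) (f 1) (f 2) (f 4) (f 8) a5)^[n] m ∈ L := by
      intro n
      induction n with
      | zero => intro m hm; exact ⟨rfl, hm⟩
      | succ n ih =>
        intro m hm
        obtain ⟨h1, h2⟩ := ih m hm
        rw [Function.iterate_succ_apply', Function.iterate_succ_apply', h1, (hf _ h2).2, hsg _ h2]
        refine ⟨rfl, ?_⟩
        rw [← hsg _ h2]
        exact (hf _ h2).1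
    have hfix : ∀ m ∈ L, F (vec B m) = vec B m := by
      intro m hm
      apply fix_of_pow8 hF
      rw [(hit 8 m hm).1, h8 m hm]
    have hF0 : F 0 = 0 := by
      have := hfix 0 i0
      rwa [vec_zero] at this
    have hlin : F.linear = LinearMap.id := by
      apply B.ext
      intro j
      have h5 := hfix _ (hbas j)
      rw [vec_pow] at h5
      have h6 := F.map_vadd 0 (B j)
      rw [vadd_eq_add, add_zero, vadd_eq_add, hF0, add_zero, h5] at h6
      exact h6.symm
    intro v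
    have h6 := F.map_vadd 0 v
    rw [vadd_eq_add, add_zero, vadd_eq_add, hF0, add_zero, hlin] at h6
    exact h6
  intro F G hF hG hFS hGS v
  rw [key F hF hFS, key F hF hFS]

theorem ncard_exotic (L : List ℕ) (hlt : ∀ m ∈ L, m < 2 ^ d) :
    (vec B '' {m | m ∈ L}).ncard = L.toFinset.card := by
  rw [Set.InjOn.ncard_image]
  · have : {m : ℕ | m ∈ L} = ↑L.toFinset := by ext; simp
    rw [this, Set.ncard_coe_finset]
  · intro m hm m' hm' e
    exact vec_inj B (hlt m hm) (hlt m' hm') e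

end

theorem affine_two {V : Type} [AddCommGroup V] [Module (ZMod 2) V] [Finite V]
    (hd4 : 4 ≤ Module.finrank (ZMod 2) V) : AffThree (ZMod 2) V := by
  classical
  have _ := Fintype.ofFinite V
  set d := Module.finrank (ZMod 2) V with hd
  obtain ⟨b⟩ := AffineBasis.exists_affineBasis_of_finiteDimensional (ι := Fin (d + 1))
    (k := ZMod 2) (V := V) (P := V) (by rw [Fintype.card_fin])
  have hcV : Nat.card V = 2 ^ d := by
    rw [Module.natCard_eq_pow_finrank (K := ZMod 2), Nat.card_zmod]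
  have hpow : 4 * d ≤ 2 ^ d := by
    have : ∀ d, 4 ≤ d → 4 * d ≤ 2 ^ d := by
      intro d hd
      induction d, hd using Nat.le_induction with
      | base => norm_num
      | succ d hd ih => rw [pow_succ]; omega
    exact this d hd4
  have key : ∀ t, 2 * t < d + 1 → 2 ≤ t → d + 1 ≤ 2 * t + 4 →
      ∃ S : Set V, AffGood (ZMod 2) S ∧ S.ncard = d + 1 + t := by
    intro t ht h2 h4
    obtain ⟨z, hz⟩ := apex_two b ht
    refine ⟨SS b z t, ?_, hz.ncard_SS⟩
    intro F G hF hG hFS hGS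
    exact hz.comm le_rfl (Or.inl h2) h4 (by omega) F G hF hG hFS hGS
  obtain ⟨S0, h0, c0⟩ := key (d / 2) (by omega) (by omega) (by omega)
  have c0' : S0ᶜ.ncard = 2 ^ d - (d + 1 + d / 2) := by
    rw [Set.ncard_compl, hcV, c0]
  by_cases hd6 : 6 ≤ d
  · obtain ⟨S1, h1, c1⟩ := key (d / 2 - 1) (by omega) (by omega) (by omega)
    exact affThree_of S0 S0ᶜ S1 h0 h0.compl h1 (by omega) (by omega) (by omega)
  · have hB : Module.Basis (Fin d) (ZMod 2) V := Module.finBasisOfFinrankEq (ZMod 2) V hd.symm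
    have h45 : d = 4 ∨ d = 5 := by omega
    rcases h45 with h4 | h5
    · have c2 := ncard_exotic hB L8 (by rw [h4]; decide)
      have c3 : (L8.toFinset.card) = 8 := by decide
      rw [h4] at c0 c0'
      exact affThree_of S0 S0ᶜ (vec hB '' {m | m ∈ L8}) h0 h0.compl
        (exotic hB L8 (Or.inl ⟨rfl, h4⟩)) (by rw [c0, c0']; norm_num) (by rw [c0, c2, c3]; norm_num)
        (by rw [c0', c2, c3]; norm_num)
    · have c2 := ncard_exotic hB L9 (by rw [h5]; decide)
      have c3 : (L9.toFinset.card) = 9 := by decide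
      rw [h5] at c0 c0'
      exact affThree_of S0 S0ᶜ (vec hB '' {m | m ∈ L9}) h0 h0.compl
        (exotic hB L9 (Or.inr ⟨rfl, h5⟩)) (by rw [c0, c0']; norm_num) (by rw [c0, c2, c3]; norm_num)
        (by rw [c0', c2, c3]; norm_num)

end V1130.TwoCol
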