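import Mathlib
import Pool.Agent.V1130.TwoColTwo
import Pool.Agent.V1130.ThreeColPrim

/-!
Two-colourings for primitive actions of solvable groups.
-/

namespace V1130.TwoCol

open Equiv MulAction
open scoped Pointwise

/-- elements of odd order preserving the set commute on the underlying set -/
def ActGood (H : Type) {Ω : Type} [Group H] [MulAction H Ω] (S : Set Ω) : Prop :=
  ∀ g h : H, OddMap (fun ω : Ω => g • ω) → OddMap (fun ω : Ω => h • ω) →
    (∀ ω, g • ω ∈ S ↔ ω ∈ S) → (∀ ω, h • ω ∈ S ↔ ω ∈ S) → ∀ ω : Ω, g • h • ω = h • g • ω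

/-- three good sets of different sizes -/
def ActThree (H Ω : Type) [Group H] [MulAction H Ω] : Prop :=
  ∃ S : Fin 3 → Set Ω, Function.Injective (fun i => (S i).ncard) ∧ ∀ i, ActGood H (S i)

section

variable {H Ω : Type} [Group H] [MulAction H Ω]

theorem ActGood.compl {S : Set Ω} (h : ActGood H S) : ActGood H Sᶜ := by
  intro F G hF hG hFS hGS
  refine h F G hF hG (fun v => ?_) (fun v => ?_)
  · have := hFS v
    simp only [Set.mem_compl_iff] at this
    exact not_iff_not.1 this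
  · have := hGS v
    simp only [Set.mem_compl_iff] at this
    exact not_iff_not.1 this

theorem actThree_of (S0 S1 S2 : Set Ω) (h0 : ActGood H S0) (h1 : ActGood H S1)
    (h2 : ActGood H S2) (h01 : S0.ncard ≠ S1.ncard) (h02 : S0.ncard ≠ S2.ncard)
    (h12 : S1.ncard ≠ S2.ncard) : ActThree H Ω := by
  refine ⟨![S0, S1, S2], ?_, ?_⟩
  · intro i j hij
    fin_cases i <;> fin_cases j <;> simp_all
  · intro i
    fin_cases i
    · exact h0
    · exact h1
    · exact h2

theorem actGood_small [Finite Ω] {S : Set Ω} (h1 : S.ncard ≤ 3) (h2 : Sᶜ.ncard ≤ 3) :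
    ActGood H S := by
  intro g h hg hh hgS hhS ω
  by_cases hω : ω ∈ S
  · exact small_comm (Set.toFinite S) h1 hg hh (fun x hx => (hgS x).2 hx)
      (fun x hx => (hhS x).2 hx) ω hω
  · exact small_comm (Set.toFinite Sᶜ) h2 hg hh (fun x hx hx' => hx ((hgS x).1 hx'))
      (fun x hx hx' => hx ((hhS x).1 hx')) ω hω

theorem small_three [Finite Ω] [Nontrivial Ω] (h4 : Nat.card Ω ≤ 4) : ActThree H Ω := by
  have h2 : 1 < Nat.card Ω := Finite.one_lt_card_iff_nontrivial.2 inferInstance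
  have key : ∀ c, c ≤ 3 → Nat.card Ω ≤ c + 3 → c ≤ Nat.card Ω →
      ∃ S : Set Ω, ActGood H S ∧ S.ncard = c := by
    intro c h3 h5 h6
    obtain ⟨S, _, hS⟩ := Set.exists_subset_card_eq (s := (Set.univ : Set Ω)) (n := c)
      (by rw [Set.ncard_univ]; exact h6)
    refine ⟨S, actGood_small (by omega) ?_, hS⟩
    rw [Set.ncard_compl, hS]
    omega
  by_cases h3 : Nat.card Ω ≤ 3
  · obtain ⟨S0, h0, c0⟩ := key 0 (by omega) (by omega) (by omega)
    obtain ⟨S1, h1, c1⟩ := key 1 (by omega) (by omega) (by omega)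
    obtain ⟨S2, h2, c2⟩ := key 2 (by omega) (by omega) (by omega)
    exact actThree_of S0 S1 S2 h0 h1 h2 (by omega) (by omega) (by omega)
  · obtain ⟨S0, h0, c0⟩ := key 1 (by omega) (by omega) (by omega)
    obtain ⟨S1, h1, c1⟩ := key 2 (by omega) (by omega) (by omega)
    obtain ⟨S2, h2, c2⟩ := key 3 (by omega) (by omega) (by omega)
    exact actThree_of S0 S1 S2 h0 h1 h2 (by omega) (by omega) (by omega)

/-- an element of order seven acting on eight points -/
theorem seven [Finite Ω] [FaithfulSMul H Ω] (h8 : Nat.card Ω = 8) (o : Ω) (a : H) (ha : a ≠ 1)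
    (ha7 : a ^ 7 = 1) (hao : a • o = o) (T : Set Ω) (hT : T.Nonempty) (hoT : o ∉ T)
    (hinv : ∀ ω, ω ∈ T → a • ω ∈ T) : ∀ ω, ω ≠ o → ω ∈ T := by
  have hp : Fact (Nat.Prime 7) := ⟨by norm_num⟩
  have hZ : IsPGroup 7 (Subgroup.zpowers a) := by
    rintro ⟨_, j, rfl⟩
    refine ⟨1, Subtype.ext ?_⟩
    change (a ^ j) ^ (7 ^ 1) = 1
    rw [pow_one, ← zpow_natCast, ← zpow_mul, mul_comm, zpow_mul, zpow_natCast, ha7, one_zpow]
  have hTinv : ∀ (j : ℕ) (ω : Ω), ω ∈ T → a ^ j • ω ∈ T := by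
    intro j
    induction j with
    | zero => intro ω h; simpa using h
    | succ j ih => intro ω h; rw [pow_succ', mul_smul]; exact hinv _ (ih ω h)
  have hpow : ∀ z : Subgroup.zpowers a, ∃ j : ℕ, (z : H) = a ^ j := by
    rintro ⟨_, j, rfl⟩
    refine ⟨(j % 7).toNat, ?_⟩
    have h1 : ((j % 7).toNat : ℤ) = j % 7 := Int.toNat_of_nonneg (Int.emod_nonneg _ (by norm_num))
    change a ^ j = _
    rw [← zpow_natCast, h1]
    conv_lhs => rw [← Int.emod_add_mul_ediv j 7, zpow_add, zpow_mul]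
    rw [show (a : H) ^ (7 : ℤ) = 1 by exact_mod_cast ha7, one_zpow, mul_one]
  have hfix : ∀ ω : Ω, ω ∈ fixedPoints (Subgroup.zpowers a) Ω ↔ a • ω = ω := by
    intro ω
    constructor
    · intro h
      exact h ⟨a, Subgroup.mem_zpowers a⟩
    · intro h z
      obtain ⟨j, hj⟩ := hpow z
      change (z : H) • ω = ω
      rw [hj]
      clear hj
      induction j with
      | zero => rw [pow_zero, one_smul]
      | succ j ih => rw [pow_succ, mul_smul, h, ih]
  have h1 := hZ.card_modEq_card_fixedPoints Ω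
  rw [h8] at h1
  have hle : Nat.card (fixedPoints (Subgroup.zpowers a) Ω) ≤ 8 := by
    rw [← h8]
    exact Nat.card_le_card_of_injective _ Subtype.val_injective
  have hpos : 0 < Nat.card (fixedPoints (Subgroup.zpowers a) Ω) := by
    rw [Nat.card_pos_iff]
    exact ⟨⟨⟨o, (hfix o).2 hao⟩⟩, inferInstance⟩
  have hne8 : Nat.card (fixedPoints (Subgroup.zpowers a) Ω) ≠ 8 := by
    intro h
    apply ha
    apply FaithfulSMul.eq_of_smul_eq_smul (α := Ω)
    intro ω
    rw [one_smul, ← hfix]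
    have : fixedPoints (Subgroup.zpowers a) Ω = Set.univ := by
      apply Set.eq_of_subset_of_ncard_le (Set.subset_univ _)
      rw [Set.ncard_univ, h8, ← h]
      exact le_rfl
    rw [this]; trivial
  have hone : Nat.card (fixedPoints (Subgroup.zpowers a) Ω) = 1 := by
    unfold Nat.ModEq at h1
    omega
  have huniq : ∀ ω : Ω, a • ω = ω → ω = o := by
    intro ω hω
    rw [Nat.card_eq_one_iff_unique] at hone
    obtain ⟨hs, _⟩ := hone
    have := hs.elim ⟨ω, (hfix ω).2 hω⟩ ⟨o, (hfix o).2 hao⟩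
    exact congrArg Subtype.val this
  let T' : SubMulAction (Subgroup.zpowers a) Ω :=
    { carrier := T
      smul_mem' := by
        intro z ω hω
        obtain ⟨j, hj⟩ := hpow z
        change (z : H) • ω ∈ T
        rw [hj]
        exact hTinv j ω hω }
  have h2 := hZ.card_modEq_card_fixedPoints T'
  have h3 : Nat.card (fixedPoints (Subgroup.zpowers a) T') = 0 := by
    rw [Nat.card_eq_zero]
    left
    constructor
    rintro ⟨⟨ω, hω⟩, h⟩
    have h4 := congrArg Subtype.val (h ⟨a, Subgroup.mem_zpowers a⟩)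
    have h5 : a • ω = ω := h4
    have := huniq ω h5
    rw [this] at hω
    exact hoT hω
  have h4 : Nat.card T' = T.ncard := rfl
  rw [h3, h4] at h2
  have h5 : 0 < T.ncard := (Set.ncard_pos (Set.toFinite _)).2 hT
  have h6 : T ⊆ {o}ᶜ := by
    intro ω hω h
    rw [Set.mem_singleton_iff] at h
    rw [h] at hω
    exact hoT hω
  have h7 : ({o}ᶜ : Set Ω).ncard = 7 := by
    rw [Set.ncard_compl, h8, Set.ncard_singleton]
  have h8' : T = {o}ᶜ := by
    apply Set.eq_of_subset_of_ncard_le h6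
    rw [h7]
    unfold Nat.ModEq at h2
    omega
  intro ω hω
  rw [h8']
  exact hω

end

section model

variable {Ω H V : Type} [Finite Ω] [Nontrivial Ω] [Group H] [MulAction H Ω]
    [FaithfulSMul H Ω] [AddCommGroup V]

theorem model_inj (m : V → H) (hadd : ∀ u v, m (u + v) = m u * m v)
    (hinj : Function.Injective m) (htr : ∀ x y : Ω, ∃ v, m v • x = y) (o : Ω) {u v : V}
    (huv : m u • o = m v • o) : u = v := by
  apply hinj
  have h2 : ∀ x : Ω, m u • x = m v • x := by
    intro x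
    obtain ⟨w, rfl⟩ := htr o x
    rw [← mul_smul, ← hadd, add_comm, hadd, mul_smul, huv, ← mul_smul, ← hadd, add_comm, hadd,
      mul_smul]
  exact FaithfulSMul.eq_of_smul_eq_smul (α := Ω) h2

theorem affine_model {p : ℕ} [hp : Fact p.Prime] [Module (ZMod p) V]
    (m : V → H) (hadd : ∀ u v, m (u + v) = m u * m v) (hinj : Function.Injective m)
    (hconj : ∀ (h : H) (v : V), ∃ u, m u = h * m v * h⁻¹)
    (htr : ∀ x y : Ω, ∃ v, m v • x = y) :
    ∃ e : V ≃ Ω, ∀ h : H, ∃ F : V →ᵃ[ZMod p] V, ∀ v, e (F v) = h • e v := by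
  obtain ⟨o⟩ : Nonempty Ω := inferInstance
  have hbij : Function.Bijective (fun v : V => m v • o) := by
    constructor
    · intro u v huv
      exact model_inj m hadd hinj htr o huv
    · intro x
      obtain ⟨w, rfl⟩ := htr o x
      exact ⟨w, rfl⟩
  let e : V ≃ Ω := Equiv.ofBijective _ hbij
  have he : ∀ v, e v = m v • o := fun _ => rfl
  refine ⟨e, fun h => ?_⟩
  choose c hc using hconj h
  let φ : V →+ V := AddMonoidHom.mk' c (fun u v => by
    apply hinj
    rw [hadd, hc, hc, hc, hadd]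
    group)
  let F : V →ᵃ[ZMod p] V :=
    { toFun := fun v => φ v + e.symm (h • o)
      linear := φ.toZModLinearMap p
      map_vadd' := fun v w => by
        simp only [vadd_eq_add, map_add, AddMonoidHom.coe_toZModLinearMap, add_assoc] }
  refine ⟨F, fun v => ?_⟩
  have h1 : F v = c v + e.symm (h • o) := rfl
  have h2 : m (e.symm (h • o)) • o = h • o := by
    rw [← he, e.apply_symm_apply]
  rw [h1, he, he, hadd, mul_smul, h2, hc, ← mul_smul, ← mul_smul, inv_mul_cancel_right]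

/-- in degree eight the stabilizer of a point and of a proper subset of the other points is
commutative -/
theorem comm_stab [Group.IsSolvable H] [IsPreprimitive H Ω] (m : V → H)
    (hadd : ∀ u v, m (u + v) = m u * m v) (hinj : Function.Injective m)
    (hconj : ∀ (h : H) (v : V), ∃ u, m u = h * m v * h⁻¹)
    (htr : ∀ x y : Ω, ∃ v, m v • x = y) (h8 : Nat.card Ω = 8) (o : Ω) (T : Set Ω)
    (hT : T.Nonempty) (hT' : ∃ ω, ω ≠ o ∧ ω ∉ T) (hoT : o ∉ T) (x y : H) (hx : x • o = o)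
    (hy : y • o = o) (hxT : ∀ ω, x • ω ∈ T ↔ ω ∈ T) (hyT : ∀ ω, y • ω ∈ T ↔ ω ∈ T) :
    x * y = y * x := by
  classical
  have hfinH : Finite H := Finite.of_injective (MulAction.toPermHom H Ω)
    (MulAction.toPerm_injective)
  let K := stabilizer H o
  by_cases hK : Subsingleton K
  · have h1 : (⟨x, hx⟩ : K) = 1 := Subsingleton.elim _ _
    have h2 : x = 1 := congrArg Subtype.val h1
    rw [h2, one_mul, mul_one]
  rw [not_subsingleton_iff_nontrivial] at hK
  obtain ⟨q, hq, A, hAn, hA0, hAcomm, hAexp⟩ := ThreeCol.exists_elementary K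
  have m0 : m 0 = 1 := by
    have := hadd 0 0
    rw [add_zero] at this
    exact (mul_eq_left.1 this.symm)
  have mneg : ∀ v, m (-v) = (m v)⁻¹ := by
    intro v
    rw [eq_inv_iff_mul_eq_one, ← hadd, neg_add_cancel, m0]
  have mcomm : ∀ u v, m u * m v = m v * m u := by
    intro u v
    rw [← hadd, add_comm, hadd]
  -- the centralizer of `A` in the image of `m`
  let C : Subgroup H :=
    { carrier := {n | (∃ v, m v = n) ∧ ∀ a ∈ A, ((a : K) : H) * n = n * (a : H)}
      one_mem' := ⟨⟨0, m0⟩, fun a _ => by rw [mul_one, one_mul]⟩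
      mul_mem' := by
        rintro _ _ ⟨⟨u, rfl⟩, h1⟩ ⟨⟨v, rfl⟩, h2⟩
        refine ⟨⟨u + v, hadd u v⟩, fun a ha => ?_⟩
        rw [← mul_assoc, h1 a ha, mul_assoc, h2 a ha, mul_assoc]
      inv_mem' := by
        rintro _ ⟨⟨u, rfl⟩, h1⟩
        refine ⟨⟨-u, mneg u⟩, fun a ha => ?_⟩
        have h2 := h1 a ha
        rw [eq_inv_mul_iff_mul_eq, ← mul_assoc, ← h2, mul_inv_cancel_right] }
  have hCn : C.Normal := by
    constructor
    rintro _ ⟨⟨v, rfl⟩, h1⟩ h
    obtain ⟨u, hu⟩ := hconj h v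
    refine ⟨⟨u, hu⟩, fun a ha => ?_⟩
    obtain ⟨w, hw⟩ := htr o (h • o)
    have hk : (m w)⁻¹ * h ∈ K := by
      change ((m w)⁻¹ * h) • o = o
      rw [mul_smul, ← hw, inv_smul_smul]
    obtain ⟨u', hu'⟩ := hconj ((m w)⁻¹ * h) v
    have e1 : h * m v * h⁻¹ = m u' := by
      have : h * m v * h⁻¹ = m w * (((m w)⁻¹ * h) * m v * ((m w)⁻¹ * h)⁻¹) * (m w)⁻¹ := by group
      rw [this, ← hu', mcomm w u', mul_inv_cancel_right]
    rw [e1, hu']
    set k : K := ⟨(m w)⁻¹ * h, hk⟩ with hkdef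
    have e2 : (((k⁻¹ * a * k : K)) : H) * m v = m v * ((k⁻¹ * a * k : K) : H) := by
      apply h1
      have := hAn.conj_mem a ha k⁻¹
      rwa [inv_inv] at this
    have e3 : ((k : K) : H) = (m w)⁻¹ * h := rfl
    rw [← e3]
    have e4 : ((k⁻¹ * a * k : K) : H) = (k : H)⁻¹ * (a : H) * (k : H) := rfl
    rw [e4] at e2
    calc (a : H) * ((k : H) * m v * (k : H)⁻¹)
        = (k : H) * (((k : H)⁻¹ * (a : H) * (k : H)) * m v) * (k : H)⁻¹ := by group
      _ = (k : H) * (m v * ((k : H)⁻¹ * (a : H) * (k : H))) * (k : H)⁻¹ := by rw [e2]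
      _ = _ := by group
  have hAfix : ∀ a : K, (a : H) • o = o := fun a => a.2
  have hCfix : fixedPoints C Ω = Set.univ := by
    by_contra hcon
    have htrC : IsPretransitive C Ω := IsQuasiPreprimitive.isPretransitive_of_normal hcon
    apply hA0
    rw [eq_bot_iff]
    intro a ha
    rw [Subgroup.mem_bot]
    apply Subtype.ext
    apply FaithfulSMul.eq_of_smul_eq_smul (α := Ω)
    intro ω
    obtain ⟨⟨c, hc⟩, hcω⟩ := exists_smul_eq C o ω
    have h1 : c • o = ω := hcω
    change (a : H) • ω = (1 : H) • ω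
    rw [one_smul, ← h1, ← mul_smul, hc.2 a ha, mul_smul, hAfix]
  have hC1 : ∀ n ∈ C, n = 1 := by
    intro n hn
    apply FaithfulSMul.eq_of_smul_eq_smul (α := Ω)
    intro ω
    have : ω ∈ fixedPoints C Ω := by rw [hCfix]; trivial
    rw [one_smul]
    exact this ⟨n, hn⟩
  have hfixA : ∀ ω : Ω, (∀ a ∈ A, ((a : K) : H) • ω = ω) → ω = o := by
    intro ω hω
    obtain ⟨v, rfl⟩ := htr o ω
    have h1 : m v ∈ C := by
      refine ⟨⟨v, rfl⟩, fun a ha => ?_⟩
      obtain ⟨u, hu⟩ := hconj (a : H) v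
      have h2 : m u • o = m v • o := by
        rw [hu, mul_smul, mul_smul]
        have h3 : (a : H)⁻¹ • o = o := by rw [inv_smul_eq_iff]; exact (hAfix a).symm
        rw [h3, hω a ha]
      have h3 := model_inj m hadd hinj htr o h2
      rw [h3] at hu
      conv_rhs => rw [hu]
      group
    rw [hC1 _ h1, one_smul]
  have hqf : Fact q.Prime := hq
  have hAp : IsPGroup q A := by
    intro a
    refine ⟨1, Subtype.ext ?_⟩
    rw [pow_one]
    exact hAexp a a.2
  have h1 := hAp.card_modEq_card_fixedPoints Ω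
  have h2 : Nat.card (fixedPoints A Ω) = 1 := by
    rw [Nat.card_eq_one_iff_unique]
    refine ⟨⟨fun s t => Subtype.ext ?_⟩, ⟨⟨o, fun a => hAfix a⟩⟩⟩
    rw [hfixA s (fun a ha => s.2 ⟨a, ha⟩), hfixA t (fun a ha => t.2 ⟨a, ha⟩)]
  rw [h8, h2] at h1
  have hq7 : q = 7 := by
    have h3 : q ∣ 7 := by
      have := (Nat.modEq_iff_dvd' (by norm_num : 1 ≤ 8)).1 h1.symm
      simpa using this
    exact (Nat.prime_dvd_prime_iff_eq hq.1 (by norm_num)).1 h3
  subst hq7
  obtain ⟨⟨a, haA⟩, ha1⟩ := Subgroup.ne_bot_iff_exists_ne_one.1 hA0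
  have ha' : (a : H) ≠ 1 := by
    intro h
    apply ha1
    apply Subtype.ext
    exact Subtype.ext h
  have ha7 : (a : H) ^ 7 = 1 := by
    have := hAexp a haA
    exact congrArg Subtype.val this
  have hao : (a : H) • o = o := hAfix a
  obtain ⟨ω0, hω0, hω0T⟩ := hT'
  have hpo : ∀ j : ℕ, (a : H) ^ j • o = o := by
    intro j
    induction j with
    | zero => rw [pow_zero, one_smul]
    | succ j ih => rw [pow_succ, mul_smul, hao, ih]
  have horb : ∀ ω, ω ≠ o → ∃ j : ℕ, (a : H) ^ j • ω0 = ω := by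
    refine seven h8 o (a : H) ha' ha7 hao {ω | ∃ j : ℕ, (a : H) ^ j • ω0 = ω} ⟨ω0, 0, by simp⟩ ?_ ?_
    · rintro ⟨j, hj⟩
      apply hω0
      rw [← hpo j] at hj
      exact smul_left_cancel _ hj
    · rintro _ ⟨j, rfl⟩
      exact ⟨j + 1, by rw [pow_succ', mul_smul]⟩
  have hcent : ∀ g : H, g • o = o → g * (a : H) = (a : H) * g → ∃ j : ℕ, g = (a : H) ^ j := by
    intro g hgo hga
    have h3 : g • ω0 ≠ o := by
      intro h
      apply hω0
      rw [← hgo] at h
      exact smul_left_cancel _ h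
    obtain ⟨j, hj⟩ := horb _ h3
    refine ⟨j, ?_⟩
    apply FaithfulSMul.eq_of_smul_eq_smul (α := Ω)
    intro ω
    by_cases hω : ω = o
    · rw [hω, hgo, hpo]
    · obtain ⟨i, rfl⟩ := horb ω hω
      have h4 : g * (a : H) ^ i = (a : H) ^ i * g := (Commute.pow_right hga i)
      rw [← mul_smul, h4, mul_smul, ← hj, ← mul_smul, ← mul_smul, ← pow_add, ← pow_add, add_comm]
  have hnorm : ∀ g : H, g • o = o → ∃ j : ℕ, g * (a : H) * g⁻¹ = (a : H) ^ j := by
    intro g hgo
    apply hcent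
    · have h3 : g⁻¹ • o = o := by rw [inv_smul_eq_iff]; exact hgo.symm
      rw [mul_smul, mul_smul, h3, hao, hgo]
    · have h3 : (⟨g, hgo⟩ : K) * a * (⟨g, hgo⟩ : K)⁻¹ ∈ A := hAn.conj_mem a haA _
      exact congrArg Subtype.val (hAcomm _ h3 a haA)
  obtain ⟨i, hi⟩ := hnorm x hx
  obtain ⟨j, hj⟩ := hnorm y hy
  have e1 : (x * y) * (a : H) * (x * y)⁻¹ = (a : H) ^ (i * j) := by
    have : (x * y) * (a : H) * (x * y)⁻¹ = x * (y * (a : H) * y⁻¹) * x⁻¹ := by group
    rw [this, hj, ← conj_pow, hi, pow_mul]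
  have e2 : (y * x) * (a : H) * (y * x)⁻¹ = (a : H) ^ (i * j) := by
    have : (y * x) * (a : H) * (y * x)⁻¹ = y * (x * (a : H) * x⁻¹) * y⁻¹ := by group
    rw [this, hi, ← conj_pow, hj, mul_comm, pow_mul]
  set c := (y * x)⁻¹ * (x * y) with hc
  have hinvo : ∀ g : H, g • o = o → g⁻¹ • o = o := by
    intro g hg
    rw [inv_smul_eq_iff]; exact hg.symm
  have hco : c • o = o := by
    rw [hc, mul_smul, mul_smul, hy, hx, hinvo]
    rw [mul_smul, hx, hy]
  have hca : c * (a : H) = (a : H) * c := by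
    have e3 := e1.trans e2.symm
    rw [hc]
    have e4 : (x * y) * (a : H) = (y * x) * (a : H) * (y * x)⁻¹ * (x * y) := by
      rw [← e3]; group
    rw [mul_assoc, e4]
    group
  obtain ⟨l, hl⟩ := hcent c hco hca
  by_cases hc1 : c = 1
  · rw [hc, inv_mul_eq_one] at hc1
    exact hc1.symm
  · exfalso
    have hc7 : c ^ 7 = 1 := by
      rw [hl, ← pow_mul, mul_comm, pow_mul, ha7, one_pow]
    refine hω0T (seven h8 o c hc1 hc7 hco T hT hoT ?_ ω0 hω0)
    intro ω hω
    rw [hc, mul_inv_rev, mul_smul, mul_smul, mul_smul]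
    have inv : ∀ g : H, (∀ ω, g • ω ∈ T ↔ ω ∈ T) → ∀ ω, ω ∈ T → g⁻¹ • ω ∈ T := by
      intro g hg ω hω
      rw [← hg, smul_inv_smul]
      exact hω
    exact inv x hxT _ (inv y hyT _ ((hxT _).2 ((hyT _).2 hω)))

end model

end V1130.TwoCol
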