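import Mathlib
import Pool.Agent.V1130.TwoColPrim
import Pool.Agent.V1130.ThreeColMain

/-!
Two-colourings for arbitrary actions of solvable groups.
-/

namespace V1130.TwoCol

open Equiv MulAction
open scoped Pointwise

theorem odd_fix {X : Type} {F : X → X} (hF : OddMap F) {x : X} {k : ℕ} (h : F^[2 ^ k] x = x) :
    F x = x := by
  obtain ⟨n, hn, hFn⟩ := hF
  have h1 : Function.IsPeriodicPt F (2 ^ k) x := h
  have h2 : Function.IsPeriodicPt F n x := hFn x
  have h3 := h1.gcd h2
  have h4 : Nat.gcd (2 ^ k) n = 1 := Nat.Coprime.pow_left k (Nat.coprime_two_left.2 hn)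
  rw [h4] at h3
  exact h3

theorem oddMap_semiconj {X Y : Type} {F : X → X} {G : Y → Y} (e : X ≃ Y)
    (h : ∀ x, e (F x) = G (e x)) (hG : OddMap G) : OddMap F := by
  obtain ⟨n, hn, hGn⟩ := hG
  refine ⟨n, hn, fun x => ?_⟩
  have h1 : Function.Semiconj e F G := h
  have h2 := (h1.iterate_right n).eq x
  apply e.injective
  rw [h2, hGn]

section

variable {Ω H V : Type} [Finite Ω] [Nontrivial Ω] [Group H] [MulAction H Ω]
    [FaithfulSMul H Ω] [AddCommGroup V]

theorem eight_three [Module (ZMod 2) V] [Group.IsSolvable H] [IsPreprimitive H Ω] (m : V → H)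
    (hadd : ∀ u v, m (u + v) = m u * m v) (hinj : Function.Injective m)
    (hconj : ∀ (h : H) (v : V), ∃ u, m u = h * m v * h⁻¹)
    (htr : ∀ x y : Ω, ∃ v, m v • x = y) (h8 : Nat.card Ω = 8) : ActThree H Ω := by
  classical
  obtain ⟨e, he⟩ := affine_model (Ω := Ω) (p := 2) m hadd hinj hconj htr
  have hfV : Finite V := Finite.of_equiv _ e.symm
  have _ := Fintype.ofFinite V
  have _ := Fintype.ofFinite Ω
  have hcV : Fintype.card V = 8 := by
    rw [← Nat.card_eq_fintype_card, Nat.card_congr e, h8]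
  have hx2 : ∀ x : V, x + x = 0 := by
    intro x
    have : (2 : ZMod 2) • x = x + x := two_smul _ _
    rw [← this, show (2 : ZMod 2) = 0 from rfl, zero_smul]
  have hout : ∀ s : Set Ω, s.ncard < 8 → ∃ ω, ω ∉ s := by
    intro s hs
    by_contra hcon
    push Not at hcon
    have : s = Set.univ := by ext ω; simp [hcon ω]
    rw [this, Set.ncard_univ, h8] at hs
    omega
  -- the set with two elements
  obtain ⟨s1, s2, hs12⟩ := exists_pair_ne Ω
  have h0 : ActGood H ({s1, s2} : Set Ω) := by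
    have pf : ∀ g : H, OddMap (fun ω : Ω => g • ω) →
        (∀ ω : Ω, g • ω ∈ ({s1, s2} : Set Ω) ↔ ω ∈ ({s1, s2} : Set Ω)) →
        g • s1 = s1 ∧ g • s2 = s2 := by
      intro g hg hgS
      have a1 : g • s1 = s1 ∨ g • s1 = s2 := (hgS s1).2 (Or.inl rfl)
      have a2 : g • s2 = s1 ∨ g • s2 = s2 := (hgS s2).2 (Or.inr rfl)
      rcases a1 with a1 | a1
      · refine ⟨a1, ?_⟩
        rcases a2 with a2 | a2
        · exact absurd (smul_left_cancel g (a1.trans a2.symm)) hs12
        · exact a2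
      · exfalso
        rcases a2 with a2 | a2
        · have : g • s1 = s1 := by
            apply odd_fix hg (k := 1)
            change g • g • s1 = s1
            rw [a1, a2]
          rw [this] at a1
          exact hs12 a1
        · exact hs12 (smul_left_cancel g (a1.trans a2.symm))
    intro g h hg hh hgS hhS ω
    obtain ⟨g1, g2⟩ := pf g hg hgS
    obtain ⟨k1, k2⟩ := pf h hh hhS
    obtain ⟨ω', hω'⟩ := hout {s1, s2} (by rw [Set.ncard_pair hs12]; norm_num)
    have hsing : ∀ g : H, g • s2 = s2 → ∀ ω : Ω, g • ω ∈ ({s2} : Set Ω) ↔ ω ∈ ({s2} : Set Ω) := by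
      intro g hg ω
      rw [Set.mem_singleton_iff, Set.mem_singleton_iff]
      constructor
      · intro h; rw [← hg] at h; exact smul_left_cancel _ h
      · rintro rfl; exact hg
    have := comm_stab m hadd hinj hconj htr h8 s1 {s2} ⟨s2, rfl⟩
      ⟨ω', fun h => hω' (Or.inl h), fun h => hω' (Or.inr h)⟩ hs12 g h g1 k1 (hsing g g2) (hsing h k2)
    rw [← mul_smul, this, mul_smul]
  -- the set with three elements
  obtain ⟨S, -, hS⟩ := Finset.exists_subset_card_eq (s := (Finset.univ : Finset V)) (n := 3)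
    (by rw [Finset.card_univ, hcV]; norm_num)
  obtain ⟨u, v, w, huv, huw, hvw, hSe⟩ := Finset.card_eq_three.1 hS
  have hsum : ∑ x ∈ S, x = u + (v + w) := by
    rw [hSe, Finset.sum_insert (by simp [huv, huw]), Finset.sum_pair hvw]
  have hTc : (e '' (S : Set V)).ncard = 3 := by
    rw [Set.ncard_image_of_injective _ e.injective, Set.ncard_coe_finset, hS]
  have h1 : ActGood H (e '' (S : Set V)) := by
    have pf : ∀ g : H, (∀ ω, g • ω ∈ e '' (S : Set V) ↔ ω ∈ e '' (S : Set V)) →
        g • e (u + (v + w)) = e (u + (v + w)) := by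
      intro g hgS
      obtain ⟨F, hF⟩ := he g
      rw [← hF, three_sum]
      have hFi : Function.Injective F := by
        intro a b hab
        apply e.injective
        apply smul_left_cancel g
        rw [← hF, ← hF, hab]
      have hFS : ∀ x ∈ S, F x ∈ S := by
        intro x hx
        obtain ⟨y, hy, hy'⟩ := (hgS (e x)).2 ⟨x, hx, rfl⟩
        rw [← hF] at hy'
        rw [← e.injective hy']
        exact hy
      have him : S.image F = S := by
        apply Finset.eq_of_subset_of_card_le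
        · intro y hy
          obtain ⟨x, hx, rfl⟩ := Finset.mem_image.1 hy
          exact hFS x hx
        · rw [Finset.card_image_of_injective _ hFi]
      have : ∑ x ∈ S, F x = ∑ x ∈ S, x := by
        conv_rhs => rw [← him, Finset.sum_image (fun a _ b _ h => hFi h)]
      rw [hsum, hSe, Finset.sum_insert (by simp [huv, huw]), Finset.sum_pair hvw] at this
      rw [this]
    have hne : e (u + (v + w)) ∉ e '' (S : Set V) := by
      rintro ⟨x, hx, hx'⟩
      have hx'' := e.injective hx'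
      rw [hSe] at hx
      simp only [Finset.coe_insert, Finset.coe_singleton, Set.mem_insert_iff,
        Set.mem_singleton_iff] at hx
      have neg : ∀ a b : V, a + b = 0 → a = b := by
        intro a b hab
        have h3 : a + b + b = b := by rw [hab, zero_add]
        rwa [add_assoc, hx2, add_zero] at h3
      rcases hx with rfl | rfl | rfl
      · exact hvw (neg v w (left_eq_add.1 hx''))
      · apply huw
        apply neg
        have : x + (u + w) = x + 0 := by
          rw [add_zero]; conv_rhs => rw [hx'']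
          abel
        exact add_left_cancel this
      · apply huv
        apply neg
        have : x + (u + v) = x + 0 := by
          rw [add_zero]; conv_rhs => rw [hx'']
          abel
        exact add_left_cancel this
    intro g h hg hh hgS hhS ω
    obtain ⟨ω', hω'⟩ := hout (insert (e (u + (v + w))) (e '' (S : Set V)))
      (by
        have := Set.ncard_insert_le (e (u + (v + w))) (e '' (S : Set V))
        omega)
    have := comm_stab m hadd hinj hconj htr h8 (e (u + (v + w))) (e '' (S : Set V))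
      (by
        rw [← Set.ncard_pos (Set.toFinite _), hTc]; norm_num)
      ⟨ω', fun h => hω' (Or.inl h), fun h => hω' (Or.inr h)⟩ hne g h (pf g hgS) (pf h hhS) hgS hhS
    rw [← mul_smul, this, mul_smul]
  refine actThree_of _ _ _ h0 h1 h1.compl ?_ ?_ ?_
  · rw [Set.ncard_pair hs12, hTc]; norm_num
  · rw [Set.ncard_pair hs12, Set.ncard_compl, h8, hTc]; norm_num
  · rw [Set.ncard_compl, h8, hTc]; norm_num

omit [Finite Ω] [Nontrivial Ω] [FaithfulSMul H Ω] in
theorem act_of_aff {p : ℕ} [hp : Fact p.Prime] [Module (ZMod p) V] (e : V ≃ Ω)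
    (he : ∀ h : H, ∃ F : V →ᵃ[ZMod p] V, ∀ v, e (F v) = h • e v)
    (h : AffThree (ZMod p) V) : ActThree H Ω := by
  obtain ⟨S, hS, hG⟩ := h
  refine ⟨fun i => e '' S i, ?_, ?_⟩
  · intro i j hij
    simp only [Set.ncard_image_of_injective _ e.injective] at hij
    exact hS hij
  · intro i g h hg hh hgS hhS ω
    obtain ⟨F, hF⟩ := he g
    obtain ⟨G, hG'⟩ := he h
    have tr : ∀ (g : H) (F : V →ᵃ[ZMod p] V), (∀ v, e (F v) = g • e v) →
        (∀ ω, g • ω ∈ e '' S i ↔ ω ∈ e '' S i) → ∀ v, F v ∈ S i ↔ v ∈ S i := by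
      intro g F hF hgS v
      have h1 := hgS (e v)
      rw [← hF] at h1
      rwa [e.injective.mem_set_image, e.injective.mem_set_image] at h1
    have h1 := hG i F G (oddMap_semiconj e hF hg) (oddMap_semiconj e hG' hh) (tr g F hF hgS)
      (tr h G hG' hhS)
    obtain ⟨v, rfl⟩ := e.surjective ω
    rw [← hG', ← hF, h1, hG', hF]

end

theorem prim {Ω G : Type} [Finite Ω] [Nontrivial Ω] [Group G] [Group.IsSolvable G] [MulAction G Ω]
    [IsPreprimitive G Ω] : ActThree G Ω := by
  by_cases h4 : Nat.card Ω ≤ 4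
  · exact small_three h4
  let H := (MulAction.toPermHom G Ω).range
  have hsolv : Group.IsSolvable H :=
    Group.isSolvable_of_surjective (MulAction.toPermHom G Ω).rangeRestrict_surjective
  let f : Ω →ₑ[(MulAction.toPermHom G Ω).rangeRestrict] Ω := ⟨id, fun g x => rfl⟩
  have hprim : IsPreprimitive H Ω := IsPreprimitive.of_surjective (f := f) Function.surjective_id
  have hnt : Nontrivial H := by
    by_contra hN
    rw [not_nontrivial_iff_subsingleton] at hN
    obtain ⟨x, y, hxy⟩ := exists_pair_ne Ω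
    obtain ⟨g, hg⟩ := exists_smul_eq H x y
    rw [Subsingleton.elim g 1, one_smul] at hg
    exact hxy hg
  obtain ⟨p, hp, N, hN, hN0, hcomm, hexp⟩ := ThreeCol.exists_elementary H
  have htr : IsPretransitive N Ω := by
    apply IsQuasiPreprimitive.isPretransitive_of_normal
    intro hfix
    apply hN0
    rw [eq_bot_iff]
    intro x hx
    rw [Subgroup.mem_bot]
    apply Subtype.ext
    apply Equiv.ext
    intro ω
    have : ω ∈ fixedPoints N Ω := by rw [hfix]; trivial
    exact this ⟨x, hx⟩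
  let _ : CommGroup N := { (inferInstance : Group N) with
    mul_comm := fun x y => Subtype.ext (hcomm x x.2 y y.2) }
  let _ : Module (ZMod p) (Additive N) := AddCommGroup.zmodModule (fun x => by
    change Additive.ofMul ((Additive.toMul x) ^ p) = 0
    have : (Additive.toMul x) ^ p = 1 := Subtype.ext (hexp _ (Additive.toMul x).2)
    rw [this]
    rfl)
  let m : Additive N → H := fun v => ((Additive.toMul v : N) : H)
  have hadd : ∀ u v, m (u + v) = m u * m v := fun u v => rfl
  have hinj : Function.Injective m := fun u v h => Additive.toMul.injective (Subtype.ext h)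
  have hconj : ∀ (h : H) (v : Additive N), ∃ u, m u = h * m v * h⁻¹ := fun h v =>
    ⟨Additive.ofMul ⟨h * (Additive.toMul v : N) * h⁻¹, hN.conj_mem _ (Additive.toMul v).2 h⟩, rfl⟩
  have htr' : ∀ x y : Ω, ∃ v, m v • x = y := fun x y => by
    obtain ⟨n, hn⟩ := exists_smul_eq N x y
    exact ⟨Additive.ofMul n, hn⟩
  have hthree : ActThree H Ω := by
    obtain ⟨e, he⟩ := affine_model (Ω := Ω) (p := p) m hadd hinj hconj htr'
    have hfV : Finite (Additive N) := Finite.of_equiv _ e.symm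
    have hnV : Nontrivial (Additive N) := e.nontrivial
    by_cases hp2 : p = 2
    · subst hp2
      have hcV : Nat.card Ω = 2 ^ Module.finrank (ZMod 2) (Additive N) := by
        rw [← Nat.card_congr e, Module.natCard_eq_pow_finrank (K := ZMod 2), Nat.card_zmod]
      by_cases hd4 : 4 ≤ Module.finrank (ZMod 2) (Additive N)
      · exact act_of_aff e he (affine_two hd4)
      · have hd3 : Module.finrank (ZMod 2) (Additive N) = 3 := by
          by_contra hne
          have h5 : Module.finrank (ZMod 2) (Additive N) ≤ 2 := by omega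
          have h6 : 2 ^ Module.finrank (ZMod 2) (Additive N) ≤ 2 ^ 2 :=
            Nat.pow_le_pow_right (by norm_num) h5
          omega
        rw [hd3] at hcV
        exact eight_three m hadd hinj hconj htr' hcV
    · exact act_of_aff e he (affine_odd hp2)
  obtain ⟨S, hS, hG⟩ := hthree
  refine ⟨S, hS, fun i g h hg hh hgS hhS ω => ?_⟩
  exact hG i ((MulAction.toPermHom G Ω).rangeRestrict g) ((MulAction.toPermHom G Ω).rangeRestrict h)
    hg hh hgS hhS ω

theorem transitive_case {G Ω : Type} [Finite Ω] [Group G] [Group.IsSolvable G] [MulAction G Ω]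
    [IsPretransitive G Ω] : ∃ S : Set Ω, ActGood G S := by
  classical
  rcases subsingleton_or_nontrivial Ω with hΩ | hΩ
  · exact ⟨∅, fun g h _ _ _ _ ω => Subsingleton.elim _ _⟩
  by_cases hprim : IsPreprimitive G Ω
  · obtain ⟨S, _, h⟩ := prim (G := G) (Ω := Ω)
    exact ⟨S 0, h 0⟩
  let 𝓑 : Set (Set Ω) := {B | IsBlock G B ∧ ¬ B.Subsingleton ∧ B ≠ Set.univ}
  have hne : 𝓑.Nonempty := by
    by_contra hemp
    apply hprim
    refine { isTrivialBlock_of_isBlock := ?_ }
    intro B hB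
    by_contra hB'
    rw [IsTrivialBlock, not_or] at hB'
    exact hemp ⟨B, hB, hB'.1, hB'.2⟩
  obtain ⟨B, ⟨hB, hBs, hBu⟩, hmin⟩ := Set.exists_min_image 𝓑 Set.ncard (Set.toFinite _) hne
  have hBprim : IsPreprimitive (stabilizer G B) B := by
    apply ThreeCol.stab_preprimitive B hB
    intro B' hB' hs' hsub
    have h1 : B' ≠ Set.univ := by
      rintro rfl
      exact hBu (Set.univ_subset_iff.1 hsub)
    exact Set.eq_of_subset_of_ncard_le hsub (hmin B' ⟨hB', hs', h1⟩) (Set.toFinite _)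
  rw [Set.not_subsingleton_iff] at hBs
  have hBn : Nontrivial B := hBs.coe_sort
  obtain ⟨S0, hS0, hS0'⟩ := prim (G := stabilizer G B) (Ω := B)
  obtain ⟨c, hc⟩ := ThreeCol.exists_good (Nat.card (orbit G B)) (orbit G B) G rfl
  obtain ⟨b0, hb0⟩ := hBs.nonempty
  choose t ht using fun ω : Ω => exists_smul_eq G b0 ω
  let q : Ω → orbit G B := fun ω => ⟨t ω • B, mem_orbit _ _⟩
  have q_mem : ∀ ω, ω ∈ (q ω : Set Ω) := by
    intro ω
    have h1 : t ω • b0 ∈ t ω • B := Set.smul_mem_smul_set hb0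
    rw [ht] at h1
    exact h1
  choose s hs using fun Q : orbit G B => Q.2
  have hs' : ∀ Q : orbit G B, s Q • B = (Q : Set Ω) := hs
  have q_uniq : ∀ ω (Q : orbit G B), ω ∈ (Q : Set Ω) → Q = q ω := by
    intro ω Q hω
    apply Subtype.ext
    change (Q : Set Ω) = t ω • B
    rw [← hs' Q] at hω ⊢
    have h1 : ((t ω)⁻¹ * s Q) • B = B := by
      apply hB.smul_eq_of_nonempty
      refine ⟨(t ω)⁻¹ • ω, ?_, ?_⟩
      · rw [mul_smul]
        exact Set.smul_mem_smul_set hω
      · rw [← Set.mem_smul_set_iff_inv_smul_mem]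
        exact q_mem ω
    rw [mul_smul, inv_smul_eq_iff] at h1
    exact h1
  let S : Set Ω := {ω | (s (q ω))⁻¹ • ω ∈ (Subtype.val '' S0 (c (q ω)) : Set Ω)}
  have hSm : ∀ (Q : orbit G B) (x : B), s Q • (x : Ω) ∈ S ↔ x ∈ S0 (c Q) := by
    intro Q x
    have h1 : q (s Q • (x : Ω)) = Q := by
      refine (q_uniq _ Q ?_).symm
      rw [← hs' Q]
      exact Set.smul_mem_smul_set x.2
    change (s (q (s Q • (x : Ω))))⁻¹ • s Q • (x : Ω) ∈
      (Subtype.val '' S0 (c (q (s Q • (x : Ω)))) : Set Ω) ↔ _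
    rw [h1, inv_smul_smul, Subtype.val_injective.mem_set_image]
  have hstab : ∀ (g : G) (Q : orbit G B), (s (g • Q))⁻¹ * g * s Q ∈ stabilizer G B := by
    intro g Q
    rw [mem_stabilizer_iff, mul_smul, mul_smul, hs' Q, inv_smul_eq_iff, hs' (g • Q)]
    rfl
  have hkey : ∀ g : G, (∀ ω, g • ω ∈ S ↔ ω ∈ S) → ∀ (Q : orbit G B),
      (∀ x : B, (⟨_, hstab g Q⟩ : stabilizer G B) • x ∈ S0 (c (g • Q)) ↔ x ∈ S0 (c Q)) ∧
      c (g • Q) = c Q := by
    intro g hg Q
    let h : stabilizer G B := ⟨_, hstab g Q⟩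
    have h1 : ∀ x : B, h • x ∈ S0 (c (g • Q)) ↔ x ∈ S0 (c Q) := by
      intro x
      rw [← hSm (g • Q) (h • x), ← hSm Q x, ← hg (s Q • (x : Ω))]
      have e2 : s (g • Q) • ((h • x : B) : Ω) = g • s Q • (x : Ω) := by
        rw [ThreeCol.stabAct_coe]
        change s (g • Q) • ((s (g • Q))⁻¹ * g * s Q) • (x : Ω) = _
        rw [← mul_smul, ← mul_smul]
        congr 1
        group
      rw [e2]
    refine ⟨h1, ?_⟩
    apply hS0
    change (S0 (c (g • Q))).ncard = (S0 (c Q)).ncard
    have h2 : S0 (c (g • Q)) = (fun x : B => h • x) '' S0 (c Q) := by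
      ext y
      constructor
      · intro hy
        refine ⟨h⁻¹ • y, ?_, smul_inv_smul _ _⟩
        rw [← h1, smul_inv_smul]
        exact hy
      · rintro ⟨x, hx, rfl⟩
        exact (h1 x).2 hx
    rw [h2, Set.ncard_image_of_injective _ (MulAction.injective h)]
  have hfixQ : ∀ g : G, OddMap (fun ω : Ω => g • ω) → (∀ ω, g • ω ∈ S ↔ ω ∈ S) →
      ∀ Q : orbit G B, g • Q = Q := by
    intro g hgo hg Q
    obtain ⟨k, hk⟩ := hc g (fun Q => (hkey g hg Q).2) Q
    have hodd : OddMap (fun Q : orbit G B => g • Q) := by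
      obtain ⟨n, hn, hgn⟩ := hgo
      refine ⟨n, hn, fun Q => ?_⟩
      have h1 : ∀ ω : Ω, g ^ n • ω = ω := by
        intro ω
        have := hgn ω
        rwa [smul_iterate] at this
      rw [smul_iterate]
      change g ^ n • Q = Q
      apply Subtype.ext
      change g ^ n • (Q : Set Ω) = Q
      ext ω
      rw [Set.mem_smul_set]
      constructor
      · rintro ⟨x, hx, rfl⟩
        rw [h1]; exact hx
      · intro hω
        exact ⟨ω, hω, h1 ω⟩
    apply odd_fix hodd (k := k)
    rw [smul_iterate]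
    exact hk
  have hstabQ : ∀ (g : G) (Q : orbit G B), g • Q = Q → (s Q)⁻¹ * g * s Q ∈ stabilizer G B := by
    intro g Q hgQ
    have := hstab g Q
    rwa [hgQ] at this
  have hpres : ∀ (g : G), (∀ ω, g • ω ∈ S ↔ ω ∈ S) → ∀ (Q : orbit G B) (hgQ : g • Q = Q),
      ∀ x : B, (⟨_, hstabQ g Q hgQ⟩ : stabilizer G B) • x ∈ S0 (c Q) ↔ x ∈ S0 (c Q) := by
    intro g hg Q hgQ x
    have h1 := (hkey g hg Q).1 x
    have h2 : (⟨_, hstab g Q⟩ : stabilizer G B) = ⟨_, hstabQ g Q hgQ⟩ := by
      apply Subtype.ext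
      change (s (g • Q))⁻¹ * g * s Q = (s Q)⁻¹ * g * s Q
      rw [hgQ]
    rw [h2, hgQ] at h1
    exact h1
  have hoddB : ∀ (g : G), OddMap (fun ω : Ω => g • ω) → ∀ (Q : orbit G B) (hgQ : g • Q = Q),
      OddMap (fun x : B => (⟨_, hstabQ g Q hgQ⟩ : stabilizer G B) • x) := by
    rintro g ⟨n, hn, hgn⟩ Q hgQ
    refine ⟨n, hn, fun x => ?_⟩
    rw [smul_iterate]
    apply Subtype.ext
    change (((⟨(s Q)⁻¹ * g * s Q, hstabQ g Q hgQ⟩ : stabilizer G B) ^ n • x : B) : Ω) = x
    rw [ThreeCol.stabAct_coe]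
    have h4 : ((((⟨(s Q)⁻¹ * g * s Q, hstabQ g Q hgQ⟩ : stabilizer G B) ^ n :
        stabilizer G B)) : G) = (s Q)⁻¹ * g ^ n * s Q := by
      change ((s Q)⁻¹ * g * s Q) ^ n = _
      have : ((s Q)⁻¹ * g * ((s Q)⁻¹)⁻¹) ^ n = (s Q)⁻¹ * g ^ n * ((s Q)⁻¹)⁻¹ := conj_pow
      rwa [inv_inv] at this
    rw [h4, mul_smul, mul_smul]
    have h5 : g ^ n • s Q • (x : Ω) = s Q • (x : Ω) := by
      have := hgn (s Q • (x : Ω))
      rwa [smul_iterate] at this
    rw [h5, inv_smul_smul]
  refine ⟨S, fun g h hg hh hgS hhS ω => ?_⟩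
  set Q := q ω with hQ
  have hgQ := hfixQ g hg hgS Q
  have hhQ := hfixQ h hh hhS Q
  have hx : (s Q)⁻¹ • ω ∈ B := by
    rw [← Set.mem_smul_set_iff_inv_smul_mem, hs' Q]
    exact q_mem ω
  have h3 := hS0' (c Q) _ _ (hoddB g hg Q hgQ) (hoddB h hh Q hhQ) (hpres g hgS Q hgQ)
    (hpres h hhS Q hhQ) ⟨_, hx⟩
  have h4 := congrArg Subtype.val h3
  rw [ThreeCol.stabAct_coe, ThreeCol.stabAct_coe, ThreeCol.stabAct_coe, ThreeCol.stabAct_coe] at h4
  change ((s Q)⁻¹ * g * s Q) • ((s Q)⁻¹ * h * s Q) • (s Q)⁻¹ • ω =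
    ((s Q)⁻¹ * h * s Q) • ((s Q)⁻¹ * g * s Q) • (s Q)⁻¹ • ω at h4
  simp only [mul_smul, smul_inv_smul] at h4
  exact smul_left_cancel _ h4

theorem exists_good (G Ω : Type) [Finite Ω] [Group G] [Group.IsSolvable G] [MulAction G Ω] :
    ∃ S : Set Ω, ActGood G S := by
  choose Γ hΓ using fun ω : Ω => transitive_case (G := G) (Ω := orbit G ω)
  let r : Ω → Ω := fun ω => Quotient.out (s := orbitRel G Ω) (Quotient.mk _ ω)
  have r_rel : ∀ ω, r ω ∈ orbit G ω := by
    intro ω
    have := Quotient.mk_out (s := orbitRel G Ω) ω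
    exact orbitRel_apply.1 this
  have r_eq : ∀ ω ω', ω ∈ orbit G ω' → r ω = r ω' := by
    intro ω ω' h
    have : (Quotient.mk (orbitRel G Ω) ω) = Quotient.mk _ ω' :=
      Quotient.sound (orbitRel_apply.2 h)
    change Quotient.out _ = Quotient.out _
    rw [this]
  have hmem : ∀ ω, ω ∈ orbit G (r ω) := fun ω => mem_orbit_symm.1 (r_rel ω)
  let S : Set Ω := {ω | (⟨ω, hmem ω⟩ : orbit G (r ω)) ∈ Γ (r ω)}
  have hSm : ∀ ω ρ (h : ω ∈ orbit G ρ), r ω = ρ → (ω ∈ S ↔ (⟨ω, h⟩ : orbit G ρ) ∈ Γ ρ) := by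
    rintro ω ρ h rfl
    rfl
  have hinv : ∀ g : G, (∀ ω, g • ω ∈ S ↔ ω ∈ S) → ∀ ω, ∀ x : orbit G (r ω),
      g • x ∈ Γ (r ω) ↔ x ∈ Γ (r ω) := by
    intro g hg ω x
    have e1 : r x = r ω := by
      rw [r_eq _ _ x.2]
      exact r_eq _ _ (r_rel ω)
    have e2 : r (g • (x : Ω)) = r ω := by
      rw [r_eq (g • (x : Ω)) x (mem_orbit _ _), e1]
    have := hg x
    rw [hSm x (r ω) x.2 e1, hSm (g • (x : Ω)) (r ω) (g • x).2 e2] at this
    exact this
  have hodd : ∀ g : G, OddMap (fun ω : Ω => g • ω) → ∀ ω, OddMap (fun x : orbit G (r ω) => g • x) := by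
    rintro g ⟨n, hn, hgn⟩ ω
    refine ⟨n, hn, fun x => ?_⟩
    rw [smul_iterate]
    apply Subtype.ext
    have := hgn x
    rwa [smul_iterate] at this
  refine ⟨S, fun g h hg hh hgS hhS ω => ?_⟩
  have h1 := hΓ (r ω) g h (hodd g hg ω) (hodd h hh ω) (hinv g hgS ω) (hinv h hhS ω) ⟨ω, hmem ω⟩
  exact congrArg Subtype.val h1

end V1130.TwoCol
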