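import Mathlib

namespace V1130

/-- Automorphisms of a finite power `G^n` of a nontrivial centreless group `G` any two of whose
nontrivial normal subgroups meet nontrivially permute the factors. -/
theorem aut_pi {G : Type*} [Group G] [Nontrivial G]
    (h1 : ∀ M N : Subgroup G, M.Normal → N.Normal → M ⊓ N = ⊥ → M = ⊥ ∨ N = ⊥)
    (hc : Subgroup.center G = ⊥) {n : ℕ} (φ : (Fin n → G) ≃* (Fin n → G)) :
    ∃ (σ : Equiv.Perm (Fin n)) (ψ : Fin n → G →* G), (∀ j, Function.Injective (ψ j)) ∧
      ∀ x j, φ x j = ψ j (x (σ j)) := by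
  classical
  let f : Fin n → Fin n → G →* G := fun i j =>
    (Pi.evalMonoidHom (fun _ => G) j).comp (φ.toMonoidHom.comp (MonoidHom.mulSingle (fun _ => G) i))
  have hf : ∀ i j g, f i j g = φ (Pi.mulSingle i g) j := fun _ _ _ => rfl
  -- ranges are normal
  have hnorm : ∀ i j, (f i j).range.Normal := by
    intro i j
    refine ⟨?_⟩
    rintro _ ⟨g, rfl⟩ y
    obtain ⟨x, hx⟩ := φ.surjective (Pi.mulSingle j y)
    refine ⟨x i * g * (x i)⁻¹, ?_⟩
    have h2 : (Pi.mulSingle i (x i * g * (x i)⁻¹) : Fin n → G) =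
        x * Pi.mulSingle i g * x⁻¹ := by
      funext l
      by_cases hl : l = i
      · subst hl; simp
      · simp [Pi.mulSingle_eq_of_ne hl]
    rw [hf, h2, map_mul, map_mul, map_inv, hx]
    simp [hf]
  -- elements in different ranges commute
  have hcomm : ∀ i i' j, i ≠ i' → ∀ g g', f i j g * f i' j g' = f i' j g' * f i j g := by
    intro i i' j hii g g'
    have h3 : Commute (Pi.mulSingle i g : Fin n → G) (Pi.mulSingle i' g') :=
      Pi.mulSingle_commute (f := fun _ : Fin n => G) hii g g'
    have h4 := congrArg (fun z => φ z j) h3.eq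
    simpa [hf] using h4
  -- at most one nontrivial range for each `j`
  have huniq : ∀ i i' j, i ≠ i' → (f i j).range = ⊥ ∨ (f i' j).range = ⊥ := by
    intro i i' j hii
    apply h1 _ _ (hnorm i j) (hnorm i' j)
    rw [eq_bot_iff]
    rintro z ⟨⟨g, hg⟩, ⟨g', hg'⟩⟩
    rw [← hc, Subgroup.mem_center_iff]
    intro y
    obtain ⟨x, hx⟩ := φ.surjective (Pi.mulSingle j y)
    have hy : φ x j = y := by rw [hx]; simp
    let C : Subgroup (Fin n → G) := (Subgroup.centralizer {z}).comap
      ((Pi.evalMonoidHom (fun _ => G) j).comp φ.toMonoidHom)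
    have hxC : x ∈ C := by
      apply Subgroup.pi_mem_of_mulSingle_mem
      intro l
      rw [Subgroup.mem_comap, Subgroup.mem_centralizer_iff]
      rintro w rfl
      change w * f l j (x l) = f l j (x l) * w
      by_cases hl : l = i
      · have : i' ≠ l := by rw [hl]; exact hii.symm
        rw [← hg']
        exact hcomm i' l j this g' (x l)
      · rw [← hg]
        exact hcomm i l j (fun h => hl h.symm) g (x l)
    rw [Subgroup.mem_comap, Subgroup.mem_centralizer_iff] at hxC
    have := hxC z rfl
    change z * φ x j = φ x j * z at this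
    rw [hy] at this
    exact this.symm
  have hex : ∀ j, ∃ i, ∀ i', i' ≠ i → ∀ g, f i' j g = 1 := by
    intro j
    by_cases h : ∃ i, (f i j).range ≠ ⊥
    · obtain ⟨i, hi⟩ := h
      refine ⟨i, fun i' hi' g => ?_⟩
      have := (huniq i i' j hi'.symm).resolve_left hi
      rw [← Subgroup.mem_bot, ← this]
      exact ⟨g, rfl⟩
    · push Not at h
      refine ⟨j, fun i' _ g => ?_⟩
      rw [← Subgroup.mem_bot, ← h i']
      exact ⟨g, rfl⟩
  choose σ hσ using hex
  have hker : ∀ j (x : Fin n → G), x (σ j) = 1 → φ x j = 1 := by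
    intro j x hx
    let C : Subgroup (Fin n → G) := ((Pi.evalMonoidHom (fun _ => G) j).comp φ.toMonoidHom).ker
    have hxC : x ∈ C := by
      apply Subgroup.pi_mem_of_mulSingle_mem
      intro l
      rw [MonoidHom.mem_ker]
      change f l j (x l) = 1
      by_cases hl : l = σ j
      · rw [hl, hx, map_one]
      · exact hσ j l hl _
    exact hxC
  have hform : ∀ x j, φ x j = f (σ j) j (x (σ j)) := by
    intro x j
    have h5 := hker j (x * (Pi.mulSingle (σ j) (x (σ j)))⁻¹) (by simp)
    rw [map_mul, map_inv, Pi.mul_apply, Pi.inv_apply, mul_inv_eq_one] at h5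
    exact h5
  have hsurj : Function.Surjective σ := by
    intro i
    by_contra hcon
    push Not at hcon
    obtain ⟨g, hg⟩ := exists_ne (1 : G)
    have h6 : φ (Pi.mulSingle i g) = 1 := by
      funext j
      rw [hker j _ (Pi.mulSingle_eq_of_ne (hcon j) g)]
      rfl
    rw [MulEquiv.map_eq_one_iff] at h6
    exact hg (Pi.mulSingle_eq_one_iff.1 h6)
  have hbij : Function.Bijective σ := Finite.surjective_iff_bijective.1 hsurj
  refine ⟨Equiv.ofBijective σ hbij, fun j => f (σ j) j, fun j => ?_, fun x j => hform x j⟩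
  rw [injective_iff_map_eq_one]
  intro g hg
  have h7 : φ (Pi.mulSingle (σ j) g) = 1 := by
    funext j'
    rw [hform]
    by_cases hj : j' = j
    · subst hj
      simpa using hg
    · rw [Pi.mulSingle_eq_of_ne (fun h => hj (hbij.1 h)), map_one]
      rfl
  rw [MulEquiv.map_eq_one_iff] at h7
  exact Pi.mulSingle_eq_one_iff.1 h7

end V1130
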