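import Mathlib

/-!
The McLain group `M(ℚ, 𝔽₂)`: the subgroup of `GL(ℚ →₀ ZMod 2)` generated by the transvections
`v ↦ v + v(b) e_a`, `a < b`.  It is centreless, has no minimal normal subgroup, is
characteristically simple, and any two nontrivial normal subgroups meet nontrivially.
-/

namespace V1130.McLain

open Finsupp

/-- the space of finitely supported functions `ℚ → 𝔽₂`. -/
abbrev V := ℚ →₀ ZMod 2

/-- `g` is the transvection `v ↦ v + v(b) e_a`. -/
def IsTv (a b : ℚ) (g : V ≃ₗ[ZMod 2] V) : Prop := ∀ v : V, g v = v + single a (v b)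

theorem exists_tv {a b : ℚ} (h : a < b) : ∃ g : V ≃ₗ[ZMod 2] V, IsTv a b g := by
  refine ⟨LinearEquiv.transvection (f := Finsupp.lapply b) (v := Finsupp.single a 1)
    (by simp [h.ne]), fun v => ?_⟩
  rw [LinearEquiv.transvection.apply]
  simp

theorem IsTv.unique {a b : ℚ} {g h : V ≃ₗ[ZMod 2] V} (hg : IsTv a b g) (hh : IsTv a b h) :
    g = h := LinearEquiv.ext fun v => by rw [hg v, hh v]

/-- The McLain group `M(ℚ, 𝔽₂)`. -/
noncomputable def R : Subgroup (V ≃ₗ[ZMod 2] V) :=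
  Subgroup.closure {g | ∃ a b : ℚ, a < b ∧ IsTv a b g}

theorem tv_mem {a b : ℚ} (h : a < b) {g : V ≃ₗ[ZMod 2] V} (hg : IsTv a b g) : g ∈ R :=
  Subgroup.subset_closure ⟨a, b, h, hg⟩

theorem two_eq (x : ZMod 2) : x + x = 0 := CharTwo.add_self_eq_zero x

theorem one_app (v : V) : (1 : V ≃ₗ[ZMod 2] V) v = v := rfl

theorem IsTv.mul_self {a b : ℚ} (h : a < b) {g : V ≃ₗ[ZMod 2] V} (hg : IsTv a b g) :
    g * g = 1 := by
  ext1 v
  ext x
  simp only [LinearEquiv.mul_apply, hg v, hg (v + single a (v b)), one_app,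
    Finsupp.add_apply, Finsupp.single_apply, h.ne, if_false, add_zero]
  split_ifs
  · rw [add_assoc, two_eq, add_zero]
  · simp

theorem IsTv.inv {a b : ℚ} (h : a < b) {g : V ≃ₗ[ZMod 2] V} (hg : IsTv a b g) :
    g⁻¹ = g := by
  rw [inv_eq_iff_mul_eq_one]
  exact hg.mul_self h

/-- `g` acts trivially outside the open interval `(l, u)`. -/
def Loc (l u : ℚ) (g : V ≃ₗ[ZMod 2] V) : Prop :=
  (∀ v : V, ∀ x, (x ≤ l ∨ u ≤ x) → g v x = v x) ∧
  (∀ v : V, (∀ x, l < x → x < u → v x = 0) → g v = v)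

theorem Loc.mono {l u l' u' : ℚ} {g : V ≃ₗ[ZMod 2] V} (h : Loc l u g) (hl : l' ≤ l)
    (hu : u ≤ u') : Loc l' u' g :=
  ⟨fun v x hx => h.1 v x (hx.imp (fun h => h.trans hl) (fun h => hu.trans h)),
    fun v hv => h.2 v fun x hx hx' => hv x (hl.trans_lt hx) (hx'.trans_le hu)⟩

theorem Loc.mul {l u : ℚ} {g h : V ≃ₗ[ZMod 2] V} (hg : Loc l u g) (hh : Loc l u h) :
    Loc l u (g * h) :=
  ⟨fun v x hx => by rw [LinearEquiv.mul_apply, hg.1 _ x hx, hh.1 _ x hx],
    fun v hv => by rw [LinearEquiv.mul_apply, hh.2 v hv, hg.2 v hv]⟩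

theorem Loc.inv {l u : ℚ} {g : V ≃ₗ[ZMod 2] V} (hg : Loc l u g) : Loc l u g⁻¹ := by
  refine ⟨fun v x hx => ?_, fun v hv => ?_⟩
  · have := hg.1 (g⁻¹ v) x hx
    rw [← LinearEquiv.mul_apply, mul_inv_cancel, one_app] at this
    exact this.symm
  · have := hg.2 v hv
    conv_lhs => rw [← this]
    rw [← LinearEquiv.mul_apply, inv_mul_cancel, one_app]

theorem exists_loc {g : V ≃ₗ[ZMod 2] V} (hg : g ∈ R) : ∃ l u, Loc l u g := by
  induction hg using Subgroup.closure_induction with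
  | mem g hg =>
    obtain ⟨a, b, hab, hg⟩ := hg
    refine ⟨a - 1, b + 1, fun v x hx => ?_, fun v hv => ?_⟩
    · rw [hg v, Finsupp.add_apply, Finsupp.single_apply, if_neg, add_zero]
      rintro rfl
      rcases hx with hx | hx <;> linarith
    · rw [hg v, hv b (by linarith) (by linarith)]
      simp
  | one => exact ⟨0, 0, fun v x hx => rfl, fun v hv => rfl⟩
  | mul g h _ _ ihg ihh =>
    obtain ⟨l, u, hg⟩ := ihg
    obtain ⟨l', u', hh⟩ := ihh
    exact ⟨min l l', max u u', (hg.mono (min_le_left _ _) (le_max_left _ _)).mul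
      (hh.mono (min_le_right _ _) (le_max_right _ _))⟩
  | inv g _ ihg =>
    obtain ⟨l, u, hg⟩ := ihg
    exact ⟨l, u, hg.inv⟩

/-- elements of `R` are upper triangular. -/
theorem upper {g : V ≃ₗ[ZMod 2] V} (hg : g ∈ R) (c : ℚ) (v : V) (hv : ∀ x, c < x → v x = 0) :
    ∀ x, c < x → g v x = 0 := by
  suffices h : ∀ v : V, (∀ x, c < x → v x = 0) ↔ (∀ x, c < x → g v x = 0) from (h v).1 hv
  clear hv v
  induction hg using Subgroup.closure_induction with
  | mem g hg =>
    obtain ⟨a, b, hab, hg⟩ := hg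
    have key : ∀ v : V, (∀ x, c < x → v x = 0) → (∀ x, c < x → g v x = 0) := by
      intro v hv x hx
      rw [hg v, Finsupp.add_apply, hv x hx, Finsupp.single_apply]
      split_ifs with h
      · subst h
        rw [hv b (hx.trans hab), add_zero]
      · simp
    intro v
    refine ⟨key v, fun h => ?_⟩
    have h1 := key (g v) h
    have h2 : g (g v) = v := by
      rw [← LinearEquiv.mul_apply, hg.mul_self hab]; rfl
    rwa [h2] at h1
  | one => intro v; rfl
  | mul g h _ _ ihg ihh =>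
    intro v
    rw [ihh v, ihg (h v)]
    rfl
  | inv g _ ihg =>
    intro v
    rw [ihg (g⁻¹ v), ← LinearEquiv.mul_apply, mul_inv_cancel]
    rfl

/-- `(g - 1) V ⊆ V_{≤ c}`. -/
def InK (c : ℚ) (g : V ≃ₗ[ZMod 2] V) : Prop := ∀ v : V, ∀ x, c < x → g v x = v x

theorem InK.one (c : ℚ) : InK c 1 := fun _ _ _ => rfl

theorem InK.mul {c : ℚ} {g h : V ≃ₗ[ZMod 2] V} (hg : InK c g) (hh : InK c h) : InK c (g * h) :=
  fun v x hx => by rw [LinearEquiv.mul_apply, hg _ x hx, hh _ x hx]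

theorem InK.inv {c : ℚ} {g : V ≃ₗ[ZMod 2] V} (hg : InK c g) : InK c g⁻¹ := fun v x hx => by
  have := hg (g⁻¹ v) x hx
  rw [← LinearEquiv.mul_apply, mul_inv_cancel, one_app] at this
  exact this.symm

theorem InK.conj {c : ℚ} {g h : V ≃ₗ[ZMod 2] V} (hg : InK c g) (hh : h ∈ R) :
    InK c (h * g * h⁻¹) := by
  intro v x hx
  have h1 : ∀ x, c < x → (g (h⁻¹ v) - h⁻¹ v) x = 0 := by
    intro x hx
    rw [Finsupp.sub_apply, hg _ x hx, sub_self]
  have h2 := upper hh c _ h1 x hx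
  rw [map_sub, Finsupp.sub_apply, sub_eq_zero] at h2
  rw [LinearEquiv.mul_apply, LinearEquiv.mul_apply, h2, ← LinearEquiv.mul_apply,
    mul_inv_cancel, one_app]

theorem eq_one_of_forall_inK {g : V ≃ₗ[ZMod 2] V} (hg : ∀ c, InK c g) : g = 1 := by
  ext1 v
  ext x
  rw [hg (x - 1) v x (by linarith), one_app]

/-- The key commutator computation: the normal closure of a nontrivial `g ∈ R` contains
all transvections `t_{c,d}` with `c` small and `d` large. -/
theorem key {g : V ≃ₗ[ZMod 2] V} (hg1 : g ≠ 1) {l u : ℚ} (hloc : Loc l u g) :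
    l < u ∧ ∀ c d, c ≤ l → u ≤ d → ∀ τ : V ≃ₗ[ZMod 2] V, IsTv c d τ →
      ∃ s ∈ R, ∃ t ∈ R, τ = (s * (g * t * g⁻¹ * t⁻¹) * s⁻¹) * (g * t * g⁻¹ * t⁻¹)⁻¹ := by
  have hex : ∃ b, g (single b 1) ≠ single b 1 := by
    by_contra hcon
    push Not at hcon
    apply hg1
    apply LinearEquiv.toLinearMap_injective
    apply Finsupp.lhom_ext'
    intro b
    ext1
    simp [hcon b]
  obtain ⟨b, hb⟩ := hex
  have hlb : l < b := by
    by_contra hcon
    apply hb
    apply hloc.2
    intro x hx hx'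
    rw [Finsupp.single_apply, if_neg]
    rintro rfl
    exact hcon hx
  have hbu : b < u := by
    by_contra hcon
    apply hb
    apply hloc.2
    intro x hx hx'
    rw [Finsupp.single_apply, if_neg]
    rintro rfl
    exact hcon hx'
  refine ⟨hlb.trans hbu, ?_⟩
  intro c d hcl hud τ hτ
  set z : V := g (single b 1) - single b 1 with hz
  have hz0 : z ≠ 0 := sub_ne_zero.2 hb
  have hzout : ∀ x, (x ≤ l ∨ u ≤ x) → z x = 0 := by
    intro x hx
    rw [hz, Finsupp.sub_apply, hloc.1 _ x hx, sub_self]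
  obtain ⟨a, ha⟩ : ∃ a, z a ≠ 0 := by
    by_contra hcon
    push Not at hcon
    exact hz0 (Finsupp.ext hcon)
  have hza : z a = 1 := by
    have : ∀ y : ZMod 2, y ≠ 0 → y = 1 := by decide
    exact this _ ha
  have hla : l < a := by
    by_contra hcon
    exact ha (hzout a (Or.inl (not_lt.1 hcon)))
  have hau : a < u := by
    by_contra hcon
    exact ha (hzout a (Or.inr (not_lt.1 hcon)))
  have hcd : c < d := by linarith
  obtain ⟨t, ht⟩ := exists_tv (show b < d by linarith)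
  obtain ⟨s, hs⟩ := exists_tv (show c < a by linarith)
  have htR := tv_mem (show b < d by linarith) ht
  have hsR := tv_mem (show c < a by linarith) hs
  refine ⟨s, hsR, t, htR, ?_⟩
  have htinv := ht.inv (show b < d by linarith)
  have hsinv := hs.inv (show c < a by linarith)
  -- the commutator
  have hk : ∀ v : V, (g * t * g⁻¹ * t⁻¹) v = v + v d • z := by
    intro v
    rw [htinv]
    simp only [LinearEquiv.mul_apply]
    rw [ht (g⁻¹ (t v)), map_add, ← LinearEquiv.mul_apply, mul_inv_cancel, one_app,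
      hloc.inv.1 (t v) d (Or.inr hud), ht v]
    have h1 : (v + single b (v d)) d = v d := by
      rw [Finsupp.add_apply, Finsupp.single_apply, if_neg (by linarith : ¬ b = d), add_zero]
    rw [h1]
    have h2 : (single b (v d) : V) = v d • single b 1 := by simp
    rw [h2, map_smul, hz, smul_sub]
    have h3 : v d • (single b 1 : V) = - (v d • (single b 1 : V)) := by
      rw [eq_neg_iff_add_eq_zero, ← add_smul, two_eq, zero_smul]
    conv_lhs => rw [h3]
    abel
  set k := g * t * g⁻¹ * t⁻¹ with hkdef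
  have hzd : z d = 0 := hzout d (Or.inr hud)
  have hkinv : ∀ v : V, k⁻¹ v = v + v d • z := by
    intro v
    have h1 : k (v + v d • z) = v := by
      rw [hk]
      simp only [Finsupp.add_apply, Finsupp.smul_apply, hzd, smul_zero, add_zero]
      rw [add_assoc, ← add_smul, two_eq, zero_smul, add_zero]
    calc k⁻¹ v = k⁻¹ (k (v + v d • z)) := by rw [h1]
      _ = v + v d • z := by rw [← LinearEquiv.mul_apply, inv_mul_cancel, one_app]
  ext1 v
  rw [hτ v]
  simp only [LinearEquiv.mul_apply]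
  rw [hkinv v, hsinv, hk, map_add, map_smul]
  have hss : ∀ w : V, s (s w) = w := by
    intro w
    rw [← LinearEquiv.mul_apply, hs.mul_self (by linarith), one_app]
  rw [hss, hs z, hza, hs]
  have h1 : (v + v d • z + single c ((v + v d • z) a)) d = v d := by
    simp only [Finsupp.add_apply, Finsupp.smul_apply, hzd, smul_zero, add_zero,
      Finsupp.single_apply, if_neg hcd.ne]
  rw [h1, smul_add]
  have h2 : (v d • single c 1 : V) = single c (v d) := by simp
  rw [h2]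
  have h3 : v d • z + v d • z = 0 := by rw [← add_smul, two_eq, zero_smul]
  have h4 : v + v d • z + (v d • z + single c (v d)) =
    v + (v d • z + v d • z) + single c (v d) := by abel
  rw [h4, h3, add_zero]


theorem tv_ne_one {a b : ℚ} {g : V ≃ₗ[ZMod 2] V} (hg : IsTv a b g) : g ≠ 1 := by
  rintro rfl
  have h := hg (single b 1)
  rw [one_app, left_eq_add, Finsupp.single_eq_same] at h
  have := DFunLike.congr_fun h a
  rw [Finsupp.single_eq_same, Finsupp.zero_apply] at this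
  exact one_ne_zero this

/-- If a normal subgroup `N` of `R` contains all commutators `[g, t]` with a nontrivial `g`
then it contains all transvections `t_{c,d}` with `c` small and `d` large. -/
theorem normal_key (N : Subgroup R) [hN : N.Normal] {g : R} (hg1 : g ≠ 1)
    (hcomm : ∀ t : R, g * t * g⁻¹ * t⁻¹ ∈ N) :
    ∃ l u : ℚ, l < u ∧ ∀ c d, c ≤ l → u ≤ d → ∀ τ : R, IsTv c d τ → τ ∈ N := by
  obtain ⟨l, u, hloc⟩ := exists_loc g.2
  have hg1' : (g : V ≃ₗ[ZMod 2] V) ≠ 1 := fun h => hg1 (Subtype.ext h)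
  obtain ⟨hlu, hk⟩ := key hg1' hloc
  refine ⟨l, u, hlu, fun c d hc hd τ hτ => ?_⟩
  obtain ⟨s, hs, t, ht, hst⟩ := hk c d hc hd τ hτ
  have : τ = ((⟨s, hs⟩ : R) * (g * ⟨t, ht⟩ * g⁻¹ * (⟨t, ht⟩ : R)⁻¹) * (⟨s, hs⟩ : R)⁻¹) *
      (g * ⟨t, ht⟩ * g⁻¹ * (⟨t, ht⟩ : R)⁻¹)⁻¹ := Subtype.ext hst
  rw [this]
  exact N.mul_mem (hN.conj_mem _ (hcomm _) _) (N.inv_mem (hcomm _))

theorem exists_tvR {a b : ℚ} (h : a < b) : ∃ τ : R, IsTv a b τ := by
  obtain ⟨g, hg⟩ := exists_tv h
  exact ⟨⟨g, tv_mem h hg⟩, hg⟩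

theorem center_eq_bot : Subgroup.center R = ⊥ := by
  rw [eq_bot_iff]
  intro g hg
  rw [Subgroup.mem_bot]
  by_contra hg1
  obtain ⟨l, u, hlu, h⟩ := normal_key (⊥ : Subgroup R) hg1 (fun t => by
    rw [Subgroup.mem_bot, ← Subgroup.mem_center_iff.1 hg t]
    group)
  obtain ⟨τ, hτ⟩ := exists_tvR hlu
  have := h l u le_rfl le_rfl τ hτ
  rw [Subgroup.mem_bot] at this
  exact tv_ne_one hτ (congrArg Subtype.val this)

theorem normal_meet (M N : Subgroup R) (hM : M.Normal) (hN : N.Normal) (h : M ⊓ N = ⊥) :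
    M = ⊥ ∨ N = ⊥ := by
  by_contra hcon
  push Not at hcon
  obtain ⟨h1, h2⟩ := hcon
  obtain ⟨g, hg, hg1⟩ := (Subgroup.bot_or_exists_ne_one M).resolve_left h1
  obtain ⟨g', hg', hg1'⟩ := (Subgroup.bot_or_exists_ne_one N).resolve_left h2
  have hc : ∀ (K : Subgroup R) [K.Normal] (g : R), g ∈ K → ∀ t : R, g * t * g⁻¹ * t⁻¹ ∈ K := by
    intro K hK g hg t
    have := K.mul_mem hg (hK.conj_mem _ (K.inv_mem hg) t)
    convert this using 1
    group
  obtain ⟨l, u, hlu, hk⟩ := normal_key M hg1 (hc M g hg)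
  obtain ⟨l', u', hlu', hk'⟩ := normal_key N hg1' (hc N g' hg')
  obtain ⟨τ, hτ⟩ := exists_tvR (show min l l' < max u u' from
    (min_le_left _ _).trans_lt (hlu.trans_le (le_max_left _ _)))
  have hτM := hk _ _ (min_le_left l l') (le_max_left u u') τ hτ
  have hτN := hk' _ _ (min_le_right l l') (le_max_right u u') τ hτ
  have : τ ∈ M ⊓ N := ⟨hτM, hτN⟩
  rw [h, Subgroup.mem_bot] at this
  exact tv_ne_one hτ (congrArg Subtype.val this)

/-- conjugation by a permutation of the basis. -/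
theorem conj_tv (e : ℚ ≃ ℚ) {a b : ℚ} {g : V ≃ₗ[ZMod 2] V} (hg : IsTv a b g) :
    IsTv (e a) (e b) (MulAut.conj (Finsupp.domLCongr e : V ≃ₗ[ZMod 2] V) g) := by
  intro v
  rw [MulAut.conj_apply]
  set P : V ≃ₗ[ZMod 2] V := Finsupp.domLCongr e with hP
  simp only [LinearEquiv.mul_apply]
  rw [hg (P⁻¹ v), map_add, ← LinearEquiv.mul_apply, mul_inv_cancel, one_app]
  congr 1
  have h1 : (P⁻¹ v) b = v (e b) := by
    have : P⁻¹ = (Finsupp.domLCongr e.symm : V ≃ₗ[ZMod 2] V) := by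
      rw [hP]; exact Finsupp.domLCongr_symm e
    rw [this]
    simp [Finsupp.domLCongr, Finsupp.domCongr, Finsupp.equivMapDomain]
  rw [h1, hP, Finsupp.domLCongr_single]

theorem map_conj (e : ℚ ≃o ℚ) :
    R.map (MulAut.conj (Finsupp.domLCongr e.toEquiv : V ≃ₗ[ZMod 2] V)).toMonoidHom = R := by
  unfold R
  rw [MonoidHom.map_closure]
  congr 1
  ext g
  constructor
  · rintro ⟨h, ⟨a, b, hab, hh⟩, rfl⟩
    exact ⟨e a, e b, e.strictMono hab, conj_tv e.toEquiv hh⟩
  · rintro ⟨a, b, hab, hg⟩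
    obtain ⟨h, hh⟩ := exists_tv (e.symm.strictMono hab)
    refine ⟨h, ⟨_, _, e.symm.strictMono hab, hh⟩, ?_⟩
    have := conj_tv e.toEquiv hh
    refine IsTv.unique ?_ hg
    convert this using 1
    · simp
    · simp
    · rfl

theorem exists_aut {c d a b : ℚ} (hcd : c < d) (hab : a < b) :
    ∃ φ : R ≃* R, ∀ τ : R, IsTv c d τ → IsTv a b (φ τ) := by
  have hm : 0 < (b - a) / (d - c) := div_pos (by linarith) (by linarith)
  let e : ℚ ≃o ℚ := (OrderIso.mulRight₀ ((b - a) / (d - c)) hm).trans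
    (OrderIso.addRight (a - c * ((b - a) / (d - c))))
  have hec : e c = a := by
    change c * ((b - a) / (d - c)) + (a - c * ((b - a) / (d - c))) = a
    ring
  have hed : e d = b := by
    change d * ((b - a) / (d - c)) + (a - c * ((b - a) / (d - c))) = b
    have : d - c ≠ 0 := by linarith
    field_simp
    ring
  refine ⟨(MulEquiv.subgroupMap (MulAut.conj (Finsupp.domLCongr e.toEquiv : V ≃ₗ[ZMod 2] V))
    R).trans (MulEquiv.subgroupCongr (map_conj e)), fun τ hτ => ?_⟩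
  have := conj_tv e.toEquiv hτ
  change IsTv (e c) (e d) _ at this
  rw [hec, hed] at this
  exact this

theorem eq_top_of_tv (H : Subgroup R) (h : ∀ a b : ℚ, a < b → ∀ τ : R, IsTv a b τ → τ ∈ H) :
    H = ⊤ := by
  have h1 : R ≤ H.map R.subtype := by
    conv_lhs => unfold R
    rw [Subgroup.closure_le]
    rintro g ⟨a, b, hab, hg⟩
    exact ⟨⟨g, tv_mem hab hg⟩, h a b hab _ hg, rfl⟩
  rw [eq_top_iff]
  rintro ⟨g, hg⟩ -
  obtain ⟨x, hx, hxg⟩ := h1 hg
  have : x = ⟨g, hg⟩ := Subtype.ext hxg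
  rwa [← this]

/-- the normal subgroup `K_c` of `R`. -/
def K (c : ℚ) : Subgroup R where
  carrier := {g | InK c g}
  one_mem' := InK.one c
  mul_mem' := fun hg hh => InK.mul hg hh
  inv_mem' := fun hg => InK.inv hg

instance (c : ℚ) : (K c).Normal := ⟨fun _ hg h => InK.conj hg h.2⟩

theorem tv_mem_K {a b c : ℚ} (hac : a ≤ c) {τ : R} (hτ : IsTv a b τ) : τ ∈ K c := by
  intro v x hx
  rw [hτ v, Finsupp.add_apply, Finsupp.single_apply, if_neg (by linarith : ¬ a = x), add_zero]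

theorem eq_one_of_forall_mem_K {g : R} (hg : ∀ c, g ∈ K c) : g = 1 :=
  Subtype.ext (eq_one_of_forall_inK hg)

end V1130.McLain
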