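import Mathlib

/-!
A field of characteristic two with an involutory automorphism `σ` and a `σ`-invariant character
`χ : Kˣ → {±1}` such that no `u` with `χ u = -1` has norm `u * σ u = 1`.
-/

namespace V1130.Twisted

open Polynomial

/-- the field `𝔽₂(t)` -/
abbrev K := RatFunc (ZMod 2)

/-- the automorphism `t ↦ t + 1` of `𝔽₂(t)` -/
noncomputable def σ : K ≃+* K :=
  IsFractionRing.ringEquivOfRingEquiv (taylorEquiv (1 : ZMod 2)).toRingEquiv

theorem σ_algebraMap (p : (ZMod 2)[X]) :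
    σ (algebraMap _ K p) = algebraMap _ K (taylor 1 p) := by
  unfold σ
  rw [IsFractionRing.ringEquivOfRingEquiv_algebraMap]
  rfl

theorem σσ (x : K) : σ (σ x) = x := by
  rw [← RatFunc.num_div_denom x, map_div₀, map_div₀, σ_algebraMap, σ_algebraMap, σ_algebraMap,
    σ_algebraMap]
  have h : ∀ p : (ZMod 2)[X], taylor 1 (taylor 1 p) = p := by
    intro p
    rw [taylor_taylor, show (1 : ZMod 2) + 1 = 0 by decide, taylor_zero]
  rw [h, h]

theorem intDegree_σ (x : K) : (σ x).intDegree = x.intDegree := by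
  by_cases hx : x = 0
  · rw [hx, map_zero]
  rw [← RatFunc.num_div_denom x, map_div₀, σ_algebraMap, σ_algebraMap]
  have hn : x.num ≠ 0 := RatFunc.num_ne_zero hx
  have hd : x.denom ≠ 0 := RatFunc.denom_ne_zero x
  have hinj : ∀ p : (ZMod 2)[X], p ≠ 0 → algebraMap _ K p ≠ 0 := fun p hp h =>
    hp (RatFunc.algebraMap_injective _ (by rw [h, map_zero]))
  have ht : ∀ p : (ZMod 2)[X], p ≠ 0 → taylor 1 p ≠ 0 := fun p hp h => hp (by
    have := taylor_injective (1 : ZMod 2)
    exact this (by rw [h, map_zero]))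
  rw [RatFunc.intDegree_div (hinj _ (ht _ hn)) (hinj _ (ht _ hd)),
    RatFunc.intDegree_div (hinj _ hn) (hinj _ hd), RatFunc.intDegree_polynomial,
    RatFunc.intDegree_polynomial, RatFunc.intDegree_polynomial, RatFunc.intDegree_polynomial,
    natDegree_taylor, natDegree_taylor]

/-- the character `f ↦ (-1)^(deg f)` -/
noncomputable def χ : Kˣ →* ℤˣ where
  toFun u := (-1 : ℤˣ) ^ (u.1.intDegree)
  map_one' := by simp
  map_mul' u v := by
    rw [Units.val_mul, RatFunc.intDegree_mul u.ne_zero v.ne_zero, zpow_add]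

theorem χ_σ (u : Kˣ) : χ (Units.map σ.toRingHom.toMonoidHom u) = χ u := by
  change (-1 : ℤˣ) ^ ((σ u.1).intDegree) = (-1 : ℤˣ) ^ (u.1.intDegree)
  rw [intDegree_σ]

theorem norm_ne_one (u : Kˣ) (hu : χ u = -1) : (u : K) * σ u ≠ 1 := by
  intro h
  have h1 := congrArg RatFunc.intDegree h
  have hσ : σ (u : K) ≠ 0 := by
    intro h0
    exact u.ne_zero (σ.injective (by rw [h0, map_zero]))
  rw [RatFunc.intDegree_mul u.ne_zero hσ, intDegree_σ, RatFunc.intDegree_one] at h1
  have h2 : (u : K).intDegree = 0 := by omega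
  have h3 : χ u = 1 := by
    change (-1 : ℤˣ) ^ (u.1.intDegree) = 1
    rw [h2, zpow_zero]
  rw [h3] at hu
  exact absurd hu (by decide)

instance : CharP K 2 := charP_of_injective_algebraMap (RatFunc.C_injective) 2

theorem exists_noncomm : ∃ a b : Kˣ, χ a = -1 ∧ χ b = 1 ∧ σ (b : K) ≠ b := by
  have hX : (RatFunc.X : K) ≠ 0 := RatFunc.X_ne_zero
  refine ⟨Units.mk0 RatFunc.X hX, Units.mk0 RatFunc.X hX * Units.mk0 RatFunc.X hX, ?_, ?_, ?_⟩
  · change (-1 : ℤˣ) ^ ((RatFunc.X : K).intDegree) = -1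
    rw [RatFunc.intDegree_X, zpow_one]
  · rw [map_mul]
    rcases Int.units_eq_one_or (χ (Units.mk0 RatFunc.X hX)) with h | h <;> rw [h] <;> rfl
  · intro h
    change σ (RatFunc.X * RatFunc.X) = RatFunc.X * RatFunc.X at h
    rw [← RatFunc.algebraMap_X, ← map_mul, σ_algebraMap] at h
    have h1 := RatFunc.algebraMap_injective _ h
    have h2 := congrArg (Polynomial.eval 0) h1
    rw [taylor_eval] at h2
    simp at h2

end V1130.Twisted
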