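import Mathlib

set_option autoImplicit false

namespace Pool.Agent.V1130.Fib

open Equiv Equiv.Perm MulAction

/-- The centralizer of an element of order five of the symmetric group on six points. -/
theorem card_centralizer_five {α : Type*} [Fintype α] [DecidableEq α] (h6 : Fintype.card α = 6)
    (v : Perm α) (hv : orderOf v = 5) : Nat.card (Subgroup.centralizer {v}) = 5 := by
  obtain ⟨n, hn⟩ := cycleType_prime_order (σ := v) (by rw [hv]; norm_num)
  have hs : v.cycleType.sum ≤ 6 := by
    rw [sum_cycleType, ← h6]; exact Finset.card_le_univ _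
  rw [hn, hv] at hs
  simp only [Multiset.sum_replicate, smul_eq_mul] at hs
  have hn0 : n = 0 := by omega
  subst hn0
  rw [nat_card_centralizer, hn, hv, h6]
  simp

/-- Sylow counting in groups of permutations of six points. -/
theorem sylow_five {K : Type*} [Group K] [Finite K] {α : Type*} (h6 : Nat.card α = 6)
    (ρ : K →* Perm α) (hρ : Function.Injective ρ) (h5 : 5 ∣ Nat.card K) :
    ∃ n c : ℕ, n * c = Nat.card K ∧ n % 5 = 1 ∧ c ∣ 20 := by
  classical
  have : Finite α := Nat.finite_of_card_ne_zero (by rw [h6]; norm_num)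
  have : Fintype α := Fintype.ofFinite α
  have : Fact (Nat.Prime 5) := ⟨by norm_num⟩
  have h6' : Fintype.card α = 6 := by rw [← Nat.card_eq_fintype_card, h6]
  have h720 : Nat.card K ∣ 720 := by
    have := Subgroup.card_dvd_of_injective ρ hρ
    have e : Nat.card (Perm α) = 720 := by
      rw [Nat.card_eq_fintype_card, Fintype.card_perm, h6']; rfl
    rwa [e] at this
  obtain ⟨P⟩ : Nonempty (Sylow 5 K) := inferInstance
  have hP : Nat.card P = 5 := by
    have h1 := P.card_eq_multiplicity
    have h2 : Nat.card P ∣ 720 := (Subgroup.card_subgroup_dvd_card (P : Subgroup K)).trans h720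
    rw [h1] at h2
    have h3 : 1 ≤ (Nat.card K).factorization 5 := by
      rw [← Nat.Prime.dvd_iff_one_le_factorization (by norm_num) (Nat.card_pos).ne']
      exact h5
    have h4 : (Nat.card K).factorization 5 ≤ 1 := by
      by_contra hcon
      push Not at hcon
      have : 5 ^ 2 ∣ 720 := (pow_dvd_pow 5 hcon).trans h2
      norm_num at this
    rw [h1, le_antisymm h4 h3]; norm_num
  refine ⟨Nat.card (Sylow 5 K), Nat.card (Subgroup.normalizer ((P : Subgroup K) : Set K)), ?_, ?_, ?_⟩
  · rw [P.card_eq_index_normalizer]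
    exact Subgroup.index_mul_card _
  · have := card_sylow_modEq_one 5 K
    exact this
  · have : IsCyclic P := isCyclic_of_prime_card (p := 5) hP
    obtain ⟨v, hv⟩ := IsCyclic.exists_generator (α := P)
    have hov : orderOf v = 5 := (orderOf_eq_card_of_forall_mem_zpowers hv).trans hP
    have hov' : orderOf (ρ (v : K)) = 5 := by
      rw [orderOf_injective ρ hρ, Subgroup.orderOf_coe, hov]
    set Nm := Subgroup.normalizer ((P : Subgroup K) : Set K) with hNm
    have hr : Nat.card (P : Subgroup K).normalizerMonoidHom.range ∣ 4 := by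
      have h1 := Subgroup.card_subgroup_dvd_card (P : Subgroup K).normalizerMonoidHom.range
      have h2 : Nat.card (MulAut (P : Subgroup K)) = 4 := by
        rw [IsCyclic.card_mulAut, hP]; rfl
      rwa [h2] at h1
    have hk : Nat.card (P : Subgroup K).normalizerMonoidHom.ker ∣ 5 := by
      have hc5 := card_centralizer_five h6' _ hov'
      suffices Nat.card (P : Subgroup K).normalizerMonoidHom.ker ∣
        Nat.card (Subgroup.centralizer {ρ (v : K)}) by rwa [hc5] at this
      let φ : (P : Subgroup K).normalizerMonoidHom.ker →* Subgroup.centralizer {ρ (v : K)} :=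
        { toFun := fun x => ⟨ρ ((x : Subgroup.normalizer ((P : Subgroup K) : Set K)) : K), by
            rw [Subgroup.mem_centralizer_iff]
            intro w hw
            rw [Set.mem_singleton_iff] at hw
            subst hw
            have hx := (Subgroup.normalizerMonoidHom_ker (H := (P : Subgroup K))).le x.2
            rw [Subgroup.mem_subgroupOf, Subgroup.mem_centralizer_iff] at hx
            have := hx (v : K) v.2
            rw [← map_mul, ← map_mul, this]⟩
          map_one' := by ext; simp
          map_mul' := by intro a b; ext; simp }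
      refine Subgroup.card_dvd_of_injective φ ?_
      intro a b hab
      have h1 : ρ ((a : Subgroup.normalizer ((P : Subgroup K) : Set K)) : K)
          = ρ ((b : Subgroup.normalizer ((P : Subgroup K) : Set K)) : K) := by
        have := congrArg Subtype.val hab
        exact this
      exact Subtype.ext (Subtype.ext (hρ h1))
    have h1 : Nat.card (P : Subgroup K).normalizerMonoidHom.ker *
        Nat.card (P : Subgroup K).normalizerMonoidHom.range = Nat.card Nm := by
      rw [← Subgroup.index_ker, Subgroup.card_mul_index]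
    rw [← h1]
    exact mul_dvd_mul hk hr

/-- Order of a group acting doubly transitively. -/
theorem two_trans_card {H γ : Type*} [Group H] [Finite H] [Finite γ] [MulAction H γ]
    (ht : ∀ a b c d : γ, a ≠ b → c ≠ d → ∃ g : H, g • a = c ∧ g • b = d) (c0 c1 : γ)
    (hne : c0 ≠ c1) :
    Nat.card H = Nat.card γ * (Nat.card γ - 1) * Nat.card (stabilizer H (c0, c1)) := by
  classical
  have : Fintype H := Fintype.ofFinite H
  have : Fintype γ := Fintype.ofFinite γ
  have h1 := card_orbit_mul_card_stabilizer_eq_card_group H (c0, c1)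
  have h2 : Fintype.card (orbit H (c0, c1)) = Nat.card γ * (Nat.card γ - 1) := by
    have e : orbit H (c0, c1) = ((Finset.univ : Finset γ).offDiag : Set (γ × γ)) := by
      ext ⟨x, y⟩
      simp only [Finset.coe_offDiag, Finset.coe_univ, Set.mem_offDiag, Set.mem_univ, true_and]
      constructor
      · rintro ⟨g, hg⟩
        simp only [Prod.smul_mk, Prod.mk.injEq] at hg
        rw [← hg.1, ← hg.2]
        intro h
        exact hne ((MulAction.injective g) h)
      · intro hxy
        obtain ⟨g, h, h'⟩ := ht c0 c1 x y hne hxy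
        exact ⟨g, by simp [h, h']⟩
    rw [← Nat.card_eq_fintype_card, e]
    rw [Nat.card_coe_set_eq, Set.ncard_coe_finset, Finset.offDiag_card, Finset.card_univ,
      Nat.card_eq_fintype_card, Nat.mul_sub, mul_one]
  rw [← h2, Nat.card_eq_fintype_card, Nat.card_eq_fintype_card, h1]

/-- A permutation of prime order with one fixed point. -/
theorem mod_one {γ : Type*} [Finite γ] {p : ℕ} (hp : p.Prime) (π : Perm γ) (hπ : π ^ p = 1)
    (S : Set γ) (u : γ) (hu : u ∈ S) (hS : ∀ b, π b ∈ S ↔ b ∈ S) (hfix : ∀ b, π b = b ↔ b = u) :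
    S.ncard ≡ 1 [MOD p] := by
  classical
  have : Fintype γ := Fintype.ofFinite γ
  have : Fintype S := Fintype.ofFinite S
  have : Fact p.Prime := ⟨hp⟩
  have h1 := card_compl_support_modEq (p := p) (n := 1) (σ := π.subtypePerm hS) (by
    rw [pow_one]
    ext x
    have : ∀ n : ℕ, (((π.subtypePerm hS) ^ n) x : γ) = (π ^ n) x := by
      intro n
      simp
    rw [this, hπ]; simp)
  have h2 : (support (π.subtypePerm hS))ᶜ = {⟨u, hu⟩} := by
    ext x
    simp only [Finset.mem_compl, mem_support, ne_eq, not_not, Finset.mem_singleton]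
    constructor
    · intro h
      have : π (x : γ) = x := by
        have := congrArg Subtype.val h
        simpa using this
      exact Subtype.ext ((hfix _).1 this)
    · intro h
      rw [h]
      apply Subtype.ext
      simpa using (hfix u).2 rfl
  rw [h2, Finset.card_singleton] at h1
  rw [← Nat.card_coe_set_eq, Nat.card_eq_fintype_card]
  exact h1.symm

/-- Passing to prime order and to all base points. -/
theorem step_one {H β : Type*} [Group H] [Finite β] [MulAction H β]
    (tβ : ∀ a b c d : β, a ≠ b → c ≠ d → ∃ g : H, g • a = c ∧ g • b = d)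
    (τ : Perm β) (b0 : β) (h0 : τ b0 = b0)
    (hc : ∀ g : H, g • b0 = b0 → ∀ b, τ (g • b) = g • τ b) (hne : τ ≠ 1) :
    ∃ p : ℕ, p.Prime ∧ ∀ u : β, ∃ π : Perm β, π ^ p = 1 ∧ (∀ b, π b = b ↔ b = u) ∧
      ∀ g : H, g • u = u → ∀ b, π (g • b) = g • π b := by
  classical
  have hfin : IsOfFinOrder τ := isOfFinOrder_of_finite τ
  have hpos : 0 < orderOf τ := hfin.orderOf_pos
  have hne1 : orderOf τ ≠ 1 := by rwa [Ne, orderOf_eq_one_iff]
  have hp : (orderOf τ).minFac.Prime := Nat.minFac_prime hne1
  set p := (orderOf τ).minFac with hpdef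
  obtain ⟨n, hn⟩ := Nat.minFac_dvd (orderOf τ)
  rw [← hpdef] at hn
  have hn0 : 0 < n := by
    rcases Nat.eq_zero_or_pos n with h | h
    · rw [h, mul_zero] at hn; omega
    · exact h
  have hτ' : (τ ^ n) ^ p = 1 := by
    rw [← pow_mul, mul_comm, ← hn, pow_orderOf_eq_one]
  have hτ1 : τ ^ n ≠ 1 := by
    intro h
    have := Nat.le_of_dvd hn0 (orderOf_dvd_of_pow_eq_one h)
    have h2 := hp.two_le
    nlinarith
  have hcn : ∀ k : ℕ, ∀ g : H, g • b0 = b0 → ∀ b, (τ ^ k) (g • b) = g • (τ ^ k) b := by
    intro k
    induction k with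
    | zero => intro g _ b; simp
    | succ k ih =>
      intro g hg b
      rw [pow_succ, Perm.mul_apply, Perm.mul_apply, hc g hg, ih g hg]
  have h0n : ∀ k : ℕ, (τ ^ k) b0 = b0 := by
    intro k
    induction k with
    | zero => simp
    | succ k ih => rw [pow_succ, Perm.mul_apply, h0, ih]
  have hfix : ∀ b, (τ ^ n) b = b ↔ b = b0 := by
    intro b
    constructor
    · intro hb
      by_contra hbb
      apply hτ1
      ext b'
      rw [Perm.one_apply]
      by_cases hb' : b' = b0
      · rw [hb', h0n]
      · obtain ⟨g, hg, hg'⟩ := tβ b0 b b0 b' (Ne.symm hbb) (Ne.symm hb')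
        rw [← hg', hcn n g hg, hb]
    · rintro rfl
      exact h0n n
  refine ⟨p, hp, fun u => ?_⟩
  obtain ⟨h, hh⟩ : ∃ h : H, h • b0 = u := by
    by_cases hu : u = b0
    · exact ⟨1, by rw [one_smul, hu]⟩
    · obtain ⟨g, hg, _⟩ := tβ b0 u u b0 (Ne.symm hu) hu
      exact ⟨g, hg⟩
  refine ⟨MulAction.toPerm h * τ ^ n * (MulAction.toPerm h)⁻¹, ?_, ?_, ?_⟩
  · rw [conj_pow, hτ', mul_one, mul_inv_cancel]
  · intro b
    rw [Perm.mul_apply, Perm.mul_apply, ← Perm.eq_inv_iff_eq (f := MulAction.toPerm h) , hfix]
    rw [Perm.inv_eq_iff_eq]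
    rw [MulAction.toPerm_apply, hh]
  · intro g hg b
    have hinv : ∀ x : β, (MulAction.toPerm h : Perm β)⁻¹ x = h⁻¹ • x := by
      intro x
      rw [Perm.inv_eq_iff_eq, MulAction.toPerm_apply, smul_inv_smul]
    rw [Perm.mul_apply, Perm.mul_apply, Perm.mul_apply, Perm.mul_apply, hinv, hinv]
    simp only [MulAction.toPerm_apply]
    have hg' : (h⁻¹ * g * h) • b0 = b0 := by
      rw [mul_smul, mul_smul, hh, hg, ← hh, inv_smul_smul]
    have := hcn n _ hg' (h⁻¹ • b)
    rw [mul_smul, mul_smul, smul_inv_smul] at this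
    rw [this, mul_smul, mul_smul, smul_inv_smul]

end Pool.Agent.V1130.Fib
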