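import Pool.Agent.V1130.FibA

set_option autoImplicit false

namespace Pool.Agent.V1130.Fib

open Equiv Equiv.Perm MulAction

theorem m_cases (m c h : ℕ) (h1 : c = m * (m - 1) * h) (h2 : c ∣ 720) (h3 : 30 ∣ c)
    (h4 : c ∣ m.factorial) : m = 5 ∨ m = 6 ∨ m = 9 ∨ m = 10 ∨ m = 16 := by
  have h5 : m * (m - 1) ∣ 720 := (Dvd.intro h h1.symm).trans h2
  have h6 : m * (m - 1) ≤ 720 := Nat.le_of_dvd (by norm_num) h5
  have h7 : m ≤ 27 := by
    by_contra hcon
    push Not at hcon
    have : 28 * 27 ≤ m * (m - 1) := Nat.mul_le_mul (by omega) (by omega)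
    omega
  have h8 : 30 ∣ m.factorial := h3.trans h4
  clear h1 h2 h3 h4 h6
  interval_cases m <;> revert h5 h8 <;> decide

theorem dvd_of_transitive {K γ : Type*} [Group K] [Finite K] [Finite γ] [MulAction K γ] (a : γ)
    (h : ∀ b, ∃ k : K, k • a = b) : Nat.card γ ∣ Nat.card K := by
  classical
  have : Fintype K := Fintype.ofFinite K
  have : Fintype γ := Fintype.ofFinite γ
  have h1 := card_orbit_mul_card_stabilizer_eq_card_group K a
  have h2 : Fintype.card (orbit K a) = Fintype.card γ := by
    have : orbit K a = Set.univ := by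
      ext b; simp only [Set.mem_univ, iff_true]; exact h b
    rw [← Nat.card_eq_fintype_card, this, Nat.card_univ, Nat.card_eq_fintype_card]
  rw [Nat.card_eq_fintype_card, Nat.card_eq_fintype_card, ← h1, h2]
  exact Dvd.intro _ rfl

theorem card_stab {K γ : Type*} [Group K] [Finite K] [Finite γ] [MulAction K γ] (a : γ)
    (h : ∀ b, ∃ k : K, k • a = b) : Nat.card K = Nat.card γ * Nat.card (stabilizer K a) := by
  classical
  have : Fintype K := Fintype.ofFinite K
  have : Fintype γ := Fintype.ofFinite γ
  have h1 := card_orbit_mul_card_stabilizer_eq_card_group K a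
  have h2 : Fintype.card (orbit K a) = Fintype.card γ := by
    have : orbit K a = Set.univ := by
      ext b; simp only [Set.mem_univ, iff_true]; exact h b
    rw [← Nat.card_eq_fintype_card, this, Nat.card_univ, Nat.card_eq_fintype_card]
  rw [Nat.card_eq_fintype_card, Nat.card_eq_fintype_card, Nat.card_eq_fintype_card, ← h1, h2]

theorem sign_involution {α : Type*} [Fintype α] [DecidableEq α] (h6 : Fintype.card α = 6)
    (u : Perm α) (hu : orderOf u = 2) (hf : ∀ a, u a ≠ a) : sign u = -1 := by
  obtain ⟨n, hn⟩ := cycleType_prime_order (σ := u) (by rw [hu]; norm_num)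
  have hs : u.cycleType.sum = 6 := by
    rw [sum_cycleType, ← h6, ← Finset.card_univ]
    congr 1
    ext a
    simp [hf a]
  have hs' := hs
  rw [hn, hu] at hs'
  simp only [Multiset.sum_replicate, smul_eq_mul] at hs'
  have hn2 : n = 2 := by omega
  rw [sign_of_cycleType, hs, hn, hn2, Multiset.card_replicate]
  decide

/-- Fixed points of an element of prime order. -/
theorem fix_mod {H γ : Type*} [Group H] [Finite γ] [MulAction H γ] {r : ℕ} (hr : r.Prime)
    (g : H) (hg : g ^ r = 1) : {b : γ | g • b = b}.ncard ≡ Nat.card γ [MOD r] := by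
  classical
  have : Fintype γ := Fintype.ofFinite γ
  have : Fact r.Prime := ⟨hr⟩
  have h1 := card_compl_support_modEq (p := r) (n := 1) (σ := (MulAction.toPerm g : Perm γ)) (by
    rw [pow_one]
    have : (MulAction.toPerm g : Perm γ) = MulAction.toPermHom H γ g := rfl
    rw [this, ← map_pow, hg, map_one])
  have h2 : {b : γ | g • b = b} = (((MulAction.toPerm g : Perm γ).supportᶜ : Finset γ) : Set γ) := by
    ext b
    simp
  rw [h2, Set.ncard_coe_finset, Nat.card_eq_fintype_card]
  exact h1

/-- An element fixing all points but not trivial is excluded by faithfulness. -/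
theorem fix_lt {H γ : Type*} [Group H] [Finite γ] [MulAction H γ]
    (f : ∀ g : H, (∀ a : γ, g • a = a) → g = 1) (g : H) (hg : g ≠ 1) :
    {b : γ | g • b = b}.ncard < Nat.card γ := by
  rw [← Set.ncard_univ]
  apply Set.ncard_lt_ncard _ (Set.toFinite _)
  rw [Set.ssubset_univ_iff]
  intro h
  apply hg
  apply f
  intro a
  have : a ∈ {b : γ | g • b = b} := by rw [h]; trivial
  exact this

/-- The common fixed points of the stabilizer of two points. -/
def F (H : Type*) {β : Type*} [Group H] [MulAction H β] (u v : β) : Set β :=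
  {b | ∀ g : H, g • u = u → g • v = v → g • b = b}

theorem F_left {H β : Type*} [Group H] [MulAction H β] (u v : β) : u ∈ F H u v :=
  fun _ h _ => h

theorem F_right {H β : Type*} [Group H] [MulAction H β] (u v : β) : v ∈ F H u v :=
  fun _ _ h => h

/-- Counting blocks. -/
theorem blocks {H β : Type*} [Group H] [Finite H] [Finite β] [MulAction H β]
    (tβ : ∀ a b c d : β, a ≠ b → c ≠ d → ∃ g : H, g • a = c ∧ g • b = d) (k : ℕ)
    (hk : ∀ u v : β, u ≠ v → (F H u v).ncard = k) (hm : 2 ≤ Nat.card β) :
    (k * k - k) ∣ (Nat.card β * Nat.card β - Nat.card β) := by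
  classical
  have : Fintype β := Fintype.ofFinite β
  have : Fintype H := Fintype.ofFinite H
  have hF : ∀ u v u' v' : β, u ≠ v → u' ≠ v' → u' ∈ F H u v → v' ∈ F H u v →
      F H u' v' = F H u v := by
    intro u v u' v' huv huv' hu' hv'
    have hle : stabilizer H (u, v) ≤ stabilizer H (u', v') := by
      intro g hg
      rw [mem_stabilizer_iff, Prod.smul_mk, Prod.mk.injEq] at hg ⊢
      exact ⟨hu' g hg.1 hg.2, hv' g hg.1 hg.2⟩
    have hcard : Nat.card (stabilizer H (u', v')) ≤ Nat.card (stabilizer H (u, v)) := by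
      have h1 := two_trans_card tβ u v huv
      have h2 := two_trans_card tβ u' v' huv'
      rw [h1] at h2
      have hpos : 0 < Nat.card β * (Nat.card β - 1) := by
        apply Nat.mul_pos <;> omega
      exact (Nat.eq_of_mul_eq_mul_left hpos h2).ge
    have heq : stabilizer H (u, v) = stabilizer H (u', v') :=
      Subgroup.eq_of_le_of_card_ge hle hcard
    have hmem : ∀ g : H, (g • u = u ∧ g • v = v) ↔ (g • u' = u' ∧ g • v' = v') := by
      intro g
      have := SetLike.ext_iff.1 heq g
      rw [mem_stabilizer_iff, Prod.smul_mk, Prod.mk.injEq, mem_stabilizer_iff, Prod.smul_mk,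
        Prod.mk.injEq] at this
      exact this
    ext b
    constructor
    · intro hb g h1 h2
      obtain ⟨h3, h4⟩ := (hmem g).1 ⟨h1, h2⟩
      exact hb g h3 h4
    · intro hb g h1 h2
      obtain ⟨h3, h4⟩ := (hmem g).2 ⟨h1, h2⟩
      exact hb g h3 h4
  let Φ : β × β → Finset β := fun q => (F H q.1 q.2).toFinset
  have h1 := Finset.card_eq_sum_card_image Φ (Finset.univ : Finset β).offDiag
  have h2 : ∀ B ∈ ((Finset.univ : Finset β).offDiag).image Φ,
      (((Finset.univ : Finset β).offDiag).filter (fun q => Φ q = B)).card = k * k - k := by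
    intro B hB
    obtain ⟨⟨u, v⟩, huv, hB'⟩ := Finset.mem_image.1 hB
    have huv' : u ≠ v := (Finset.mem_offDiag.1 huv).2.2
    have hBF : ∀ x, x ∈ B ↔ x ∈ F H u v := by
      intro x
      rw [← hB']
      simp [Φ]
    have hBcard : B.card = k := by
      rw [← hk u v huv', ← hB', Set.ncard_eq_toFinset_card']
    have : ((Finset.univ : Finset β).offDiag).filter (fun q => Φ q = B) = B.offDiag := by
      ext ⟨x, y⟩
      simp only [Finset.mem_filter, Finset.mem_offDiag, Finset.mem_univ, true_and]
      constructor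
      · rintro ⟨hxy, hΦ⟩
        refine ⟨?_, ?_, hxy⟩
        · rw [← hΦ]; simp only [Φ, Set.mem_toFinset]; exact F_left x y
        · rw [← hΦ]; simp only [Φ, Set.mem_toFinset]; exact F_right x y
      · rintro ⟨hx, hy, hxy⟩
        refine ⟨hxy, ?_⟩
        rw [← hB']
        simp only [Φ]
        rw [Set.toFinset_inj]
        exact hF u v x y huv' hxy ((hBF x).1 hx) ((hBF y).1 hy)
    rw [this, Finset.offDiag_card, hBcard]
  rw [Finset.sum_congr rfl h2, Finset.sum_const, Finset.offDiag_card, Finset.card_univ] at h1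
  rw [Nat.card_eq_fintype_card, h1, smul_eq_mul]
  exact Dvd.intro_left _ rfl

end Pool.Agent.V1130.Fib
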