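import Pool.Agent.V1130.FibB

set_option autoImplicit false

namespace Pool.Agent.V1130.Fib

open Equiv Equiv.Perm MulAction

theorem mod_one_iff {x p : ℕ} (hx : 1 ≤ x) : x ≡ 1 [MOD p] ↔ p ∣ x - 1 := by
  constructor
  · intro h
    exact (Nat.modEq_iff_dvd' hx).1 h.symm
  · intro h
    exact ((Nat.modEq_iff_dvd' hx).2 h).symm

/-- The sporadic elimination. -/
theorem elim {H α β : Type*} [Group H] [Finite H] [Finite β] [MulAction H α] [MulAction H β]
    (hα : Nat.card α = 6)
    (fα : ∀ g : H, (∀ a : α, g • a = a) → g = 1) (fβ : ∀ g : H, (∀ b : β, g • b = b) → g = 1)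
    (tα : ∀ a b c d : α, a ≠ b → c ≠ d → ∃ g : H, g • a = c ∧ g • b = d)
    (tβ : ∀ a b c d : β, a ≠ b → c ≠ d → ∃ g : H, g • a = c ∧ g • b = d)
    (τ : Perm β) (b0 : β) (h0 : τ b0 = b0)
    (hc : ∀ g : H, g • b0 = b0 → ∀ b, τ (g • b) = g • τ b) (hne : τ ≠ 1) : False := by
  classical
  have : Finite α := Nat.finite_of_card_ne_zero (by rw [hα]; norm_num)
  have : Fintype α := Fintype.ofFinite α
  have : Fintype β := Fintype.ofFinite β
  have hα' : Fintype.card α = 6 := by rw [← Nat.card_eq_fintype_card, hα]
  obtain ⟨a0, a1, ha01⟩ : ∃ a0 a1 : α, a0 ≠ a1 := by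
    have : Nontrivial α := Finite.one_lt_card_iff_nontrivial.1 (by rw [hα]; norm_num)
    exact exists_pair_ne α
  obtain ⟨b1, hb1⟩ : ∃ b1, τ b1 ≠ b1 := by
    by_contra hcon
    push Not at hcon
    exact hne (Equiv.ext (fun b => by rw [hcon b]; rfl))
  have hb01 : b0 ≠ b1 := by
    rintro rfl
    exact hb1 h0
  have hm2 : 2 ≤ Nat.card β := by
    have : Nontrivial β := ⟨b0, b1, hb01⟩
    exact Finite.one_lt_card
  have iα : Function.Injective (MulAction.toPermHom H α) := by
    rw [injective_iff_map_eq_one]
    intro g hg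
    apply fα
    intro a
    have := congrArg (fun π : Perm α => π a) hg
    simpa using this
  have iβ : Function.Injective (MulAction.toPermHom H β) := by
    rw [injective_iff_map_eq_one]
    intro g hg
    apply fβ
    intro a
    have := congrArg (fun π : Perm β => π a) hg
    simpa using this
  have d720 : Nat.card H ∣ 720 := by
    have := Subgroup.card_dvd_of_injective _ iα
    have e : Nat.card (Perm α) = 720 := by
      rw [Nat.card_eq_fintype_card, Fintype.card_perm, hα']; rfl
    rwa [e] at this
  have dfac : Nat.card H ∣ (Nat.card β).factorial := by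
    have := Subgroup.card_dvd_of_injective _ iβ
    have e : Nat.card (Perm β) = (Nat.card β).factorial := by
      rw [Nat.card_eq_fintype_card, Fintype.card_perm, Nat.card_eq_fintype_card]
    rwa [e] at this
  have c1 : ∀ a a' : α, a ≠ a' → Nat.card H = 30 * Nat.card (stabilizer H (a, a')) := by
    intro a a' haa
    have := two_trans_card tα a a' haa
    rw [hα] at this
    exact this
  have c2 := two_trans_card tβ
  have hm := m_cases (Nat.card β) (Nat.card H) _ (c2 b0 b1 hb01) d720
    (Dvd.intro _ (c1 a0 a1 ha01).symm) dfac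
  have d30 : 30 ∣ Nat.card H := Dvd.intro _ (c1 a0 a1 ha01).symm
  obtain ⟨p, hp, hπ⟩ := step_one tβ τ b0 h0 hc hne
  have M0 : Nat.card β ≡ 1 [MOD p] := by
    obtain ⟨π, h1, h2, _⟩ := hπ b0
    have := mod_one hp π h1 Set.univ b0 (Set.mem_univ _) (by simp) h2
    rwa [Set.ncard_univ] at this
  have M1 : ∀ (g : H) (u : β), g • u = u → {b : β | g • b = b}.ncard ≡ 1 [MOD p] := by
    intro g u hg
    obtain ⟨π, h1, h2, h3⟩ := hπ u
    refine mod_one hp π h1 _ u hg ?_ h2
    intro b
    simp only [Set.mem_ofPred_eq]
    rw [← h3 g hg b, π.injective.eq_iff]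
  have M2 : ∀ u v : β, (F H u v).ncard ≡ 1 [MOD p] := by
    intro u v
    obtain ⟨π, h1, h2, h3⟩ := hπ u
    refine mod_one hp π h1 _ u (F_left u v) ?_ h2
    intro b
    constructor
    · intro hb g hu hv
      have := hb g hu hv
      rwa [← h3 g hu b, π.injective.eq_iff] at this
    · intro hb g hu hv
      rw [← h3 g hu b, hb g hu hv]
  have P0 : p ∣ Nat.card β - 1 := (mod_one_iff (by omega)).1 M0
  have P1 : ∀ (g : H) (u : β), g • u = u → p ∣ {b : β | g • b = b}.ncard - 1 := by
    intro g u hg
    refine (mod_one_iff ?_).1 (M1 g u hg)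
    rw [Nat.one_le_iff_ne_zero, Ne, Set.ncard_eq_zero (Set.toFinite _)]
    intro h
    have : u ∈ {b : β | g • b = b} := hg
    rw [h] at this
    exact this
  have hfixne : ∀ g : H, 0 < {b : β | g • b = b}.ncard → ∃ u : β, g • u = u := by
    intro g hpos
    obtain ⟨u, hu⟩ := Set.nonempty_of_ncard_ne_zero hpos.ne'
    exact ⟨u, hu⟩
  rcases hm with hm | hm | hm | hm | hm
  · -- five points
    have : Fact (Nat.Prime 3) := ⟨by norm_num⟩
    obtain ⟨g, hg⟩ := exists_prime_orderOf_dvd_card' (G := H) 3 (dvd_trans (by norm_num) d30)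
    have hg1 : g ≠ 1 := by
      rintro rfl; rw [orderOf_one] at hg; omega
    have h1 := fix_mod (γ := β) (r := 3) (by norm_num) g (by rw [← hg, pow_orderOf_eq_one])
    have h2 := fix_lt fβ g hg1
    rw [hm] at h1 h2 P0
    have h3 : {b : β | g • b = b}.ncard = 2 := by
      unfold Nat.ModEq at h1
      omega
    obtain ⟨u, hu⟩ := hfixne g (by omega)
    have h4 := P1 g u hu
    rw [h3] at h4
    have := Nat.dvd_one.1 h4
    exact hp.one_lt.ne' this
  · -- six points
    have hp5 : p = 5 := by
      rw [hm] at P0
      exact (Nat.prime_dvd_prime_iff_eq hp (by norm_num)).1 P0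
    have htriv : ∀ (g : H), g • b0 = b0 → g • b1 = b1 → g = 1 := by
      intro g hg0 hg1
      by_contra hne'
      have h2 := fix_lt fβ g hne'
      have h3 : 1 < {b : β | g • b = b}.ncard := by
        rw [Set.one_lt_ncard (Set.toFinite _)]
        exact ⟨b0, hg0, b1, hg1, hb01⟩
      have h4 := P1 g b0 hg0
      rw [hm] at h2
      rw [hp5] at h4
      omega
    have hstab : Nat.card (stabilizer H (b0, b1)) = 1 := by
      rw [Subgroup.card_eq_one, eq_bot_iff]
      intro g hg
      rw [mem_stabilizer_iff, Prod.smul_mk, Prod.mk.injEq] at hg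
      rw [Subgroup.mem_bot]
      exact htriv g hg.1 hg.2
    have hcard : Nat.card H = 30 := by
      rw [c2 b0 b1 hb01, hstab, hm]
    have hαtriv : ∀ (g : H) (a a' : α), a ≠ a' → g • a = a → g • a' = a' → g = 1 := by
      intro g a a' haa h h'
      have h1 := c1 a a' haa
      rw [hcard] at h1
      have h2 : Nat.card (stabilizer H (a, a')) = 1 := by omega
      rw [Subgroup.card_eq_one, eq_bot_iff] at h2
      have h3 : g ∈ stabilizer H (a, a') := by
        rw [mem_stabilizer_iff, Prod.smul_mk, Prod.mk.injEq]
        exact ⟨h, h'⟩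
      exact Subgroup.mem_bot.1 (h2 h3)
    have : Fact (Nat.Prime 2) := ⟨by norm_num⟩
    obtain ⟨u, hu⟩ := exists_prime_orderOf_dvd_card' (G := H) 2 (dvd_trans (by norm_num) d30)
    have hu1 : u ≠ 1 := by
      rintro rfl; rw [orderOf_one] at hu; omega
    have hufix : ∀ a : α, u • a ≠ a := by
      intro a ha
      have h1 := fix_mod (γ := α) (r := 2) (by norm_num) u (by rw [← hu, pow_orderOf_eq_one])
      rw [hα] at h1
      have h2 : 0 < {b : α | u • b = b}.ncard := by
        rw [Set.ncard_pos (Set.toFinite _)]
        exact ⟨a, ha⟩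
      have h3 : 1 < {b : α | u • b = b}.ncard := by
        unfold Nat.ModEq at h1
        omega
      rw [Set.one_lt_ncard (Set.toFinite _)] at h3
      obtain ⟨x, hx, y, hy, hxy⟩ := h3
      exact hu1 (hαtriv u x y hxy hx hy)
    have hsign : sign (MulAction.toPermHom H α u) = -1 := by
      apply sign_involution hα'
      · rw [orderOf_injective _ iα, hu]
      · intro a
        exact hufix a
    set s : H →* ℤˣ := (sign : Perm α →* ℤˣ).comp (MulAction.toPermHom H α) with hs
    have hidx : s.ker.index = 2 := by
      rw [Subgroup.index_ker]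
      have : s.range = ⊤ := by
        rw [MonoidHom.range_eq_top]
        intro z
        rcases Int.units_eq_one_or z with rfl | rfl
        · exact ⟨1, map_one _⟩
        · exact ⟨u, hsign⟩
      rw [this, Nat.card_congr Subgroup.topEquiv.toEquiv]
      simp
    have hker : Nat.card s.ker = 15 := by
      have := s.ker.card_mul_index
      rw [hidx, hcard] at this
      omega
    obtain ⟨k, hk, hk1⟩ : ∃ k ∈ s.ker, k ≠ 1 := by
      by_contra hcon
      push Not at hcon
      have : s.ker = ⊥ := by
        rw [eq_bot_iff]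
        intro x hx
        exact Subgroup.mem_bot.2 (hcon x hx)
      rw [this, Subgroup.card_bot] at hker
      omega
    obtain ⟨a, ha⟩ : ∃ a : α, k • a ≠ a := by
      by_contra hcon
      push Not at hcon
      exact hk1 (fα k hcon)
    have htr : ∀ x : α, ∃ k' : s.ker, k' • a0 = x := by
      intro x
      by_cases hx : x = a0
      · exact ⟨1, by rw [one_smul, hx]⟩
      · obtain ⟨g, hg, hg'⟩ := tα a (k • a) a0 x (Ne.symm ha) (Ne.symm hx)
        refine ⟨⟨g * k * g⁻¹, ?_⟩, ?_⟩
        · exact (MonoidHom.normal_ker s).conj_mem k hk g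
        · change (g * k * g⁻¹) • a0 = x
          rw [mul_smul, mul_smul, ← hg', ← hg, inv_smul_smul]
    have := dvd_of_transitive (K := s.ker) (γ := α) a0 htr
    rw [hα, hker] at this
    norm_num at this
  · -- nine points
    have d5 : 5 ∣ Nat.card H := dvd_trans (by norm_num) d30
    have : Fact (Nat.Prime 5) := ⟨by norm_num⟩
    obtain ⟨g, hg⟩ := exists_prime_orderOf_dvd_card' (G := H) 5 d5
    have hg1 : g ≠ 1 := by
      rintro rfl; rw [orderOf_one] at hg; omega
    have h1 := fix_mod (γ := β) (r := 5) (by norm_num) g (by rw [← hg, pow_orderOf_eq_one])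
    have h2 := fix_lt fβ g hg1
    rw [hm] at h1 h2 P0
    have h3 : {b : β | g • b = b}.ncard = 4 := by
      unfold Nat.ModEq at h1
      omega
    obtain ⟨u, hu⟩ := hfixne g (by omega)
    have h4 := P1 g u hu
    rw [h3] at h4
    have hp3 : p = 3 := (Nat.prime_dvd_prime_iff_eq hp (by norm_num)).1 h4
    rw [hp3] at P0
    norm_num at P0
  · -- ten points
    have hp3 : p = 3 := by
      rw [hm] at P0
      have : p ∣ 3 ^ 2 := P0
      exact (Nat.prime_dvd_prime_iff_eq hp (by norm_num)).1 (hp.dvd_of_dvd_pow this)
    have hH : Nat.card H = 90 * Nat.card (stabilizer H (b0, b1)) := by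
      have := c2 b0 b1 hb01
      rw [hm] at this
      exact this
    by_cases h1 : Nat.card (stabilizer H (b0, b1)) = 1
    · rw [h1, mul_one] at hH
      obtain ⟨n, c, hnc, hn, hc20⟩ := sylow_five hα _ iα (dvd_trans (by norm_num) d30)
      rw [hH] at hnc
      have hc' : c ≤ 20 := Nat.le_of_dvd (by norm_num) hc20
      interval_cases c <;> omega
    · have h8 : Nat.card (stabilizer H (b0, b1)) ∣ 8 := by
        rw [hH] at d720
        exact Nat.dvd_of_mul_dvd_mul_left (k := 90) (by norm_num) d720
      have hk : ∀ u v : β, u ≠ v → (F H u v).ncard = 4 := by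
        intro u v huv
        have hH' : Nat.card H = 90 * Nat.card (stabilizer H (u, v)) := by
          have := c2 u v huv
          rw [hm] at this
          exact this
        have hsc : Nat.card (stabilizer H (u, v)) = Nat.card (stabilizer H (b0, b1)) := by
          omega
        obtain ⟨g, hg, hg1⟩ : ∃ g ∈ stabilizer H (u, v), g ≠ 1 := by
          by_contra hcon
          push Not at hcon
          have : stabilizer H (u, v) = ⊥ := by
            rw [eq_bot_iff]
            intro x hx
            exact Subgroup.mem_bot.2 (hcon x hx)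
          rw [this, Subgroup.card_bot] at hsc
          exact h1 hsc.symm
        have hg' := hg
        rw [mem_stabilizer_iff, Prod.smul_mk, Prod.mk.injEq] at hg'
        have hle : (F H u v).ncard ≤ {b : β | g • b = b}.ncard := by
          apply Set.ncard_le_ncard _ (Set.toFinite _)
          intro b hb
          exact hb g hg'.1 hg'.2
        have hlt := fix_lt fβ g hg1
        rw [hm] at hlt
        have h2le : 1 < (F H u v).ncard := by
          rw [Set.one_lt_ncard (Set.toFinite _)]
          exact ⟨u, F_left u v, v, F_right u v, huv⟩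
        have hmod3 : (F H u v).ncard ≡ 1 [MOD 3] := by
          have := M2 u v
          rwa [hp3] at this
        have hmod2 : (F H u v).ncard ≡ 10 [MOD 2] := by
          have : Fact (Nat.Prime 2) := ⟨by norm_num⟩
          have hpg : IsPGroup 2 (stabilizer H (u, v)) := by
            rw [← hsc] at h8
            obtain ⟨j, _, hj⟩ := (Nat.dvd_prime_pow (by norm_num : Nat.Prime 2) (m := 3)).1 h8
            exact IsPGroup.of_card hj
          have := hpg.card_modEq_card_fixedPoints β
          rw [hm] at this
          have e : (fixedPoints (stabilizer H (u, v)) β) = F H u v := by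
            ext b
            constructor
            · intro hb g h h'
              have hgm : g ∈ stabilizer H (u, v) := by
                rw [mem_stabilizer_iff, Prod.smul_mk, Prod.mk.injEq]
                exact ⟨h, h'⟩
              exact hb ⟨g, hgm⟩
            · rintro hb ⟨g, hgm⟩
              rw [mem_stabilizer_iff, Prod.smul_mk, Prod.mk.injEq] at hgm
              exact hb g hgm.1 hgm.2
          rw [e, Nat.card_coe_set_eq] at this
          exact this.symm
        unfold Nat.ModEq at hmod3 hmod2
        omega
      have := blocks tβ 4 hk hm2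
      rw [hm] at this
      norm_num at this
  · -- sixteen points
    have hH : Nat.card H = 240 * Nat.card (stabilizer H (b0, b1)) := by
      have := c2 b0 b1 hb01
      rw [hm] at this
      exact this
    have h3 : Nat.card (stabilizer H (b0, b1)) ∣ 3 := by
      rw [hH] at d720
      exact Nat.dvd_of_mul_dvd_mul_left (k := 240) (by norm_num) d720
    rcases (Nat.dvd_prime (by norm_num)).1 h3 with h | h
    · rw [h, mul_one] at hH
      obtain ⟨n, c, hnc, hn, hc20⟩ := sylow_five hα _ iα (dvd_trans (by norm_num) d30)
      rw [hH] at hnc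
      have hc' : c ≤ 20 := Nat.le_of_dvd (by norm_num) hc20
      interval_cases c <;> omega
    · rw [h] at hH
      have htr : ∀ b : β, ∃ k : H, k • b0 = b := by
        intro b
        by_cases hb : b = b0
        · exact ⟨1, by rw [one_smul, hb]⟩
        · obtain ⟨g, hg, _⟩ := tβ b0 b b b0 (Ne.symm hb) hb
          exact ⟨g, hg⟩
      have h4 := card_stab b0 htr
      rw [hm, hH] at h4
      have h45 : Nat.card (stabilizer H b0) = 45 := by omega
      obtain ⟨n, c, hnc, hn, hc20⟩ := sylow_five (K := stabilizer H b0) hα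
        ((MulAction.toPermHom H α).comp (stabilizer H b0).subtype)
        (iα.comp Subtype.val_injective) (by rw [h45]; norm_num)
      rw [h45] at hnc
      have hc' : c ≤ 20 := Nat.le_of_dvd (by norm_num) hc20
      interval_cases c <;> omega

end Pool.Agent.V1130.Fib
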