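import Pool.Agent.V1130.FibC

set_option autoImplicit false

namespace Pool.Agent.V1130.Fib

open Equiv Equiv.Perm MulAction

/-- A transitive group of permutations of six points has elements of orders two and three. -/
theorem two_three {α : Type*} (hα : Nat.card α = 6) (D : Subgroup (Perm α)) (a0 : α)
    (ht : ∀ b, ∃ d ∈ D, d a0 = b) :
    (∃ d ∈ D, d ^ 2 = 1 ∧ d ≠ 1) ∧ ∃ d ∈ D, d ^ 2 ≠ 1 := by
  have : Finite α := Nat.finite_of_card_ne_zero (by rw [hα]; norm_num)
  have h6 : 6 ∣ Nat.card D := by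
    rw [← hα]
    refine dvd_of_transitive (K := D) a0 (fun b => ?_)
    obtain ⟨d, hd, hdb⟩ := ht b
    exact ⟨⟨d, hd⟩, hdb⟩
  have : Fact (Nat.Prime 2) := ⟨by norm_num⟩
  have : Fact (Nat.Prime 3) := ⟨by norm_num⟩
  obtain ⟨x, hx⟩ := exists_prime_orderOf_dvd_card' (G := D) 2 (dvd_trans (by norm_num) h6)
  obtain ⟨y, hy⟩ := exists_prime_orderOf_dvd_card' (G := D) 3 (dvd_trans (by norm_num) h6)
  rw [← Subgroup.orderOf_coe] at hx hy
  refine ⟨⟨x, x.2, ?_, ?_⟩, ⟨y, y.2, ?_⟩⟩
  · rw [← hx, pow_orderOf_eq_one]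
  · intro h
    rw [h, orderOf_one] at hx
    omega
  · intro h
    have := orderOf_dvd_of_pow_eq_one h
    rw [hy] at this
    norm_num at this

theorem trans_of_normal {G γ : Type*} [Group G] [MulAction G γ]
    (t : ∀ a b c d : γ, a ≠ b → c ≠ d → ∃ g : G, g • a = c ∧ g • b = d)
    (M : Subgroup G) (hM : M.Normal) (m : G) (hm : m ∈ M) (c : γ) (hmc : m • c ≠ c) :
    ∀ x y : γ, ∃ k ∈ M, k • x = y := by
  intro x y
  by_cases hxy : x = y
  · exact ⟨1, M.one_mem, by rw [one_smul, hxy]⟩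
  · obtain ⟨g, hg, hg'⟩ := t c (m • c) x y (Ne.symm hmc) hxy
    refine ⟨g * m * g⁻¹, hM.conj_mem m hm g, ?_⟩
    rw [mul_smul, mul_smul, ← hg', ← hg, inv_smul_smul]

/-- The final contradiction: a normal subgroup `C` transitive on six points and semiregular on a
set `γ` on which the point stabilizer is transitive off the point. -/
theorem six_contra {G α γ : Type*} [Group G] [MulAction G α] [MulAction G γ]
    (hα : Nat.card α = 6)
    (t : ∀ a b c d : γ, a ≠ b → c ≠ d → ∃ g : G, g • a = c ∧ g • b = d)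
    (C : Subgroup G) (hC : C.Normal) (a0 : α) (htr : ∀ b : α, ∃ k ∈ C, k • a0 = b) (c0 : γ)
    (hs : ∀ c ∈ C, c • c0 = c0 → ∀ a : α, c • a = a) : False := by
  obtain ⟨⟨d2, hd2, hd2', hd2''⟩, ⟨d3, hd3, hd3'⟩⟩ := two_three hα (C.map (toPermHom G α)) a0 (by
    intro b
    obtain ⟨k, hk, hkb⟩ := htr b
    exact ⟨toPermHom G α k, Subgroup.mem_map_of_mem _ hk, hkb⟩)
  obtain ⟨x, hx, rfl⟩ := Subgroup.mem_map.1 hd2
  obtain ⟨y, hy, rfl⟩ := Subgroup.mem_map.1 hd3
  have triv : ∀ c : G, (∀ a : α, c • a = a) → toPermHom G α c = 1 := by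
    intro c hc
    ext a
    exact hc a
  have hx0 : x • c0 ≠ c0 := fun h => hd2'' (triv x (hs x hx h))
  have hy0 : y • c0 ≠ c0 := by
    intro h
    apply hd3'
    rw [triv y (hs y hy h), one_pow]
  obtain ⟨g, hg, hg'⟩ := t c0 (x • c0) c0 (y • c0) (Ne.symm hx0) (Ne.symm hy0)
  have hmem : y⁻¹ * (g * x * g⁻¹) ∈ C := C.mul_mem (C.inv_mem hy) (hC.conj_mem x hx g)
  have hfix : (y⁻¹ * (g * x * g⁻¹)) • c0 = c0 := by
    have : g⁻¹ • c0 = c0 := by
      rw [inv_smul_eq_iff, hg]
    rw [mul_smul, mul_smul, mul_smul, this, hg', inv_smul_smul]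
  have h1 := triv _ (hs _ hmem hfix)
  rw [map_mul, map_inv, inv_mul_eq_one] at h1
  apply hd3'
  rw [h1, map_mul, map_mul, map_inv, conj_pow, hd2', mul_one, mul_inv_cancel]

/-- Centralizers modulo the kernel. -/
theorem cent {G α : Type*} [Group G] [MulAction G α] (hα : Nat.card α = 6)
    (t : ∀ a b c d : α, a ≠ b → c ≠ d → ∃ g : G, g • a = c ∧ g • b = d)
    (M : Subgroup G) (hM : M.Normal) (m : G) (hm : m ∈ M) (a1 : α) (hma : m • a1 ≠ a1)
    (c : G) (hc : ∀ m ∈ M, ∀ a : α, c • m • a = m • c • a) : ∀ a : α, c • a = a := by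
  by_contra hcon
  push Not at hcon
  obtain ⟨a0, ha0⟩ := hcon
  have hMt := trans_of_normal t M hM m hm a1 hma
  let C : Subgroup G :=
    { carrier := {c | ∀ m ∈ M, ∀ a : α, c • m • a = m • c • a}
      one_mem' := by
        intro m _ a
        simp
      mul_mem' := by
        intro x y hx hy m hm a
        rw [mul_smul, mul_smul, hy m hm, hx m hm]
      inv_mem' := by
        intro x hx m hm a
        rw [inv_smul_eq_iff, hx m hm, smul_inv_smul] }
  have hC : C.Normal := by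
    constructor
    intro x hx g m hm a
    have h1 : g⁻¹ * m * g ∈ M := by
      have := hM.conj_mem m hm g⁻¹
      rwa [inv_inv] at this
    have h2 := hx _ h1 (g⁻¹ • a)
    simp only [mul_smul, smul_inv_smul] at h2 ⊢
    rw [h2, smul_inv_smul]
  have hCt := trans_of_normal t C hC c hc a0 ha0
  refine six_contra hα t C hC a0 (fun b => hCt a0 b) a0 ?_
  intro x hx hxa a
  obtain ⟨k, hk, hka⟩ := hMt a0 a
  rw [← hka, hx k hk, hxa]

theorem mem_ker {G γ : Type*} [Group G] [MulAction G γ] (g : G) :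
    g ∈ (toPermHom G γ).ker ↔ ∀ a : γ, g • a = a := by
  rw [MonoidHom.mem_ker]
  constructor
  · intro h a
    have := congrArg (fun π : Perm γ => π a) h
    simpa using this
  · intro h
    ext a
    exact h a

/-- Passing to a finite faithful group. -/
theorem elim' {G α β : Type*} [Group G] [MulAction G α] [MulAction G β]
    (hα : Nat.card α = 6)
    (tα : ∀ a b c d : α, a ≠ b → c ≠ d → ∃ g : G, g • a = c ∧ g • b = d)
    (tβ : ∀ a b c d : β, a ≠ b → c ≠ d → ∃ g : G, g • a = c ∧ g • b = d)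
    (hK : ∀ g : G, (∀ a : α, g • a = a) ↔ (∀ b : β, g • b = b))
    (τ : Perm β) (b0 : β) (h0 : τ b0 = b0)
    (hc : ∀ g : G, g • b0 = b0 → ∀ b, τ (g • b) = g • τ b) (hne : τ ≠ 1) : False := by
  have : Finite α := Nat.finite_of_card_ne_zero (by rw [hα]; norm_num)
  let Φ : G →* Perm α × Perm β := MonoidHom.prod (toPermHom G α) (toPermHom G β)
  let H := Φ.range
  letI iα : MulAction H α := MulAction.compHom α ((MonoidHom.fst (Perm α) (Perm β)).comp H.subtype)
  letI iβ : MulAction H β := MulAction.compHom β ((MonoidHom.snd (Perm α) (Perm β)).comp H.subtype)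
  have sα : ∀ (g : G) (a : α), (⟨Φ g, ⟨g, rfl⟩⟩ : H) • a = g • a := fun _ _ => rfl
  have sβ : ∀ (g : G) (a : β), (⟨Φ g, ⟨g, rfl⟩⟩ : H) • a = g • a := fun _ _ => rfl
  have hHfin : Finite H := by
    refine Finite.of_injective (fun h : H => h.1.1) ?_
    rintro ⟨x, g, rfl⟩ ⟨y, g', rfl⟩ hxy
    have h1 : ∀ a : α, g • a = g' • a := by
      intro a
      exact congrArg (fun π : Perm α => π a) hxy
    have h2 : ∀ b : β, (g'⁻¹ * g) • b = b := by
      apply (hK _).1
      intro a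
      rw [mul_smul, h1, inv_smul_smul]
    apply Subtype.ext
    apply Prod.ext
    · exact hxy
    · ext b
      have := h2 b
      rw [mul_smul, inv_smul_eq_iff] at this
      exact this
  have htb : ∀ b : β, ∃ k : G, k • b0 = b := by
    intro b
    by_cases hb : b = b0
    · exact ⟨1, by rw [one_smul, hb]⟩
    · obtain ⟨g, hg, _⟩ := tβ b0 b b b0 (Ne.symm hb) hb
      exact ⟨g, hg⟩
  have hβfin : Finite β := by
    refine Finite.of_surjective (fun h : H => h • b0) ?_
    intro b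
    obtain ⟨k, hk⟩ := htb b
    exact ⟨⟨Φ k, ⟨k, rfl⟩⟩, hk⟩
  refine elim (H := H) hα ?_ ?_ ?_ ?_ τ b0 h0 ?_ hne
  · rintro ⟨_, g, rfl⟩ h
    have h1 : ∀ a : α, g • a = a := h
    apply Subtype.ext
    apply Prod.ext
    · ext a; exact h1 a
    · ext b; exact (hK g).1 h1 b
  · rintro ⟨_, g, rfl⟩ h
    have h1 : ∀ b : β, g • b = b := h
    apply Subtype.ext
    apply Prod.ext
    · ext a; exact (hK g).2 h1 a
    · ext b; exact h1 b
  · intro a b c d hab hcd
    obtain ⟨g, h1, h2⟩ := tα a b c d hab hcd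
    exact ⟨⟨Φ g, ⟨g, rfl⟩⟩, h1, h2⟩
  · intro a b c d hab hcd
    obtain ⟨g, h1, h2⟩ := tβ a b c d hab hcd
    exact ⟨⟨Φ g, ⟨g, rfl⟩⟩, h1, h2⟩
  · rintro ⟨_, g, rfl⟩ h b
    exact hc g h b

/-- The core lemma. -/
theorem core {G α β : Type*} [Group G] [MulAction G α] [MulAction G β] (hα : Nat.card α = 6)
    (tα : ∀ a b c d : α, a ≠ b → c ≠ d → ∃ g : G, g • a = c ∧ g • b = d)
    (tβ : ∀ a b c d : β, a ≠ b → c ≠ d → ∃ g : G, g • a = c ∧ g • b = d)
    (φ : G ≃* G) (τ : Perm β) (hτ : ∀ g b, τ (g • b) = φ g • τ b) (b0 : β) (h0 : τ b0 = b0)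
    (hfix : ∀ g : G, g • b0 = b0 → φ g = g) : ∀ (g : G) (a : α), φ g • a = g • a := by
  set Kα := (toPermHom G α).ker with hKα
  set Kβ := (toPermHom G β).ker with hKβ
  have nα : Kα.Normal := MonoidHom.normal_ker _
  have nβ : Kβ.Normal := MonoidHom.normal_ker _
  by_cases hA : ∃ k ∈ Kβ, ∃ a : α, k • a ≠ a
  · -- the kernel on `β` is visible on `α`
    obtain ⟨k0, hk0, a1, ha1⟩ := hA
    intro g a
    have hφ : ∀ k ∈ Kβ, φ k = k := fun k hk => hfix k ((mem_ker k).1 hk b0)
    have key : ∀ k ∈ Kβ, (g⁻¹ * φ g) * k = k * (g⁻¹ * φ g) := by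
      intro k hk
      have h1 := hφ _ (nβ.conj_mem k hk g)
      rw [map_mul, map_mul, map_inv, hφ k hk] at h1
      have h2 : φ g * k = g * k * g⁻¹ * φ g := by
        rw [← h1]; group
      calc (g⁻¹ * φ g) * k = g⁻¹ * (φ g * k) := by group
        _ = g⁻¹ * (g * k * g⁻¹ * φ g) := by rw [h2]
        _ = k * (g⁻¹ * φ g) := by group
    have h3 := cent hα tα Kβ nβ k0 hk0 a1 ha1 (g⁻¹ * φ g) (by
      intro m hm a
      rw [← mul_smul, key m hm, mul_smul]) a
    rw [mul_smul, inv_smul_eq_iff] at h3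
    exact h3
  push Not at hA
  by_cases hB : ∃ k ∈ Kα, ∃ b : β, k • b ≠ b
  · -- the kernel on `α` is transitive on `β`
    obtain ⟨k0, hk0, b1, hb1⟩ := hB
    have trK := trans_of_normal tβ Kα nα k0 hk0 b1 hb1
    have hk : ∀ k ∈ Kα, φ k ∈ Kα := by
      by_cases hD : ∃ d ∈ Kα, φ d ∈ Kα ∧ ∃ b : β, d • b ≠ b
      · obtain ⟨d0, hd0, hd0', b2, hb2⟩ := hD
        let D : Subgroup G := Kα ⊓ Kα.comap φ.toMonoidHom
        have nD : D.Normal := by
          constructor
          rintro x ⟨hx, hx'⟩ g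
          refine ⟨nα.conj_mem x hx g, ?_⟩
          change φ (g * x * g⁻¹) ∈ Kα
          rw [map_mul, map_mul, map_inv]
          exact nα.conj_mem _ hx' _
        have trD := trans_of_normal tβ D nD d0 ⟨hd0, hd0'⟩ b2 hb2
        intro k hk
        obtain ⟨d, hd, hdb⟩ := trD b0 (k • b0)
        have h1 : (d⁻¹ * k) • b0 = b0 := by
          rw [mul_smul, ← hdb, inv_smul_smul]
        have h2 := hfix _ h1
        have h3 : φ k = φ d * (d⁻¹ * k) := by
          rw [← h2, ← map_mul]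
          congr 1
          group
        rw [h3]
        exact Kα.mul_mem hd.2 (Kα.mul_mem (Kα.inv_mem hd.1) hk)
      · push Not at hD
        by_contra hcon
        push Not at hcon
        obtain ⟨k1, hk1, hk1'⟩ := hcon
        let K' : Subgroup G := Kα.map φ.toMonoidHom
        have nK' : K'.Normal := nα.map _ φ.surjective
        rw [mem_ker] at hk1'
        push Not at hk1'
        obtain ⟨a1, ha1⟩ := hk1'
        have trK' := trans_of_normal tα K' nK' (φ k1) ⟨k1, hk1, rfl⟩ a1 ha1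
        refine six_contra hα tβ K' nK' a1 (fun b => trK' a1 b) b0 ?_
        rintro _ ⟨k, hk, rfl⟩ hkb a
        change φ k • b0 = b0 at hkb
        change φ k • a = a
        have h1 : k • b0 = b0 := by
          apply τ.injective
          rw [hτ, h0, hkb]
        have h2 : φ k = k := hfix k h1
        have h3 : ∀ b : β, k • b = b := hD k hk (by rw [h2]; exact hk)
        rw [h2]
        exact hA k ((mem_ker k).2 h3) a
    intro g a
    obtain ⟨k, hkm, hkb⟩ := trK b0 (g • b0)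
    have h1 : (k⁻¹ * g) • b0 = b0 := by
      rw [mul_smul, ← hkb, inv_smul_smul]
    have h2 := hfix _ h1
    have h3 : φ g = φ k * (k⁻¹ * g) := by
      rw [← h2, ← map_mul]
      congr 1
      group
    rw [h3, mul_smul, (mem_ker (φ k)).1 (hk k hkm), mul_smul, inv_smul_eq_iff]
    exact ((mem_ker k).1 hkm _).symm
  push Not at hB
  have hK : ∀ g : G, (∀ a : α, g • a = a) ↔ (∀ b : β, g • b = b) := by
    intro g
    exact ⟨fun h => hB g ((mem_ker g).2 h), fun h => hA g ((mem_ker g).2 h)⟩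
  by_cases hone : τ = 1
  · intro g a
    have h1 : ∀ b : β, (g⁻¹ * φ g) • b = b := by
      intro b
      have := hτ g b
      rw [hone, Perm.one_apply, Perm.one_apply] at this
      rw [mul_smul, ← this, inv_smul_smul]
    have h2 := (hK _).2 h1 a
    rw [mul_smul, inv_smul_eq_iff] at h2
    exact h2
  · exfalso
    refine elim' hα tα tβ hK τ b0 h0 ?_ hone
    intro g hg b
    rw [hτ, hfix g hg]

end Pool.Agent.V1130.Fib
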