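import Mathlib

/-!
Transitive finitary `p`-groups are totally imprimitive.
-/

namespace Pool.Agent.V1130.FinP

open Equiv

variable {Ω : Type*}

/-- all elements have finite support -/
def Finitary (S : Subgroup (Perm Ω)) : Prop := ∀ g ∈ S, {x : Ω | g x ≠ x}.Finite

/-- one orbit -/
def Trans (S : Subgroup (Perm Ω)) : Prop := ∀ x y : Ω, ∃ g ∈ S, g x = y

theorem inv_app (g : Perm Ω) (x : Ω) : g⁻¹ (g x) = x := by
  rw [← Perm.mul_apply, inv_mul_cancel, Perm.one_apply]

theorem app_inv (g : Perm Ω) (x : Ω) : g (g⁻¹ x) = x := by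
  rw [← Perm.mul_apply, mul_inv_cancel, Perm.one_apply]

/-- Locally finite invariant graphs have finite components. -/
theorem comp_finite {S : Subgroup (Perm Ω)} (hfin : Finitary S) (htr : Trans S)
    (Λ : SimpleGraph Ω) (hinv : ∀ g ∈ S, ∀ x y, Λ.Adj x y → Λ.Adj (g x) (g y))
    (hloc : ∀ x, {y | Λ.Adj x y}.Finite) (x : Ω) : {y | Λ.Reachable x y}.Finite := by
  classical
  -- distances are preserved
  have hle : ∀ g ∈ S, ∀ a b, Λ.Reachable a b → Λ.dist (g a) (g b) ≤ Λ.dist a b := by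
    intro g hg a b hab
    obtain ⟨w, hw⟩ := hab.exists_walk_length_eq_dist
    let f : Λ →g Λ := ⟨g, fun {a b} h => hinv g hg a b h⟩
    rw [← hw, ← SimpleGraph.Walk.length_map f w]
    exact SimpleGraph.dist_le _
  have hreach : ∀ g ∈ S, ∀ a b, Λ.Reachable a b → Λ.Reachable (g a) (g b) := by
    intro g hg a b hab
    let f : Λ →g Λ := ⟨g, fun {a b} h => hinv g hg a b h⟩
    exact hab.map f
  have hdist : ∀ g ∈ S, ∀ a b, Λ.Reachable a b → Λ.dist (g a) (g b) = Λ.dist a b := by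
    intro g hg a b hab
    apply le_antisymm (hle g hg a b hab)
    have := hle g⁻¹ (S.inv_mem hg) (g a) (g b) (hreach g hg a b hab)
    rwa [inv_app, inv_app] at this
  choose h hh hhx using htr x
  let B : Set Ω := {x} ∪ ⋃ y ∈ {y | Λ.Adj x y}, {z | h y z ≠ z}
  have hB : B.Finite := (Set.finite_singleton x).union ((hloc x).biUnion fun y _ => hfin _ (hh y))
  refine hB.subset fun z hz => ?_
  by_contra hcon
  simp only [B, Set.mem_union, Set.mem_singleton_iff, Set.mem_iUnion, not_or, not_exists] at hcon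
  obtain ⟨hzx, hz'⟩ := hcon
  have hz0 : Λ.Reachable x z := hz
  obtain ⟨w, hw⟩ := hz0.exists_walk_length_eq_dist
  cases w with
  | nil => exact hzx rfl
  | @cons _ y _ hadj p =>
    have h1 : h y z = z := by
      have := hz' y hadj
      by_contra hne
      exact this hne
    have h2 := hdist (h y) (hh y) x z hz0
    rw [hhx, h1] at h2
    have h3 := SimpleGraph.dist_le p
    rw [SimpleGraph.Walk.length_cons] at hw
    omega

/-- `E` is invariant under `S`. -/
def Inv (S : Subgroup (Perm Ω)) (E : Setoid Ω) : Prop := ∀ g ∈ S, ∀ x y, E x y → E (g x) (g y)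

/-- all classes of `E` are finite -/
def FinCl (E : Setoid Ω) : Prop := ∀ x, {y | E x y}.Finite

theorem Inv.iff {S : Subgroup (Perm Ω)} {E : Setoid Ω} (h : Inv S E) {g : Perm Ω} (hg : g ∈ S)
    (x y : Ω) : E (g x) (g y) ↔ E x y :=
  ⟨fun h1 => by
    have := h g⁻¹ (S.inv_mem hg) _ _ h1
    rwa [inv_app, inv_app] at this, h g hg x y⟩

/-- An invariant locally finite symmetric relation is contained in a finite congruence. -/
theorem exists_congr {S : Subgroup (Perm Ω)} (hfin : Finitary S) (htr : Trans S)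
    (r : Ω → Ω → Prop) (hsymm : ∀ x y, r x y → r y x)
    (hinv : ∀ g ∈ S, ∀ x y, r x y → r (g x) (g y)) (hloc : ∀ x, {y | r x y}.Finite) :
    ∃ E : Setoid Ω, Inv S E ∧ FinCl E ∧ ∀ x y, r x y → E x y := by
  let Λ : SimpleGraph Ω :=
    { Adj := fun x y => x ≠ y ∧ r x y
      symm := ⟨fun x y h => ⟨h.1.symm, hsymm _ _ h.2⟩⟩
      loopless := ⟨fun x h => h.1 rfl⟩ }
  have hinv' : ∀ g ∈ S, ∀ x y, Λ.Adj x y → Λ.Adj (g x) (g y) := fun g hg x y h =>
    ⟨fun h' => h.1 (g.injective h'), hinv g hg x y h.2⟩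
  refine ⟨Λ.reachableSetoid, ?_, ?_, ?_⟩
  · intro g hg a b hab
    let f : Λ →g Λ := ⟨g, fun {a b} h => hinv' g hg a b h⟩
    have h1 : Λ.Reachable a b := hab
    exact h1.map f
  · intro x
    exact comp_finite hfin htr Λ hinv' (fun x => (hloc x).subset fun y hy => hy.2) x
  · intro x y h
    by_cases hxy : x = y
    · subst hxy; exact Λ.reachableSetoid.refl x
    · have : Λ.Adj x y := ⟨hxy, h⟩
      exact this.reachable

/-- join of two finite congruences -/
theorem exists_join {S : Subgroup (Perm Ω)} (hfin : Finitary S) (htr : Trans S)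
    {E E' : Setoid Ω} (hE : Inv S E) (hE' : Inv S E') (hf : FinCl E) (hf' : FinCl E') :
    ∃ E'' : Setoid Ω, Inv S E'' ∧ FinCl E'' ∧ (∀ x y, E x y → E'' x y) ∧
      ∀ x y, E' x y → E'' x y := by
  obtain ⟨E'', h1, h2, h3⟩ := exists_congr hfin htr (fun x y => E x y ∨ E' x y)
    (fun x y h => h.imp (fun h => E.symm h) (fun h => E'.symm h))
    (fun g hg x y h => h.imp (hE g hg x y) (hE' g hg x y))
    (fun x => (hf x).union (hf' x))
  exact ⟨E'', h1, h2, fun x y h => h3 x y (Or.inl h), fun x y h => h3 x y (Or.inr h)⟩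

/-- the `S_x`-orbit of `y` is finite -/
def Fi (S : Subgroup (Perm Ω)) (x y : Ω) : Prop := {z | ∃ g ∈ S, g x = x ∧ g y = z}.Finite

theorem Fi.trans {S : Subgroup (Perm Ω)} {x y z : Ω} (h1 : Fi S x y) (h2 : Fi S y z) :
    Fi S x z := by
  classical
  have h3 : ∀ w ∈ {w | ∃ g ∈ S, g x = x ∧ g y = w}, ∃ g ∈ S, g y = w := by
    rintro w ⟨g, hg, -, hw⟩; exact ⟨g, hg, hw⟩
  choose! k hk hky using h3
  refine (h1.biUnion (t := fun w => (k w) '' {v | ∃ g ∈ S, g y = y ∧ g z = v})
    fun w _ => h2.image _).subset ?_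
  rintro v ⟨g, hg, hgx, rfl⟩
  have h4 : g y ∈ {w | ∃ g ∈ S, g x = x ∧ g y = w} := ⟨g, hg, hgx, rfl⟩
  refine Set.mem_biUnion h4 ⟨(k (g y))⁻¹ (g z), ⟨(k (g y))⁻¹ * g, S.mul_mem
    (S.inv_mem (hk _ h4)) hg, ?_, rfl⟩, app_inv _ _⟩
  rw [Perm.mul_apply, Perm.inv_eq_iff_eq]
  exact (hky (g y) h4).symm

theorem Fi.map {S : Subgroup (Perm Ω)} {x y : Ω} (h : Fi S x y) {k : Perm Ω} (hk : k ∈ S) :
    Fi S (k x) (k y) := by
  refine (h.image k).subset ?_
  rintro z ⟨g, hg, hgx, rfl⟩
  refine ⟨(k⁻¹ * g * k) y, ⟨k⁻¹ * g * k, S.mul_mem (S.mul_mem (S.inv_mem hk) hg) hk, ?_, rfl⟩, ?_⟩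
  · simp only [Perm.mul_apply, hgx, inv_app]
  · simp only [Perm.mul_apply, app_inv]

theorem Fi.refl (S : Subgroup (Perm Ω)) (x : Ω) : Fi S x x := by
  refine (Set.finite_singleton x).subset ?_
  rintro z ⟨g, _, h1, h2⟩
  exact h2.symm.trans h1

/-- The relation is symmetric if all elements of `S` have finite order. -/
theorem Fi.symm' {S : Subgroup (Perm Ω)} (hper : ∀ g ∈ S, ∃ n, 0 < n ∧ g ^ n = 1) (htr : Trans S)
    {x y : Ω} (h : Fi S x y) : Fi S y x := by
  obtain ⟨k, hk, rfl⟩ := htr x y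
  obtain ⟨n, hn, hkn⟩ := hper k hk
  have key : ∀ m : ℕ, Fi S (k x) ((k ^ (m + 1)) x) := by
    intro m
    induction m with
    | zero => rw [zero_add, pow_one]; exact Fi.refl S _
    | succ m ih =>
      refine ih.trans ?_
      have h1 := h.map (S.pow_mem hk (m + 1))
      have h2 : (k ^ (m + 1)) (k x) = (k ^ (m + 1 + 1)) x := by
        rw [pow_succ k (m + 1), Perm.mul_apply]
      rwa [h2] at h1
  have h3 := key (n - 1)
  rw [Nat.sub_add_cancel hn, hkn, Perm.one_apply] at h3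
  exact h3

theorem Fi.congr {S : Subgroup (Perm Ω)} (hfin : Finitary S) (htr : Trans S)
    (hper : ∀ g ∈ S, ∃ n, 0 < n ∧ g ^ n = 1) {x y : Ω} (h : Fi S x y) :
    ∃ E : Setoid Ω, Inv S E ∧ FinCl E ∧ E x y := by
  have hs : Fi S y x := h.symm' hper htr
  obtain ⟨E, h1, h2, h3⟩ := exists_congr hfin htr
    (fun u v => ∃ g ∈ S, (g x = u ∧ g y = v) ∨ (g x = v ∧ g y = u))
    (fun u v ⟨g, hg, h⟩ => ⟨g, hg, h.symm⟩)
    (by
      rintro k hk u v ⟨g, hg, h⟩
      refine ⟨k * g, S.mul_mem hk hg, ?_⟩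
      rcases h with ⟨rfl, rfl⟩ | ⟨rfl, rfl⟩
      · exact Or.inl ⟨rfl, rfl⟩
      · exact Or.inr ⟨rfl, rfl⟩)
    (by
      intro u
      obtain ⟨k, hk, hku⟩ := htr x u
      obtain ⟨k', hk', hku'⟩ := htr y u
      refine ((h.image k).union (hs.image k')).subset ?_
      rintro v ⟨g, hg, ⟨h4, h5⟩ | ⟨h4, h5⟩⟩
      · left
        refine ⟨(k⁻¹ * g) y, ⟨k⁻¹ * g, S.mul_mem (S.inv_mem hk) hg, ?_, rfl⟩, ?_⟩
        · rw [Perm.mul_apply, h4, ← hku, inv_app]
        · rw [Perm.mul_apply, app_inv, h5]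
      · right
        refine ⟨(k'⁻¹ * g) x, ⟨k'⁻¹ * g, S.mul_mem (S.inv_mem hk') hg, ?_, rfl⟩, ?_⟩
        · rw [Perm.mul_apply, h5, ← hku', inv_app]
        · rw [Perm.mul_apply, app_inv, h4])
  exact ⟨E, h1, h2, h3 x y ⟨1, S.one_mem, Or.inl ⟨rfl, rfl⟩⟩⟩

open scoped Pointwise in
/-- Separation: if all points of the finite set `A` have infinite `S_x`-orbits, then some element
of `S_x` moves `A` off the finite set `B`. -/
theorem separate {S : Subgroup (Perm Ω)} (x : Ω) {A B : Set Ω} (hA : A.Finite) (hB : B.Finite)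
    (h : ∀ a ∈ A, ¬ Fi S x a) : ∃ g ∈ S, g x = x ∧ ∀ a ∈ A, g a ∉ B := by
  classical
  by_contra hcon
  push Not at hcon
  let T : Subgroup S := MulAction.stabilizer S x
  have hT : ∀ g : S, g ∈ T ↔ (g : Perm Ω) x = x := fun g => Iff.rfl
  -- the cover
  let s : Finset (Ω × Ω) := (hA.toFinset ×ˢ hB.toFinset).filter
    (fun p => ∃ g : T, ((g : S) : Perm Ω) p.1 = p.2)
  have hs : ∀ p ∈ s, ∃ g : T, ((g : S) : Perm Ω) p.1 = p.2 := fun p hp => (Finset.mem_filter.1 hp).2
  choose! k hk using hs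
  have hcover : ⋃ p ∈ s, (k p) • ((MulAction.stabilizer T p.1 : Subgroup T) : Set T) = Set.univ := by
    rw [Set.eq_univ_iff_forall]
    intro g
    obtain ⟨a, ha, hb⟩ := hcon ((g : S) : Perm Ω) (g : S).2 ((hT _).1 g.2)
    have hp : (a, ((g : S) : Perm Ω) a) ∈ s := by
      refine Finset.mem_filter.2 ⟨Finset.mem_product.2 ⟨?_, ?_⟩, g, rfl⟩
      · exact hA.mem_toFinset.2 ha
      · exact hB.mem_toFinset.2 hb
    refine Set.mem_biUnion hp ?_
    rw [Set.mem_smul_set_iff_inv_smul_mem]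
    change ((k _)⁻¹ * g) • a = a
    rw [mul_smul, inv_smul_eq_iff]
    exact (hk _ hp).symm
  obtain ⟨p, hp, hfi⟩ := Subgroup.exists_finiteIndex_of_leftCoset_cover hcover
  have ha : p.1 ∈ A := hA.mem_toFinset.1 (Finset.mem_product.1 (Finset.mem_filter.1 hp).1).1
  apply h p.1 ha
  have h1 : (MulAction.orbit T p.1).Finite := by
    have h2 := MulAction.index_stabilizer T p.1
    have h3 : (MulAction.stabilizer T p.1).index ≠ 0 := hfi.index_ne_zero
    rw [h2] at h3
    exact Set.finite_of_ncard_ne_zero h3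
  refine h1.subset ?_
  rintro z ⟨g, hg, hgx, rfl⟩
  exact ⟨⟨⟨g, hg⟩, hgx⟩, rfl⟩

open scoped Pointwise in
theorem orbit_closure {S Q : Type*} [Group S] [MulAction S Q] (K : Set S) (T : Set Q)
    (hT : T.Finite) (o : Q) (ho : o ∈ T) (hK : ∀ k ∈ K, ∀ t ∈ T, k • t ∈ T)
    (hreach : ∀ t ∈ T, t ∈ MulAction.orbit (Subgroup.closure K) o) :
    MulAction.orbit (Subgroup.closure K) o = T := by
  apply Set.Subset.antisymm
  · rintro _ ⟨⟨h, hh⟩, rfl⟩
    have h1 : Subgroup.closure K ≤ MulAction.stabilizer S T := by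
      rw [Subgroup.closure_le]
      intro k hk
      rw [SetLike.mem_coe, MulAction.mem_stabilizer_iff]
      apply Set.eq_of_subset_of_ncard_le
      · rintro _ ⟨t, ht, rfl⟩
        exact hK k hk t ht
      · rw [Set.ncard_smul_set]
      · exact hT
    have h2 := h1 hh
    rw [MulAction.mem_stabilizer_iff] at h2
    rw [← h2]
    exact ⟨o, ho, rfl⟩
  · exact hreach

theorem no_threecycles {p : ℕ} [hp : Fact p.Prime] {S Q : Type*} [Group S] [MulAction S Q]
    (hS : IsPGroup p S) {c c' : S} {o a b a' b' : Q} (hoa : o ≠ a) (hob : o ≠ b) (hab : a ≠ b)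
    (hoa' : o ≠ a') (hob' : o ≠ b') (hab' : a' ≠ b') (haa' : a ≠ a') (haab' : a ≠ b')
    (hba' : b ≠ a') (hbb' : b ≠ b') (h1 : c • o = a) (h2 : c • a = b) (h3 : c • b = o)
    (h4 : c • a' = a') (h5 : c • b' = b') (h1' : c' • o = a') (h2' : c' • a' = b')
    (h3' : c' • b' = o) (h4' : c' • a = a) (h5' : c' • b = b) : False := by
  classical
  have e3 : MulAction.orbit (Subgroup.closure {c}) o = (({o, a, b} : Finset Q) : Set Q) := by
    have hc : c ∈ Subgroup.closure {c} := Subgroup.subset_closure rfl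
    apply orbit_closure _ _ (Finset.finite_toSet _) _ (by simp)
    · rintro k hk t ht
      rw [Set.mem_singleton_iff] at hk
      subst hk
      simp only [Finset.coe_insert, Finset.coe_singleton, Set.mem_insert_iff,
        Set.mem_singleton_iff] at ht ⊢
      rcases ht with rfl | rfl | rfl
      · rw [h1]; tauto
      · rw [h2]; tauto
      · rw [h3]; tauto
    · intro t ht
      simp only [Finset.coe_insert, Finset.coe_singleton, Set.mem_insert_iff,
        Set.mem_singleton_iff] at ht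
      rcases ht with rfl | rfl | rfl
      · exact MulAction.mem_orbit_self _
      · exact ⟨⟨c, hc⟩, h1⟩
      · refine ⟨⟨c, hc⟩ * ⟨c, hc⟩, ?_⟩
        change (c * c) • o = _
        rw [mul_smul, h1, h2]
  have e5 : MulAction.orbit (Subgroup.closure {c, c'}) o =
      (({o, a, b, a', b'} : Finset Q) : Set Q) := by
    have hc : c ∈ Subgroup.closure {c, c'} := Subgroup.subset_closure (Or.inl rfl)
    have hc' : c' ∈ Subgroup.closure {c, c'} := Subgroup.subset_closure (Or.inr rfl)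
    apply orbit_closure _ _ (Finset.finite_toSet _) _ (by simp)
    · rintro k hk t ht
      simp only [Finset.coe_insert, Finset.coe_singleton, Set.mem_insert_iff,
        Set.mem_singleton_iff] at hk ht ⊢
      rcases hk with rfl | rfl
      · rcases ht with rfl | rfl | rfl | rfl | rfl
        · rw [h1]; tauto
        · rw [h2]; tauto
        · rw [h3]; tauto
        · rw [h4]; tauto
        · rw [h5]; tauto
      · rcases ht with rfl | rfl | rfl | rfl | rfl
        · rw [h1']; tauto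
        · rw [h4']; tauto
        · rw [h5']; tauto
        · rw [h2']; tauto
        · rw [h3']; tauto
    · intro t ht
      simp only [Finset.coe_insert, Finset.coe_singleton, Set.mem_insert_iff,
        Set.mem_singleton_iff] at ht
      rcases ht with rfl | rfl | rfl | rfl | rfl
      · exact MulAction.mem_orbit_self _
      · exact ⟨⟨c, hc⟩, h1⟩
      · refine ⟨⟨c, hc⟩ * ⟨c, hc⟩, ?_⟩
        change (c * c) • o = _
        rw [mul_smul, h1, h2]
      · exact ⟨⟨c', hc'⟩, h1'⟩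
      · refine ⟨⟨c', hc'⟩ * ⟨c', hc'⟩, ?_⟩
        change (c' * c') • o = _
        rw [mul_smul, h1', h2']
  have k3 : ∃ n, 3 = p ^ n := by
    haveI : Finite (MulAction.orbit (Subgroup.closure {c}) o) := by
      rw [e3]; exact (Finset.finite_toSet _).to_subtype
    obtain ⟨n, hn⟩ := (hS.to_subgroup (Subgroup.closure {c})).card_orbit o
    refine ⟨n, ?_⟩
    rw [← hn, e3, Nat.card_coe_set_eq, Set.ncard_coe_finset]
    simp [hoa, hob, hab]
  have k5 : ∃ n, 5 = p ^ n := by
    haveI : Finite (MulAction.orbit (Subgroup.closure {c, c'}) o) := by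
      rw [e5]; exact (Finset.finite_toSet _).to_subtype
    obtain ⟨n, hn⟩ := (hS.to_subgroup (Subgroup.closure {c, c'})).card_orbit o
    refine ⟨n, ?_⟩
    rw [← hn, e5, Nat.card_coe_set_eq, Set.ncard_coe_finset]
    simp [hoa, hob, hab, hoa', hob', hab', haa', haab', hba', hbb']
  obtain ⟨n, hn⟩ := k3
  obtain ⟨m, hm⟩ := k5
  have hn0 : n ≠ 0 := by rintro rfl; norm_num at hn
  have hm0 : m ≠ 0 := by rintro rfl; norm_num at hm
  have p3 : p ∣ 3 := hn ▸ dvd_pow_self p hn0
  have p5 : p ∣ 5 := hm ▸ dvd_pow_self p hm0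
  have q3 := (Nat.prime_dvd_prime_iff_eq hp.out Nat.prime_three).1 p3
  have q5 := (Nat.prime_dvd_prime_iff_eq hp.out Nat.prime_five).1 p5
  omega

/-- the action on the classes of a congruence -/
@[reducible] def quotAction {S : Subgroup (Perm Ω)} {R : Setoid Ω} (hR : Inv S R) :
    MulAction S (Quotient R) where
  smul g := Quotient.map (g : Perm Ω) (fun a b h => hR g g.2 a b h)
  one_smul q := by
    induction q using Quotient.inductionOn with
    | h x => rfl
  mul_smul g h q := by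
    induction q using Quotient.inductionOn with
    | h x => rfl

theorem exists_congr_pair {p : ℕ} [hp : Fact p.Prime] {S : Subgroup (Perm Ω)}
    (hfin : Finitary S) (htr : Trans S) (hS : IsPGroup p S) (x₀ y₀ : Ω) :
    ∃ E : Setoid Ω, Inv S E ∧ FinCl E ∧ E x₀ y₀ := by
  classical
  by_contra hcon
  have hper : ∀ g ∈ S, ∃ n, 0 < n ∧ g ^ n = 1 := by
    intro g hg
    obtain ⟨k, hk⟩ := hS ⟨g, hg⟩
    exact ⟨p ^ k, pow_pos hp.out.pos k, congrArg Subtype.val hk⟩
  -- the maximum finite congruence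
  let R : Setoid Ω :=
    { r := fun x y => ∃ E : Setoid Ω, Inv S E ∧ FinCl E ∧ E x y
      iseqv := by
        refine ⟨fun x => ⟨⊥, ?_, ?_, ?_⟩, ?_, ?_⟩
        · intro g _ a b hab
          exact congrArg g hab
        · intro a
          refine (Set.finite_singleton a).subset fun b hb => ?_
          have h1 : a = b := hb
          exact h1.symm
        · rfl
        · rintro a b ⟨E, h1, h2, h3⟩
          exact ⟨E, h1, h2, E.symm h3⟩
        · rintro a b c ⟨E, h1, h2, h3⟩ ⟨E', h1', h2', h3'⟩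
          obtain ⟨E'', h4, h5, h6, h7⟩ := exists_join hfin htr h1 h1' h2 h2'
          exact ⟨E'', h4, h5, E''.trans (h6 _ _ h3) (h7 _ _ h3')⟩ }
  have hRR : ∀ x y, R x y ↔ ∃ E : Setoid Ω, Inv S E ∧ FinCl E ∧ E x y := fun _ _ => Iff.rfl
  have hRinv : Inv S R := by
    rintro g hg x y ⟨E, h1, h2, h3⟩
    exact ⟨E, h1, h2, h1 g hg x y h3⟩
  have hxy : ¬ R x₀ y₀ := hcon
  obtain ⟨g, hg, hgx⟩ := htr x₀ y₀
  have hcl0 : {y | R x₀ y}.Finite := by
    refine (hfin g hg).subset fun z hz hgz => ?_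
    have h1 : R (g x₀) (g z) := hRinv g hg _ _ hz
    rw [hgx, hgz] at h1
    exact hxy (R.trans hz (R.symm h1))
  have hRfin : FinCl R := by
    intro x
    obtain ⟨k, hk, hkx⟩ := htr x₀ x
    refine (hcl0.image k).subset fun y hy => ⟨k⁻¹ y, ?_, app_inv k y⟩
    have h1 : R x y := hy
    have h2 := hRinv k⁻¹ (S.inv_mem hk) _ _ h1
    rw [← hkx, inv_app] at h2
    exact h2
  have hnotFi : ∀ x y, ¬ R x y → ¬ Fi S x y := fun x y h h' => h (h'.congr hfin htr hper)
  letI := quotAction hRinv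
  have hsmul : ∀ (k : S) (x : Ω), k • (Quotient.mk R x) = Quotient.mk R ((k : Perm Ω) x) :=
    fun k x => rfl
  -- the commutator
  let D : Set Ω := ⋃ w ∈ {w | g w ≠ w}, {z | R w z}
  have hD : D.Finite := (hfin g hg).biUnion fun w _ => hRfin w
  have hDmem : ∀ z, g z ≠ z → z ∈ D := fun z hz => Set.mem_biUnion (x := z) hz (R.refl z)
  obtain ⟨h, hh, hhx, hsep⟩ := separate (S := S) x₀ (A := D \ {z | R x₀ z}) (B := D)
    (hD.subset Set.sdiff_subset) hD (fun a ha => hnotFi _ _ ha.2)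
  let X : S := ⟨g, hg⟩
  let Y : S := ⟨h * g * h⁻¹, S.mul_mem (S.mul_mem hh hg) (S.inv_mem hh)⟩
  let o : Quotient R := Quotient.mk R x₀
  have hboth : ∀ q : Quotient R, X • q ≠ q → Y • q ≠ q → q = o := by
    intro q
    induction q using Quotient.inductionOn with
    | h z =>
      intro h1 h2
      rw [hsmul] at h1 h2
      have h3 : g z ≠ z := fun h' => h1 (congrArg _ h')
      have h4 : g (h⁻¹ z) ≠ h⁻¹ z := by
        intro h'
        apply h2
        have : (h * g * h⁻¹) z = z := by rw [Perm.mul_apply, Perm.mul_apply, h', app_inv]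
        exact congrArg _ this
      by_contra hne
      have h5 : ¬ R x₀ z := fun h' => hne (Quotient.sound (R.symm h'))
      have h6 : ¬ R x₀ (h⁻¹ z) := by
        intro h'
        apply h5
        have h7 := hRinv h hh _ _ h'
        rwa [hhx, app_inv] at h7
      have h8 := hsep (h⁻¹ z) ⟨hDmem _ h4, h6⟩
      rw [app_inv] at h8
      exact h8 (hDmem z h3)
  have hXo : X • o ≠ o := by
    intro h'
    rw [hsmul] at h'
    have h1 : R (g x₀) x₀ := Quotient.exact h'
    rw [hgx] at h1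
    exact hxy (R.symm h1)
  have hYo : Y • o ≠ o := by
    intro h'
    rw [hsmul] at h'
    have h1 : R ((h * g * h⁻¹) x₀) x₀ := Quotient.exact h'
    have h2 : (h * g * h⁻¹) x₀ = h y₀ := by
      rw [Perm.mul_apply, Perm.mul_apply]
      have : h⁻¹ x₀ = x₀ := by rw [Perm.inv_eq_iff_eq, hhx]
      rw [this, hgx]
    rw [h2] at h1
    have h3 : R (h y₀) (h x₀) := by rwa [hhx]
    rw [hRinv.iff hh] at h3
    exact hxy (R.symm h3)
  -- properties of `X`, `Y`
  have hmoveX : ∀ q : Quotient R, X • q ≠ q → X • (X • q) ≠ X • q := by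
    intro q hq h'; exact hq (smul_left_cancel X h')
  have hmoveY : ∀ q : Quotient R, Y • q ≠ q → Y • (Y • q) ≠ Y • q := by
    intro q hq h'; exact hq (smul_left_cancel Y h')
  have hmoveX' : ∀ q : Quotient R, X • q ≠ q → X • (X⁻¹ • q) ≠ X⁻¹ • q := by
    intro q hq h'
    rw [smul_inv_smul, eq_inv_smul_iff] at h'; exact hq h'
  have hmoveY' : ∀ q : Quotient R, Y • q ≠ q → Y • (Y⁻¹ • q) ≠ Y⁻¹ • q := by
    intro q hq h'
    rw [smul_inv_smul, eq_inv_smul_iff] at h'; exact hq h'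
  have hXfix : ∀ q : Quotient R, Y • q ≠ q → q ≠ o → X • q = q := by
    intro q h1 h2; by_contra h3; exact h2 (hboth q h3 h1)
  have hYfix : ∀ q : Quotient R, X • q ≠ q → q ≠ o → Y • q = q := by
    intro q h1 h2; by_contra h3; exact h2 (hboth q h1 h3)
  have hinvfix : ∀ (Z : S) (q : Quotient R), Z • q = q → Z⁻¹ • q = q := by
    intro Z q h1; rw [inv_smul_eq_iff]; exact h1.symm
  obtain ⟨a, ha⟩ : ∃ a, X • o = a := ⟨_, rfl⟩
  obtain ⟨b, hb⟩ : ∃ b, Y • o = b := ⟨_, rfl⟩
  have hao : a ≠ o := ha ▸ hXo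
  have hbo : b ≠ o := hb ▸ hYo
  have hXa : X • a ≠ a := ha ▸ hmoveX o hXo
  have hYb : Y • b ≠ b := hb ▸ hmoveY o hYo
  have hYa : Y • a = a := hYfix a hXa hao
  have hXb : X • b = b := hXfix b hYb hbo
  have hab : a ≠ b := by
    intro h'; rw [← h'] at hYb; exact hYb hYa
  let c : S := X * Y * X⁻¹ * Y⁻¹
  have hc : ∀ q : Quotient R, c • q = X • Y • X⁻¹ • Y⁻¹ • q := by
    intro q; simp only [c, mul_smul]
  have c1 : c • o = a := by
    rw [hc]
    have h1 := hmoveY' o hYo
    have h2 : Y⁻¹ • o ≠ o := by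
      intro h'; rw [inv_smul_eq_iff, hb] at h'; exact hbo h'.symm
    rw [hinvfix X _ (hXfix _ h1 h2), smul_inv_smul, ha]
  have c2 : c • a = b := by
    rw [hc, hinvfix Y a hYa]
    have : X⁻¹ • a = o := by rw [inv_smul_eq_iff, ha]
    rw [this, hb, hXb]
  have c3 : c • b = o := by
    rw [hc]
    have h0 : Y⁻¹ • b = o := by rw [inv_smul_eq_iff, hb]
    rw [h0]
    have h1 := hmoveX' o hXo
    have h2 : X⁻¹ • o ≠ o := by
      intro h'; rw [inv_smul_eq_iff, ha] at h'; exact hao h'.symm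
    rw [hYfix _ h1 h2, smul_inv_smul]
  have c4 : ∀ q : Quotient R, q ≠ o → q ≠ a → q ≠ b → c • q = q := by
    intro q q1 q2 q3
    rw [hc]
    by_cases hX : X • q = q
    · by_cases hY : Y • q = q
      · rw [hinvfix Y q hY, hinvfix X q hX, hY, hX]
      · have h1 := hmoveY' q hY
        have h2 : Y⁻¹ • q ≠ o := by
          intro h'; rw [inv_smul_eq_iff, hb] at h'; exact q3 h'
        rw [hinvfix X _ (hXfix _ h1 h2), smul_inv_smul, hX]
    · have hY := hYfix q hX q1
      rw [hinvfix Y q hY]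
      have h1 := hmoveX' q hX
      have h2 : X⁻¹ • q ≠ o := by
        intro h'; rw [inv_smul_eq_iff, ha] at h'; exact q2 h'
      rw [hYfix _ h1 h2, smul_inv_smul]
  -- a second three-cycle
  let A2 : Set Ω := {z | Quotient.mk R z = a} ∪ {z | Quotient.mk R z = b}
  have hfinclass : ∀ q : Quotient R, {z | Quotient.mk R z = q}.Finite := by
    intro q
    induction q using Quotient.inductionOn with
    | h w =>
      refine (hRfin w).subset fun z hz => ?_
      exact R.symm (Quotient.exact hz)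
  have hA2 : A2.Finite := (hfinclass a).union (hfinclass b)
  obtain ⟨k, hk, hkx, hsep2⟩ := separate (S := S) x₀ (A := A2) (B := A2) hA2 hA2 (by
    intro z hz
    apply hnotFi
    intro h'
    have h1 : o = Quotient.mk R z := Quotient.sound h'
    rcases hz with hz | hz
    · exact hao (hz.symm.trans h1.symm)
    · exact hbo (hz.symm.trans h1.symm))
  let k' : S := ⟨k, hk⟩
  have hko : k' • o = o := by
    rw [hsmul]; exact congrArg _ hkx
  have hsepq : ∀ q, (q = a ∨ q = b) → k' • q ≠ a ∧ k' • q ≠ b := by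
    intro q hq
    induction q using Quotient.inductionOn with
    | h z =>
      have h1 : z ∈ A2 := hq
      have h2 := hsep2 z h1
      exact ⟨fun h' => h2 (Or.inl h'), fun h' => h2 (Or.inr h')⟩
  obtain ⟨a1, a2⟩ := hsepq a (Or.inl rfl)
  obtain ⟨b1, b2⟩ := hsepq b (Or.inr rfl)
  have hne1 : k' • a ≠ o := by
    intro h'; rw [← hko] at h'; exact hao (smul_left_cancel k' h')
  have hne2 : k' • b ≠ o := by
    intro h'; rw [← hko] at h'; exact hbo (smul_left_cancel k' h')
  have hconj : ∀ q : Quotient R, (k' * c * k'⁻¹) • (k' • q) = k' • (c • q) := by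
    intro q; simp only [mul_smul, inv_smul_smul]
  have c4' : ∀ q : Quotient R, q ≠ o → q ≠ k' • a → q ≠ k' • b → (k' * c * k'⁻¹) • q = q := by
    intro q q1 q2 q3
    have h1 := hconj (k'⁻¹ • q)
    rw [smul_inv_smul] at h1
    rw [h1, c4 (k'⁻¹ • q), smul_inv_smul]
    · intro h'; rw [inv_smul_eq_iff, hko] at h'; exact q1 h'
    · intro h'; rw [inv_smul_eq_iff] at h'; exact q2 h'
    · intro h'; rw [inv_smul_eq_iff] at h'; exact q3 h'
  exact no_threecycles hS (c := c) (c' := k' * c * k'⁻¹) (o := o) (a := a) (b := b)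
    (a' := k' • a) (b' := k' • b) hao.symm hbo.symm hab hne1.symm hne2.symm
    (fun h' => hab (smul_left_cancel k' h')) a1.symm b1.symm a2.symm b2.symm c1 c2 c3
    (c4 _ hne1 a1 a2) (c4 _ hne2 b1 b2)
    (by rw [← hko, hconj, c1]) (by rw [hconj, c2]) (by rw [hconj, c3, hko])
    (c4' a hao a1.symm b1.symm) (c4' b hbo a2.symm b2.symm)

/-- Every finite set is contained in a class of a finite congruence. -/
theorem exists_congr_finite {p : ℕ} [hp : Fact p.Prime] {S : Subgroup (Perm Ω)}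
    (hfin : Finitary S) (htr : Trans S) (hS : IsPGroup p S) (x₀ : Ω) {A : Set Ω}
    (hA : A.Finite) : ∃ E : Setoid Ω, Inv S E ∧ FinCl E ∧ ∀ a ∈ A, E x₀ a := by
  induction A, hA using Set.Finite.induction_on with
  | empty =>
    refine ⟨⊥, fun g _ a b hab => congrArg g hab, fun a => ?_, by simp⟩
    refine (Set.finite_singleton a).subset fun b hb => ?_
    have h1 : a = b := hb
    exact h1.symm
  | @insert a A _ _ ih =>
    obtain ⟨E, h1, h2, h3⟩ := ih
    obtain ⟨E', h1', h2', h3'⟩ := exists_congr_pair hfin htr hS x₀ a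
    obtain ⟨E'', h4, h5, h6, h7⟩ := exists_join hfin htr h1 h1' h2 h2'
    refine ⟨E'', h4, h5, ?_⟩
    rintro b (rfl | hb)
    · exact h7 _ _ h3'
    · exact h6 _ _ (h3 b hb)

end Pool.Agent.V1130.FinP
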