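import Pool.Agent.V1130.FinP

/-!
Transitive Sylow `p`-subgroups of finitary groups are locally Sylow.
-/

namespace Pool.Agent.V1130.FinSyl

open Equiv Pool.Agent.V1130.FinP

variable {Ω : Type*}

/-- elements of `G` fixing all points outside `D` -/
def loc (G : Subgroup (Perm Ω)) (D : Set Ω) : Subgroup (Perm Ω) where
  carrier := {g | g ∈ G ∧ ∀ z, z ∉ D → g z = z}
  mul_mem' := by
    rintro a b ⟨ha, ha'⟩ ⟨hb, hb'⟩
    exact ⟨G.mul_mem ha hb, fun z hz => by rw [Perm.mul_apply, hb' z hz, ha' z hz]⟩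
  one_mem' := ⟨G.one_mem, fun z _ => rfl⟩
  inv_mem' := by
    rintro a ⟨ha, ha'⟩
    exact ⟨G.inv_mem ha, fun z hz => by rw [Perm.inv_eq_iff_eq, ha' z hz]⟩

theorem loc_le (G : Subgroup (Perm Ω)) (D : Set Ω) : loc G D ≤ G := fun _ h => h.1

theorem loc_mapsTo {G : Subgroup (Perm Ω)} {D : Set Ω} {g : Perm Ω} (hg : g ∈ loc G D) {z : Ω}
    (hz : z ∈ D) : g z ∈ D := by
  by_contra h
  have h1 := hg.2 (g z) h
  have h2 := g.injective h1
  rw [h2] at h
  exact h hz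

theorem loc_finite (G : Subgroup (Perm Ω)) {D : Set Ω} (hD : D.Finite) : Finite (loc G D) := by
  haveI := hD.to_subtype
  let f : loc G D → (D → D) := fun g z => ⟨(g : Perm Ω) z, loc_mapsTo g.2 z.2⟩
  apply Finite.of_injective f
  intro g h hgh
  apply Subtype.ext
  ext1 z
  by_cases hz : z ∈ D
  · have := congrArg (fun k : D → D => ((k ⟨z, hz⟩ : D) : Ω)) hgh
    exact this
  · rw [g.2.2 z hz, h.2.2 z hz]

/-- The main lemma: local Sylow subgroups. -/
theorem local_sylow {p : ℕ} [hp : Fact p.Prime] {G S : Subgroup (Perm Ω)} (hSG : S ≤ G)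
    (hS : IsPGroup p S) (hmax : ∀ T : Subgroup (Perm Ω), T ≤ G → IsPGroup p T → S ≤ T → T ≤ S)
    (htr : Trans S) (E : Setoid Ω) (hE : Inv S E) (hfE : FinCl E) (x₀ : Ω) :
    ∃ P : Sylow p (loc G {y | E x₀ y}), (P : Subgroup (loc G {y | E x₀ y})) =
      S.subgroupOf (loc G {y | E x₀ y}) := by
  classical
  set D : Set Ω := {y | E x₀ y} with hD
  set L := loc G D with hL
  haveI : Finite L := loc_finite G (hfE x₀)
  -- the setwise stabilizer of `D` in `S`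
  let SD : Subgroup (Perm Ω) :=
    { carrier := {s | s ∈ S ∧ E x₀ (s x₀)}
      mul_mem' := by
        rintro a b ⟨ha, ha'⟩ ⟨hb, hb'⟩
        refine ⟨S.mul_mem ha hb, E.trans ha' ?_⟩
        exact hE a ha _ _ hb'
      one_mem' := ⟨S.one_mem, E.refl _⟩
      inv_mem' := by
        rintro a ⟨ha, ha'⟩
        refine ⟨S.inv_mem ha, ?_⟩
        have h1 := hE a⁻¹ (S.inv_mem ha) _ _ ha'
        rw [inv_app] at h1
        exact E.symm h1 }
  have hSDD : ∀ s ∈ SD, ∀ z, s z ∈ D ↔ z ∈ D := by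
    rintro s ⟨hs, hs'⟩ z
    constructor
    · intro h
      have h1 : E (s x₀) (s z) := E.trans (E.symm hs') h
      exact (hE.iff hs _ _).1 h1
    · intro h
      exact E.trans hs' (hE s hs _ _ h)
  have hSDconj : ∀ s ∈ SD, ∀ g ∈ L, s * g * s⁻¹ ∈ L := by
    rintro s hs g hg
    refine ⟨G.mul_mem (G.mul_mem (hSG hs.1) hg.1) (G.inv_mem (hSG hs.1)), fun z hz => ?_⟩
    have h1 : s⁻¹ z ∉ D := by
      intro h
      apply hz
      have := (hSDD s hs (s⁻¹ z)).2 h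
      rwa [app_inv] at this
    rw [Perm.mul_apply, Perm.mul_apply, hg.2 _ h1, app_inv]
  -- the conjugation action of `SD` on `L`
  let φ : SD →* MulAut L := MonoidHom.mk' (fun s =>
    { toFun := fun g => ⟨s * g * (s : Perm Ω)⁻¹, hSDconj s s.2 g g.2⟩
      invFun := fun g => ⟨(s : Perm Ω)⁻¹ * g * s, by
        have := hSDconj (s : Perm Ω)⁻¹ (SD.inv_mem s.2) g g.2
        rwa [inv_inv] at this⟩
      left_inv := fun g => Subtype.ext (by simp [mul_assoc])
      right_inv := fun g => Subtype.ext (by simp [mul_assoc])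
      map_mul' := fun g h => Subtype.ext (by simp [mul_assoc]) }) (by
    intro s t
    ext g
    simp [mul_assoc])
  have hφ : ∀ (s : SD) (g : L), ((φ s g : L) : Perm Ω) = s * g * (s : Perm Ω)⁻¹ := fun _ _ => rfl
  letI : MulDistribMulAction SD L := MulDistribMulAction.compHom L φ
  have hact : ∀ (s : SD) (g : L), ((s • g : L) : Perm Ω) = s * g * (s : Perm Ω)⁻¹ := fun _ _ => rfl
  haveI : Finite (Sylow p L) := inferInstance
  have hSDp : IsPGroup p SD := hS.to_le (fun s hs => hs.1)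
  obtain ⟨P, hP⟩ := hSDp.nonempty_fixed_point_of_prime_not_dvd_card (Sylow p L)
    (not_dvd_card_sylow p L)
  have hPinv : ∀ s ∈ SD, ∀ q : L, q ∈ P → ∀ h : s * (q : Perm Ω) * s⁻¹ ∈ L,
      (⟨s * (q : Perm Ω) * s⁻¹, h⟩ : L) ∈ P := by
    intro s hs q hq h
    have h1 : (⟨s, hs⟩ : SD) • P = P := hP ⟨s, hs⟩
    rw [← h1]
    change _ ∈ ((⟨s, hs⟩ : SD) • P : Sylow p L)
    have h2 : (⟨s, hs⟩ : SD) • q ∈ (((⟨s, hs⟩ : SD) • P : Sylow p L) : Subgroup L) := by
      rw [Sylow.pointwise_smul_def]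
      exact Subgroup.smul_mem_pointwise_smul _ _ _ hq
    exact h2
  -- the image of `P`
  let P' : Subgroup (Perm Ω) := (P : Subgroup L).map L.subtype
  have hP'mem : ∀ q, q ∈ P' ↔ ∃ h : q ∈ L, (⟨q, h⟩ : L) ∈ P := by
    intro q
    constructor
    · rintro ⟨⟨q', h⟩, hq', rfl⟩
      exact ⟨h, hq'⟩
    · rintro ⟨h, hq⟩
      exact ⟨⟨q, h⟩, hq, rfl⟩
  have hP'L : P' ≤ L := fun q hq => ((hP'mem q).1 hq).1
  have hP'inv : ∀ s ∈ SD, ∀ q ∈ P', s * q * s⁻¹ ∈ P' := by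
    intro s hs q hq
    obtain ⟨h, hq'⟩ := (hP'mem q).1 hq
    exact (hP'mem _).2 ⟨hSDconj s hs q h, hPinv s hs ⟨q, h⟩ hq' _⟩
  obtain ⟨k, hk⟩ : ∃ k, ∀ q ∈ P', q ^ (p ^ k) = 1 := by
    obtain ⟨n, hn⟩ := IsPGroup.iff_card.1 P.2
    refine ⟨n, fun q hq => ?_⟩
    obtain ⟨h, hq'⟩ := (hP'mem q).1 hq
    have h1 : (⟨⟨q, h⟩, hq'⟩ : (P : Subgroup L)) ^ (p ^ n) = 1 := by
      rw [← hn]; exact pow_card_eq_one'
    have h2 := congrArg (fun x : (P : Subgroup L) => ((x : L) : Perm Ω)) h1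
    exact h2
  -- the base group
  let B : Subgroup (Perm Ω) :=
    { carrier := {b | ∀ s ∈ S, ∃ q ∈ P', ∀ z ∈ D, b (s z) = s (q z)}
      mul_mem' := by
        rintro b b' hb hb' s hs
        obtain ⟨q, hq, h1⟩ := hb s hs
        obtain ⟨q', hq', h2⟩ := hb' s hs
        refine ⟨q * q', P'.mul_mem hq hq', fun z hz => ?_⟩
        rw [Perm.mul_apply, h2 z hz, h1 _ (loc_mapsTo (hP'L hq') hz), Perm.mul_apply]
      one_mem' := fun s hs => ⟨1, P'.one_mem, fun z _ => rfl⟩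
      inv_mem' := by
        rintro b hb s hs
        obtain ⟨q, hq, h1⟩ := hb s hs
        refine ⟨q⁻¹, P'.inv_mem hq, fun z hz => ?_⟩
        rw [Perm.inv_eq_iff_eq, h1 _ (loc_mapsTo (hP'L (P'.inv_mem hq)) hz), app_inv] }
  have hBpow : ∀ b ∈ B, b ^ (p ^ k) = 1 := by
    intro b hb
    ext1 w
    obtain ⟨s, hs, rfl⟩ := htr x₀ w
    obtain ⟨q, hq, h1⟩ := hb s hs
    have h2 : ∀ n : ℕ, ∀ z ∈ D, (b ^ n) (s z) = s ((q ^ n) z) := by
      intro n
      induction n with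
      | zero => intro z _; rfl
      | succ n ih =>
        intro z hz
        rw [pow_succ, Perm.mul_apply, h1 z hz, ih _ (loc_mapsTo (hP'L hq) hz), pow_succ,
          Perm.mul_apply]
    rw [h2 _ x₀ (E.refl x₀), hk q hq]
    rfl
  have hBS : ∀ t ∈ S, ∀ b ∈ B, t * b * t⁻¹ ∈ B := by
    intro t ht b hb s hs
    obtain ⟨q, hq, h1⟩ := hb (t⁻¹ * s) (S.mul_mem (S.inv_mem ht) hs)
    refine ⟨q, hq, fun z hz => ?_⟩
    have h2 := h1 z hz
    rw [Perm.mul_apply, Perm.mul_apply] at h2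
    rw [Perm.mul_apply, Perm.mul_apply, h2, app_inv]
  have hP'B : P' ≤ B := by
    intro π hπ s hs
    by_cases h : E x₀ (s x₀)
    · have hs' : s⁻¹ ∈ SD := SD.inv_mem ⟨hs, h⟩
      refine ⟨s⁻¹ * π * s, ?_, fun z _ => ?_⟩
      · have := hP'inv s⁻¹ hs' π hπ
        rwa [inv_inv] at this
      · rw [Perm.mul_apply, Perm.mul_apply, app_inv]
    · refine ⟨1, P'.one_mem, fun z hz => ?_⟩
      have h1 : s z ∉ D := by
        intro h2
        apply h
        exact E.trans h2 (E.symm (hE s hs _ _ hz))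
      exact (hP'L hπ).2 _ h1
  -- the larger `p`-group
  have hBG : IsPGroup p (B ⊓ G : Subgroup (Perm Ω)) := by
    intro b
    refine ⟨k, ?_⟩
    apply Subtype.ext
    exact hBpow b b.2.1
  have hSnorm : S ≤ Subgroup.normalizer ((B ⊓ G : Subgroup (Perm Ω)) : Set (Perm Ω)) := by
    intro t ht
    rw [Subgroup.mem_normalizer_iff]
    intro b
    constructor
    · rintro ⟨h1, h2⟩
      exact ⟨hBS t ht b h1, G.mul_mem (G.mul_mem (hSG ht) h2) (G.inv_mem (hSG ht))⟩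
    · rintro ⟨h1, h2⟩
      have h3 := hBS t⁻¹ (S.inv_mem ht) _ h1
      have h4 := G.mul_mem (G.mul_mem (G.inv_mem (hSG ht)) h2) (hSG ht)
      have h5 : t⁻¹ * (t * b * t⁻¹) * t = b := by group
      rw [h5] at h4
      rw [inv_inv, h5] at h3
      exact ⟨h3, h4⟩
  have hT : IsPGroup p (S ⊔ (B ⊓ G) : Subgroup (Perm Ω)) := hS.to_sup_of_normal_right' hBG hSnorm
  have hTS := hmax _ (sup_le hSG inf_le_right) hT le_sup_left
  have hP'S : P' ≤ S := fun q hq =>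
    hTS ((le_sup_right : B ⊓ G ≤ S ⊔ (B ⊓ G)) ⟨hP'B hq, loc_le G D (hP'L hq)⟩)
  refine ⟨P, ?_⟩
  symm
  apply P.is_maximal'
  · exact hS.comap_subtype
  · intro q hq
    exact hP'S ⟨q, hq, rfl⟩

/-- For a transitive maximal `p`-subgroup `S` of the finitary group `G`, every element of `G` lies in
a finite subgroup `L ≤ G` such that `S ∩ L` is a Sylow `p`-subgroup of `L`. -/
theorem exists_local {p : ℕ} [hp : Fact p.Prime] {G : Subgroup (Perm Ω)} (hfin : Finitary G)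
    (S : Sylow p G) (htr : ∀ x y : Ω, ∃ s ∈ S, (s : Perm Ω) x = y) (g : G) :
    ∃ L : Subgroup G, Finite L ∧ g ∈ L ∧ ∃ P : Sylow p L, (P : Subgroup L) =
      (S : Subgroup G).subgroupOf L := by
  classical
  rcases isEmpty_or_nonempty Ω with hΩ | ⟨⟨x₀⟩⟩
  · haveI : Subsingleton (Perm Ω) := inferInstance
    haveI : Subsingleton G := inferInstance
    refine ⟨⊤, inferInstance, Subgroup.mem_top g, default, Subsingleton.elim _ _⟩
  · -- the image of `S` in the symmetric group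
    let S₀ : Subgroup (Perm Ω) := (S : Subgroup G).map G.subtype
    have hS₀G : S₀ ≤ G := by
      rintro _ ⟨s, _, rfl⟩; exact s.2
    have hS₀ : IsPGroup p S₀ := S.2.map _
    have htr₀ : Trans S₀ := fun x y => by
      obtain ⟨s, hs, h⟩ := htr x y
      exact ⟨s, ⟨s, hs, rfl⟩, h⟩
    have hmem : ∀ s : G, (s : Perm Ω) ∈ S₀ ↔ s ∈ S := by
      intro s
      constructor
      · rintro ⟨t, ht, hts⟩
        have : t = s := Subtype.ext hts
        rw [← this]; exact ht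
      · intro h; exact ⟨s, h, rfl⟩
    have hmax : ∀ T : Subgroup (Perm Ω), T ≤ G → IsPGroup p T → S₀ ≤ T → T ≤ S₀ := by
      intro T hT hTp hST t ht
      have h1 : T.subgroupOf G = (S : Subgroup G) := S.3 hTp.comap_subtype
        (fun s hs => hST ((hmem s).2 hs))
      have h2 : (⟨t, hT ht⟩ : G) ∈ T.subgroupOf G := ht
      rw [h1] at h2
      exact (hmem ⟨t, hT ht⟩).2 h2
    have hfin₀ : Finitary S₀ := fun s hs => hfin s (hS₀G hs)
    obtain ⟨E, hE, hfE, hA⟩ := exists_congr_finite hfin₀ htr₀ hS₀ x₀ (hfin g g.2)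
    obtain ⟨P, hP⟩ := local_sylow hS₀G hS₀ hmax htr₀ E hE hfE x₀
    let L₀ := loc G {y | E x₀ y}
    haveI : Finite L₀ := loc_finite G (hfE x₀)
    let L : Subgroup G := L₀.subgroupOf G
    let e : L ≃* L₀ := Subgroup.subgroupOfEquivOfLe (loc_le G _)
    refine ⟨L, Finite.of_equiv _ e.symm.toEquiv, ?_, ?_⟩
    · refine ⟨g.2, fun z hz => ?_⟩
      by_contra h
      exact hz (hA z h)
    · have hPP : (P : Subgroup L₀).comap e.toMonoidHom = (S : Subgroup G).subgroupOf L := by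
        ext x
        rw [Subgroup.mem_comap, hP]
        exact hmem x
      have h1 : IsPGroup p ((S : Subgroup G).subgroupOf L) := S.2.comap_subtype
      refine ⟨⟨(S : Subgroup G).subgroupOf L, h1, ?_⟩, rfl⟩
      intro Q hQ hSQ
      have h2 : Q.map e.toMonoidHom = (P : Subgroup L₀) := by
        apply P.is_maximal' (hQ.map _)
        intro y hy
        refine ⟨e.symm y, hSQ ?_, by simp⟩
        rw [← hPP, Subgroup.mem_comap]
        simpa using hy
      rw [← hPP, ← h2]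
      exact (Subgroup.comap_map_eq_self_of_injective e.injective Q).symm

/-- Q1 -/
theorem inter_sylow {p : ℕ} [hp : Fact p.Prime] {G : Subgroup (Perm Ω)} (hfin : Finitary G)
    (S : Sylow p G) (htr : ∀ x y : Ω, ∃ s ∈ S, (s : Perm Ω) x = y) (N : Subgroup G) [hN : N.Normal] :
    ∃ T : Sylow p N, (T : Subgroup N) = (S : Subgroup G).subgroupOf N := by
  classical
  refine ⟨⟨(S : Subgroup G).subgroupOf N, S.2.comap_subtype, ?_⟩, rfl⟩
  intro Q hQ hSQ
  apply le_antisymm _ hSQ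
  intro q hq
  obtain ⟨L, hL, hqL, P, hP⟩ := exists_local hfin S htr (q : G)
  -- the `p`-subgroup of `L` induced by `Q`
  let Q₁ : Subgroup L := (Q.map N.subtype).subgroupOf L
  have hQ₁ : IsPGroup p Q₁ := (hQ.map _).comap_subtype
  have hQ₁mem : ∀ x : L, x ∈ Q₁ ↔ ∃ h : (x : G) ∈ N, (⟨x, h⟩ : N) ∈ Q := by
    intro x
    constructor
    · rintro ⟨y, hy, hyx⟩
      have h1 : (y : G) = x := hyx
      refine ⟨h1 ▸ y.2, ?_⟩
      have : (⟨x, h1 ▸ y.2⟩ : N) = y := Subtype.ext h1.symm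
      rw [this]; exact hy
    · rintro ⟨h, hx⟩
      exact ⟨⟨x, h⟩, hx, rfl⟩
  obtain ⟨P₂, hP₂⟩ := hQ₁.exists_le_sylow
  obtain ⟨l, hl⟩ := MulAction.exists_smul_eq L P₂ P
  -- conjugate of `Q₁` inside `P`
  let M : Subgroup L := N.subgroupOf L
  have h1 : ∀ x ∈ Q₁, l * x * l⁻¹ ∈ (P : Subgroup L) ⊓ M := by
    intro x hx
    refine ⟨?_, ?_⟩
    · rw [← hl]
      change l * x * l⁻¹ ∈ ((l • P₂ : Sylow p L) : Subgroup L)
      rw [Sylow.coe_subgroup_smul]
      exact Subgroup.smul_mem_pointwise_smul _ (MulAut.conj l) _ (hP₂ hx)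
    · obtain ⟨h, -⟩ := (hQ₁mem x).1 hx
      exact hN.conj_mem (x : G) h (l : G)
  have h2 : ((P : Subgroup L) ⊓ M : Subgroup L) ≤ Q₁ := by
    rintro x ⟨hx, hxM⟩
    have hx' : x ∈ (P : Subgroup L) := hx
    rw [hP] at hx'
    exact (hQ₁mem x).2 ⟨hxM, hSQ hx'⟩
  have h3 : Nat.card Q₁ ≤ Nat.card ((P : Subgroup L) ⊓ M : Subgroup L) := by
    refine Nat.card_le_card_of_injective
      (fun x : Q₁ => (⟨l * x * l⁻¹, h1 x x.2⟩ : ((P : Subgroup L) ⊓ M : Subgroup L))) ?_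
    intro x y hxy
    have h4 := congrArg (fun z : ((P : Subgroup L) ⊓ M : Subgroup L) => (z : L)) hxy
    have h5 : l * (x : L) * l⁻¹ = l * (y : L) * l⁻¹ := h4
    exact Subtype.ext (mul_left_cancel (mul_right_cancel h5))
  have h4 : ((P : Subgroup L) ⊓ M : Subgroup L) = Q₁ :=
    Subgroup.eq_of_le_of_card_ge h2 h3
  have h5 : (⟨(q : G), hqL⟩ : L) ∈ Q₁ := (hQ₁mem _).2 ⟨q.2, hq⟩
  rw [← h4] at h5
  have h6 := h5.1
  rw [hP] at h6
  exact h6

/-- Q2 -/
theorem quot_sylow {p : ℕ} [hp : Fact p.Prime] {G : Subgroup (Perm Ω)} (hfin : Finitary G)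
    (S : Sylow p G) (htr : ∀ x y : Ω, ∃ s ∈ S, (s : Perm Ω) x = y) (N : Subgroup G) [hN : N.Normal] :
    ∃ T : Sylow p (G ⧸ N), (T : Subgroup (G ⧸ N)) =
      (S : Subgroup G).map (QuotientGroup.mk' N) := by
  classical
  refine ⟨⟨(S : Subgroup G).map (QuotientGroup.mk' N), S.2.map _, ?_⟩, rfl⟩
  intro Q hQ hSQ
  apply le_antisymm _ hSQ
  intro q hq
  obtain ⟨g, rfl⟩ := QuotientGroup.mk'_surjective N q
  obtain ⟨L, hL, hgL, P, hP⟩ := exists_local hfin S htr g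
  let f : L →* (G ⧸ N) := (QuotientGroup.mk' N).comp L.subtype
  let PR : Sylow p f.range := P.mapSurjective f.rangeRestrict_surjective
  have h1 : Q.subgroupOf f.range = (PR : Subgroup f.range) := by
    apply PR.is_maximal' hQ.comap_subtype
    rintro _ ⟨x, hx, rfl⟩
    have hx' : x ∈ (P : Subgroup L) := hx
    rw [hP] at hx'
    exact hSQ ⟨(x : G), hx', rfl⟩
  have h2 : (⟨f ⟨g, hgL⟩, ⟨⟨g, hgL⟩, rfl⟩⟩ : f.range) ∈ Q.subgroupOf f.range := hq
  rw [h1] at h2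
  obtain ⟨x, hx, hxg⟩ := h2
  have hx' : x ∈ (P : Subgroup L) := hx
  rw [hP] at hx'
  refine ⟨(x : G), hx', ?_⟩
  have h3 := congrArg (fun z : f.range => (z : G ⧸ N)) hxg
  exact h3

end Pool.Agent.V1130.FinSyl
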