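import Mathlib

set_option autoImplicit false

namespace Pool.Agent.V1130.Gap7

open Equiv

abbrev P7 := Equiv.Perm (Fin 7)

/-- every four conjugates of the subgroup meet nontrivially -/
def Deep (H : Subgroup P7) : Prop :=
  ∀ g : Fin 4 → P7, ∃ x : P7, x ≠ 1 ∧ ∀ i, (g i)⁻¹ * x * g i ∈ H

/-- the subgroup contains all even permutations fixing some point -/
def Big (H : Subgroup P7) : Prop :=
  ∃ p : Fin 7, ∀ x : P7, Equiv.Perm.sign x = 1 → x p = p → x ∈ H

theorem exists_map (S T : Finset (Fin 7)) (h : S.card = T.card) :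
    ∃ g : P7, ∀ a, a ∈ S ↔ g a ∈ T := by
  classical
  let e : {a // a ∈ S} ≃ {a // a ∈ T} := Finset.equivOfCardEq h
  refine ⟨e.extendSubtype, fun a => ⟨fun ha => e.extendSubtype_mem a ha, fun ha => ?_⟩⟩
  by_contra hn
  exact e.extendSubtype_not_mem a hn ha

theorem not_deep_of_inv (H : Subgroup P7) (S : Finset (Fin 7)) (F : Fin 4 → Finset (Fin 7))
    (hF : ∀ i, S.card = (F i).card)
    (hsep : ∀ a b, (∀ i, a ∈ F i ↔ b ∈ F i) → a = b)
    (hS : ∀ h ∈ H, ∀ a, a ∈ S → h a ∈ S) : ¬ Deep H := by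
  intro hD
  choose g hg using fun i => exists_map S (F i) (hF i)
  obtain ⟨x, hx1, hx⟩ := hD g
  apply hx1
  have key : ∀ y : P7, (∀ i, (g i)⁻¹ * y * g i ∈ H) → ∀ b i, b ∈ F i → y b ∈ F i := by
    intro y hy b i hb
    have h1 := hS _ (hy i) ((g i).symm b) (by rw [hg i]; simpa using hb)
    rw [hg i] at h1
    simpa [Equiv.Perm.mul_apply, Equiv.Perm.inv_def] using h1
  have hxi : ∀ i, (g i)⁻¹ * x⁻¹ * g i ∈ H := by
    intro i
    have := H.inv_mem (hx i)
    simpa [mul_assoc] using this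
  ext1 b
  refine (hsep b (x b) fun i => ⟨key x hx b i, fun h => ?_⟩).symm
  have := key x⁻¹ hxi _ i h
  simpa using this

theorem not_deep_two (H : Subgroup P7) (S : Finset (Fin 7)) (hc : S.card = 2)
    (hS : ∀ h ∈ H, ∀ a, a ∈ S → h a ∈ S) : ¬ Deep H := by
  refine not_deep_of_inv H S ![{0, 1}, {1, 2}, {3, 4}, {4, 5}] ?_ ?_ hS
  · rw [hc]; decide
  · decide

theorem not_deep_three (H : Subgroup P7) (S : Finset (Fin 7)) (hc : S.card = 3)
    (hS : ∀ h ∈ H, ∀ a, a ∈ S → h a ∈ S) : ¬ Deep H := by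
  refine not_deep_of_inv H S ![{0, 4, 6}, {1, 4, 6}, {2, 5, 6}, {3, 5, 6}] ?_ ?_ hS
  · rw [hc]; decide
  · decide

/-- invariance of the complement -/
theorem compl_inv (H : Subgroup P7) (S : Finset (Fin 7))
    (hS : ∀ h ∈ H, ∀ a, a ∈ S → h a ∈ S) : ∀ h ∈ H, ∀ a, a ∈ Sᶜ → h a ∈ Sᶜ := by
  intro h hh a ha
  rw [Finset.mem_compl] at ha ⊢
  intro h2
  apply ha
  have := hS _ (H.inv_mem hh) _ h2
  simpa using this

/-- Deep subgroups preserve no set of size 2,3,4,5. -/
theorem card_of_inv (H : Subgroup P7) (hD : Deep H) (S : Finset (Fin 7))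
    (hS : ∀ h ∈ H, ∀ a, a ∈ S → h a ∈ S) : S.card ≤ 1 ∨ 6 ≤ S.card := by
  by_contra hcon
  push Not at hcon
  have hc : (Sᶜ).card = 7 - S.card := by
    rw [Finset.card_compl, Fintype.card_fin]
  obtain ⟨h1, h2⟩ := hcon
  have : S.card = 2 ∨ S.card = 3 ∨ S.card = 4 ∨ S.card = 5 := by omega
  rcases this with h | h | h | h
  · exact not_deep_two H S h hS hD
  · exact not_deep_three H S h hS hD
  · exact not_deep_three H Sᶜ (by rw [hc, h]) (compl_inv H S hS) hD
  · exact not_deep_two H Sᶜ (by rw [hc, h]) (compl_inv H S hS) hD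

theorem exists_two : ∀ p : Fin 7, ∃ u v : Fin 7, u ≠ v ∧ u ≠ p ∧ v ≠ p := by decide

/-- all products of two transpositions avoiding `p` lie in `H` implies `Big` -/
theorem big_of_swaps (H : Subgroup P7) (p : Fin 7)
    (h : ∀ a b c d : Fin 7, a ≠ p → b ≠ p → c ≠ p → d ≠ p → a ≠ b → c ≠ d →
      swap a b * swap c d ∈ H) : Big H := by
  classical
  refine ⟨p, ?_⟩
  obtain ⟨u, v, huv, hu, hv⟩ := exists_two p
  have key : ∀ σ : Equiv.Perm {y : Fin 7 // y ≠ p},
      (Equiv.Perm.sign σ = 1 → Equiv.Perm.ofSubtype σ ∈ H) ∧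
      (Equiv.Perm.sign σ = -1 → swap u v * Equiv.Perm.ofSubtype σ ∈ H) := by
    intro σ
    induction σ using Equiv.Perm.swap_induction_on with
    | one =>
      refine ⟨fun _ => by simp, fun h => ?_⟩
      rw [Equiv.Perm.sign_one] at h
      exact absurd h (by decide)
    | swap_mul f x y hxy ih =>
      have hxy' : (x : Fin 7) ≠ y := fun h => hxy (Subtype.ext h)
      refine ⟨fun hs => ?_, fun hs => ?_⟩
      · rw [Equiv.Perm.sign_mul, Equiv.Perm.sign_swap hxy] at hs
        have hf : Equiv.Perm.sign f = -1 := by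
          rcases Int.units_eq_one_or (Equiv.Perm.sign f) with h1 | h1
          · rw [h1] at hs; exact absurd hs (by decide)
          · exact h1
        have := H.mul_mem (h x y u v x.2 y.2 hu hv hxy' huv) (ih.2 hf)
        rw [map_mul, Equiv.Perm.ofSubtype_swap_eq]
        have e : swap (x : Fin 7) y * swap u v * (swap u v * Equiv.Perm.ofSubtype f)
            = swap (x : Fin 7) y * Equiv.Perm.ofSubtype f := by
          rw [mul_assoc, ← mul_assoc (swap u v), Equiv.swap_mul_self, one_mul]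
        rwa [e] at this
      · rw [Equiv.Perm.sign_mul, Equiv.Perm.sign_swap hxy] at hs
        have hf : Equiv.Perm.sign f = 1 := by
          rcases Int.units_eq_one_or (Equiv.Perm.sign f) with h1 | h1
          · exact h1
          · rw [h1] at hs; exact absurd hs (by decide)
        have := H.mul_mem (h u v x y hu hv x.2 y.2 huv hxy') (ih.1 hf)
        rw [map_mul, Equiv.Perm.ofSubtype_swap_eq, ← mul_assoc]
        exact this
  intro x hs hp
  have hinv : ∀ y, y ≠ p ↔ x y ≠ p := by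
    intro y
    refine not_congr ⟨fun h => by rw [h, hp], fun h => ?_⟩
    exact x.injective (by rw [h, hp])
  have h1 : Equiv.Perm.ofSubtype (x.subtypePerm (p := fun y => y ≠ p) (fun y => (hinv y).symm)) = x := by
    apply Equiv.Perm.ofSubtype_subtypePerm
    intro y hy hyp
    apply hy
    rw [hyp, hp]
  have h2 := (key (x.subtypePerm (p := fun y => y ≠ p) (fun y => (hinv y).symm))).1 (by
    rw [← Equiv.Perm.sign_ofSubtype, h1, hs])
  rwa [h1] at h2

theorem swap_conj {H : Subgroup P7} {h : P7} (hh : h ∈ H) {a b : Fin 7}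
    (hab : swap a b ∈ H) : swap (h a) (h b) ∈ H := by
  have := H.mul_mem (H.mul_mem hh hab) (H.inv_mem hh)
  rwa [Equiv.mul_swap_eq_swap_mul, mul_assoc, mul_inv_cancel, mul_one] at this

theorem swap_trans {H : Subgroup P7} {a b c : Fin 7}
    (hab : swap a b ∈ H) (hbc : swap b c ∈ H) : swap a c ∈ H := by
  by_cases h1 : a = c
  · rw [h1, Equiv.swap_self]; exact H.one_mem
  by_cases h2 : a = b
  · rwa [h2]
  by_cases h3 : b = c
  · rwa [← h3]
  have := swap_conj hab hbc
  rwa [Equiv.swap_apply_right, Equiv.swap_apply_of_ne_of_ne (Ne.symm h1) (Ne.symm h3)] at this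

theorem swap_symm {H : Subgroup P7} {a b : Fin 7} (hab : swap a b ∈ H) : swap b a ∈ H := by
  rwa [Equiv.swap_comm]

theorem compl_three (p d e f : Fin 7) (hd : d ≠ p) (he : e ≠ p) (hf : f ≠ p) (hde : d ≠ e)
    (hdf : d ≠ f) (hef : e ≠ f) :
    ∃ a b c : Fin 7, a ≠ p ∧ b ≠ p ∧ c ≠ p ∧
      ∀ y, y ≠ d → y ≠ e → y ≠ f → y = a ∨ y = b ∨ y = c ∨ y = p := by
  have h4 : ({p, d, e, f} : Finset (Fin 7)).card = 4 := by
    rw [Finset.card_insert_of_notMem, Finset.card_insert_of_notMem, Finset.card_insert_of_notMem,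
      Finset.card_singleton]
    · simpa using hef
    · simp [hde, hdf]
    · simp [hd.symm, he.symm, hf.symm]
  have h3 : (({p, d, e, f} : Finset (Fin 7))ᶜ).card = 3 := by
    rw [Finset.card_compl, h4, Fintype.card_fin]
  obtain ⟨a, b, c, -, -, -, h⟩ := Finset.card_eq_three.1 h3
  have hm : ∀ y, (y = a ∨ y = b ∨ y = c) ↔ ¬ (y = p ∨ y = d ∨ y = e ∨ y = f) := by
    intro y
    have : y ∈ (({p, d, e, f} : Finset (Fin 7))ᶜ) ↔ y ∈ ({a, b, c} : Finset (Fin 7)) := by rw [h]
    rw [Finset.mem_compl] at this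
    simp only [Finset.mem_insert, Finset.mem_singleton] at this
    exact this.symm
  refine ⟨a, b, c, fun h => ?_, fun h => ?_, fun h => ?_, fun y h1 h2 h3 => ?_⟩
  · exact (hm a).1 (Or.inl rfl) (Or.inl h)
  · exact (hm b).1 (Or.inr (Or.inl rfl)) (Or.inl h)
  · exact (hm c).1 (Or.inr (Or.inr rfl)) (Or.inl h)
  · by_cases hy : y = p
    · exact Or.inr (Or.inr (Or.inr hy))
    · have := (hm y).2 (by tauto)
      tauto

/-- fixed point case: every 3-set supports a nontrivial element -/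
theorem fix_three {H : Subgroup P7} (hD : Deep H) {p : Fin 7} (hp : ∀ h ∈ H, h p = p)
    {d e f : Fin 7} (hd : d ≠ p) (he : e ≠ p) (hf : f ≠ p) (hde : d ≠ e) (hdf : d ≠ f)
    (hef : e ≠ f) : ∃ x ∈ H, x ≠ 1 ∧ ∀ y, y ≠ d → y ≠ e → y ≠ f → x y = y := by
  obtain ⟨a, b, c, ha, hb, hc, hall⟩ := compl_three p d e f hd he hf hde hdf hef
  obtain ⟨x, hx1, hx⟩ := hD ![1, swap a p, swap b p, swap c p]
  have h0 := hx 0
  have h1 := hx 1
  have h2 := hx 2
  have h3 := hx 3
  simp only [Matrix.cons_val_zero, Matrix.cons_val_one, Matrix.cons_val] at h0 h1 h2 h3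
  have hxH : x ∈ H := by simpa using h0
  have hfix : ∀ z, z ≠ p → (swap z p)⁻¹ * x * swap z p ∈ H → x z = z := by
    intro z hz hh
    have := hp _ hh
    rw [Equiv.Perm.mul_apply, Equiv.Perm.mul_apply, Equiv.swap_apply_right, Equiv.swap_inv] at this
    have h := congrArg (swap z p) this
    rwa [Equiv.swap_apply_self, Equiv.swap_apply_right] at h
  refine ⟨x, hxH, hx1, fun y h1' h2' h3' => ?_⟩
  rcases hall y h1' h2' h3' with h | h | h | h
  · rw [h]; exact hfix a ha h1
  · rw [h]; exact hfix b hb h2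
  · rw [h]; exact hfix c hc h3
  · rw [h]; exact hp x hxH

/-- classification of permutations supported on three points -/
theorem three_support {x : P7} (hx : x ≠ 1) {d e f : Fin 7} (hde : d ≠ e) (hdf : d ≠ f)
    (hef : e ≠ f) (h : ∀ y, y ≠ d → y ≠ e → y ≠ f → x y = y) :
    x = swap d e ∨ x = swap d f ∨ x = swap e f ∨ (x d = e ∧ x e = f ∧ x f = d) ∨
      (x d = f ∧ x f = e ∧ x e = d) := by
  have mem : ∀ z, (z = d ∨ z = e ∨ z = f) → (x z = d ∨ x z = e ∨ x z = f) := by
    intro z hz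
    by_contra hcon
    push Not at hcon
    have h1 := h (x z) hcon.1 hcon.2.1 hcon.2.2
    have h2 := x.injective h1
    rw [h2] at hcon
    rcases hz with h | h | h
    · exact hcon.1 h
    · exact hcon.2.1 h
    · exact hcon.2.2 h
  have inj : ∀ {a b : Fin 7}, a ≠ b → x a ≠ x b := fun hab h => hab (x.injective h)
  have hd := mem d (Or.inl rfl)
  have he := mem e (Or.inr (Or.inl rfl))
  have hf := mem f (Or.inr (Or.inr rfl))
  have i1 := inj hde
  have i2 := inj hdf
  have i3 := inj hef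
  have hall : ∀ y : P7, (y d = x d) → (y e = x e) → (y f = x f) →
      (∀ z, z ≠ d → z ≠ e → z ≠ f → y z = z) → x = y := by
    intro y h1 h2 h3 h4
    ext1 z
    by_cases a1 : z = d
    · rw [a1, h1]
    by_cases a2 : z = e
    · rw [a2, h2]
    by_cases a3 : z = f
    · rw [a3, h3]
    rw [h z a1 a2 a3, h4 z a1 a2 a3]
  rcases hd with hd | hd | hd <;> rcases he with he | he | he <;> rcases hf with hf | hf | hf
  all_goals first
    | exact absurd (hd.trans he.symm) i1
    | exact absurd (hd.trans hf.symm) i2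
    | exact absurd (he.trans hf.symm) i3
    | skip
  · exact absurd (hall 1 (by simp [hd]) (by simp [he]) (by simp [hf]) (by simp)) hx
  · right; right; left
    exact hall _ (by rw [hd, Equiv.swap_apply_of_ne_of_ne hde hdf])
      (by rw [he, Equiv.swap_apply_left]) (by rw [hf, Equiv.swap_apply_right])
      (fun z _ h2 h3 => Equiv.swap_apply_of_ne_of_ne h2 h3)
  · left
    exact hall _ (by rw [hd, Equiv.swap_apply_left]) (by rw [he, Equiv.swap_apply_right])
      (by rw [hf, Equiv.swap_apply_of_ne_of_ne (Ne.symm hdf) (Ne.symm hef)])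
      (fun z h1 h2 _ => Equiv.swap_apply_of_ne_of_ne h1 h2)
  · right; right; right; left; exact ⟨hd, he, hf⟩
  · right; right; right; right; exact ⟨hd, hf, he⟩
  · right; left
    exact hall _ (by rw [hd, Equiv.swap_apply_left])
      (by rw [he, Equiv.swap_apply_of_ne_of_ne (Ne.symm hde) hef]) (by rw [hf, Equiv.swap_apply_right])
      (fun z h1 _ h3 => Equiv.swap_apply_of_ne_of_ne h1 h3)

/-- a 3-cycle in both orientations -/
theorem cyc_mem {H : Subgroup P7} {x : P7} (hxH : x ∈ H) {d e f : Fin 7} (hde : d ≠ e)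
    (hdf : d ≠ f) (hef : e ≠ f) (h : ∀ y, y ≠ d → y ≠ e → y ≠ f → x y = y)
    (h1 : (x d = e ∧ x e = f ∧ x f = d) ∨ (x d = f ∧ x f = e ∧ x e = d)) :
    swap d e * swap e f ∈ H := by
  have e1 : (swap d e * swap e f : P7) d = e := by
    rw [Equiv.Perm.mul_apply, Equiv.swap_apply_of_ne_of_ne hde hdf, Equiv.swap_apply_left]
  have e2 : (swap d e * swap e f : P7) e = f := by
    rw [Equiv.Perm.mul_apply, Equiv.swap_apply_left,
      Equiv.swap_apply_of_ne_of_ne (Ne.symm hdf) (Ne.symm hef)]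
  have e3 : (swap d e * swap e f : P7) f = d := by
    rw [Equiv.Perm.mul_apply, Equiv.swap_apply_right, Equiv.swap_apply_right]
  have e4 : ∀ y, y ≠ d → y ≠ e → y ≠ f → (swap d e * swap e f : P7) y = y := by
    intro y a1 a2 a3
    rw [Equiv.Perm.mul_apply, Equiv.swap_apply_of_ne_of_ne a2 a3,
      Equiv.swap_apply_of_ne_of_ne a1 a2]
  rcases h1 with ⟨a1, a2, a3⟩ | ⟨a1, a2, a3⟩
  · have : x = swap d e * swap e f := by
      ext1 z
      by_cases b1 : z = d
      · rw [b1, e1, a1]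
      by_cases b2 : z = e
      · rw [b2, e2, a2]
      by_cases b3 : z = f
      · rw [b3, e3, a3]
      rw [h z b1 b2 b3, e4 z b1 b2 b3]
    rwa [← this]
  · have : x * (swap d e * swap e f) = 1 := by
      ext1 z
      rw [Equiv.Perm.mul_apply, Equiv.Perm.one_apply]
      by_cases b1 : z = d
      · rw [b1, e1, a3]
      by_cases b2 : z = e
      · rw [b2, e2, a2]
      by_cases b3 : z = f
      · rw [b3, e3, a1]
      rw [e4 z b1 b2 b3, h z b1 b2 b3]
    have h5 : swap d e * swap e f = x⁻¹ := by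
      rw [eq_comm, inv_eq_iff_mul_eq_one]; exact this
    rw [h5]; exact H.inv_mem hxH

end Pool.Agent.V1130.Gap7
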