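import Pool.Agent.V1130.GapBase

set_option autoImplicit false

namespace Pool.Agent.V1130.Gap7

open Equiv

theorem indep_aux {H : Subgroup P7} (hD : Deep H) {p : Fin 7} (hp : ∀ h ∈ H, h p = p)
    {a b c : Fin 7} (ha : a ≠ p) (hb : b ≠ p) (hc : c ≠ p) (hab : swap a b ∉ H)
    (hac : swap a c ∉ H) (hbc : swap b c ∉ H) {y : Fin 7} (hy : y ≠ a)
    (hyH : swap a y ∈ H) : False := by
  have nab : a ≠ b := by
    rintro rfl; apply hab; rw [Equiv.swap_self]; exact H.one_mem
  have nac : a ≠ c := by
    rintro rfl; apply hac; rw [Equiv.swap_self]; exact H.one_mem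
  have nbc : b ≠ c := by
    rintro rfl; apply hbc; rw [Equiv.swap_self]; exact H.one_mem
  obtain ⟨x, hxH, hx1, hx⟩ := fix_three hD hp ha hb hc nab nac nbc
  have hyb : y ≠ b := by rintro rfl; exact hab hyH
  have hyc : y ≠ c := by rintro rfl; exact hac hyH
  have hxy := hx y hy hyb hyc
  have h2 := swap_conj hxH hyH
  rw [hxy] at h2
  rcases three_support hx1 nab nac nbc hx with h | h | h | h | h
  · rw [h] at hxH; exact hab hxH
  · rw [h] at hxH; exact hac hxH
  · rw [h] at hxH; exact hbc hxH
  · rw [h.1] at h2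
    exact hab (swap_trans hyH (swap_symm h2))
  · rw [h.1] at h2
    exact hac (swap_trans hyH (swap_symm h2))

theorem two_classes {H : Subgroup P7} (hD : Deep H) {p : Fin 7} (hp : ∀ h ∈ H, h p = p)
    {d0 e0 : Fin 7} (hd0 : d0 ≠ p) (hne : d0 ≠ e0) (h0 : swap d0 e0 ∈ H)
    {y z : Fin 7} (hy : y ≠ p) (hz : z ≠ p) (h1 : swap d0 y ∉ H) (h2 : swap d0 z ∉ H) :
    swap y z ∈ H := by
  by_contra h3
  exact indep_aux hD hp hd0 hy hz h1 h2 h3 (Ne.symm hne) h0

def Blk (p : Fin 7) (C : Finset (Fin 7)) (x : P7) : Prop :=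
  x p = p ∧ ∀ a b, a ≠ p → b ≠ p → ((a ∈ C ↔ b ∈ C) ↔ (x a ∈ C ↔ x b ∈ C))

theorem exists_map_pt (p q : Fin 7) (C D : Finset (Fin 7)) (hC : p ∉ C) (hD : q ∉ D)
    (h : C.card = D.card) : ∃ g : P7, g p = q ∧ ∀ a, a ∈ C ↔ g a ∈ D := by
  obtain ⟨g0, hg0⟩ := exists_map C D h
  refine ⟨swap (g0 p) q * g0, by rw [Equiv.Perm.mul_apply, Equiv.swap_apply_left], fun a => ?_⟩
  rw [Equiv.Perm.mul_apply]
  have hp' : g0 p ∉ D := fun h => hC ((hg0 p).2 h)
  by_cases h1 : g0 a = g0 p
  · rw [h1, Equiv.swap_apply_left]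
    exact iff_of_false (fun h => hp' (h1 ▸ (hg0 a).1 h)) hD
  by_cases h2 : g0 a = q
  · rw [h2, Equiv.swap_apply_right]
    exact iff_of_false (fun h => hD (h2 ▸ (hg0 a).1 h)) hp'
  rw [Equiv.swap_apply_of_ne_of_ne h1 h2]
  exact hg0 a

theorem blk_conj {p q : Fin 7} {C D : Finset (Fin 7)} {g x : P7} (hg : g p = q)
    (hCD : ∀ a, a ∈ C ↔ g a ∈ D) (hx : Blk p C (g⁻¹ * x * g)) : Blk q D x := by
  obtain ⟨h1, h2⟩ := hx
  have hxa : ∀ a, g ((g⁻¹ * x * g) a) = x (g a) := by
    intro a; simp [Equiv.Perm.mul_apply]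
  refine ⟨?_, fun a b ha hb => ?_⟩
  · rw [← hg, ← hxa, h1]
  · obtain ⟨a', rfl⟩ := g.surjective a
    obtain ⟨b', rfl⟩ := g.surjective b
    have := h2 a' b' (fun h => ha (by rw [h, hg])) (fun h => hb (by rw [h, hg]))
    rw [hCD, hCD, hCD, hCD, hxa, hxa] at this
    exact this

theorem not_deep_block (H : Subgroup P7) (p : Fin 7) (C : Finset (Fin 7)) (hpC : p ∉ C)
    (hc : C.card = 3) (hH : ∀ h ∈ H, Blk p C h) : ¬ Deep H := by
  intro hD
  have hq : ∀ i : Fin 4, (![6, 0, 1, 2] : Fin 4 → Fin 7) i ∉
      (![{0, 1, 3}, {6, 1, 4}, {0, 3, 4}, {0, 3, 4}] : Fin 4 → Finset (Fin 7)) i := by decide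
  have hcard : ∀ i : Fin 4, C.card =
      ((![{0, 1, 3}, {6, 1, 4}, {0, 3, 4}, {0, 3, 4}] : Fin 4 → Finset (Fin 7)) i).card := by
    rw [hc]; decide
  choose g hg1 hg2 using fun i => exists_map_pt p _ C _ hpC (hq i) (hcard i)
  obtain ⟨x, hx1, hx⟩ := hD g
  have hb := fun i => blk_conj (hg1 i) (hg2 i) (hH _ (hx i))
  have b0 := hb 0
  have b1 := hb 1
  have b2 := hb 2
  have b3 := hb 3
  simp only [Matrix.cons_val_zero, Matrix.cons_val_one, Matrix.cons_val] at b0 b1 b2 b3
  have x6 := b0.1
  have x0 := b1.1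
  have x1 := b2.1
  have x2 := b3.1
  have inj : ∀ {a b : Fin 7}, x a = b → x b = b → a = b := by
    intro a b h h'
    exact x.injective (h.trans h'.symm)
  have x3 : x 3 = 3 := by
    have := ((b0.2 0 3 (by decide) (by decide)).1 (by decide)).1 (by rw [x0]; decide)
    simp only [Finset.mem_insert, Finset.mem_singleton] at this
    rcases this with h | h | h
    · exact absurd (inj h x0) (by decide)
    · exact absurd (inj h x1) (by decide)
    · exact h
  have x4 : x 4 = 4 := by
    have := ((b1.2 1 4 (by decide) (by decide)).1 (by decide)).1 (by rw [x1]; decide)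
    simp only [Finset.mem_insert, Finset.mem_singleton] at this
    rcases this with h | h | h
    · exact absurd (inj h x6) (by decide)
    · exact absurd (inj h x1) (by decide)
    · exact h
  have x5 : x 5 = 5 := by
    obtain ⟨y, hy⟩ := x.surjective 5
    have h7 : y = 0 ∨ y = 1 ∨ y = 2 ∨ y = 3 ∨ y = 4 ∨ y = 5 ∨ y = 6 := by
      clear hy
      revert y
      decide
    rcases h7 with h | h | h | h | h | h | h <;> rw [h] at hy
    · exact absurd (x0.symm.trans hy) (by decide)
    · exact absurd (x1.symm.trans hy) (by decide)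
    · exact absurd (x2.symm.trans hy) (by decide)
    · exact absurd (x3.symm.trans hy) (by decide)
    · exact absurd (x4.symm.trans hy) (by decide)
    · exact hy
    · exact absurd (x6.symm.trans hy) (by decide)
  apply hx1
  ext1 z
  fin_cases z
  · exact x0
  · exact x1
  · exact x2
  · exact x3
  · exact x4
  · exact x5
  · exact x6

theorem fixed_case (H : Subgroup P7) (hD : Deep H) (p : Fin 7) (hp : ∀ h ∈ H, h p = p) :
    Big H := by
  classical
  have hnp : ∀ h ∈ H, ∀ y, y ≠ p → h y ≠ p := by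
    intro h hh y hy hyp
    apply hy
    apply h.injective
    rw [hyp, hp h hh]
  by_cases hsw : ∃ d e : Fin 7, d ≠ p ∧ e ≠ p ∧ d ≠ e ∧ swap d e ∈ H
  · obtain ⟨d0, e0, hd0, he0, hne, h0⟩ := hsw
    have hdd : swap d0 d0 ∈ H := by rw [Equiv.swap_self]; exact H.one_mem
    have hrel : ∀ h ∈ H, ∀ a b, swap a b ∈ H ↔ swap (h a) (h b) ∈ H := by
      intro h hh a b
      refine ⟨swap_conj hh, fun h2 => ?_⟩
      have := swap_conj (H.inv_mem hh) h2
      simpa using this
    by_cases hC' : ∀ y, y ≠ p → swap d0 y ∈ H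
    · apply big_of_swaps H p
      intro a b c d ha hb hc hd _ _
      exact H.mul_mem (swap_trans (swap_symm (hC' a ha)) (hC' b hb))
        (swap_trans (swap_symm (hC' c hc)) (hC' d hd))
    · push Not at hC'
      obtain ⟨w, hwp, hw⟩ := hC'
      exfalso
      set C : Finset (Fin 7) := Finset.univ.filter (fun y => y ≠ p ∧ swap d0 y ∈ H) with hCdef
      set C' : Finset (Fin 7) := Finset.univ.filter (fun y => y ≠ p ∧ swap d0 y ∉ H) with hC'def
      have mC : ∀ y, y ∈ C ↔ (y ≠ p ∧ swap d0 y ∈ H) := by intro y; simp [hCdef]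
      have mC' : ∀ y, y ∈ C' ↔ (y ≠ p ∧ swap d0 y ∉ H) := by intro y; simp [hC'def]
      have hsum : C.card + C'.card = 6 := by
        have h1 : C.card + C'.card = (Finset.univ.filter (fun y : Fin 7 => y ≠ p)).card := by
          rw [← Finset.card_union_of_disjoint]
          · congr 1
            ext y
            rw [Finset.mem_union, mC, mC', Finset.mem_filter]
            have := Classical.em (swap d0 y ∈ H)
            constructor
            · rintro (h | h) <;> exact ⟨Finset.mem_univ _, h.1⟩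
            · rintro ⟨-, h⟩
              rcases this with h' | h'
              · exact Or.inl ⟨h, h'⟩
              · exact Or.inr ⟨h, h'⟩
          · rw [Finset.disjoint_left]
            intro y h1 h2
            exact ((mC' y).1 h2).2 ((mC y).1 h1).2
        rw [h1, Finset.filter_ne', Finset.card_erase_of_mem (Finset.mem_univ _),
          Finset.card_univ, Fintype.card_fin]
      by_cases hmv : ∃ h ∈ H, swap d0 (h d0) ∉ H
      · obtain ⟨h, hh, hhd⟩ := hmv
        have c1 : C.card ≤ C'.card := by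
          apply Finset.card_le_card_of_injOn h
          · intro y hy
            have hy := (mC y).1 hy
            refine (mC' _).2 ⟨hnp h hh y hy.1, fun h2 => hhd ?_⟩
            exact swap_trans h2 (swap_symm ((hrel h hh _ _).1 hy.2))
          · exact h.injective.injOn
        have c2 : C'.card ≤ C.card := by
          apply Finset.card_le_card_of_injOn (h⁻¹ : P7)
          · intro y hy
            have hy := (mC' y).1 hy
            refine (mC _).2 ⟨hnp _ (H.inv_mem hh) y hy.1, ?_⟩
            rw [hrel h hh]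
            have h3 := two_classes hD hp hd0 hne h0 (hnp h hh d0 hd0) hy.1 hhd hy.2
            simpa using h3
          · exact (h⁻¹ : P7).injective.injOn
        refine not_deep_block H p C (fun h => ((mC p).1 h).1 rfl) (by omega) ?_ hD
        intro k hk
        have hiff : ∀ a b, a ≠ p → b ≠ p → ((a ∈ C ↔ b ∈ C) ↔ swap a b ∈ H) := by
          intro a b ha hb
          rw [mC, mC]
          constructor
          · intro h1
            by_cases h2 : swap d0 a ∈ H
            · exact swap_trans (swap_symm h2) (h1.1 ⟨ha, h2⟩).2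
            · have h3 : swap d0 b ∉ H := fun h => h2 (h1.2 ⟨hb, h⟩).2
              exact two_classes hD hp hd0 hne h0 ha hb h2 h3
          · intro h1
            exact ⟨fun h2 => ⟨hb, swap_trans h2.2 h1⟩,
              fun h2 => ⟨ha, swap_trans h2.2 (swap_symm h1)⟩⟩
        refine ⟨hp k hk, fun a b ha hb => ?_⟩
        rw [hiff a b ha hb, hiff (k a) (k b) (hnp k hk a ha) (hnp k hk b hb)]
        exact hrel k hk a b
      · push Not at hmv
        have hinv : ∀ h ∈ H, ∀ a, a ∈ C → h a ∈ C := by
          intro h hh a ha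
          have ha := (mC a).1 ha
          exact (mC _).2 ⟨hnp h hh a ha.1,
            swap_trans (hmv h hh) ((hrel h hh _ _).1 ha.2)⟩
        have h2 : 2 ≤ C.card := by
          have : ({d0, e0} : Finset (Fin 7)) ⊆ C := by
            intro y hy
            simp only [Finset.mem_insert, Finset.mem_singleton] at hy
            rcases hy with rfl | rfl
            · exact (mC _).2 ⟨hd0, hdd⟩
            · exact (mC _).2 ⟨he0, h0⟩
          have h3 := Finset.card_le_card this
          rwa [Finset.card_pair hne] at h3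
        have h1 : 1 ≤ C'.card := Finset.card_pos.2 ⟨w, (mC' w).2 ⟨hwp, hw⟩⟩
        rcases card_of_inv H hD C hinv with h | h <;> omega
  · push Not at hsw
    have T : ∀ a b c : Fin 7, a ≠ p → b ≠ p → c ≠ p → a ≠ b → a ≠ c → b ≠ c →
        swap a b * swap b c ∈ H := by
      intro a b c ha hb hc nab nac nbc
      obtain ⟨x, hxH, hx1, hx⟩ := fix_three hD hp ha hb hc nab nac nbc
      rcases three_support hx1 nab nac nbc hx with h | h | h | h
      · rw [h] at hxH; exact absurd hxH (hsw a b ha hb nab)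
      · rw [h] at hxH; exact absurd hxH (hsw a c ha hc nac)
      · rw [h] at hxH; exact absurd hxH (hsw b c hb hc nbc)
      · exact cyc_mem hxH nab nac nbc hx h
    apply big_of_swaps H p
    intro a b c d ha hb hc hd nab ncd
    by_cases h1 : b = c
    · subst h1
      by_cases h2 : a = d
      · subst h2
        rw [Equiv.swap_comm b a, Equiv.swap_mul_self]; exact H.one_mem
      · exact T a b d ha hb hd nab h2 ncd
    by_cases h2 : b = d
    · subst h2
      rw [Equiv.swap_comm c b]
      by_cases h3 : a = c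
      · subst h3
        rw [Equiv.swap_comm b a, Equiv.swap_mul_self]; exact H.one_mem
      · exact T a b c ha hb hc nab h3 h1
    by_cases h3 : a = c
    · subst h3
      rw [Equiv.swap_comm a b]
      exact T b a d hb ha hd (Ne.symm nab) h2 ncd
    by_cases h4 : a = d
    · subst h4
      rw [Equiv.swap_comm a b, Equiv.swap_comm c a]
      exact T b a c hb ha hc (Ne.symm nab) h1 h3
    have e : swap a b * swap c d = (swap a b * swap b c) * (swap b c * swap c d) := by
      rw [mul_assoc, ← mul_assoc (swap b c), Equiv.swap_mul_self, one_mul]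
    rw [e]
    exact H.mul_mem (T a b c ha hb hc nab h3 h1) (T b c d hb hc hd h1 h2 ncd)

end Pool.Agent.V1130.Gap7
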