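import Pool.Agent.V1130.GapTrans

set_option autoImplicit false

namespace Pool.Agent.V1130.Gap7

open Equiv

theorem line_cover {H : Subgroup P7} (hN : NoSmall H) (ht : ∀ a b : Fin 7, ∃ h ∈ H, h a = b)
    {L0 : Finset (Fin 7)} (hL0 : IsLine H L0) (p q : Fin 7) :
    ∃ L, IsLine H L ∧ p ∈ L ∧ q ∈ L := by
  classical
  set B : Finset (Finset (Fin 7)) := Finset.univ.filter (IsLine H) with hB
  have mB : ∀ L, L ∈ B ↔ IsLine H L := by intro L; simp [hB]
  have hle : ∀ a b : Fin 7, (B.filter (fun L => a ∈ L)).card ≤ (B.filter (fun L => b ∈ L)).card := by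
    intro a b
    obtain ⟨h, hh, hab⟩ := ht a b
    apply Finset.card_le_card_of_injOn (fun L => L.image h)
    · intro L hL
      rw [Finset.mem_coe, Finset.mem_filter, mB] at hL
      rw [Finset.mem_coe, Finset.mem_filter, mB]
      exact ⟨line_image hL.1 hh, Finset.mem_image.2 ⟨a, hL.2, hab⟩⟩
    · intro L _ L' _ h2
      exact Finset.image_injective h.injective h2
  have hconst : ∀ a : Fin 7, (B.filter (fun L => a ∈ L)).card = (B.filter (fun L => p ∈ L)).card :=
    fun a => le_antisymm (hle a p) (hle p a)
  have hsum := Finset.sum_card (B := B) hconst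
  have hsum2 : ∑ s ∈ B, s.card = B.card * 3 := by
    rw [Finset.sum_congr rfl (fun s hs => ((mB s).1 hs).1), Finset.sum_const, smul_eq_mul]
  rw [hsum2, Fintype.card_fin] at hsum
  have hpos : 1 ≤ (B.filter (fun L => p ∈ L)).card := by
    obtain ⟨a, ha⟩ : L0.Nonempty := by
      rw [← Finset.card_pos, hL0.1]; norm_num
    refine le_trans ?_ (hle a p)
    exact Finset.card_pos.2 ⟨L0, Finset.mem_filter.2 ⟨(mB _).2 hL0, ha⟩⟩
  have hdisj : ∀ L ∈ B.filter (fun L => p ∈ L), ∀ L' ∈ B.filter (fun L => p ∈ L), L ≠ L' →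
      Disjoint (L.erase p) (L'.erase p) := by
    intro L hL L' hL' hne
    rw [Finset.mem_filter, mB] at hL hL'
    rw [Finset.disjoint_left]
    intro y hy hy'
    rw [Finset.mem_erase] at hy hy'
    exact hne (line_unique hN ht hL.1 hL'.1 (Ne.symm hy.1) hL.2 hL'.2 hy.2 hy'.2)
  have hcard : ((B.filter (fun L => p ∈ L)).biUnion (fun L => L.erase p)).card
      = (B.filter (fun L => p ∈ L)).card * 2 := by
    rw [Finset.card_biUnion hdisj, Finset.sum_congr rfl (g := fun _ => 2), Finset.sum_const,
      smul_eq_mul]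
    intro L hL
    rw [Finset.mem_filter, mB] at hL
    rw [Finset.card_erase_of_mem hL.2, hL.1.1]
  have hsub : (B.filter (fun L => p ∈ L)).biUnion (fun L => L.erase p) ⊆
      (Finset.univ : Finset (Fin 7)).erase p := by
    intro y hy
    rw [Finset.mem_biUnion] at hy
    obtain ⟨L, _, hy⟩ := hy
    exact Finset.mem_erase.2 ⟨(Finset.mem_erase.1 hy).1, Finset.mem_univ _⟩
  have hle6 := Finset.card_le_card hsub
  rw [hcard, Finset.card_erase_of_mem (Finset.mem_univ _), Finset.card_univ,
    Fintype.card_fin] at hle6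
  have hr : (B.filter (fun L => p ∈ L)).card = 3 := by omega
  have heq : (B.filter (fun L => p ∈ L)).biUnion (fun L => L.erase p) =
      (Finset.univ : Finset (Fin 7)).erase p := by
    apply Finset.eq_of_subset_of_card_le hsub
    rw [hcard, hr, Finset.card_erase_of_mem (Finset.mem_univ _), Finset.card_univ,
      Fintype.card_fin]
  by_cases hpq : q = p
  · obtain ⟨L, hL⟩ := Finset.card_pos.1 (by omega : 0 < (B.filter (fun L => p ∈ L)).card)
    rw [Finset.mem_filter, mB] at hL
    exact ⟨L, hL.1, hL.2, hpq ▸ hL.2⟩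
  · have : q ∈ (B.filter (fun L => p ∈ L)).biUnion (fun L => L.erase p) := by
      rw [heq]; exact Finset.mem_erase.2 ⟨hpq, Finset.mem_univ _⟩
    rw [Finset.mem_biUnion] at this
    obtain ⟨L, hL, hq⟩ := this
    rw [Finset.mem_filter, mB] at hL
    exact ⟨L, hL.1, hL.2, (Finset.mem_erase.1 hq).2⟩

/-- the product of the transposition and its conjugate -/
theorem prod_mem {H : Subgroup P7} {g : P7} (hg : g ∈ H) {x y : Fin 7}
    (h : (swap x y)⁻¹ * g * swap x y ∈ H) : swap (g x) (g y) * swap x y ∈ H := by
  have h1 := H.mul_mem hg (H.inv_mem h)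
  have e : g * ((swap x y)⁻¹ * g * swap x y)⁻¹ = swap (g x) (g y) * swap x y := by
    rw [mul_inv_rev, mul_inv_rev, inv_inv, Equiv.swap_inv, ← mul_assoc, ← mul_assoc,
      Equiv.mul_swap_eq_swap_mul g x y, mul_assoc (swap (g x) (g y)) g g⁻¹, mul_inv_cancel,
      mul_one]
  rwa [e] at h1

/-- the products of two transpositions sharing exactly one letter are excluded -/
theorem no_share {H : Subgroup P7} (hN : NoSmall H) {a b c d : Fin 7} (hab : a ≠ b)
    (hcd : c ≠ d) (h : swap a b * swap c d ∈ H) (hs : a = c ∨ a = d ∨ b = c ∨ b = d) :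
    (a = c ∨ a = d) ∧ (b = c ∨ b = d) := by
  by_contra hcon
  have hfix : swap a b * swap c d = 1 := by
    refine hN _ h (({a, b, c, d} : Finset (Fin 7))ᶜ) ?_ ?_
    · rw [Finset.card_compl, Fintype.card_fin]
      have : ({a, b, c, d} : Finset (Fin 7)).card ≤ 3 := by
        rcases hs with h | h | h | h
        · subst h
          rw [show ({a, b, a, d} : Finset (Fin 7)) = {a, b, d} by ext; simp; tauto]
          exact Finset.card_le_three
        · subst h
          rw [show ({a, b, c, a} : Finset (Fin 7)) = {a, b, c} by ext; simp; tauto]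
          exact Finset.card_le_three
        · subst h
          rw [show ({a, b, b, d} : Finset (Fin 7)) = {a, b, d} by ext; simp]
          exact Finset.card_le_three
        · subst h
          rw [show ({a, b, c, b} : Finset (Fin 7)) = {a, b, c} by ext; simp; tauto]
          exact Finset.card_le_three
      omega
    · intro y hy
      rw [Finset.mem_compl] at hy
      simp only [Finset.mem_insert, Finset.mem_singleton, not_or] at hy
      rw [Equiv.Perm.mul_apply, Equiv.swap_apply_of_ne_of_ne hy.2.2.1 hy.2.2.2,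
        Equiv.swap_apply_of_ne_of_ne hy.1 hy.2.1]
  have h2 : swap a b = swap c d := by
    have : swap a b * swap c d = swap c d * swap c d := by rw [hfix, Equiv.swap_mul_self]
    exact mul_right_cancel this
  apply hcon
  constructor
  · by_contra h3
    push Not at h3
    have h4 := congrArg (fun w : P7 => w a) h2
    simp only [Equiv.swap_apply_left] at h4
    rw [Equiv.swap_apply_of_ne_of_ne h3.1 h3.2] at h4
    exact hab h4.symm
  · by_contra h3
    push Not at h3
    have h4 := congrArg (fun w : P7 => w b) h2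
    simp only [Equiv.swap_apply_right] at h4
    rw [Equiv.swap_apply_of_ne_of_ne h3.1 h3.2] at h4
    exact hab h4

theorem dbl_line {H : Subgroup P7} {a b c d : Fin 7} (hab : a ≠ b) (hac : a ≠ c) (had : a ≠ d)
    (hbc : b ≠ c) (hbd : b ≠ d) (hcd : c ≠ d) (h : swap a b * swap c d ∈ H) :
    IsLine H (({a, b, c, d} : Finset (Fin 7))ᶜ) := by
  refine ⟨?_, _, h, ?_, fun y => ?_⟩
  · rw [Finset.card_compl, Fintype.card_fin, Finset.card_insert_of_notMem,
      Finset.card_insert_of_notMem, Finset.card_insert_of_notMem, Finset.card_singleton]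
    · simpa using hcd
    · simp [hbc, hbd]
    · simp [hab, hac, had]
  · have hcomm : swap a b * swap c d = swap c d * swap a b := by
      rw [Equiv.mul_swap_eq_swap_mul, Equiv.swap_apply_of_ne_of_ne (Ne.symm hac) (Ne.symm hbc),
        Equiv.swap_apply_of_ne_of_ne (Ne.symm had) (Ne.symm hbd)]
    calc swap a b * swap c d * (swap a b * swap c d)
        = swap c d * swap a b * (swap a b * swap c d) := by rw [hcomm]
      _ = swap c d * (swap a b * swap a b) * swap c d := by group
      _ = 1 := by rw [Equiv.swap_mul_self, mul_one, Equiv.swap_mul_self]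
  · rw [Finset.mem_compl, Equiv.Perm.mul_apply]
    simp only [Finset.mem_insert, Finset.mem_singleton]
    by_cases h1 : y = a
    · subst h1
      rw [Equiv.swap_apply_of_ne_of_ne hac had, Equiv.swap_apply_left]
      exact iff_of_false (Ne.symm hab) (fun h => h (Or.inl rfl))
    by_cases h2 : y = b
    · subst h2
      rw [Equiv.swap_apply_of_ne_of_ne hbc hbd, Equiv.swap_apply_right]
      exact iff_of_false hab (fun h => h (Or.inr (Or.inl rfl)))
    by_cases h3 : y = c
    · subst h3
      rw [Equiv.swap_apply_left, Equiv.swap_apply_of_ne_of_ne (Ne.symm had) (Ne.symm hbd)]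
      exact iff_of_false (Ne.symm hcd) (fun h => h (Or.inr (Or.inr (Or.inl rfl))))
    by_cases h4 : y = d
    · subst h4
      rw [Equiv.swap_apply_right, Equiv.swap_apply_of_ne_of_ne (Ne.symm hac) (Ne.symm hbc)]
      exact iff_of_false hcd (fun h => h (Or.inr (Or.inr (Or.inr rfl))))
    rw [Equiv.swap_apply_of_ne_of_ne h3 h4, Equiv.swap_apply_of_ne_of_ne h1 h2]
    exact iff_of_true rfl (by tauto)

/-- an element of `H ∩ H^(x y)` fixes the third point of the line of `x, y` -/
theorem edge_fix {H : Subgroup P7} (hN : NoSmall H) (ht : ∀ a b : Fin 7, ∃ h ∈ H, h a = b)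
    {p x y : Fin 7} (hpx : p ≠ x) (hpy : p ≠ y) (hxy : x ≠ y) (hL : IsLine H {p, x, y})
    {g : P7} (hg : g ∈ H) (h : (swap x y)⁻¹ * g * swap x y ∈ H) : g p = p := by
  have hk := prod_mem hg h
  have hgxy : g x ≠ g y := fun h => hxy (g.injective h)
  have hgpx : g p ≠ g x := fun h => hpx (g.injective h)
  have hgpy : g p ≠ g y := fun h => hpy (g.injective h)
  have hgL := line_image hL hg
  rw [Finset.image_insert, Finset.image_insert, Finset.image_singleton] at hgL
  by_cases hs : g x = x ∨ g x = y ∨ g y = x ∨ g y = y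
  · have h2 := no_share hN hgxy hxy hk hs
    have hx : x ∈ ({g p, g x, g y} : Finset (Fin 7)) := by
      simp only [Finset.mem_insert, Finset.mem_singleton]
      by_contra hcon
      push Not at hcon
      rcases h2.1 with h | h
      · exact hcon.2.1 h.symm
      · rcases h2.2 with h' | h'
        · exact hcon.2.2 h'.symm
        · exact hgxy (h.trans h'.symm)
    have hy : y ∈ ({g p, g x, g y} : Finset (Fin 7)) := by
      simp only [Finset.mem_insert, Finset.mem_singleton]
      by_contra hcon
      push Not at hcon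
      rcases h2.1 with h | h
      · rcases h2.2 with h' | h'
        · exact hgxy (h.trans h'.symm)
        · exact hcon.2.2 h'.symm
      · exact hcon.2.1 h.symm
    have heq := line_unique hN ht hL hgL hxy (by simp) hx (by simp) hy
    have hm : g p ∈ ({p, x, y} : Finset (Fin 7)) := by rw [heq]; simp
    simp only [Finset.mem_insert, Finset.mem_singleton] at hm
    rcases hm with h | h | h
    · exact h
    · rcases h2.1 with h' | h'
      · exact absurd (h.trans h'.symm) hgpx
      · rcases h2.2 with h'' | h''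
        · exact absurd (h.trans h''.symm) hgpy
        · exact absurd (h'.trans h''.symm) hgxy
    · rcases h2.1 with h' | h'
      · rcases h2.2 with h'' | h''
        · exact absurd (h'.trans h''.symm) hgxy
        · exact absurd (h.trans h''.symm) hgpy
      · exact absurd (h.trans h'.symm) hgpx
  · push Not at hs
    obtain ⟨s1, s2, s3, s4⟩ := hs
    have hL' := dbl_line hgxy s1 s2 s3 s4 hxy hk
    have notin : ∀ z, z ∈ (({g x, g y, x, y} : Finset (Fin 7))ᶜ) →
        z ≠ g x ∧ z ≠ g y ∧ z ≠ x ∧ z ≠ y := by
      intro z hz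
      rw [Finset.mem_compl] at hz
      simpa only [Finset.mem_insert, Finset.mem_singleton, not_or] using hz
    obtain ⟨z, hz1, hz2⟩ := line_meet hN hL' hL
    have hz1 := notin z hz1
    simp only [Finset.mem_insert, Finset.mem_singleton] at hz2
    have hzp : z = p := by
      rcases hz2 with h | h | h
      · exact h
      · exact absurd h hz1.2.2.1
      · exact absurd h hz1.2.2.2
    obtain ⟨w, hw1, hw2⟩ := line_meet hN hL' hgL
    have hw1 := notin w hw1
    simp only [Finset.mem_insert, Finset.mem_singleton] at hw2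
    have hwp : w = g p := by
      rcases hw2 with h | h | h
      · exact h
      · exact absurd h hw1.1
      · exact absurd h hw1.2.1
    rw [hzp] at hz1
    rw [hwp] at hw1
    obtain ⟨v, hv1, hv2⟩ := line_meet hN hL hgL
    simp only [Finset.mem_insert, Finset.mem_singleton] at hv1 hv2
    rcases hv1 with rfl | rfl | rfl
    · rcases hv2 with h | h | h
      · exact h.symm
      · exact absurd h hz1.1
      · exact absurd h hz1.2.1
    · rcases hv2 with h | h | h
      · exact absurd h.symm hw1.2.2.1
      · exact absurd h.symm s1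
      · exact absurd h.symm s3
    · rcases hv2 with h | h | h
      · exact absurd h.symm hw1.2.2.2
      · exact absurd h.symm s2
      · exact absurd h.symm s4

theorem not_deep_trans {H : Subgroup P7} (hN : NoSmall H)
    (ht : ∀ a b : Fin 7, ∃ h ∈ H, h a = b) : ¬ Deep H := by
  intro hD
  by_cases hdt : ∃ L, IsLine H L
  · obtain ⟨L0, hL0⟩ := hdt
    obtain ⟨L, hL, h0, h1⟩ := line_cover hN ht hL0 0 1
    obtain ⟨c, hc0, hc1, hcL⟩ := third hL.1 (by decide : (0 : Fin 7) ≠ 1) h0 h1
    have hLeq : L = {0, 1, c} := by ext y; rw [hcL]; simp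
    obtain ⟨d, hd⟩ : ∃ d, d ∉ L := by
      by_contra hcon
      push Not at hcon
      have : L = Finset.univ := Finset.eq_univ_iff_forall.2 hcon
      have h3 := hL.1
      rw [this, Finset.card_univ, Fintype.card_fin] at h3
      omega
    have hd0 : d ≠ 0 := fun h => hd (h ▸ h0)
    have hd1 : d ≠ 1 := fun h => hd (h ▸ h1)
    have hdc : d ≠ c := fun h => hd (h ▸ (hcL c).2 (Or.inr (Or.inr rfl)))
    obtain ⟨M, hM, hM0, hMd⟩ := line_cover hN ht hL0 0 d
    obtain ⟨m, hm0, hmd, hmM⟩ := third hM.1 (Ne.symm hd0) hM0 hMd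
    have hMeq : M = {d, 0, m} := by ext y; rw [hmM]; simp; tauto
    obtain ⟨x, hx1, hx⟩ := hD ![1, swap 1 c, swap 0 c, swap 0 m]
    have e0 := hx 0
    have e1 := hx 1
    have e2 := hx 2
    have e3 := hx 3
    simp only [Matrix.cons_val_zero, Matrix.cons_val_one, Matrix.cons_val] at e0 e1 e2 e3
    have hxH : x ∈ H := by simpa using e0
    have x0 : x 0 = 0 := by
      rw [hLeq] at hL
      exact edge_fix hN ht (by decide) (Ne.symm hc0) (Ne.symm hc1) hL hxH e1
    have x1 : x 1 = 1 := by
      rw [hLeq] at hL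
      have hL' : IsLine H {1, 0, c} := by
        rwa [show ({1, 0, c} : Finset (Fin 7)) = {0, 1, c} by ext; simp; tauto]
      exact edge_fix hN ht (by decide) (Ne.symm hc1) (Ne.symm hc0) hL' hxH e2
    have xd : x d = d := by
      rw [hMeq] at hM
      exact edge_fix hN ht hd0 (Ne.symm hmd) (Ne.symm hm0) hM hxH e3
    have xc : x c = c := by
      have h3 := line_image hL hxH
      have h4 := line_unique hN ht hL h3 (by decide : (0 : Fin 7) ≠ 1) h0
        (Finset.mem_image.2 ⟨0, h0, x0⟩) h1 (Finset.mem_image.2 ⟨1, h1, x1⟩)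
      have h5 : x c ∈ L := by
        rw [h4]; exact Finset.mem_image.2 ⟨c, (hcL c).2 (Or.inr (Or.inr rfl)), rfl⟩
      rcases (hcL _).1 h5 with h | h | h
      · exact absurd (x.injective (h.trans x0.symm)) hc0
      · exact absurd (x.injective (h.trans x1.symm)) hc1
      · exact h
    exact hx1 (hN.four hxH (by decide) (Ne.symm hc0) (Ne.symm hd0) (Ne.symm hc1) (Ne.symm hd1)
      (Ne.symm hdc) x0 x1 xc xd)
  · obtain ⟨x, hx1, hx⟩ := hD ![1, swap 0 1, swap 1 2, swap 2 3]
    have e0 := hx 0
    have e1 := hx 1
    have e2 := hx 2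
    have e3 := hx 3
    simp only [Matrix.cons_val_zero, Matrix.cons_val_one, Matrix.cons_val] at e0 e1 e2 e3
    have hxH : x ∈ H := by simpa using e0
    have pres : ∀ a b : Fin 7, a ≠ b → (swap a b)⁻¹ * x * swap a b ∈ H →
        (x a = a ∨ x a = b) ∧ (x b = a ∨ x b = b) := by
      intro a b hab h
      have hk := prod_mem hxH h
      have hne : x a ≠ x b := fun h => hab (x.injective h)
      by_cases hs : x a = a ∨ x a = b ∨ x b = a ∨ x b = b
      · exact no_share hN hne hab hk hs
      · exfalso
        push Not at hs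
        obtain ⟨s1, s2, s3, s4⟩ := hs
        exact hdt ⟨_, dbl_line hne s1 s2 s3 s4 hab hk⟩
    have p1 := pres 0 1 (by decide) e1
    have p2 := pres 1 2 (by decide) e2
    have p3 := pres 2 3 (by decide) e3
    have inj : ∀ {a b c : Fin 7}, x a = c → x b = c → a = b := fun h h' =>
      x.injective (h.trans h'.symm)
    have x1 : x 1 = 1 := by
      rcases p1.2 with h | h
      · rcases p2.1 with h' | h'
        · exact h'
        · exact absurd (h.symm.trans h') (by decide)
      · exact h
    have x0 : x 0 = 0 := by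
      rcases p1.1 with h | h
      · exact h
      · exact absurd (inj h x1) (by decide)
    have x2 : x 2 = 2 := by
      rcases p2.2 with h | h
      · exact absurd (inj h x1) (by decide)
      · exact h
    have x3 : x 3 = 3 := by
      rcases p3.2 with h | h
      · exact absurd (inj h x2) (by decide)
      · exact h
    exact hx1 (hN.four hxH (by decide) (by decide) (by decide) (by decide) (by decide)
      (by decide) x0 x1 x2 x3)

theorem deep_big (H : Subgroup P7) (hD : Deep H) : Big H := by
  classical
  by_cases hfix : ∃ p : Fin 7, ∀ h ∈ H, h p = p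
  · obtain ⟨p, hp⟩ := hfix
    exact fixed_case H hD p hp
  · push Not at hfix
    have ht : ∀ a b : Fin 7, ∃ h ∈ H, h a = b := by
      intro a b
      set O : Finset (Fin 7) := Finset.univ.filter (fun y => ∃ h ∈ H, h a = y) with hO
      have mO : ∀ y, y ∈ O ↔ ∃ h ∈ H, h a = y := by intro y; simp [hO]
      have hinv : ∀ h ∈ H, ∀ y, y ∈ O → h y ∈ O := by
        intro h hh y hy
        obtain ⟨k, hk, rfl⟩ := (mO y).1 hy
        exact (mO _).2 ⟨h * k, H.mul_mem hh hk, rfl⟩
      have haO : a ∈ O := (mO a).2 ⟨1, H.one_mem, rfl⟩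
      rcases card_of_inv H hD O hinv with h | h
      · exfalso
        obtain ⟨k, hk, hka⟩ := hfix a
        apply hka
        have h1 : k a ∈ O := (mO _).2 ⟨k, hk, rfl⟩
        exact Finset.card_le_one.1 h _ h1 _ haO
      · have hc : (Oᶜ).card ≤ 1 := by
          rw [Finset.card_compl, Fintype.card_fin]; omega
        by_contra hb
        have hbO : b ∈ Oᶜ := by
          rw [Finset.mem_compl, mO]; exact hb
        obtain ⟨k, hk, hkb⟩ := hfix b
        apply hkb
        exact Finset.card_le_one.1 hc _ (compl_inv H O hinv k hk b hbO) _ hbO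
    have hpre : MulAction.IsPretransitive H (Fin 7) :=
      ⟨fun a b => by
        obtain ⟨h, hh, hab⟩ := ht a b
        exact ⟨⟨h, hh⟩, hab⟩⟩
    have hprim : MulAction.IsPreprimitive H (Fin 7) :=
      MulAction.IsPreprimitive.of_prime_card (by rw [Nat.card_eq_fintype_card, Fintype.card_fin]; norm_num)
    by_cases h3 : ∃ x ∈ H, Equiv.Perm.IsSwap x
    · obtain ⟨x, hx, hs⟩ := h3
      have htop := Equiv.Perm.subgroup_eq_top_of_isPreprimitive_of_isSwap_mem hprim x hs hx
      exact ⟨0, fun y _ _ => by rw [htop]; exact Subgroup.mem_top y⟩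
    by_cases h4 : ∃ x ∈ H, Equiv.Perm.IsThreeCycle x
    · obtain ⟨x, hx, hs⟩ := h4
      have hle := Equiv.Perm.alternatingGroup_le_of_isPreprimitive_of_isThreeCycle_mem hprim hs hx
      exact ⟨0, fun y hy _ => hle (Equiv.Perm.mem_alternatingGroup.2 hy)⟩
    exfalso
    push Not at h3 h4
    refine not_deep_trans ?_ ht hD
    intro x hx S hS hfixS
    by_contra hne
    have hsupp : x.support ⊆ Sᶜ := by
      intro y hy
      rw [Finset.mem_compl]
      intro hyS
      exact (Equiv.Perm.mem_support.1 hy) (hfixS y hyS)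
    have hcard := Finset.card_le_card hsupp
    rw [Finset.card_compl, Fintype.card_fin] at hcard
    have h0 : x.support.card ≠ 0 := fun h => hne (Equiv.Perm.card_support_eq_zero.1 h)
    have h1 := Equiv.Perm.card_support_ne_one x
    have h2 : x.support.card ≠ 2 := fun h => h3 x hx (Equiv.Perm.card_support_eq_two.1 h)
    have h3' : x.support.card ≠ 3 := fun h => h4 x hx (card_support_eq_three_iff.1 h)
    omega

end Pool.Agent.V1130.Gap7
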