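import Pool.Agent.V1130.GapFix

set_option autoImplicit false

namespace Pool.Agent.V1130.Gap7

open Equiv

/-- no nontrivial element fixes four points -/
def NoSmall (H : Subgroup P7) : Prop :=
  ∀ x ∈ H, ∀ S : Finset (Fin 7), 4 ≤ S.card → (∀ a ∈ S, x a = a) → x = 1

theorem NoSmall.four {H : Subgroup P7} (hN : NoSmall H) {x : P7} (hx : x ∈ H)
    {a b c d : Fin 7} (hab : a ≠ b) (hac : a ≠ c) (had : a ≠ d) (hbc : b ≠ c) (hbd : b ≠ d)
    (hcd : c ≠ d) (ha : x a = a) (hb : x b = b) (hc : x c = c) (hd : x d = d) : x = 1 := by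
  refine hN x hx {a, b, c, d} ?_ ?_
  · rw [Finset.card_insert_of_notMem, Finset.card_insert_of_notMem, Finset.card_insert_of_notMem,
      Finset.card_singleton]
    · simpa using hcd
    · simp [hbc, hbd]
    · simp [hab, hac, had]
  · intro y hy
    simp only [Finset.mem_insert, Finset.mem_singleton] at hy
    rcases hy with rfl | rfl | rfl | rfl <;> assumption

def IsLine (H : Subgroup P7) (L : Finset (Fin 7)) : Prop :=
  L.card = 3 ∧ ∃ u ∈ H, u * u = 1 ∧ ∀ y, u y = y ↔ y ∈ L

theorem line_image {H : Subgroup P7} {L : Finset (Fin 7)} (hL : IsLine H L) {h : P7}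
    (hh : h ∈ H) : IsLine H (L.image h) := by
  obtain ⟨hc, u, huH, hu2, huL⟩ := hL
  refine ⟨by rw [Finset.card_image_of_injective _ h.injective, hc], h * u * h⁻¹,
    H.mul_mem (H.mul_mem hh huH) (H.inv_mem hh), ?_, fun y => ?_⟩
  · calc h * u * h⁻¹ * (h * u * h⁻¹) = h * (u * u) * h⁻¹ := by group
      _ = 1 := by rw [hu2]; group
  · obtain ⟨z, rfl⟩ := h.surjective y
    have e : (h * u * h⁻¹) (h z) = h (u z) := by simp [Equiv.Perm.mul_apply]
    rw [e, h.injective.eq_iff, huL, Finset.mem_image]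
    constructor
    · intro hz; exact ⟨z, hz, rfl⟩
    · rintro ⟨w, hw, hwz⟩
      rwa [← h.injective hwz]

theorem line_meet {H : Subgroup P7} (hN : NoSmall H) {L L' : Finset (Fin 7)}
    (hL : IsLine H L) (hL' : IsLine H L') : ∃ y, y ∈ L ∧ y ∈ L' := by
  by_contra hcon
  push Not at hcon
  have hdis : Disjoint L L' := Finset.disjoint_left.2 hcon
  obtain ⟨hc, u, huH, hu2, huL⟩ := hL
  obtain ⟨hc', v, hvH, hv2, hvL⟩ := hL'
  have uu : ∀ y, u (u y) = y := fun y => by
    have := congrArg (fun w : P7 => w y) hu2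
    simpa [Equiv.Perm.mul_apply] using this
  have vv : ∀ y, v (v y) = y := fun y => by
    have := congrArg (fun w : P7 => w y) hv2
    simpa [Equiv.Perm.mul_apply] using this
  have h1 : ((L ∪ L')ᶜ).card = 1 := by
    rw [Finset.card_compl, Finset.card_union_of_disjoint hdis, hc, hc', Fintype.card_fin]
  obtain ⟨x, hx⟩ := Finset.card_eq_one.1 h1
  have hm : ∀ y, y ∉ L → y ∉ L' → y = x := by
    intro y h2 h3
    have : y ∈ (L ∪ L')ᶜ := by
      rw [Finset.mem_compl, Finset.mem_union]; tauto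
    rw [hx] at this
    exact Finset.mem_singleton.1 this
  have hxL : x ∉ L ∧ x ∉ L' := by
    have : x ∈ (L ∪ L')ᶜ := by rw [hx]; exact Finset.mem_singleton_self x
    rw [Finset.mem_compl, Finset.mem_union] at this
    tauto
  have notL : ∀ y, y ∉ L → u y ∉ L := by
    intro y hy h
    apply hy
    have h2 := (huL _).2 h
    rw [uu] at h2
    rw [h2]; exact h
  have notL' : ∀ y, y ∉ L' → v y ∉ L' := by
    intro y hy h
    apply hy
    have h2 := (hvL _).2 h
    rw [vv] at h2
    rw [h2]; exact h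
  have cH : u * v * u * v ∈ H :=
    H.mul_mem (H.mul_mem (H.mul_mem huH hvH) huH) hvH
  have hc1 : u * v * u * v = 1 := by
    refine hN _ cH (L.erase (v x) ∪ L'.erase (u x)) ?_ ?_
    · rw [Finset.card_union_of_disjoint
        (hdis.mono (Finset.erase_subset _ _) (Finset.erase_subset _ _))]
      have a1 := Finset.pred_card_le_card_erase (s := L) (a := v x)
      have a2 := Finset.pred_card_le_card_erase (s := L') (a := u x)
      omega
    · intro y hy
      simp only [Equiv.Perm.mul_apply]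
      rcases Finset.mem_union.1 hy with h | h
      · obtain ⟨hne, hyL⟩ := Finset.mem_erase.1 h
        have hvy : v y ∈ L := by
          by_contra h2
          have h3 := hm _ h2 (notL' y (fun h => hcon y hyL h))
          apply hne
          rw [← h3, vv]
        rw [(huL _).2 hvy, vv, (huL _).2 hyL]
      · obtain ⟨hne, hyL⟩ := Finset.mem_erase.1 h
        have huy : u y ∈ L' := by
          by_contra h2
          have h3 := hm _ (notL y (fun h => hcon y h hyL)) h2
          apply hne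
          rw [← h3, uu]
        rw [(hvL _).2 hyL, (hvL _).2 huy, uu]
  have hvx : v x ∈ L := by
    by_contra h2
    have h3 := hm _ h2 (notL' x hxL.2)
    exact hxL.2 ((hvL x).1 h3)
  have h5 := congrArg (fun w : P7 => w x) hc1
  simp only [Equiv.Perm.mul_apply, Equiv.Perm.one_apply] at h5
  rw [(huL _).2 hvx, vv] at h5
  exact hxL.1 ((huL x).1 h5)

theorem third {L : Finset (Fin 7)} (hL : L.card = 3) {f g : Fin 7} (hfg : f ≠ g)
    (hf : f ∈ L) (hg : g ∈ L) : ∃ l, l ≠ f ∧ l ≠ g ∧ ∀ y, y ∈ L ↔ (y = f ∨ y = g ∨ y = l) := by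
  have h1 : ((L.erase f).erase g).card = 1 := by
    rw [Finset.card_erase_of_mem (Finset.mem_erase.2 ⟨Ne.symm hfg, hg⟩),
      Finset.card_erase_of_mem hf, hL]
  obtain ⟨l, hl⟩ := Finset.card_eq_one.1 h1
  have hm : ∀ y, (y ≠ g ∧ y ≠ f ∧ y ∈ L) ↔ y = l := by
    intro y
    have : y ∈ (L.erase f).erase g ↔ y ∈ ({l} : Finset (Fin 7)) := by rw [hl]
    rw [Finset.mem_erase, Finset.mem_erase, Finset.mem_singleton] at this
    exact this
  have hl' := (hm l).2 rfl
  refine ⟨l, hl'.2.1, hl'.1, fun y => ⟨fun hy => ?_, fun hy => ?_⟩⟩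
  · by_cases h1 : y = f
    · exact Or.inl h1
    by_cases h2 : y = g
    · exact Or.inr (Or.inl h2)
    exact Or.inr (Or.inr ((hm y).1 ⟨h2, h1, hy⟩))
  · rcases hy with rfl | rfl | rfl
    · exact hf
    · exact hg
    · exact hl'.2.2

theorem exists_two_out (a b c d : Fin 7) : ∃ x y : Fin 7, x ≠ y ∧
    (x ≠ a ∧ x ≠ b ∧ x ≠ c ∧ x ≠ d) ∧ (y ≠ a ∧ y ≠ b ∧ y ≠ c ∧ y ≠ d) := by
  have h : 1 < (({a, b, c, d} : Finset (Fin 7))ᶜ).card := by
    rw [Finset.card_compl, Fintype.card_fin]
    have := Finset.card_le_four (a := a) (b := b) (c := c) (d := d)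
    omega
  obtain ⟨x, hx, y, hy, hxy⟩ := Finset.one_lt_card.1 h
  rw [Finset.mem_compl] at hx hy
  simp only [Finset.mem_insert, Finset.mem_singleton, not_or] at hx hy
  exact ⟨x, y, hxy, hx, hy⟩

theorem exists_three_out (f g : Fin 7) : ∃ x y z : Fin 7, x ≠ y ∧ x ≠ z ∧ y ≠ z ∧
    (x ≠ f ∧ x ≠ g) ∧ (y ≠ f ∧ y ≠ g) ∧ (z ≠ f ∧ z ≠ g) := by
  revert f g
  decide

theorem line_unique {H : Subgroup P7} (hN : NoSmall H) (ht : ∀ a b : Fin 7, ∃ h ∈ H, h a = b)
    {L L' : Finset (Fin 7)} (hL : IsLine H L) (hL' : IsLine H L') {f g : Fin 7} (hfg : f ≠ g)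
    (hf : f ∈ L) (hf' : f ∈ L') (hg : g ∈ L) (hg' : g ∈ L') : L = L' := by
  by_contra hne
  have hL0 := hL
  have hL0' := hL'
  obtain ⟨hc, u, huH, hu2, huL⟩ := hL
  obtain ⟨hc', v, hvH, hv2, hvL⟩ := hL'
  have uu : ∀ y, u (u y) = y := fun y => by
    have := congrArg (fun w : P7 => w y) hu2
    simpa [Equiv.Perm.mul_apply] using this
  have vv : ∀ y, v (v y) = y := fun y => by
    have := congrArg (fun w : P7 => w y) hv2
    simpa [Equiv.Perm.mul_apply] using this
  obtain ⟨l, hlf, hlg, hlL⟩ := third hc hfg hf hg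
  obtain ⟨m, hmf, hmg, hmL⟩ := third hc' hfg hf' hg'
  have hlm : l ≠ m := by
    rintro rfl
    apply hne
    ext y
    rw [hlL, hmL]
  have uf : u f = f := (huL f).2 hf
  have ug : u g = g := (huL g).2 hg
  have ul : u l = l := (huL l).2 ((hlL l).2 (Or.inr (Or.inr rfl)))
  have vf : v f = f := (hvL f).2 hf'
  have vg : v g = g := (hvL g).2 hg'
  have vm : v m = m := (hvL m).2 ((hmL m).2 (Or.inr (Or.inr rfl)))
  have une : ∀ y, y ≠ f → y ≠ g → y ≠ l → u y ≠ y := by
    intro y h1 h2 h3 h4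
    rcases (hlL y).1 ((huL y).1 h4) with h | h | h
    · exact h1 h
    · exact h2 h
    · exact h3 h
  have vne : ∀ y, y ≠ f → y ≠ g → y ≠ m → v y ≠ y := by
    intro y h1 h2 h3 h4
    rcases (hmL y).1 ((hvL y).1 h4) with h | h | h
    · exact h1 h
    · exact h2 h
    · exact h3 h
  have uinj : ∀ {a b : Fin 7}, u a = b → u b = b → a = b := fun h h' => u.injective (h.trans h'.symm)
  have vinj : ∀ {a b : Fin 7}, v a = b → v b = b → a = b := fun h h' => v.injective (h.trans h'.symm)
  let Q : Fin 7 → Prop := fun x => x ≠ f ∧ x ≠ g ∧ IsLine H {f, g, x}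
  have hQl : Q l := by
    refine ⟨hlf, hlg, ?_⟩
    have : ({f, g, l} : Finset (Fin 7)) = L := by
      ext y; rw [hlL]; simp
    rw [this]; exact hL0
  have hQm : Q m := by
    refine ⟨hmf, hmg, ?_⟩
    have : ({f, g, m} : Finset (Fin 7)) = L' := by
      ext y; rw [hmL]; simp
    rw [this]; exact hL0'
  have hQu : ∀ x, Q x → Q (u x) := by
    rintro x ⟨h1, h2, h3⟩
    refine ⟨fun h => h1 (uinj h uf), fun h => h2 (uinj h ug), ?_⟩
    have h4 := line_image h3 huH
    rwa [Finset.image_insert, Finset.image_insert, Finset.image_singleton, uf, ug] at h4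
  have hQv : ∀ x, Q x → Q (v x) := by
    rintro x ⟨h1, h2, h3⟩
    refine ⟨fun h => h1 (vinj h vf), fun h => h2 (vinj h vg), ?_⟩
    have h4 := line_image h3 hvH
    rwa [Finset.image_insert, Finset.image_insert, Finset.image_singleton, vf, vg] at h4
  have hall : ∀ r, r ≠ f → r ≠ g → Q r := by
    intro r hrf hrg
    by_contra hr
    have hrl : r ≠ l := by rintro rfl; exact hr hQl
    have hrm : r ≠ m := by rintro rfl; exact hr hQm
    have hur : ¬ Q (u r) := fun h => hr (by have := hQu _ h; rwa [uu] at this)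
    have hvr : ¬ Q (v r) := fun h => hr (by have := hQv _ h; rwa [vv] at this)
    have hurf : u r ≠ f := fun h => hrf (uinj h uf)
    have hurg : u r ≠ g := fun h => hrg (uinj h ug)
    have hvrf : v r ≠ f := fun h => hrf (vinj h vf)
    have hvrg : v r ≠ g := fun h => hrg (vinj h vg)
    have hum : Q (u m) := hQu m hQm
    have humm : u m ≠ m := une m hmf hmg (Ne.symm hlm)
    have huml : u m ≠ l := fun h => hlm (uinj h ul).symm
    have hurr : u r ≠ r := une r hrf hrg hrl
    have hvrr : v r ≠ r := vne r hrf hrg hrm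
    have sep : ∀ {a b : Fin 7}, Q a → ¬ Q b → a ≠ b := by
      rintro a b h1 h2 rfl; exact h2 h1
    have hcard : ({f, g, l, m, u m, r, u r} : Finset (Fin 7)).card = 7 := by
      rw [Finset.card_insert_of_notMem, Finset.card_insert_of_notMem,
        Finset.card_insert_of_notMem, Finset.card_insert_of_notMem,
        Finset.card_insert_of_notMem, Finset.card_insert_of_notMem, Finset.card_singleton]
      · simpa using hurr.symm
      · simp [sep hum hr, sep hum hur]
      · simp only [Finset.mem_insert, Finset.mem_singleton, not_or]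
        exact ⟨humm.symm, sep hQm hr, sep hQm hur⟩
      · simp only [Finset.mem_insert, Finset.mem_singleton, not_or]
        exact ⟨hlm, huml.symm, sep hQl hr, sep hQl hur⟩
      · simp only [Finset.mem_insert, Finset.mem_singleton, not_or]
        exact ⟨hlg.symm, hmg.symm, hum.2.1.symm, hrg.symm, hurg.symm⟩
      · simp only [Finset.mem_insert, Finset.mem_singleton, not_or]
        exact ⟨hfg, hlf.symm, hmf.symm, hum.1.symm, hrf.symm, hurf.symm⟩
    have huniv := Finset.eq_univ_of_card _ (by rw [hcard, Fintype.card_fin])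
    have hvmem : v r ∈ ({f, g, l, m, u m, r, u r} : Finset (Fin 7)) := by
      rw [huniv]; exact Finset.mem_univ _
    have hveq : v r = u r := by
      simp only [Finset.mem_insert, Finset.mem_singleton] at hvmem
      rcases hvmem with h | h | h | h | h | h | h
      · exact absurd h hvrf
      · exact absurd h hvrg
      · exact absurd hQl (h ▸ hvr)
      · exact absurd hQm (h ▸ hvr)
      · exact absurd hum (h ▸ hvr)
      · exact absurd h hvrr
      · exact h
    have hvu : v * u = 1 := by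
      refine hN.four (H.mul_mem hvH huH) hfg hrf.symm hurf.symm hrg.symm hurg.symm hurr.symm
        ?_ ?_ ?_ ?_
      · rw [Equiv.Perm.mul_apply, uf, vf]
      · rw [Equiv.Perm.mul_apply, ug, vg]
      · rw [Equiv.Perm.mul_apply, ← hveq, vv]
      · rw [Equiv.Perm.mul_apply, uu, hveq]
    apply hne
    have huv : u = v := by
      have h1 : v * u = v * v := by rw [hvu, hv2]
      exact mul_left_cancel h1
    ext y
    rw [← huL, ← hvL, huv]
  have hI : ∀ h ∈ H, (h f = f ∨ h f = g) ∨ (h g = f ∨ h g = g) := by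
    intro h hh
    by_contra hcon
    push Not at hcon
    obtain ⟨⟨a1, a2⟩, a3, a4⟩ := hcon
    obtain ⟨x, x', hxx, ⟨b1, b2, b3, b4⟩, c1, c2, c3, c4⟩ := exists_two_out f g (h f) (h g)
    have hQx := hall x b1 b2
    obtain ⟨w, rfl⟩ := h.surjective x'
    have hQw := hall w (fun e => c3 (by rw [e])) (fun e => c4 (by rw [e]))
    have h4 := line_image hQw.2.2 hh
    rw [Finset.image_insert, Finset.image_insert, Finset.image_singleton] at h4
    obtain ⟨y, hy1, hy2⟩ := line_meet hN hQx.2.2 h4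
    simp only [Finset.mem_insert, Finset.mem_singleton] at hy1 hy2
    rcases hy1 with rfl | rfl | rfl
    · rcases hy2 with h | h | h
      · exact a1 h.symm
      · exact a3 h.symm
      · exact c1 h.symm
    · rcases hy2 with h | h | h
      · exact a2 h.symm
      · exact a4 h.symm
      · exact c2 h.symm
    · rcases hy2 with h | h | h
      · exact b3 h
      · exact b4 h
      · exact hxx h
  have hII : ∀ h ∈ H, ∀ h' ∈ H, (h' f = h f ∨ h' f = h g) ∨ (h' g = h f ∨ h' g = h g) := by
    intro h hh h' hh'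
    have h1 := hI (h⁻¹ * h') (H.mul_mem (H.inv_mem hh) hh')
    simp only [Equiv.Perm.mul_apply, Equiv.Perm.inv_eq_iff_eq] at h1
    exact h1
  obtain ⟨y1, y2, y3, n12, n13, n23, ⟨e1, e1'⟩, ⟨e2, e2'⟩, e3, e3'⟩ := exists_three_out f g
  obtain ⟨h1, hh1, q1⟩ := ht f y1
  obtain ⟨h2, hh2, q2⟩ := ht f y2
  obtain ⟨h3, hh3, q3⟩ := ht f y3
  have out : ∀ h ∈ H, ∀ y, h f = y → y ≠ f → y ≠ g → (h g = f ∨ h g = g) := by
    intro h hh y hy n1 n2
    rcases hI h hh with (h | h) | h
    · exact absurd (hy.symm.trans h) n1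
    · exact absurd (hy.symm.trans h) n2
    · exact h
  have same : ∀ h ∈ H, ∀ h' ∈ H, ∀ y y', h f = y → h' f = y' → y ≠ y' → y ≠ f → y ≠ g →
      y' ≠ f → y' ≠ g → h g = h' g := by
    intro h hh h' hh' y y' hy hy' nyy n1 n2 n3 n4
    have o1 := out h hh y hy n1 n2
    have o2 := out h' hh' y' hy' n3 n4
    rcases hII h hh h' hh' with (h5 | h5) | (h5 | h5)
    · exact absurd (hy.symm.trans (h5.symm.trans hy')) nyy
    · rcases o1 with o | o
      · exact absurd (hy'.symm.trans (h5.trans o)) n3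
      · exact absurd (hy'.symm.trans (h5.trans o)) n4
    · rcases o2 with o | o
      · exact absurd (hy.symm.trans (h5.symm.trans o)) n1
      · exact absurd (hy.symm.trans (h5.symm.trans o)) n2
    · exact h5.symm
  have s12 := same h1 hh1 h2 hh2 y1 y2 q1 q2 n12 e1 e1' e2 e2'
  have s13 := same h1 hh1 h3 hh3 y1 y3 q1 q3 n13 e1 e1' e3 e3'
  have o1 := out h1 hh1 y1 q1 e1 e1'
  obtain ⟨k, hk, hkq⟩ := ht (h1 g) y1
  have hqy1 : h1 g ≠ y1 := by
    rcases o1 with h | h
    · rw [h]; exact Ne.symm e1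
    · rw [h]; exact Ne.symm e1'
  -- for i = 1, 2 : k y_i = h1 g
  have fin : ∀ h ∈ H, h g = h1 g → k (h f) = h1 g := by
    intro h hh hg1
    have a2 := hII h2 hh2 (k * h) (H.mul_mem hk hh)
    have a3 := hII h3 hh3 (k * h) (H.mul_mem hk hh)
    simp only [Equiv.Perm.mul_apply] at a2 a3
    rw [hg1, hkq, q2, ← s12] at a2
    rw [hg1, hkq, q3, ← s13] at a3
    rcases a2 with (a | a) | (a | a)
    · rcases a3 with (b | b) | (b | b)
      · exact absurd (a.symm.trans b) n23
      · exact b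
      · exact absurd b n13
      · exact absurd b.symm hqy1
    · exact a
    · exact absurd a n12
    · exact absurd a.symm hqy1
  have f1 := fin h1 hh1 rfl
  have f2 := fin h2 hh2 s12.symm
  rw [q1] at f1
  rw [q2] at f2
  exact n12 (k.injective (f1.trans f2.symm))

end Pool.Agent.V1130.Gap7
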