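import Mathlib

/-!
# Pairwise once-intersecting trees in the plane

Nine points of the plane and ten topological trees (nine of them Jordan arcs, the tenth a tripod)
whose leaves are among these points, any two of which meet exactly once. All the meeting points are
common leaves or proper crossings.
-/

set_option autoImplicit false

namespace Pool.Agent.V1130.NinePointsTenTrees

open Set

/-- `A` is a Jordan arc joining `a` and `b`. -/
def IsArc (A : Set (ℝ × ℝ)) (a b : ℝ × ℝ) : Prop :=
  ∃ γ : ℝ → ℝ × ℝ, ContinuousOn γ (Icc 0 1) ∧ InjOn γ (Icc 0 1) ∧ γ 0 = a ∧ γ 1 = b ∧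
    γ '' Icc 0 1 = A

/-- A drawing in the plane of a finite tree with at least one edge: the vertices are distinct
points, each edge is a Jordan arc joining its two endpoints, and distinct edges share no points
other than a common endpoint. -/
structure TreeDrawing where
  V : Type
  fin : Finite V
  G : SimpleGraph V
  isTree : G.IsTree
  hasEdge : ∃ u v, G.Adj u v
  pos : V → ℝ × ℝ
  pos_injective : Function.Injective pos
  arc : Sym2 V → Set (ℝ × ℝ)
  isArc : ∀ u v, G.Adj u v → IsArc (arc s(u, v)) (pos u) (pos v)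
  meet : ∀ e ∈ G.edgeSet, ∀ f ∈ G.edgeSet, e ≠ f → ∀ x ∈ arc e ∩ arc f,
    ∃ w, w ∈ e ∧ w ∈ f ∧ x = pos w

/-- The topological tree (a subset of the plane) given by a drawing. -/
def TreeDrawing.carrier (D : TreeDrawing) : Set (ℝ × ℝ) := ⋃ e ∈ D.G.edgeSet, D.arc e

/-- The leaves: the vertices of degree one. -/
def TreeDrawing.leaves (D : TreeDrawing) : Set (ℝ × ℝ) := D.pos '' {v | ∃! u, D.G.Adj v u}

/-- The two topological trees have exactly one point in common. -/
def MeetOnce (D E : TreeDrawing) : Prop := ∃ x, D.carrier ∩ E.carrier = {x}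

/-- The configurations of the problem: any two of the trees intersect exactly once, and every leaf
of every tree belongs to `P`. -/
def IsConfig (P : Finset (ℝ × ℝ)) {m : ℕ} (T : Fin m → TreeDrawing) : Prop :=
  (∀ i j, i ≠ j → MeetOnce (T i) (T j)) ∧ ∀ i, (T i).leaves ⊆ P

/-- Twice the signed area of the triangle `x a b`. -/
def area (x a b : ℝ × ℝ) : ℝ := (a.1 - x.1) * (b.2 - x.2) - (a.2 - x.2) * (b.1 - x.1)

/-- `x` is a vertex of degree two of the drawing, and its two edges are the straight segments from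
`x` to `a` and from `x` to `b`. -/
def StraightAt (D : TreeDrawing) (x a b : ℝ × ℝ) : Prop :=
  ∃ v u w, D.pos v = x ∧ D.pos u = a ∧ D.pos w = b ∧ (∀ y, D.G.Adj v y ↔ y = u ∨ y = w) ∧
    D.arc s(v, u) = segment ℝ x a ∧ D.arc s(v, w) = segment ℝ x b

/-- The two trees cross properly at `x`: near `x` the first consists of two segments `x a`, `x c`
and the second of two segments `x b`, `x d`, where the directions to `a`, `b`, `c`, `d` come in this
order around `x` (each turn from one to the next is by less than a half turn). -/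
def CrossAt (D E : TreeDrawing) (x : ℝ × ℝ) : Prop :=
  ∃ a b c d, StraightAt D x a c ∧ StraightAt E x b d ∧
    0 < area x a b ∧ 0 < area x b c ∧ 0 < area x c d ∧ 0 < area x d a

/-- General position: a tree contains no point of `P` other than its leaves, two trees that meet
outside `P` cross properly there, and no point outside `P` is on three of the trees. -/
def IsGeneric (P : Finset (ℝ × ℝ)) {m : ℕ} (T : Fin m → TreeDrawing) : Prop :=
  (∀ i, (T i).carrier ∩ P = (T i).leaves) ∧
  (∀ i j, i ≠ j → ∀ x ∈ (T i).carrier ∩ (T j).carrier, x ∉ P → CrossAt (T i) (T j) x) ∧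
  ∀ i j k, i ≠ j → i ≠ k → j ≠ k → ∀ x ∈ (T i).carrier ∩ (T j).carrier ∩ (T k).carrier, x ∈ P

/-! ### trees given by a parent function -/

/-- The graph with the edges `u, p u` for `0 < u < n`. -/
def parGraph (n : ℕ) (p : ℕ → ℕ) : SimpleGraph (Fin n) :=
  SimpleGraph.fromRel fun u v => 0 < u.1 ∧ p u.1 = v.1

theorem parGraph_adj {n : ℕ} {p : ℕ → ℕ} (hp : ∀ u, 0 < u → u < n → p u < u) (u v : Fin n) :
    (parGraph n p).Adj u v ↔ (0 < u.1 ∧ p u.1 = v.1) ∨ (0 < v.1 ∧ p v.1 = u.1) := by
  unfold parGraph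
  rw [SimpleGraph.fromRel_adj]
  constructor
  · exact fun h => h.2
  · intro h
    refine ⟨?_, h⟩
    rintro rfl
    have := hp u.1
    have h2 := u.2
    omega

theorem parGraph_isTree {n : ℕ} (hn : 0 < n) {p : ℕ → ℕ} (hp : ∀ u, 0 < u → u < n → p u < u) :
    (parGraph n p).IsTree := by
  obtain ⟨k, rfl⟩ : ∃ k, n = k + 1 := ⟨n - 1, by omega⟩
  rw [SimpleGraph.isTree_iff_connected_and_card]
  constructor
  · have key : ∀ m, ∀ u : Fin (k + 1), u.1 = m → (parGraph (k + 1) p).Reachable u 0 := by
      intro m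
      induction m using Nat.strong_induction_on with
      | _ m ih =>
        intro u hu
        by_cases h0 : m = 0
        · have : u = 0 := Fin.ext (by rw [hu, h0]; rfl)
          rw [this]
        · have h1 := hp u.1 (by omega) u.2
          have h2 : (parGraph (k + 1) p).Adj u ⟨p u.1, by have := u.2; omega⟩ :=
            (parGraph_adj hp _ _).2 (Or.inl ⟨by omega, rfl⟩)
          exact h2.reachable.trans (ih (p u.1) (by omega) _ rfl)
    exact (SimpleGraph.connected_iff _).2
      ⟨fun u v => (key _ u rfl).trans (key _ v rfl).symm, ⟨0⟩⟩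
  · have hb : Function.Bijective (fun i : Fin k =>
        (⟨s(i.succ, ⟨p (i.1 + 1), by
            have := hp (i.1 + 1) (by omega) (by have := i.2; omega)
            have := i.2
            omega⟩), by
          rw [SimpleGraph.mem_edgeSet, parGraph_adj hp]
          exact Or.inl ⟨by simp, by simp⟩⟩ : (parGraph (k + 1) p).edgeSet)) := by
      constructor
      · intro i j hij
        have h1 := congrArg Subtype.val hij
        simp only [Sym2.eq_iff, Fin.ext_iff, Fin.val_succ] at h1
        have hi := hp (i.1 + 1) (by omega) (by have := i.2; omega)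
        have hj := hp (j.1 + 1) (by omega) (by have := j.2; omega)
        exact Fin.ext (by omega)
      · rintro ⟨e, he⟩
        induction e using Sym2.ind with
        | _ u v =>
          rw [SimpleGraph.mem_edgeSet, parGraph_adj hp] at he
          rcases he with ⟨h0, h1⟩ | ⟨h0, h1⟩
          · refine ⟨⟨u.1 - 1, by have := u.2; omega⟩, Subtype.ext ?_⟩
            simp only [Sym2.eq_iff, Fin.ext_iff, Fin.val_succ]
            left
            have h2 : u.1 - 1 + 1 = u.1 := by omega
            rw [h2]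
            exact ⟨rfl, h1⟩
          · refine ⟨⟨v.1 - 1, by have := v.2; omega⟩, Subtype.ext ?_⟩
            simp only [Sym2.eq_iff, Fin.ext_iff, Fin.val_succ]
            right
            have h2 : v.1 - 1 + 1 = v.1 := by omega
            rw [h2]
            exact ⟨rfl, h1⟩
    have h1 := Nat.card_eq_of_bijective _ hb
    rw [← h1]
    simp

/-! ### segments -/

theorem isArc_segment {a b : ℝ × ℝ} (h : a ≠ b) : IsArc (segment ℝ a b) a b := by
  refine ⟨AffineMap.lineMap a b, (AffineMap.lineMap_continuous).continuousOn,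
    ((AffineMap.lineMap_injective ℝ h).injOn), AffineMap.lineMap_apply_zero a b,
    AffineMap.lineMap_apply_one a b, ?_⟩
  rw [segment_eq_image_lineMap]

theorem area_comb (x a c d : ℝ × ℝ) (s t : ℝ) (hst : s + t = 1) :
    area x a (s • c + t • d) = s * area x a c + t * area x a d := by
  unfold area
  simp only [Prod.fst_add, Prod.snd_add, Prod.smul_fst, Prod.smul_snd, smul_eq_mul]
  linear_combination ((a.1 - x.1) * x.2 - (a.2 - x.2) * x.1) * hst

theorem area_of_mem {a b x : ℝ × ℝ} (h : x ∈ segment ℝ a b) : area a b x = 0 := by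
  obtain ⟨s, t, _, _, hst, rfl⟩ := h
  rw [area_comb a b a b s t hst]
  unfold area
  ring

theorem sep_one {a b c d x : ℝ × ℝ} (h : 0 < area a b c * area a b d) (h1 : x ∈ segment ℝ a b)
    (h2 : x ∈ segment ℝ c d) : False := by
  have h0 := area_of_mem h1
  obtain ⟨s, t, hs, ht, hst, rfl⟩ := h2
  rw [area_comb a b c d s t hst] at h0
  rcases pos_and_pos_or_neg_and_neg_of_mul_pos h with ⟨hc, hd⟩ | ⟨hc, hd⟩
  · rcases eq_or_lt_of_le hs with hs0 | hs0
    · subst hs0
      have : t = 1 := by linarith
      subst this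
      linarith
    · have := mul_pos hs0 hc
      have := mul_nonneg ht hd.le
      linarith
  · rcases eq_or_lt_of_le hs with hs0 | hs0
    · subst hs0
      have : t = 1 := by linarith
      subst this
      linarith
    · have := mul_neg_of_pos_of_neg hs0 hc
      have := mul_nonpos_of_nonneg_of_nonpos ht hd.le
      linarith

/-- the inner product of `q - p` and `r - p` -/
def dotp (p q r : ℝ × ℝ) : ℝ := (q.1 - p.1) * (r.1 - p.1) + (q.2 - p.2) * (r.2 - p.2)

theorem share {p q r x : ℝ × ℝ} (h : area p q r ≠ 0 ∨ dotp p q r < 0) (h1 : x ∈ segment ℝ p q)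
    (h2 : x ∈ segment ℝ p r) : x = p := by
  rcases h with h | h
  · have h0 := area_of_mem h1
    obtain ⟨s, t, hs, ht, hst, rfl⟩ := h2
    rw [area_comb p q p r s t hst] at h0
    have h3 : area p q p = 0 := by unfold area; ring
    rw [h3] at h0
    have ht0 : t = 0 := by
      rcases mul_eq_zero.1 (by linarith : t * area p q r = 0) with h4 | h4
      · exact h4
      · exact absurd h4 h
    subst ht0
    have : s = 1 := by linarith
    subst this
    simp
  · obtain ⟨s, t, hs, ht, hst, rfl⟩ := h1
    obtain ⟨s', t', hs', ht', hst', he⟩ := h2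
    have e1 : t' * (r.1 - p.1) = t * (q.1 - p.1) := by
      have := congrArg Prod.fst he
      simp only [Prod.fst_add, Prod.smul_fst, smul_eq_mul] at this
      have hs1 : s = 1 - t := by linarith
      have hs2 : s' = 1 - t' := by linarith
      rw [hs1, hs2] at this
      linarith
    have e2 : t' * (r.2 - p.2) = t * (q.2 - p.2) := by
      have := congrArg Prod.snd he
      simp only [Prod.snd_add, Prod.smul_snd, smul_eq_mul] at this
      have hs1 : s = 1 - t := by linarith
      have hs2 : s' = 1 - t' := by linarith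
      rw [hs1, hs2] at this
      linarith
    have h3 : t * ((q.1 - p.1) ^ 2 + (q.2 - p.2) ^ 2) = t' * dotp p q r := by
      unfold dotp
      linear_combination -(q.1 - p.1) * e1 - (q.2 - p.2) * e2
    have h4 : t' * dotp p q r ≤ 0 := mul_nonpos_of_nonneg_of_nonpos ht' h.le
    have h5 : 0 < (q.1 - p.1) ^ 2 + (q.2 - p.2) ^ 2 := by
      by_contra hc
      have h6 : (q.1 - p.1) ^ 2 + (q.2 - p.2) ^ 2 = 0 := by
        have := sq_nonneg (q.1 - p.1)
        have := sq_nonneg (q.2 - p.2)
        linarith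
      have h7 : q.1 - p.1 = 0 := by
        have := sq_nonneg (q.2 - p.2)
        have := sq_nonneg (q.1 - p.1)
        exact pow_eq_zero_iff (two_ne_zero) |>.1 (by linarith)
      have h8 : q.2 - p.2 = 0 := by
        have := sq_nonneg (q.2 - p.2)
        have := sq_nonneg (q.1 - p.1)
        exact pow_eq_zero_iff (two_ne_zero) |>.1 (by linarith)
      unfold dotp at h
      rw [h7, h8] at h
      simp at h
    have h6 : t = 0 := by
      by_contra hne
      have : 0 < t := lt_of_le_of_ne ht (Ne.symm hne)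
      have := mul_pos this h5
      linarith
    subst h6
    have : s = 1 := by linarith
    subst this
    simp

/-! ### the drawing -/

/-- The coordinates of the points of the drawing. The points `0, …, 8` form the set `P`. -/
def pts : List (ℤ × ℤ) :=
  [(3, 3), (-3, -5), (-5, -4), (0, -8), (-2, 6), (-5, -2), (-6, 1), (0, 0), (0, -5), (-11, 8),
   (-1, 0), (14, 0), (4, 13), (-2, 8), (-1, 6), (3, 6), (6, 2), (-2, -1), (-6, -3), (-11, -8),
   (4, -13), (-2, -6), (-4, -6), (-4, -2), (-5, -1), (-6, 2), (-2, 3), (1, 2), (3, 0), (5, -3),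
   (3, -7), (1, -8), (-4, -4), (-1, -3), (2, -4), (1, -6), (0, -7), (1, -1), (0, -3), (16, -12),
   (-6, 19), (-20, 0), (16, 12), (-6, -19)]

/-- The vertices of the trees, in an order in which every vertex comes after its parent. -/
def verts : List (List ℕ) :=
  [[0, 16, 11, 39, 20, 31, 36, 21, 1],
   [0, 15, 12, 40, 9, 25, 24, 18, 2],
   [1, 22, 19, 41, 9, 13, 14, 26, 10, 7],
   [0, 27, 10, 17, 33, 8],
   [4, 13, 12, 42, 11, 29, 34, 8],
   [4, 14, 15, 16, 28, 37, 17, 23, 5],
   [5, 18, 19, 43, 20, 30, 35, 8],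
   [6, 24, 23, 32, 22, 21, 8],
   [3, 31, 30, 29, 28, 27, 26, 25, 6],
   [2, 32, 33, 38, 34, 35, 36, 3, 37, 7]]

/-- The positions of the parents of the vertices. -/
def pars : List (List ℕ) :=
  [[0, 0, 1, 2, 3, 4, 5, 6, 7],
   [0, 0, 1, 2, 3, 4, 5, 6, 7],
   [0, 0, 1, 2, 3, 4, 5, 6, 7, 8],
   [0, 0, 1, 2, 3, 4],
   [0, 0, 1, 2, 3, 4, 5, 6],
   [0, 0, 1, 2, 3, 4, 5, 6, 7],
   [0, 0, 1, 2, 3, 4, 5, 6],
   [0, 0, 1, 2, 3, 4, 5],
   [0, 0, 1, 2, 3, 4, 5, 6, 7],
   [0, 0, 1, 2, 3, 4, 5, 6, 3, 8]]

/-- the point with number `n` -/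
def pt (n : ℕ) : ℤ × ℤ := pts.getD n (0, 0)

/-- the vertices of the tree `i` -/
def vs (i : ℕ) : List ℕ := verts.getD i []

/-- the number of the `u`th vertex of the tree `i` -/
def vtx (i u : ℕ) : ℕ := (vs i).getD u 0

/-- the position of the parent of the `u`th vertex of the tree `i` -/
def par (i u : ℕ) : ℕ := (pars.getD i []).getD u 0

/-- twice the signed area, over the integers -/
def iarea (x a b : ℤ × ℤ) : ℤ := (a.1 - x.1) * (b.2 - x.2) - (a.2 - x.2) * (b.1 - x.1)

/-- the inner product, over the integers -/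
def idot (p q r : ℤ × ℤ) : ℤ := (q.1 - p.1) * (r.1 - p.1) + (q.2 - p.2) * (r.2 - p.2)

/-- the segments `p q` and `p r` meet in `p` only -/
def shareOK (p q r : ℤ × ℤ) : Bool := iarea p q r != 0 || decide (idot p q r < 0)

/-- the segments `a b` and `c d` are disjoint -/
def sepOK (a b c d : ℤ × ℤ) : Bool :=
  decide (0 < iarea a b c * iarea a b d) || decide (0 < iarea c d a * iarea c d b)

/-- the segments between the points with the numbers `a`, `b` and `c`, `d` share no point other
than a common endpoint -/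
def goodPair (a b c d : ℕ) : Bool :=
  if a = c then shareOK (pt a) (pt b) (pt d)
  else if a = d then shareOK (pt a) (pt b) (pt c)
  else if b = c then shareOK (pt b) (pt a) (pt d)
  else if b = d then shareOK (pt b) (pt a) (pt c)
  else sepOK (pt a) (pt b) (pt c) (pt d)

theorem check_len : ∀ i < 10, 1 < (vs i).length := by decide

theorem check_par : ∀ i < 10, ∀ u < (vs i).length, 0 < u → par i u < u := by decide

theorem check_vtx : ∀ i < 10, ∀ u < (vs i).length, vtx i u < 44 := by decide

theorem check_vs : ∀ i < 10, ∀ u < (vs i).length, ∀ v < (vs i).length, vtx i u = vtx i v → u = v := by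
  decide

theorem check_pt : ∀ a < 44, ∀ b < 44, pt a = pt b → a = b := by decide +kernel

/-- two different segments, one of the tree `i` and one of the tree `j`, share no point other than
a common endpoint -/
def goodTrees (i j : ℕ) : Prop :=
  ∀ u < (vs i).length, ∀ v < (vs j).length, (u = 0 ∨ v = 0 ∨ (i = j ∧ u = v) ∨
    goodPair (vtx i u) (vtx i (par i u)) (vtx j v) (vtx j (par j v)) = true)

instance (i j : ℕ) : Decidable (goodTrees i j) := by
  unfold goodTrees
  infer_instance

theorem check_good : ∀ i < 10, ∀ j < 10, goodTrees i j := by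
  decide +kernel

/-- the numbers of the common vertices of the trees `i` and `j` -/
def common (i j : ℕ) : List ℕ := (vs i).filter (fun a => decide (a ∈ vs j))

/-- the number of the common vertex of the trees `i` and `j` -/
def com (i j : ℕ) : ℕ := (common i j).headD 0

theorem check_com : ∀ i < 10, ∀ j < 10, i = j ∨ common i j = [com i j] := by decide +kernel

/-- adjacency in the tree `i` -/
def adj (i u v : ℕ) : Prop := (0 < u ∧ par i u = v) ∨ (0 < v ∧ par i v = u)

instance (i u v : ℕ) : Decidable (adj i u v) := by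
  unfold adj
  infer_instance

/-- Near a common vertex that is not in `P`, the trees cross. -/
def crossOK (i j : ℕ) : Prop :=
  com i j < 9 ∨ ∃ u < (vs i).length, ∃ v < (vs j).length, 0 < u ∧ 0 < v ∧
    u + 1 < (vs i).length ∧ v + 1 < (vs j).length ∧ vtx i u = com i j ∧ vtx j v = com i j ∧
    (∀ y < (vs i).length, (adj i u y ↔ y = par i u ∨ y = u + 1)) ∧
    (∀ y < (vs j).length, (adj j v y ↔ y = par j v ∨ y = v + 1)) ∧
    ((0 < iarea (pt (com i j)) (pt (vtx i (par i u))) (pt (vtx j (par j v))) ∧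
      0 < iarea (pt (com i j)) (pt (vtx j (par j v))) (pt (vtx i (u + 1))) ∧
      0 < iarea (pt (com i j)) (pt (vtx i (u + 1))) (pt (vtx j (v + 1))) ∧
      0 < iarea (pt (com i j)) (pt (vtx j (v + 1))) (pt (vtx i (par i u)))) ∨
     (0 < iarea (pt (com i j)) (pt (vtx i (par i u))) (pt (vtx j (v + 1))) ∧
      0 < iarea (pt (com i j)) (pt (vtx j (v + 1))) (pt (vtx i (u + 1))) ∧
      0 < iarea (pt (com i j)) (pt (vtx i (u + 1))) (pt (vtx j (par j v))) ∧
      0 < iarea (pt (com i j)) (pt (vtx j (par j v))) (pt (vtx i (par i u)))))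

instance (i j : ℕ) : Decidable (crossOK i j) := by
  unfold crossOK
  infer_instance

theorem check_cross : ∀ i < 10, ∀ j < 10, i = j ∨ crossOK i j := by decide +kernel

theorem check_leaf : ∀ i < 10, ∀ u < (vs i).length, (vtx i u < 9 ↔
    ∃ v < (vs i).length, adj i u v ∧ ∀ w < (vs i).length, adj i u w → w = v) := by
  decide +kernel

/-- every point is a vertex of some tree -/
theorem check_all : ∀ a < 44, ∃ j < 10, ∃ v < (vs j).length, vtx j v = a := by decide +kernel

theorem check_three : ∀ i < 10, ∀ j < 10, ∀ k < 10, i = j ∨ i = k ∨ j = k ∨ com i j < 9 ∨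
    com i j ≠ com i k := by decide +kernel

/-! ### assembling the trees -/

/-- an integer point as a point of the plane -/
def re (p : ℤ × ℤ) : ℝ × ℝ := ((p.1 : ℝ), (p.2 : ℝ))

theorem re_injective : Function.Injective re := by
  intro p q h
  unfold re at h
  rw [Prod.mk.injEq] at h
  exact Prod.ext (Int.cast_injective h.1) (Int.cast_injective h.2)

theorem area_re (x a b : ℤ × ℤ) : area (re x) (re a) (re b) = (iarea x a b : ℝ) := by
  unfold area iarea re
  push_cast
  ring

theorem dot_re (x a b : ℤ × ℤ) : dotp (re x) (re a) (re b) = (idot x a b : ℝ) := by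
  unfold dotp idot re
  push_cast
  ring

theorem shareOK_spec {p q r : ℤ × ℤ} (h : shareOK p q r = true) {x : ℝ × ℝ}
    (h1 : x ∈ segment ℝ (re p) (re q)) (h2 : x ∈ segment ℝ (re p) (re r)) : x = re p := by
  unfold shareOK at h
  rw [Bool.or_eq_true, bne_iff_ne, decide_eq_true_eq] at h
  refine share ?_ h1 h2
  rw [area_re, dot_re]
  rcases h with h | h
  · left
    exact_mod_cast h
  · right
    exact_mod_cast h

theorem sepOK_spec {a b c d : ℤ × ℤ} (h : sepOK a b c d = true) {x : ℝ × ℝ}
    (h1 : x ∈ segment ℝ (re a) (re b)) (h2 : x ∈ segment ℝ (re c) (re d)) : False := by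
  unfold sepOK at h
  rw [Bool.or_eq_true, decide_eq_true_eq, decide_eq_true_eq] at h
  rcases h with h | h
  · refine sep_one (a := re a) (b := re b) (c := re c) (d := re d) ?_ h1 h2
    rw [area_re, area_re]
    exact_mod_cast h
  · refine sep_one (a := re c) (b := re d) (c := re a) (d := re b) ?_ h2 h1
    rw [area_re, area_re]
    exact_mod_cast h

theorem goodPair_spec {a b c d : ℕ} (h : goodPair a b c d = true) {x : ℝ × ℝ}
    (h1 : x ∈ segment ℝ (re (pt a)) (re (pt b))) (h2 : x ∈ segment ℝ (re (pt c)) (re (pt d))) :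
    ∃ w, (w = a ∨ w = b) ∧ (w = c ∨ w = d) ∧ x = re (pt w) := by
  unfold goodPair at h
  split_ifs at h with c1 c2 c3 c4
  · subst c1
    exact ⟨a, Or.inl rfl, Or.inl rfl, shareOK_spec h h1 h2⟩
  · subst c2
    rw [segment_symm] at h2
    exact ⟨a, Or.inl rfl, Or.inr rfl, shareOK_spec h h1 h2⟩
  · subst c3
    rw [segment_symm] at h1
    exact ⟨b, Or.inr rfl, Or.inl rfl, shareOK_spec h h1 h2⟩
  · subst c4
    rw [segment_symm] at h1 h2
    exact ⟨b, Or.inr rfl, Or.inr rfl, shareOK_spec h h1 h2⟩
  · exact (sepOK_spec h h1 h2).elim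

/-- the straight segments between the positions of the two ends of an edge -/
def segs {V : Type} (pos : V → ℝ × ℝ) : Sym2 V → Set (ℝ × ℝ) :=
  Sym2.lift ⟨fun u v => segment ℝ (pos u) (pos v), fun u v => segment_symm ℝ _ _⟩

theorem segs_mk {V : Type} (pos : V → ℝ × ℝ) (u v : V) :
    segs pos s(u, v) = segment ℝ (pos u) (pos v) := rfl

/-- the position of the `u`th vertex of the tree `i` -/
def posn (i : Fin 10) (u : Fin (vs i).length) : ℝ × ℝ := re (pt (vtx i u))

theorem posn_injective (i : Fin 10) : Function.Injective (posn i) := by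
  intro u v h
  have h1 := re_injective h
  have h2 := check_pt _ (check_vtx i i.2 u u.2) _ (check_vtx i i.2 v v.2) h1
  exact Fin.ext (check_vs i i.2 u u.2 v v.2 h2)

/-- the parent of a vertex -/
def parent (i : Fin 10) (u : Fin (vs i).length) (h : 0 < u.1) : Fin (vs i).length :=
  ⟨par i u, (check_par i i.2 u u.2 h).trans u.2⟩

/-- the abstract tree `i` -/
def gr (i : Fin 10) : SimpleGraph (Fin (vs i).length) := parGraph (vs i).length (par i)

theorem gr_adj (i : Fin 10) (u v : Fin (vs i).length) : (gr i).Adj u v ↔ adj i u v :=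
  parGraph_adj (fun w h1 h2 => check_par i i.2 w h2 h1) u v

theorem edge_form (i : Fin 10) {e : Sym2 (Fin (vs i).length)} (he : e ∈ (gr i).edgeSet) :
    ∃ (u : Fin (vs i).length) (h : 0 < u.1), e = s(u, parent i u h) := by
  induction e using Sym2.ind with
  | _ u v =>
    rw [SimpleGraph.mem_edgeSet, gr_adj] at he
    rcases he with ⟨h0, h1⟩ | ⟨h0, h1⟩
    · refine ⟨u, h0, ?_⟩
      rw [Sym2.eq_iff]
      exact Or.inl ⟨rfl, Fin.ext h1.symm⟩
    · refine ⟨v, h0, ?_⟩
      rw [Sym2.eq_iff]
      exact Or.inr ⟨Fin.ext h1.symm, rfl⟩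

/-- The key fact: two different segments of the drawing share only common endpoints. -/
theorem key (i j : Fin 10) (u : Fin (vs i).length) (hu : 0 < u.1) (v : Fin (vs j).length)
    (hv : 0 < v.1) (hne : ¬ (i.1 = j.1 ∧ u.1 = v.1)) {x : ℝ × ℝ}
    (h1 : x ∈ segment ℝ (posn i u) (posn i (parent i u hu)))
    (h2 : x ∈ segment ℝ (posn j v) (posn j (parent j v hv))) :
    ∃ (a : Fin (vs i).length) (b : Fin (vs j).length), (a = u ∨ a = parent i u hu) ∧
      (b = v ∨ b = parent j v hv) ∧ vtx i a = vtx j b ∧ x = posn i a := by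
  rcases check_good i i.2 j j.2 u u.2 v v.2 with h | h | h | h
  · omega
  · omega
  · exact absurd h hne
  · obtain ⟨w, hw1, hw2, hx⟩ := goodPair_spec h h1 h2
    rcases hw1 with rfl | rfl
    · rcases hw2 with hw2 | hw2
      · exact ⟨u, v, Or.inl rfl, Or.inl rfl, hw2, hx⟩
      · exact ⟨u, parent j v hv, Or.inl rfl, Or.inr rfl, hw2, hx⟩
    · rcases hw2 with hw2 | hw2
      · exact ⟨parent i u hu, v, Or.inr rfl, Or.inl rfl, hw2, hx⟩
      · exact ⟨parent i u hu, parent j v hv, Or.inr rfl, Or.inr rfl, hw2, hx⟩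

/-- the drawing of the tree `i` -/
def draw (i : Fin 10) : TreeDrawing where
  V := Fin (vs i).length
  fin := inferInstance
  G := gr i
  isTree := parGraph_isTree (by have := check_len i i.2; omega)
    (fun w h1 h2 => check_par i i.2 w h2 h1)
  hasEdge := by
    have h := check_len i i.2
    exact ⟨⟨1, h⟩, parent i ⟨1, h⟩ Nat.one_pos, (gr_adj i _ _).2 (Or.inl ⟨Nat.one_pos, rfl⟩)⟩
  pos := posn i
  pos_injective := posn_injective i
  arc := segs (posn i)
  isArc := by
    intro u v h
    rw [segs_mk]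
    exact isArc_segment fun h1 => h.ne (posn_injective i h1)
  meet := by
    intro e he f hf hef x hx
    obtain ⟨u, hu, rfl⟩ := edge_form i he
    obtain ⟨v, hv, rfl⟩ := edge_form i hf
    rw [segs_mk, segs_mk] at hx
    have hne : ¬ (i.1 = i.1 ∧ u.1 = v.1) := by
      rintro ⟨-, h⟩
      have h' : u = v := Fin.ext h
      subst h'
      exact hef rfl
    obtain ⟨a, b, ha, hb, hab, hxa⟩ := key i i u hu v hv hne hx.1 hx.2
    have hab' : a = b := Fin.ext (check_vs i i.2 a a.2 b b.2 hab)
    subst hab'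
    exact ⟨a, Sym2.mem_iff.2 ha, Sym2.mem_iff.2 hb, hxa⟩

theorem mem_carrier (i : Fin 10) (x : ℝ × ℝ) : x ∈ (draw i).carrier ↔
    ∃ (u : Fin (vs i).length) (h : 0 < u.1),
      x ∈ segment ℝ (posn i u) (posn i (parent i u h)) := by
  unfold TreeDrawing.carrier
  rw [mem_iUnion₂]
  constructor
  · rintro ⟨e, he, hx⟩
    obtain ⟨u, hu, rfl⟩ := edge_form i he
    exact ⟨u, hu, hx⟩
  · rintro ⟨u, hu, hx⟩
    refine ⟨s(u, parent i u hu), ?_, hx⟩
    exact (gr_adj i _ _).2 (Or.inl ⟨hu, rfl⟩)

theorem vertex_mem (i : Fin 10) (u : Fin (vs i).length) : posn i u ∈ (draw i).carrier := by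
  rw [mem_carrier]
  rcases Nat.eq_zero_or_pos u.1 with h | h
  · have h1 := check_len i i.2
    refine ⟨⟨1, h1⟩, Nat.one_pos, ?_⟩
    have h2 : parent i ⟨1, h1⟩ Nat.one_pos = u := by
      apply Fin.ext
      have := check_par i i.2 1 h1 Nat.one_pos
      have h3 : (parent i ⟨1, h1⟩ Nat.one_pos).1 = par i 1 := rfl
      omega
    rw [h2]
    exact right_mem_segment ℝ _ _
  · exact ⟨u, h, left_mem_segment ℝ _ _⟩

theorem com_spec (i j : Fin 10) (hij : i ≠ j) (a : Fin (vs i).length) (b : Fin (vs j).length)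
    (h : vtx i a = vtx j b) : vtx i a = com i j := by
  rcases check_com i i.2 j j.2 with h1 | h1
  · exact absurd (Fin.ext h1) hij
  · have h2 : vtx i a ∈ common i j := by
      unfold common
      rw [List.mem_filter]
      refine ⟨?_, ?_⟩
      · unfold vtx
        rw [List.getD_eq_getElem _ _ a.2]
        exact List.getElem_mem _
      · rw [decide_eq_true_eq, h]
        unfold vtx
        rw [List.getD_eq_getElem _ _ b.2]
        exact List.getElem_mem _
    rw [h1] at h2
    simpa using h2

theorem com_exists (i j : Fin 10) (hij : i ≠ j) :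
    ∃ (a : Fin (vs i).length) (b : Fin (vs j).length), vtx i a = com i j ∧ vtx j b = com i j := by
  rcases check_com i i.2 j j.2 with h1 | h1
  · exact absurd (Fin.ext h1) hij
  · have h2 : com i j ∈ common i j := by
      rw [h1]
      simp
    unfold common at h2
    rw [List.mem_filter, decide_eq_true_eq] at h2
    obtain ⟨a, ha, hva⟩ := List.mem_iff_getElem.1 h2.1
    obtain ⟨b, hb, hvb⟩ := List.mem_iff_getElem.1 h2.2
    refine ⟨⟨a, ha⟩, ⟨b, hb⟩, ?_, ?_⟩
    · unfold vtx
      rw [List.getD_eq_getElem _ _ ha]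
      exact hva
    · unfold vtx
      rw [List.getD_eq_getElem _ _ hb]
      exact hvb

theorem inter_eq (i j : Fin 10) (hij : i ≠ j) :
    (draw i).carrier ∩ (draw j).carrier = {re (pt (com i j))} := by
  ext x
  rw [mem_inter_iff, mem_singleton_iff]
  constructor
  · rintro ⟨h1, h2⟩
    obtain ⟨u, hu, hxu⟩ := (mem_carrier i x).1 h1
    obtain ⟨v, hv, hxv⟩ := (mem_carrier j x).1 h2
    obtain ⟨a, b, -, -, hab, hx⟩ := key i j u hu v hv (fun h => hij (Fin.ext h.1)) hxu hxv
    rw [hx, ← com_spec i j hij a b hab]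
    rfl
  · rintro rfl
    obtain ⟨a, b, ha, hb⟩ := com_exists i j hij
    constructor
    · have := vertex_mem i a
      unfold posn at this
      rwa [ha] at this
    · have := vertex_mem j b
      unfold posn at this
      rwa [hb] at this

/-- The set `P`. -/
noncomputable def PP : Finset (ℝ × ℝ) := (Finset.range 9).image fun n => re (pt n)

theorem mem_PP {x : ℝ × ℝ} : x ∈ PP ↔ ∃ n < 9, x = re (pt n) := by
  unfold PP
  rw [Finset.mem_image]
  simp only [Finset.mem_range]
  constructor
  · rintro ⟨n, hn, rfl⟩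
    exact ⟨n, hn, rfl⟩
  · rintro ⟨n, hn, rfl⟩
    exact ⟨n, hn, rfl⟩

theorem pt_mem_PP {n : ℕ} (hn : n < 44) : re (pt n) ∈ PP ↔ n < 9 := by
  rw [mem_PP]
  constructor
  · rintro ⟨k, hk, h⟩
    have := check_pt n hn k (by omega) (re_injective h)
    omega
  · intro h
    exact ⟨n, h, rfl⟩

theorem card_PP : PP.card = 9 := by
  unfold PP
  rw [Finset.card_image_of_injOn, Finset.card_range]
  intro a ha b hb h
  rw [Finset.coe_range, mem_Iio] at ha hb
  exact check_pt a (by omega) b (by omega) (re_injective h)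

theorem mem_leaves (i : Fin 10) (x : ℝ × ℝ) :
    x ∈ (draw i).leaves ↔ ∃ u : Fin (vs i).length, vtx i u < 9 ∧ x = posn i u := by
  have hleaf : ∀ u : Fin (vs i).length, (∃! w, (gr i).Adj u w) ↔ vtx i u < 9 := by
    intro u
    rw [check_leaf i i.2 u u.2]
    constructor
    · rintro ⟨w, hw, hw'⟩
      refine ⟨w, w.2, (gr_adj i u w).1 hw, ?_⟩
      intro z hz hz'
      exact congrArg Fin.val (hw' ⟨z, hz⟩ ((gr_adj i u ⟨z, hz⟩).2 hz'))
    · rintro ⟨w, hw, hw1, hw2⟩
      refine ⟨⟨w, hw⟩, (gr_adj i u ⟨w, hw⟩).2 hw1, ?_⟩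
      intro z hz
      exact Fin.ext (hw2 z z.2 ((gr_adj i u z).1 hz))
  unfold TreeDrawing.leaves
  constructor
  · rintro ⟨u, hu, rfl⟩
    exact ⟨u, (hleaf u).1 hu, rfl⟩
  · rintro ⟨u, hu, rfl⟩
    exact ⟨u, (hleaf u).2 hu, rfl⟩

theorem leaves_subset (i : Fin 10) : (draw i).leaves ⊆ PP := by
  intro x hx
  obtain ⟨u, hu, rfl⟩ := (mem_leaves i x).1 hx
  exact (pt_mem_PP (check_vtx i i.2 u u.2)).2 hu

theorem isConfig : IsConfig PP draw := by
  refine ⟨?_, leaves_subset⟩
  intro i j hij
  exact ⟨_, inter_eq i j hij⟩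

theorem carrier_inter (i : Fin 10) : (draw i).carrier ∩ PP = (draw i).leaves := by
  ext x
  constructor
  · rintro ⟨h1, h2⟩
    obtain ⟨n, hn, rfl⟩ := mem_PP.1 h2
    obtain ⟨u, hu, hxu⟩ := (mem_carrier i _).1 h1
    obtain ⟨j, hj, v, hv, hjv⟩ := check_all n (by omega)
    have hmem : re (pt n) ∈ (draw ⟨j, hj⟩).carrier := by
      have := vertex_mem ⟨j, hj⟩ ⟨v, hv⟩
      unfold posn at this
      have h3 : vtx (⟨j, hj⟩ : Fin 10).1 (⟨v, hv⟩ : Fin (vs j).length).1 = n := hjv
      rwa [h3] at this
    rw [mem_leaves]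
    by_cases hij : i = ⟨j, hj⟩
    · subst hij
      refine ⟨⟨v, hv⟩, ?_, ?_⟩
      · have h3 : vtx (⟨j, hj⟩ : Fin 10).1 (⟨v, hv⟩ : Fin (vs j).length).1 = n := hjv
        rw [h3]
        exact hn
      · have h3 : vtx (⟨j, hj⟩ : Fin 10).1 (⟨v, hv⟩ : Fin (vs j).length).1 = n := hjv
        unfold posn
        rw [h3]
    · have h3 : re (pt n) ∈ (draw i).carrier ∩ (draw ⟨j, hj⟩).carrier := ⟨h1, hmem⟩
      rw [inter_eq i _ hij, mem_singleton_iff] at h3
      obtain ⟨a, b, ha, -⟩ := com_exists i ⟨j, hj⟩ hij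
      have h4 : n = vtx i a := by
        have h5 := check_vtx i i.2 a a.2
        rw [← ha] at h3
        exact check_pt n (by omega) _ h5 (re_injective h3)
      refine ⟨a, by omega, ?_⟩
      unfold posn
      rw [← h4]
  · intro h
    refine ⟨?_, leaves_subset i h⟩
    obtain ⟨u, hu, rfl⟩ := (mem_leaves i x).1 h
    exact vertex_mem i u

theorem straight (i : Fin 10) (u : ℕ) (hu : 0 < u) (hu1 : u + 1 < (vs i).length)
    (hadj : ∀ y < (vs i).length, (adj i u y ↔ y = par i u ∨ y = u + 1)) :
    StraightAt (draw i) (re (pt (vtx i u))) (re (pt (vtx i (par i u)))) (re (pt (vtx i (u + 1)))) := by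
  have hul : u < (vs i).length := by omega
  refine ⟨(⟨u, hul⟩ : Fin (vs i).length), parent i ⟨u, hul⟩ hu, (⟨u + 1, hu1⟩ : Fin (vs i).length),
    rfl, rfl, rfl, ?_, rfl, rfl⟩
  intro y
  have h1 : (draw i).G.Adj (⟨u, hul⟩ : Fin (vs i).length) y ↔ adj i u (Fin.val (n := (vs i).length) y) :=
    gr_adj i ⟨u, hul⟩ y
  rw [h1, hadj _ (Fin.is_lt (n := (vs i).length) y)]
  constructor
  · rintro (h | h)
    · exact Or.inl (Fin.ext h)
    · exact Or.inr (Fin.ext h)
  · rintro (h | h)
    · exact Or.inl (congrArg (Fin.val (n := (vs i).length)) h)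
    · exact Or.inr (congrArg (Fin.val (n := (vs i).length)) h)

theorem straight_symm {D : TreeDrawing} {x a b : ℝ × ℝ} (h : StraightAt D x a b) :
    StraightAt D x b a := by
  obtain ⟨v, u, w, h1, h2, h3, h4, h5, h6⟩ := h
  exact ⟨v, w, u, h1, h3, h2, fun y => (h4 y).trans or_comm, h6, h5⟩

theorem com_lt (i j : Fin 10) (hij : i ≠ j) : com i j < 44 := by
  obtain ⟨a, -, ha, -⟩ := com_exists i j hij
  rw [← ha]
  exact check_vtx i i.2 a a.2

theorem crosses (i j : Fin 10) (hij : i ≠ j) (h9 : ¬ com i j < 9) :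
    CrossAt (draw i) (draw j) (re (pt (com i j))) := by
  rcases check_cross i i.2 j j.2 with h | h
  · exact absurd (Fin.ext h) hij
  rcases h with h | ⟨u, -, v, -, hu, hv, hu1, hv1, hcu, hcv, hau, hav, h⟩
  · exact absurd h h9
  have s1 := straight i u hu hu1 hau
  have s2 := straight j v hv hv1 hav
  rw [hcu] at s1
  rw [hcv] at s2
  rcases h with ⟨e1, e2, e3, e4⟩ | ⟨e1, e2, e3, e4⟩
  · refine ⟨_, _, _, _, s1, s2, ?_, ?_, ?_, ?_⟩
    all_goals rw [area_re]
    all_goals exact_mod_cast (by assumption)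
  · refine ⟨_, _, _, _, s1, straight_symm s2, ?_, ?_, ?_, ?_⟩
    all_goals rw [area_re]
    all_goals exact_mod_cast (by assumption)

theorem isGeneric : IsGeneric PP draw := by
  refine ⟨carrier_inter, ?_, ?_⟩
  · intro i j hij x hx hP
    rw [inter_eq i j hij, mem_singleton_iff] at hx
    subst hx
    exact crosses i j hij fun h => hP ((pt_mem_PP (com_lt i j hij)).2 h)
  · intro i j k hij hik hjk x hx
    have h1 : x ∈ (draw i).carrier ∩ (draw j).carrier := hx.1
    have h2 : x ∈ (draw i).carrier ∩ (draw k).carrier := ⟨hx.1.1, hx.2⟩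
    rw [inter_eq i j hij, mem_singleton_iff] at h1
    rw [inter_eq i k hik, mem_singleton_iff] at h2
    have h3 := check_pt _ (com_lt i j hij) _ (com_lt i k hik) (re_injective (h1.symm.trans h2))
    rcases check_three i i.2 j j.2 k k.2 with h | h | h | h | h
    · exact absurd (Fin.ext h) hij
    · exact absurd (Fin.ext h) hik
    · exact absurd (Fin.ext h) hjk
    · rw [h1]
      exact (pt_mem_PP (com_lt i j hij)).2 h
    · exact absurd h3 h

/-- the numbers of the leaves of the tree `i` -/
def leafIds (i : ℕ) : Finset ℕ := ((vs i).filter (fun a => decide (a < 9))).toFinset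

theorem leaves_eq (i : Fin 10) : (draw i).leaves = (fun n => re (pt n)) '' (leafIds i : Set ℕ) := by
  ext x
  rw [mem_leaves]
  unfold leafIds
  simp only [mem_image, Finset.mem_coe, List.mem_toFinset, List.mem_filter, decide_eq_true_eq]
  constructor
  · rintro ⟨u, hu, rfl⟩
    refine ⟨vtx i u, ⟨?_, hu⟩, rfl⟩
    unfold vtx
    rw [List.getD_eq_getElem _ _ u.2]
    exact List.getElem_mem _
  · rintro ⟨n, ⟨hn, hn9⟩, rfl⟩
    obtain ⟨a, ha, hva⟩ := List.mem_iff_getElem.1 hn
    have h1 : vtx i a = n := by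
      unfold vtx
      rw [List.getD_eq_getElem _ _ ha]
      exact hva
    refine ⟨⟨a, ha⟩, ?_, ?_⟩
    · have h2 : vtx i (⟨a, ha⟩ : Fin (vs i).length).1 = n := h1
      rw [h2]
      exact hn9
    · have h2 : vtx i (⟨a, ha⟩ : Fin (vs i).length).1 = n := h1
      unfold posn
      rw [h2]

theorem ncard_leaves (i : Fin 10) : (draw i).leaves.ncard = (leafIds i).card := by
  rw [leaves_eq, Set.InjOn.ncard_image, ncard_coe_finset]
  intro a ha b hb h
  unfold leafIds at ha hb
  simp only [Finset.mem_coe, List.mem_toFinset, List.mem_filter, decide_eq_true_eq] at ha hb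
  exact check_pt a (by omega) b (by omega) (re_injective h)

theorem check_two : ∀ i < 9, (leafIds i).card = 2 := by decide +kernel

theorem check_tripod : (leafIds 9).card = 3 := by decide +kernel

/-- **The answer to Q1 is negative.** The bound `m ≤ n` fails, and it fails in general position:
there are nine points and ten topological trees, nine of them with two leaves and one with three
leaves, such that any two of the trees intersect exactly once, every leaf of every tree is one of
the nine points, no tree contains another one of the nine points, two trees which do not meet in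
one of the nine points cross properly, and no three trees have a common point outside `P`. -/
theorem result :
    (¬ ∀ (P : Finset (ℝ × ℝ)) (m : ℕ) (T : Fin m → TreeDrawing), IsConfig P T → m ≤ P.card) ∧
    ∃ (P : Finset (ℝ × ℝ)) (T : Fin 10 → TreeDrawing), P.card = 9 ∧ IsConfig P T ∧ IsGeneric P T ∧
      (∀ i, i ≠ 9 → (T i).leaves.ncard = 2) ∧ (T 9).leaves.ncard = 3 := by
  refine ⟨?_, PP, draw, card_PP, isConfig, isGeneric, ?_, ?_⟩
  · intro h
    have := h PP 10 draw isConfig
    rw [card_PP] at this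
    omega
  · intro i hi
    rw [ncard_leaves]
    exact check_two i (by
      have := i.2
      have h2 : i.1 ≠ 9 := fun h => hi (Fin.ext h)
      omega)
  · rw [ncard_leaves]
    exact check_tripod

end Pool.Agent.V1130.NinePointsTenTrees
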